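import Pool.Agent.Work.MP_b29d7f_two.Expo

/-!
# The powers of two: the exponent zero has to be excluded
-/

namespace Pool.Agent.Work.MP_b29d7f_two

open Finset
open Pool.Agent.Work.MP_b29d7f_nt (IsPOrdering HasSimultaneousOrdering)

namespace Powers

/-- `F(m, k) = ∏_{i < k} (2 ^ m - 2 ^ i)` -/
def F (m k : ℕ) : ℤ := ∏ i ∈ range k, ((2 : ℤ) ^ m - 2 ^ i)

theorem F_succ (m k : ℕ) : F m (k + 1) = F m k * (2 ^ m - 2 ^ k) := by
  unfold F
  rw [Finset.prod_range_succ]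

theorem F_succ_succ (m k : ℕ) : F (m + 1) (k + 1) = (2 ^ (m + 1) - 1) * 2 ^ k * F m k := by
  unfold F
  rw [Finset.prod_range_succ']
  have h : ∏ i ∈ range k, ((2 : ℤ) ^ (m + 1) - 2 ^ (i + 1)) =
      2 ^ k * ∏ i ∈ range k, ((2 : ℤ) ^ m - 2 ^ i) := by
    have h1 : ∀ i ∈ range k, ((2 : ℤ) ^ (m + 1) - 2 ^ (i + 1)) = 2 * ((2 : ℤ) ^ m - 2 ^ i) :=
      fun i _ => by ring
    rw [Finset.prod_congr rfl h1, Finset.prod_mul_distrib, Finset.prod_const, Finset.card_range]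
  rw [h]
  ring

theorem F_rec (m k : ℕ) : F (m + 1) (k + 1) =
    (2 ^ (k + 1) - 1) * 2 ^ k * F m k + 2 ^ (k + 1) * F m (k + 1) := by
  rw [F_succ_succ, F_succ]
  ring

theorem F_dvd (m : ℕ) : ∀ k : ℕ, F k k ∣ F m k := by
  induction m with
  | zero =>
    intro k
    rcases k with _ | k
    · exact dvd_refl _
    · have h : F 0 (k + 1) = 0 := by
        unfold F
        rw [Finset.prod_range_succ']
        simp
      rw [h]
      exact dvd_zero _
  | succ m ih =>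
    intro k
    rcases k with _ | k
    · simp [F]
    · rw [F_rec m k]
      refine dvd_add ?_ (Dvd.dvd.mul_left (ih (k + 1)) _)
      rw [F_succ_succ k k]
      exact mul_dvd_mul_left _ (ih k)

end Powers

/-- the powers of two have a simultaneous ordering -/
theorem powers_ordering : HasSimultaneousOrdering {x : ℤ | ∃ n : ℕ, x = 2 ^ n} := by
  refine ⟨fun k => (2 : ℤ) ^ k, fun p _ => ⟨fun k => ⟨k, rfl⟩, ?_⟩⟩
  rintro k s ⟨n, rfl⟩
  exact emultiplicity_le_emultiplicity_of_dvd_right (Powers.F_dvd n k)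

theorem powers_ncard {x : ℕ} (hx : 1 ≤ x) :
    ({y : ℤ | ∃ n : ℕ, y = 2 ^ n} ∩ Set.Icc (-(x : ℤ)) x).ncard = Nat.log 2 x + 1 := by
  have h : {y : ℤ | ∃ n : ℕ, y = 2 ^ n} ∩ Set.Icc (-(x : ℤ)) x =
      (((range (Nat.log 2 x + 1)).image fun n : ℕ => ((2 : ℤ) ^ n) : Finset ℤ) : Set ℤ) := by
    ext y
    simp only [Set.mem_inter_iff, Set.mem_setOf_eq, Set.mem_Icc, Finset.coe_image,
      Set.mem_image, Finset.mem_coe, Finset.mem_range]
    constructor
    · rintro ⟨⟨n, rfl⟩, -, h2⟩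
      refine ⟨n, ?_, rfl⟩
      have h3 : 2 ^ n ≤ x := by exact_mod_cast h2
      have h4 := Nat.le_log_of_pow_le one_lt_two h3
      omega
    · rintro ⟨n, hn, rfl⟩
      have h3 : 2 ^ n ≤ x := Nat.pow_le_of_le_log (by omega) (by omega)
      have h4 : (2 : ℤ) ^ n ≤ x := by exact_mod_cast h3
      exact ⟨⟨n, rfl⟩, by nlinarith [pow_pos (two_pos : (0 : ℤ) < 2) n], h4⟩
  rw [h, Set.ncard_coe_finset, Finset.card_image_of_injective, Finset.card_range]
  intro n m hnm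
  have h1 : (2 : ℤ) ^ n = 2 ^ m := hnm
  have h2 : 2 ^ n = 2 ^ m := by exact_mod_cast h1
  exact Nat.pow_right_injective (le_refl 2) h2

/-- the powers of two have the exponent zero -/
theorem powers_exponent : HasExponent {x : ℤ | ∃ n : ℕ, x = 2 ^ n} 0 := by
  intro ε hε
  obtain ⟨x₁, hx₁⟩ : ∃ x₁ : ℕ, ∀ x : ℕ, x₁ ≤ x →
      Real.log x / Real.log 2 + 1 ≤ (x : ℝ) ^ ε := by
    have h1 : (fun x : ℝ => Real.log x / Real.log 2 + 1) =o[Filter.atTop]
        fun x : ℝ => x ^ ε := by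
      have h2 : (fun x : ℝ => Real.log x / Real.log 2) =o[Filter.atTop] fun x : ℝ => x ^ ε := by
        simp_rw [div_eq_inv_mul]
        exact (isLittleO_log_rpow_atTop hε).const_mul_left _
      have h3 : (fun _ : ℝ => (1 : ℝ)) =o[Filter.atTop] fun x : ℝ => x ^ ε :=
        Asymptotics.isLittleO_const_left.2 (Or.inr
          (tendsto_norm_atTop_atTop.comp (tendsto_rpow_atTop hε)))
      exact h2.add h3
    have h4 := (h1.bound one_pos).and (Filter.eventually_ge_atTop (1 : ℝ))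
    have h5 := tendsto_natCast_atTop_atTop.eventually h4
    obtain ⟨x₁, h6⟩ := Filter.eventually_atTop.1 h5
    refine ⟨x₁, fun x hx => ?_⟩
    obtain ⟨h7, h8⟩ := h6 x hx
    rw [one_mul, Real.norm_eq_abs, Real.norm_eq_abs,
      abs_of_nonneg (Real.rpow_nonneg (by linarith) _)] at h7
    exact (le_abs_self _).trans h7
  refine ⟨max x₁ 1, fun x hx => ?_⟩
  have hx1 : 1 ≤ x := (le_max_right _ _).trans hx
  have hx1' : (1 : ℝ) ≤ x := by exact_mod_cast hx1
  rw [powers_ncard hx1]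
  constructor
  · have h1 : (x : ℝ) ^ (0 - ε) ≤ 1 :=
      Real.rpow_le_one_of_one_le_of_nonpos hx1' (by linarith)
    have h2 : (1 : ℝ) ≤ ((Nat.log 2 x + 1 : ℕ) : ℝ) := by
      push_cast
      have : (0 : ℝ) ≤ (Nat.log 2 x : ℝ) := by positivity
      linarith
    exact h1.trans h2
  · have h1 := hx₁ x ((le_max_left _ _).trans hx)
    rw [zero_add]
    push_cast
    have h2 : (Nat.log 2 x : ℝ) ≤ Real.log x / Real.log 2 := by
      rw [le_div_iff₀ (Real.log_pos one_lt_two), ← Real.log_pow]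
      apply Real.log_le_log (by positivity)
      have h3 : 2 ^ Nat.log 2 x ≤ x := Nat.pow_log_le_self 2 (by omega)
      exact_mod_cast h3
    linarith

/-- the powers of two contain no progression -/
theorem powers_no_ap :
    ¬ ∃ a b : ℤ, a ≠ 0 ∧ ∀ n : ℕ, a * n + b ∈ {x : ℤ | ∃ n : ℕ, x = 2 ^ n} := by
  rintro ⟨a, b, ha, h⟩
  have hb1 : -(b.natAbs : ℤ) ≤ b := by omega
  have hb2 : b ≤ (b.natAbs : ℤ) := by omega
  rcases lt_or_gt_of_ne ha with ha | ha
  · obtain ⟨m, hm⟩ := h (b.natAbs + 1)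
    have h1 : (0 : ℤ) < 2 ^ m := by positivity
    push_cast at hm
    rw [Int.natCast_natAbs] at hb2
    nlinarith [abs_nonneg b]
  · obtain ⟨m, hm⟩ := h (b.natAbs + 2)
    obtain ⟨m', hm'⟩ := h (b.natAbs + 3)
    push_cast at hm hm'
    rw [Int.natCast_natAbs] at hb1
    have h1 : (2 : ℤ) ^ m < 2 ^ m' := by
      rw [← hm, ← hm']
      nlinarith
    have h2 : m < m' := (pow_lt_pow_iff_right₀ (by norm_num : (1 : ℤ) < 2)).mp h1
    have h3 : (2 : ℤ) ^ (m + 1) ≤ 2 ^ m' := pow_le_pow_right₀ (by norm_num) h2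
    rw [pow_succ, ← hm, ← hm'] at h3
    nlinarith [abs_nonneg b]

end Pool.Agent.Work.MP_b29d7f_two
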