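import Pool.Agent.Work.MP_b29d7f_half.Sharp

/-!
# The number of squares in `[-x, x]`
-/

namespace Pool.Agent.Work.MP_b29d7f_two

open Finset

theorem squares_ncard (x : ℕ) :
    ({y : ℤ | ∃ n : ℤ, y = n ^ 2} ∩ Set.Icc (-(x : ℤ)) x).ncard = Nat.sqrt x + 1 := by
  have h : {y : ℤ | ∃ n : ℤ, y = n ^ 2} ∩ Set.Icc (-(x : ℤ)) x =
      (((range (Nat.sqrt x + 1)).image fun n : ℕ => ((n : ℤ) ^ 2) : Finset ℤ) : Set ℤ) := by
    ext y
    simp only [Set.mem_inter_iff, Set.mem_setOf_eq, Set.mem_Icc, Finset.coe_image,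
      Set.mem_image, Finset.mem_coe, Finset.mem_range]
    constructor
    · rintro ⟨⟨n, rfl⟩, -, h2⟩
      refine ⟨n.natAbs, ?_, ?_⟩
      · have h3 : n.natAbs * n.natAbs ≤ x := by
          have h4 : ((n.natAbs * n.natAbs : ℕ) : ℤ) = n ^ 2 := by
            push_cast
            rw [← sq, sq_abs]
          omega
        have := Nat.le_sqrt.mpr h3
        omega
      · rw [Int.natCast_natAbs, sq_abs]
    · rintro ⟨n, hn, rfl⟩
      have h3 : n ≤ Nat.sqrt x := by omega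
      have h4 : n * n ≤ x := Nat.le_sqrt.mp h3
      have h5 : ((n : ℤ)) ^ 2 ≤ x := by
        have : ((n * n : ℕ) : ℤ) ≤ x := by exact_mod_cast h4
        push_cast at this
        nlinarith
      exact ⟨⟨n, rfl⟩, by nlinarith [sq_nonneg (n : ℤ)], h5⟩
  rw [h, Set.ncard_coe_finset, Finset.card_image_of_injective, Finset.card_range]
  intro n m hnm
  have h1 : (n : ℤ) ^ 2 = (m : ℤ) ^ 2 := hnm
  have h2 : n ^ 2 = m ^ 2 := by exact_mod_cast h1
  exact Nat.pow_left_injective (by norm_num : 2 ≠ 0) h2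

theorem squares_count (x : ℕ) :
    (x : ℝ) ^ (1 / 2 : ℝ) ≤
      (({y : ℤ | ∃ n : ℤ, y = n ^ 2} ∩ Set.Icc (-(x : ℤ)) x).ncard : ℝ) ∧
    (({y : ℤ | ∃ n : ℤ, y = n ^ 2} ∩ Set.Icc (-(x : ℤ)) x).ncard : ℝ) ≤
      (x : ℝ) ^ (1 / 2 : ℝ) + 1 := by
  rw [squares_ncard, ← Real.sqrt_eq_rpow]
  push_cast
  constructor
  · rw [Real.sqrt_le_left (by positivity)]
    have h := Nat.lt_succ_sqrt x
    have h2 : (x : ℝ) < ((Nat.sqrt x).succ * (Nat.sqrt x).succ : ℕ) := by exact_mod_cast h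
    push_cast at h2
    nlinarith
  · have h := Nat.sqrt_le x
    have h2 : ((Nat.sqrt x * Nat.sqrt x : ℕ) : ℝ) ≤ x := by exact_mod_cast h
    push_cast at h2
    have h3 : ((Nat.sqrt x : ℕ) : ℝ) ≤ Real.sqrt x := by
      apply Real.le_sqrt_of_sq_le
      nlinarith
    linarith

end Pool.Agent.Work.MP_b29d7f_two
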