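import Pool.Agent.Work.MP_b29d7f_two.Interface3

namespace Pool.Agent.Work.MP_b29d7f_two

open Finset
open Pool.Agent.Work.MP_b29d7f_nt (IsPOrdering HasSimultaneousOrdering PS vd ld tv)
open Pool.Agent.Work.MP_b29d7f_half (Ord A wv lD)

/-- the number of blocks with many bad indices -/
theorem BL1_bad (F : ℕ → Finset ℕ) (U : Finset ℕ) (Q : ℕ) (c : ℝ) (hc : 0 < c) (B : Finset ℕ)
    (hF : ∀ j ∈ B, F j ⊆ U)
    (hFj : ∀ j ∈ B, ∀ u ∈ F j, u / Q = j) (hbad : ∀ j ∈ B, c * Q ≤ ((F j).card : ℝ)) :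
    (Q : ℝ) * B.card ≤ U.card / c := by
  have h1 : (∑ j ∈ B, (F j).card) ≤ U.card := by
    rw [← Finset.card_biUnion]
    · exact Finset.card_le_card (Finset.biUnion_subset.2 hF)
    · intro i hi j hj hij
      rw [Function.onFun, Finset.disjoint_left]
      intro u h2 h3
      exact hij ((hFj i hi u h2).symm.trans (hFj j hj u h3))
  have h2 : (B.card : ℝ) * (c * Q) ≤ ∑ j ∈ B, ((F j).card : ℝ) := by
    rw [← nsmul_eq_mul]
    exact Finset.card_nsmul_le_sum _ _ _ hbad
  have h3 : (∑ j ∈ B, ((F j).card : ℝ)) ≤ U.card := by exact_mod_cast h1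
  rw [le_div_iff₀ hc]
  linarith

theorem BL1_block {Q j u : ℕ} (hQ : 1 ≤ Q) : u ∈ Ico (j * Q) (j * Q + Q) ↔ u / Q = j := by
  rw [Finset.mem_Ico]
  have h1 : (u / Q) * Q ≤ u := Nat.div_mul_le_self u Q
  have h2 : u < (u / Q) * Q + Q := Nat.lt_div_mul_add (by omega)
  constructor
  · rintro ⟨h3, h4⟩
    apply le_antisymm
    · by_contra hcon
      push Not at hcon
      have h5 : (j + 1) * Q ≤ (u / Q) * Q := Nat.mul_le_mul_right _ hcon
      have h6 : (j + 1) * Q = j * Q + Q := by ring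
      omega
    · by_contra hcon
      push Not at hcon
      have h5 : (u / Q + 1) * Q ≤ j * Q := Nat.mul_le_mul_right _ hcon
      have h6 : (u / Q + 1) * Q = (u / Q) * Q + Q := by ring
      omega
  · rintro rfl
    exact ⟨h1, h2⟩

theorem BL1_sh {a : ℕ → ℤ} {W i : ℕ} (hW : 1 ≤ W) :
    (W : ℝ) * sh a W i = Rc a (i * W) (i * W + W) := by
  unfold sh
  have : (W : ℝ) ≠ 0 := by
    have : W ≠ 0 := by omega
    exact_mod_cast this
  field_simp

/-- the `R`-times in the blocks of small share -/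
theorem BL1_share {a : ℕ → ℤ} {N W : ℕ} {d : ℝ} (hW : 1 ≤ W) (hd : 0 ≤ d) (E : Finset ℕ)
    (hE : ∀ u ∈ E, u < N ∧ Rt a u ∧ sh a W (u / W) < d) : (E.card : ℝ) ≤ d * N + W := by
  classical
  rcases le_or_gt d 1 with h1 | h1
  · have hcard : (E.card : ℝ) ≤ ∑ i ∈ range (N / W + 1), d * W := by
      have h2 : E ⊆ (range (N / W + 1)).biUnion fun i =>
          if sh a W i < d then Rf a (i * W) (i * W + W) else ∅ := by
        intro u hu
        obtain ⟨h3, h4, h5⟩ := hE u hu
        rw [Finset.mem_biUnion]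
        refine ⟨u / W, ?_, ?_⟩
        · rw [Finset.mem_range]
          have := Nat.div_le_div_right (c := W) h3.le
          omega
        · rw [if_pos h5, mem_Rf]
          refine ⟨?_, h4⟩
          have := (BL1_block (Q := W) (j := u / W) (u := u) hW).2 rfl
          rw [Finset.mem_Ico] at this
          exact this
      have h3 : E.card ≤ ∑ i ∈ range (N / W + 1),
          (if sh a W i < d then Rf a (i * W) (i * W + W) else ∅).card :=
        (Finset.card_le_card h2).trans Finset.card_biUnion_le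
      have h4 : (E.card : ℝ) ≤ ∑ i ∈ range (N / W + 1),
          ((if sh a W i < d then Rf a (i * W) (i * W + W) else ∅ : Finset ℕ).card : ℝ) := by
        exact_mod_cast h3
      refine h4.trans (Finset.sum_le_sum fun i _ => ?_)
      split_ifs with h5
      · have h6 : ((Rf a (i * W) (i * W + W)).card : ℝ) = W * sh a W i := by
          rw [BL1_sh hW]
          rfl
        rw [h6]
        have h7 : (0 : ℝ) ≤ W := Nat.cast_nonneg _
        nlinarith
      · rw [Finset.card_empty]
        push_cast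
        positivity
    rw [Finset.sum_const, Finset.card_range, nsmul_eq_mul] at hcard
    have h5 : ((N / W : ℕ) : ℝ) * W ≤ N := by exact_mod_cast Nat.div_mul_le_self N W
    have h6 : (0 : ℝ) ≤ W := Nat.cast_nonneg _
    push_cast at hcard
    nlinarith
  · have h2 : E ⊆ range N := fun u hu => Finset.mem_range.2 (hE u hu).1
    have h3 := Finset.card_le_card h2
    rw [Finset.card_range] at h3
    have h4 : (E.card : ℝ) ≤ N := by exact_mod_cast h3
    have h5 : (0 : ℝ) ≤ N := Nat.cast_nonneg _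
    have h6 : (0 : ℝ) ≤ W := Nat.cast_nonneg _
    nlinarith

theorem stmt_BL1 (hMXB : Stmt_MXB) : Stmt_BL1 := by
  classical
  intro a k₀ C₀ hD N m Q W y e es d₂ hm hmQ hQW hQ hW hWN he hes hes1 hd₂
  obtain ⟨hmono, -, -, -, -, hle, -, hRM, -, -, hG0, -, -, -⟩ := hMXB a k₀ C₀ hD
  -- the sets
  set S : Finset ℕ := (Ico k₀ N).filter fun u => Rt a u ∧ Gm a m u ≤ y - e with hS
  set E₁ : Finset ℕ := (Ico (k₀ + 2 * Q) N).filter fun u =>
    Gm a m u + e < Real.log ((Mx a (u + 2 * Q) - Mx a (u - 2 * Q) : ℤ) : ℝ) with hE₁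
  set U₂ : Finset ℕ := (range N).filter fun u => es < |sh a m (u / m) - sh a Q (u / Q)| with hU₂
  set U₃ : Finset ℕ := (range N).filter fun u => es < |sh a Q (u / Q) - sh a W (u / W)| with hU₃
  set B : Finset ℕ := (range N).filter fun j => (j + 1) * Q ≤ N ∧
    es ^ 2 * Q < (bd a m Q j es : ℝ) with hB
  set E₄ : Finset ℕ := (range N).filter fun u => Rt a u ∧ sh a W (u / W) < d₂ with hE₄
  set D := DD a k₀ N m Q W y es d₂ with hDD
  have hcnt : (cnt a k₀ N m (y - e) : ℝ) = S.card := by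
    rw [hS]
    unfold cnt
    congr
  have hat : (atyp a k₀ N m Q e : ℝ) = E₁.card := by
    rw [hE₁]
    unfold atyp
    congr
  have hu2 : (uns a N m Q es : ℝ) = U₂.card := by
    rw [hU₂]
    unfold uns
    congr
  have hu3 : (uns a N Q W es : ℝ) = U₃.card := by
    rw [hU₃]
    unfold uns
    congr
  have hsub : S ⊆ Ico k₀ (k₀ + 2 * Q) ∪ (Ico (N - 3 * Q) N ∪ (E₁ ∪
      ((B.biUnion fun j => Ico (j * Q) (j * Q + Q)) ∪ (U₃ ∪ (E₄ ∪
        D.biUnion fun j => Rf a (j * Q) (j * Q + Q)))))) := by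
    intro u hu
    rw [hS, Finset.mem_filter, Finset.mem_Ico] at hu
    obtain ⟨⟨hu1, hu2'⟩, hRt, hGu⟩ := hu
    simp only [Finset.mem_union]
    by_cases c1 : u < k₀ + 2 * Q
    · left
      rw [Finset.mem_Ico]
      exact ⟨hu1, c1⟩
    right
    by_cases c2 : N ≤ u + 3 * Q
    · left
      rw [Finset.mem_Ico]
      omega
    right
    push Not at c1 c2
    by_cases c3 : u ∈ E₁
    · left
      exact c3
    right
    have hblk := (BL1_block (Q := Q) (j := u / Q) (u := u) hQ).2 rfl
    have hblk' := hblk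
    rw [Finset.mem_Ico] at hblk'
    obtain ⟨hb1, hb2⟩ := hblk'
    have hjN : u / Q < N := lt_of_le_of_lt (Nat.div_le_self u Q) hu2'
    by_cases c4 : u / Q ∈ B
    · left
      rw [Finset.mem_biUnion]
      exact ⟨u / Q, c4, hblk⟩
    right
    by_cases c5 : u ∈ U₃
    · left
      exact c5
    right
    by_cases c6 : u ∈ E₄
    · left
      exact c6
    right
    rw [Finset.mem_biUnion]
    refine ⟨u / Q, ?_, ?_⟩
    · rw [hDD, mem_DD]
      have hW' : u / Q * Q / W = u / W := by
        obtain ⟨q, hq⟩ := hQW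
        rw [hq, ← Nat.div_div_eq_div_mul, ← Nat.div_div_eq_div_mul,
          Nat.mul_div_cancel _ (by omega)]
      refine ⟨hjN, by omega, by omega, ?_, ?_, ?_, ?_⟩
      · rw [hE₁, Finset.mem_filter, Finset.mem_Ico] at c3
        have c3' : ¬ (Gm a m u + e <
            Real.log ((Mx a (u + 2 * Q) - Mx a (u - 2 * Q) : ℤ) : ℝ)) :=
          fun h => c3 ⟨⟨by omega, hu2'⟩, h⟩
        push Not at c3'
        have m1 : Mx a (u / Q * Q + 2 * Q) ≤ Mx a (u + 2 * Q) := hmono (by omega)
        have m2 : Mx a (u - 2 * Q) ≤ Mx a (u / Q * Q - Q) := hmono (by omega)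
        have m3 : Mx a (u / Q * Q - Q) ≤ Mx a (u - 1) := hmono (by omega)
        have m4 : Mx a u ≤ Mx a (u / Q * Q + 2 * Q) := hmono (by omega)
        have m5 : Mx a (u - 1) < Mx a u := by
          rw [hRM u hRt]
          have key : ∀ v : ℕ, v < u → Mx a v < a u := by
            intro v
            induction v with
            | zero => intro h; exact hRt 0 h
            | succ v ih =>
              intro h
              rw [Mx]
              exact max_lt (ih (by omega)) (hRt (v + 1) h)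
          exact key (u - 1) (by omega)
        have hpos : (0 : ℝ) <
            ((Mx a (u / Q * Q + 2 * Q) - Mx a (u / Q * Q - Q) : ℤ) : ℝ) := by
          have : (0 : ℤ) < Mx a (u / Q * Q + 2 * Q) - Mx a (u / Q * Q - Q) := by omega
          exact_mod_cast this
        have hle2 : ((Mx a (u / Q * Q + 2 * Q) - Mx a (u / Q * Q - Q) : ℤ) : ℝ) ≤
            ((Mx a (u + 2 * Q) - Mx a (u - 2 * Q) : ℤ) : ℝ) := by
          have : Mx a (u / Q * Q + 2 * Q) - Mx a (u / Q * Q - Q) ≤
              Mx a (u + 2 * Q) - Mx a (u - 2 * Q) := by omega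
          exact_mod_cast this
        have := Real.log_le_log hpos hle2
        linarith
      · rw [hB, Finset.mem_filter, Finset.mem_range] at c4
        by_contra hcon
        push Not at hcon
        refine c4 ⟨hjN, ?_, hcon⟩
        have : (u / Q + 1) * Q = u / Q * Q + Q := by ring
        omega
      · rw [hU₃, Finset.mem_filter, Finset.mem_range] at c5
        rw [hW']
        by_contra hcon
        push Not at hcon
        exact c5 ⟨hu2', hcon⟩
      · rw [hE₄, Finset.mem_filter, Finset.mem_range] at c6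
        rw [hW']
        by_contra hcon
        push Not at hcon
        exact c6 ⟨hu2', hRt, hcon⟩
    · rw [mem_Rf]
      exact ⟨⟨hb1, hb2⟩, hRt⟩
  have hcard := Finset.card_le_card hsub
  have c1 := Finset.card_union_le (Ico k₀ (k₀ + 2 * Q)) (Ico (N - 3 * Q) N ∪ (E₁ ∪
      ((B.biUnion fun j => Ico (j * Q) (j * Q + Q)) ∪ (U₃ ∪ (E₄ ∪
        D.biUnion fun j => Rf a (j * Q) (j * Q + Q))))))
  have c2 := Finset.card_union_le (Ico (N - 3 * Q) N) (E₁ ∪
      ((B.biUnion fun j => Ico (j * Q) (j * Q + Q)) ∪ (U₃ ∪ (E₄ ∪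
        D.biUnion fun j => Rf a (j * Q) (j * Q + Q)))))
  have c3 := Finset.card_union_le E₁
      ((B.biUnion fun j => Ico (j * Q) (j * Q + Q)) ∪ (U₃ ∪ (E₄ ∪
        D.biUnion fun j => Rf a (j * Q) (j * Q + Q))))
  have c4 := Finset.card_union_le (B.biUnion fun j => Ico (j * Q) (j * Q + Q)) (U₃ ∪ (E₄ ∪
        D.biUnion fun j => Rf a (j * Q) (j * Q + Q)))
  have c5 := Finset.card_union_le U₃ (E₄ ∪ D.biUnion fun j => Rf a (j * Q) (j * Q + Q))
  have c6 := Finset.card_union_le E₄ (D.biUnion fun j => Rf a (j * Q) (j * Q + Q))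
  have d1 : (Ico k₀ (k₀ + 2 * Q)).card ≤ 2 * Q := by
    rw [Nat.card_Ico]
    omega
  have d2 : (Ico (N - 3 * Q) N).card ≤ 3 * Q := by
    rw [Nat.card_Ico]
    omega
  have d4 : ((B.biUnion fun j => Ico (j * Q) (j * Q + Q)).card : ℝ) ≤ U₂.card / es ^ 2 := by
    have h1 : (B.biUnion fun j => Ico (j * Q) (j * Q + Q)).card ≤ ∑ _j ∈ B, Q := by
      refine Finset.card_biUnion_le.trans (Finset.sum_le_sum fun j _ => ?_)
      rw [Nat.card_Ico]
      omega
    rw [Finset.sum_const, smul_eq_mul] at h1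
    have h2 : ((B.biUnion fun j => Ico (j * Q) (j * Q + Q)).card : ℝ) ≤ (Q : ℝ) * B.card := by
      have : ((B.biUnion fun j => Ico (j * Q) (j * Q + Q)).card : ℝ) ≤ ((B.card * Q : ℕ) : ℝ) := by
        exact_mod_cast h1
      push_cast at this
      linarith
    refine h2.trans ?_
    refine BL1_bad (fun j => (Ico (j * Q) (j * Q + Q)).filter fun u =>
      es < |sh a m (u / m) - sh a Q j|) U₂ Q (es ^ 2) (by positivity) B ?_ ?_ ?_
    · intro j hj u hu
      rw [Finset.mem_filter] at hu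
      rw [hB, Finset.mem_filter] at hj
      obtain ⟨-, hj1, -⟩ := hj
      have h3 := (BL1_block hQ).1 hu.1
      have h4 := hu.1
      rw [Finset.mem_Ico] at h4
      have h5 : (j + 1) * Q = j * Q + Q := by ring
      rw [hU₂, Finset.mem_filter, Finset.mem_range]
      refine ⟨by omega, ?_⟩
      rw [h3]
      exact hu.2
    · intro j hj u hu
      rw [Finset.mem_filter] at hu
      exact (BL1_block hQ).1 hu.1
    · intro j hj
      rw [hB, Finset.mem_filter] at hj
      obtain ⟨-, -, hj2⟩ := hj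
      refine hj2.le.trans (le_of_eq ?_)
      unfold bd
      congr
  have d6 : (E₄.card : ℝ) ≤ d₂ * N + W := by
    refine BL1_share (a := a) hW hd₂ E₄ fun u hu => ?_
    rw [hE₄, Finset.mem_filter, Finset.mem_range] at hu
    exact hu
  have d7 : ((D.biUnion fun j => Rf a (j * Q) (j * Q + Q)).card : ℝ) ≤
      Q * ∑ j ∈ D, sh a Q j := by
    have h1 : (D.biUnion fun j => Rf a (j * Q) (j * Q + Q)).card ≤
        ∑ j ∈ D, (Rf a (j * Q) (j * Q + Q)).card := Finset.card_biUnion_le
    have h2 : ((D.biUnion fun j => Rf a (j * Q) (j * Q + Q)).card : ℝ) ≤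
        ∑ j ∈ D, ((Rf a (j * Q) (j * Q + Q)).card : ℝ) := by exact_mod_cast h1
    refine h2.trans (le_of_eq ?_)
    rw [Finset.mul_sum]
    refine Finset.sum_congr rfl fun j _ => ?_
    rw [BL1_sh hQ]
    rfl
  have htot : (S.card : ℝ) ≤ ((2 * Q + (3 * Q + (E₁.card +
      ((B.biUnion fun j => Ico (j * Q) (j * Q + Q)).card + (U₃.card + (E₄.card +
        (D.biUnion fun j => Rf a (j * Q) (j * Q + Q)).card))))) : ℕ) : ℝ) := by
    have : S.card ≤ 2 * Q + (3 * Q + (E₁.card +
      ((B.biUnion fun j => Ico (j * Q) (j * Q + Q)).card + (U₃.card + (E₄.card +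
        (D.biUnion fun j => Rf a (j * Q) (j * Q + Q)).card))))) := by omega
    exact_mod_cast this
  push_cast at htot
  rw [hcnt, hat, hu2, hu3]
  have hQ0 : (0 : ℝ) ≤ Q := Nat.cast_nonneg _
  have hk0 : (0 : ℝ) ≤ k₀ := Nat.cast_nonneg _
  linarith

end Pool.Agent.Work.MP_b29d7f_two
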