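import Pool.Agent.Work.MP_b29d7f_two.B_BL3

/-!
# Block BL2 (helper75)
-/

namespace Pool.Agent.Work.MP_b29d7f_two

open Finset
open Pool.Agent.Work.MP_b29d7f_nt (IsPOrdering HasSimultaneousOrdering PS vd ld tv)
open Pool.Agent.Work.MP_b29d7f_half (Ord A wv lD)
open Pool.Agent.Work.MP_b29d7f_sep (nv EW EL)

theorem BL2_divW {Q W k j : ℕ} (hQ : 0 < Q) (hk : W = Q * k) : j * Q / W = j / k := by
  rw [hk, Nat.mul_comm j Q, Nat.mul_div_mul_left _ _ hQ]

theorem BL2_divu {Q W k u : ℕ} (hk : W = Q * k) : u / W = (u / Q) / k := by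
  rw [hk, Nat.div_div_eq_div_mul]

theorem BL2_same {k j : ℕ} (h : ¬ k ∣ j + 1) : (j + 1) / k = j / k := by
  rw [Nat.succ_div, if_neg h, Nat.add_zero]

theorem BL2_E {k₀ N Q : ℕ} (hQ : 0 < Q) (E : Finset ℕ)
    (h : ∀ j ∈ E, (k₀ ≤ j * Q ∧ j * Q < k₀ + 2 * Q) ∨ (j * Q + Q ≤ N ∧ N < j * Q + 2 * Q)) :
    E.card ≤ 4 := by
  have h0 : E ⊆ {k₀ / Q, k₀ / Q + 1, k₀ / Q + 2, N / Q - 1} := by
    intro j hj
    have h1 := (BL3_div hQ (u := k₀) (j := k₀ / Q)).1 rfl
    simp only [mem_insert, mem_singleton]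
    rcases h j hj with ⟨h3, h4⟩ | ⟨h3, h4⟩
    · have a1 : k₀ / Q ≤ j := Nat.le_of_mul_le_mul_right (h1.1.trans h3) hQ
      have a2 : j < k₀ / Q + 3 := by
        have a3 : j * Q < (k₀ / Q + 3) * Q := by
          calc j * Q < k₀ + 2 * Q := h4
            _ ≤ k₀ / Q * Q + Q + 2 * Q := Nat.add_le_add_right h1.2.le _
            _ = (k₀ / Q + 3) * Q := by ring
        exact Nat.lt_of_mul_lt_mul_right a3
      omega
    · have h5 : N / Q = j + 1 := by
        refine (BL3_div hQ).2 ⟨?_, ?_⟩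
        · calc (j + 1) * Q = j * Q + Q := by ring
            _ ≤ N := h3
        · calc N < j * Q + 2 * Q := h4
            _ = (j + 1) * Q + Q := by ring
      omega
  exact (card_le_card h0).trans card_le_four

theorem BL2_B {N Q W k : ℕ} (hW : 0 < W) (hk : W = Q * k) (B : Finset ℕ)
    (h : ∀ j ∈ B, (k ∣ j ∧ j * Q ≤ N) ∨ (k ∣ j + 1 ∧ (j + 1) * Q ≤ N)) :
    (B.card : ℝ) ≤ 2 * ((N : ℝ) / W + 1) := by
  have h1 : B ⊆ (range (N / W + 1)).image (fun i => k * i) ∪
      (range (N / W + 1)).image (fun i => k * i - 1) := by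
    intro j hj
    rw [mem_union, mem_image, mem_image]
    have key : ∀ i : ℕ, k * i * Q ≤ N → i < N / W + 1 := by
      intro i hi
      rw [Nat.lt_succ_iff, Nat.le_div_iff_mul_le hW, hk]
      calc i * (Q * k) = k * i * Q := by ring
        _ ≤ N := hi
    rcases h j hj with ⟨⟨i, rfl⟩, h3⟩ | ⟨⟨i, hi⟩, h3⟩
    · exact Or.inl ⟨i, mem_range.2 (key i h3), rfl⟩
    · refine Or.inr ⟨i, mem_range.2 (key i (hi ▸ h3)), ?_⟩
      omega
  have h2 : B.card ≤ (N / W + 1) + (N / W + 1) := by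
    refine ((card_le_card h1).trans (card_union_le _ _)).trans (add_le_add ?_ ?_)
    · exact card_image_le.trans (card_range _).le
    · exact card_image_le.trans (card_range _).le
  have h3 : ((N / W : ℕ) : ℝ) ≤ (N : ℝ) / W := Nat.cast_div_le
  have h4 : (B.card : ℝ) ≤ ((N / W : ℕ) : ℝ) + 1 + (((N / W : ℕ) : ℝ) + 1) := by
    exact_mod_cast h2
  linarith

theorem BL2_C {a : ℕ → ℤ} {N m Q : ℕ} {es : ℝ} (hQ : 0 < Q) (hes : 0 < es) (C : Finset ℕ)
    (h : ∀ j ∈ C, j * Q + Q ≤ N ∧ es ^ 2 * Q < (bd a m Q j es : ℝ)) :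
    (C.card : ℝ) * Q ≤ uns a N m Q es / es ^ 2 := by
  classical
  have h1 : (C.card : ℝ) * (es ^ 2 * Q) ≤ uns a N m Q es := by
    unfold uns
    refine BL3_cnt (Q := Q) C _ _ fun j hj => ?_
    refine (h j hj).2.le.trans ?_
    unfold bd
    refine Nat.cast_le.2 (card_le_card fun u hu => ?_)
    rw [mem_filter, mem_Ico] at hu
    have h2 : u / Q = j := (BL3_div hQ).2 hu.1
    have h3 := (h j hj).1
    rw [mem_filter, mem_filter, mem_range]
    refine ⟨⟨by omega, ?_⟩, h2⟩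
    rw [h2]
    exact hu.2
  rw [le_div_iff₀ (by positivity)]
  linarith

theorem BL2_D {a : ℕ → ℤ} {N Q W k : ℕ} {es : ℝ} (hQ : 0 < Q) (hk : W = Q * k) (Dd : Finset ℕ)
    (h : ∀ j ∈ Dd, j * Q + Q ≤ N ∧ es < |sh a Q j - sh a W (j * Q / W)|) :
    (Dd.card : ℝ) * Q ≤ uns a N Q W es := by
  classical
  unfold uns
  refine BL3_cnt (Q := Q) Dd _ _ fun j hj => ?_
  obtain ⟨h1, h2⟩ := h j hj
  have h3 : (Ico (j * Q) (j * Q + Q)).card = Q := by
    rw [Nat.card_Ico]
    omega
  have h4 : Q ≤ (((range N).filter fun u =>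
      es < |sh a Q (u / Q) - sh a W (u / W)|).filter fun u => u / Q = j).card := by
    conv_lhs => rw [← h3]
    refine card_le_card fun u hu => ?_
    have h5 : u / Q = j := (BL3_div hQ).2 (mem_Ico.1 hu)
    have h6 := mem_Ico.1 hu
    rw [mem_filter, mem_filter, mem_range]
    refine ⟨⟨by omega, ?_⟩, h5⟩
    have h7 : u / W = j * Q / W := by
      rw [BL2_divu hk, BL2_divW hQ hk, h5]
    rw [h5, h7]
    exact h2
  exact_mod_cast h4

/-- the core: a block of large span which is next to a block of small span -/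
theorem BL2_core {a : ℕ → ℤ} {k₀ N m Q : ℕ} {y e es d₂ : ℝ}
    (mono : Monotone (Mx a))
    (add : ∀ s t r : ℕ, s ≤ t → t ≤ r → Rc a s t + Rc a t r = Rc a s r)
    (le : ∀ s t, Rc a s t ≤ t - s) (hmQ : m ≤ Q) (hQ : 0 < Q)
    (h8 : 8 * es ≤ d₂) (h8m : 8 * (m : ℝ) ≤ d₂ * Q) {j j' : ℕ} (hjj : j' + 1 = j ∨ j' = j + 1)
    (hj : Real.log ((Mx a (j * Q + 2 * Q) - Mx a (j * Q - Q) : ℤ) : ℝ) ≤ y)
    (hj' : y < Real.log ((Mx a (j' * Q + 2 * Q) - Mx a (j' * Q - Q) : ℤ) : ℝ))
    (hk : k₀ + 2 * Q ≤ j' * Q) (hN : j' * Q + 2 * Q ≤ N) (hs : d₂ - es ≤ sh a Q j')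
    (AT S : Finset ℕ)
    (hAT : ∀ u, k₀ + 2 * Q ≤ u → u < N →
      Gm a m u + e < Real.log ((Mx a (u + 2 * Q) - Mx a (u - 2 * Q) : ℤ) : ℝ) → u ∈ AT)
    (hS : ∀ u, k₀ ≤ u → u < N → Rt a u → y - e < Gm a m u → Gm a m u ≤ y → u ∈ S) :
    d₂ * Q / 4 ≤ ((AT.filter fun u => u / Q = j').card : ℝ) ∨
      d₂ * Q / 2 ≤ ((S.filter fun u => u / Q = j').card : ℝ) := by
  classical
  have hdiff : ∀ s t : ℕ, s ≤ t → 0 ≤ Mx a t - Mx a s := fun s t h => sub_nonneg.2 (mono h)
  have e1 : (3 / 4 : ℝ) * (d₂ * Q) ≤ Rc a (j' * Q) (j' * Q + Q - m) := by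
    have h1 := add (j' * Q) (j' * Q + Q - m) (j' * Q + Q) (by omega) (by omega)
    have h2 := le (j' * Q + Q - m) (j' * Q + Q)
    have h3 : j' * Q + Q - (j' * Q + Q - m) ≤ m := by omega
    have h4 : Rc a (j' * Q) (j' * Q + Q) ≤ Rc a (j' * Q) (j' * Q + Q - m) + m := by omega
    have h5 : (Rc a (j' * Q) (j' * Q + Q) : ℝ) ≤ Rc a (j' * Q) (j' * Q + Q - m) + m := by
      exact_mod_cast h4
    have hQ' : (0 : ℝ) < Q := by exact_mod_cast hQ
    have h6 : (d₂ - es) * Q ≤ (Rc a (j' * Q) (j' * Q + Q) : ℝ) := by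
      unfold sh at hs
      exact (le_div_iff₀ hQ').1 hs
    have h7 : 8 * (es * Q) ≤ d₂ * Q := by
      have := mul_le_mul_of_nonneg_right h8 hQ'.le
      linarith
    have h9 : (d₂ - es) * Q = d₂ * Q - es * Q := by ring
    linarith
  have e2 : Rf a (j' * Q) (j' * Q + Q - m) ⊆
      (AT.filter fun u => u / Q = j') ∪ (S.filter fun u => u / Q = j') := by
    intro u hu
    obtain ⟨⟨h1, h2⟩, h3⟩ := mem_Rf.1 hu
    have h4 : u / Q = j' := (BL3_div hQ).2 ⟨h1, by omega⟩
    have b1 : j * Q - Q ≤ j' * Q := by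
      rcases hjj with h | h
      · rw [← h]
        have : (j' + 1) * Q = j' * Q + Q := by ring
        omega
      · rw [h]
        have : (j + 1) * Q = j * Q + Q := by ring
        omega
    have b2 : j' * Q + Q ≤ j * Q + 2 * Q := by
      rcases hjj with h | h
      · rw [← h]
        have : (j' + 1) * Q = j' * Q + Q := by ring
        omega
      · rw [h]
        have : (j + 1) * Q = j * Q + Q := by ring
        omega
    have h5 : Gm a m u ≤ y := by
      refine le_trans ?_ hj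
      unfold Gm
      refine BL3_log (hdiff _ _ (by omega)) ?_
      have c1 := mono (show u + m ≤ j * Q + 2 * Q by omega)
      have c2 := mono (show j * Q - Q ≤ u by omega)
      linarith
    rw [mem_union, mem_filter, mem_filter]
    by_cases h6 : Gm a m u + e < Real.log ((Mx a (u + 2 * Q) - Mx a (u - 2 * Q) : ℤ) : ℝ)
    · exact Or.inl ⟨hAT u (by omega) (by omega) h6, h4⟩
    · refine Or.inr ⟨hS u (by omega) (by omega) h3 ?_ h5, h4⟩
      have h7 : Real.log ((Mx a (j' * Q + 2 * Q) - Mx a (j' * Q - Q) : ℤ) : ℝ) ≤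
          Real.log ((Mx a (u + 2 * Q) - Mx a (u - 2 * Q) : ℤ) : ℝ) := by
        refine BL3_log (hdiff _ _ (by omega)) ?_
        have c1 := mono (show j' * Q + 2 * Q ≤ u + 2 * Q by omega)
        have c2 := mono (show u - 2 * Q ≤ j' * Q - Q by omega)
        linarith
      have h8 := not_lt.1 h6
      linarith
  have e3 : (Rc a (j' * Q) (j' * Q + Q - m) : ℝ) ≤
      ((AT.filter fun u => u / Q = j').card : ℝ) + ((S.filter fun u => u / Q = j').card : ℝ) := by
    have := (card_le_card e2).trans (card_union_le _ _)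
    unfold Rc
    exact_mod_cast this
  by_contra hc
  rw [not_or, not_le, not_le] at hc
  linarith [hc.1, hc.2]

theorem stmt_BL2 (hM : Stmt_MXB) : Stmt_BL2 := by
  classical
  intro a k₀ C₀ hD N m Q W y e es d₂ hm hmQ' hQW hQ hW hWN he hes hes1 hd h8 h8m
  obtain ⟨mono, -, -, -, -, -, -, -, -, -, -, -, add, le⟩ := hM a k₀ C₀ hD
  have hQ0 : 0 < Q := hQ
  have hQ' : (0 : ℝ) < Q := by exact_mod_cast hQ0
  have hmQ : m ≤ Q := Nat.le_of_dvd hQ0 hmQ'
  obtain ⟨k, hk⟩ := hQW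
  set D := DD a k₀ N m Q W y es d₂ with hDdef
  set E := (range (N + 1)).filter fun j =>
    (k₀ ≤ j * Q ∧ j * Q < k₀ + 2 * Q) ∨ (j * Q + Q ≤ N ∧ N < j * Q + 2 * Q) with hE
  set B := (range (N + 1)).filter fun j =>
    (k ∣ j ∧ j * Q ≤ N) ∨ (k ∣ j + 1 ∧ (j + 1) * Q ≤ N) with hB
  set C := (range (N + 1)).filter fun j =>
    j * Q + Q ≤ N ∧ es ^ 2 * Q < (bd a m Q j es : ℝ) with hC
  set Dd := (range (N + 1)).filter fun j =>
    j * Q + Q ≤ N ∧ es < |sh a Q j - sh a W (j * Q / W)| with hDd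
  set AT := (Ico (k₀ + 2 * Q) N).filter fun u =>
    Gm a m u + e < Real.log ((Mx a (u + 2 * Q) - Mx a (u - 2 * Q) : ℤ) : ℝ) with hAT
  set S := (Ico k₀ N).filter fun u => Rt a u ∧ y - e < Gm a m u ∧ Gm a m u ≤ y with hS
  set F1 := (range (N + 1)).filter fun j =>
    d₂ * Q / 4 ≤ ((AT.filter fun u => u / Q = j).card : ℝ) with hF1
  set F2 := (range (N + 1)).filter fun j =>
    d₂ * Q / 2 ≤ ((S.filter fun u => u / Q = j).card : ℝ) with hF2
  have main : ∀ j ∈ D, ∀ j' : ℕ, (j' + 1 = j ∨ j' = j + 1) → j' ∉ D →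
      j' ∈ E ∪ (B ∪ (C ∪ (Dd ∪ (F1 ∪ F2)))) := by
    intro j hj j' hjj hj'
    obtain ⟨hjN, h1, h2, h3, h4, h5, h6⟩ := mem_DD.1 hj
    have hr : j' ∈ range (N + 1) := by
      rw [mem_range]
      omega
    have b1 : j * Q ≤ j' * Q + Q := by
      rcases hjj with h | h
      · rw [← h]
        have : (j' + 1) * Q = j' * Q + Q := by ring
        omega
      · rw [h]
        have : (j + 1) * Q = j * Q + Q := by ring
        omega
    have b2 : j' * Q ≤ j * Q + Q := by
      rcases hjj with h | h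
      · rw [← h]
        have : (j' + 1) * Q = j' * Q + Q := by ring
        omega
      · rw [h]
        have : (j + 1) * Q = j * Q + Q := by ring
        omega
    simp only [mem_union]
    by_cases hjE : j' ∈ E
    · exact Or.inl hjE
    refine Or.inr ?_
    have c1 : k₀ + 2 * Q ≤ j' * Q := by
      by_contra hc
      exact hjE (by rw [hE, mem_filter]; exact ⟨hr, Or.inl ⟨by omega, by omega⟩⟩)
    have c2 : j' * Q + 2 * Q ≤ N := by
      by_contra hc
      refine hjE ?_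
      rw [hE, mem_filter]
      exact ⟨hr, Or.inr ⟨by omega, by omega⟩⟩
    by_cases hjB : j' ∈ B
    · exact Or.inl hjB
    refine Or.inr ?_
    have c3 : j' * Q / W = j * Q / W := by
      rw [BL2_divW hQ0 hk, BL2_divW hQ0 hk]
      rcases hjj with h | h
      · have h7 : ¬ k ∣ j' + 1 := by
          intro hd'
          refine hjB ?_
          rw [hB, mem_filter]
          refine ⟨hr, Or.inr ⟨hd', ?_⟩⟩
          rw [h]
          omega
        rw [← h, BL2_same h7]
      · have h7 : ¬ k ∣ j + 1 := by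
          intro hd'
          refine hjB ?_
          rw [hB, mem_filter]
          refine ⟨hr, Or.inl ⟨?_, ?_⟩⟩
          · rw [h]
            exact hd'
          · omega
        rw [h, BL2_same h7]
    by_cases hjC : j' ∈ C
    · exact Or.inl hjC
    refine Or.inr ?_
    have c4 : (bd a m Q j' es : ℝ) ≤ es ^ 2 * Q := by
      by_contra hc
      refine hjC ?_
      rw [hC, mem_filter]
      exact ⟨hr, by omega, not_le.1 hc⟩
    by_cases hjD : j' ∈ Dd
    · exact Or.inl hjD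
    refine Or.inr ?_
    have c5 : |sh a Q j' - sh a W (j' * Q / W)| ≤ es := by
      by_contra hc
      refine hjD ?_
      rw [hDd, mem_filter]
      exact ⟨hr, by omega, not_le.1 hc⟩
    have c6 : d₂ ≤ sh a W (j' * Q / W) := by
      rw [c3]
      exact h6
    have c7 : y < Real.log ((Mx a (j' * Q + 2 * Q) - Mx a (j' * Q - Q) : ℤ) : ℝ) := by
      by_contra hc
      refine hj' ?_
      rw [hDdef, mem_DD]
      refine ⟨?_, by omega, c2, not_lt.1 hc, c4, c5, c6⟩
      have : j' ≤ j' * Q := Nat.le_mul_of_pos_right _ hQ0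
      omega
    have c8 : d₂ - es ≤ sh a Q j' := by
      have := (abs_le.1 c5).1
      linarith
    rcases BL2_core (e := e) mono add le hmQ hQ0 h8 h8m hjj h3 c7 c1 c2 c8 AT S
        (fun u hu1 hu2 hu3 => by rw [hAT, mem_filter, mem_Ico]; exact ⟨⟨hu1, hu2⟩, hu3⟩)
        (fun u hu1 hu2 hu3 hu4 hu5 => by
          rw [hS, mem_filter, mem_Ico]; exact ⟨⟨hu1, hu2⟩, hu3, hu4, hu5⟩) with h | h
    · exact Or.inl (by rw [hF1, mem_filter]; exact ⟨hr, h⟩)
    · exact Or.inr (by rw [hF2, mem_filter]; exact ⟨hr, h⟩)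
  set U := E ∪ (B ∪ (C ∪ (Dd ∪ (F1 ∪ F2)))) with hU
  have n1 : (D \ Inn D).card ≤ 2 * U.card := by
    have h1 : D \ Inn D ⊆ U.image (fun j => j + 1) ∪ U.image (fun j => j - 1) := by
      intro j hj
      rw [mem_sdiff] at hj
      obtain ⟨hjD, hjI⟩ := hj
      have h2 : 1 ≤ j := by
        obtain ⟨-, h3, -⟩ := mem_DD.1 hjD
        by_contra hc
        have : j = 0 := by omega
        subst this
        omega
      rw [mem_union, mem_image, mem_image]
      by_cases h3 : j - 1 ∈ D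
      · by_cases h4 : j + 1 ∈ D
        · refine absurd ?_ hjI
          unfold Inn
          rw [mem_filter]
          exact ⟨hjD, ⟨h2, h3⟩, h4⟩
        · exact Or.inr ⟨j + 1, main j hjD (j + 1) (Or.inr rfl) h4, by
            change j + 1 - 1 = j
            omega⟩
      · exact Or.inl ⟨j - 1, main j hjD (j - 1) (Or.inl (by omega)) h3, by
            change j - 1 + 1 = j
            omega⟩
    refine ((card_le_card h1).trans (card_union_le _ _)).trans ?_
    have h2 := card_image_le (s := U) (f := fun j => j + 1)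
    have h3 := card_image_le (s := U) (f := fun j => j - 1)
    omega
  have n2 : U.card ≤ E.card + (B.card + (C.card + (Dd.card + (F1.card + F2.card)))) := by
    refine (card_union_le _ _).trans (Nat.add_le_add_left ?_ _)
    refine (card_union_le _ _).trans (Nat.add_le_add_left ?_ _)
    refine (card_union_le _ _).trans (Nat.add_le_add_left ?_ _)
    refine (card_union_le _ _).trans (Nat.add_le_add_left ?_ _)
    exact card_union_le _ _
  have m1 : (E.card : ℝ) ≤ 4 := by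
    have := BL2_E (k₀ := k₀) (N := N) hQ0 E fun j hj => (mem_filter.1 hj).2
    exact_mod_cast this
  have m2 : (B.card : ℝ) ≤ 2 * ((N : ℝ) / W + 1) :=
    BL2_B (by omega) hk B fun j hj => (mem_filter.1 hj).2
  have m3 : (C.card : ℝ) * Q ≤ uns a N m Q es / es ^ 2 :=
    BL2_C hQ0 hes C fun j hj => (mem_filter.1 hj).2
  have m4 : (Dd.card : ℝ) * Q ≤ uns a N Q W es :=
    BL2_D hQ0 hk Dd fun j hj => (mem_filter.1 hj).2
  have m5 : (F1.card : ℝ) * Q ≤ 4 * atyp a k₀ N m Q e / d₂ := by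
    have h1 : (F1.card : ℝ) * (d₂ * Q / 4) ≤ AT.card :=
      BL3_cnt F1 AT _ fun j hj => (mem_filter.1 hj).2
    have h2 : (AT.card : ℝ) = atyp a k₀ N m Q e := rfl
    rw [le_div_iff₀ hd, ← h2]
    linarith
  have m6 : (F2.card : ℝ) * Q ≤ 2 * ((cnt a k₀ N m y : ℝ) - cnt a k₀ N m (y - e)) / d₂ := by
    have h1 : (F2.card : ℝ) * (d₂ * Q / 2) ≤ S.card :=
      BL3_cnt F2 S _ fun j hj => (mem_filter.1 hj).2
    have h2 : (S.card : ℝ) + cnt a k₀ N m (y - e) ≤ cnt a k₀ N m y := by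
      have h3 : S.card + cnt a k₀ N m (y - e) ≤ cnt a k₀ N m y := by
        unfold cnt
        rw [← card_union_of_disjoint]
        · refine card_le_card fun u hu => ?_
          rw [mem_union, hS, mem_filter, mem_filter] at hu
          rw [mem_filter]
          rcases hu with ⟨h4, h5, h6, h7⟩ | ⟨h4, h5, h6⟩
          · exact ⟨h4, h5, h7⟩
          · exact ⟨h4, h5, by linarith⟩
        · rw [disjoint_left]
          intro u hu hu'
          have h4 := (mem_filter.1 hu).2.2.1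
          have h5 := (mem_filter.1 hu').2.2
          linarith
      exact_mod_cast h3
    rw [le_div_iff₀ hd]
    linarith
  have n3 : ((D \ Inn D).card : ℝ) ≤ 2 * (U.card : ℝ) := by exact_mod_cast n1
  have n4 : (U.card : ℝ) ≤
      E.card + (B.card + (C.card + (Dd.card + (F1.card + F2.card)))) := by exact_mod_cast n2
  have n5 : ((D \ Inn D).card : ℝ) * Q ≤
      2 * (E.card + (B.card + (C.card + (Dd.card + (F1.card + F2.card))))) * Q := by
    refine mul_le_mul_of_nonneg_right ?_ hQ'.le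
    linarith
  have m1' : (E.card : ℝ) * Q ≤ 4 * Q := mul_le_mul_of_nonneg_right m1 hQ'.le
  have m2' : (B.card : ℝ) * Q ≤ 2 * ((N : ℝ) / W + 1) * Q := mul_le_mul_of_nonneg_right m2 hQ'.le
  linarith

end Pool.Agent.Work.MP_b29d7f_two
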