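import Pool.Agent.Work.MP_b29d7f_two.Interface2

/-!
# Block BL3 (helper75)
-/

namespace Pool.Agent.Work.MP_b29d7f_two

open Finset
open Pool.Agent.Work.MP_b29d7f_nt (IsPOrdering HasSimultaneousOrdering PS vd ld tv)
open Pool.Agent.Work.MP_b29d7f_half (Ord A wv lD)
open Pool.Agent.Work.MP_b29d7f_sep (nv EW EL)

theorem BL3_log {x y : ℤ} (hx : 0 ≤ x) (hxy : x ≤ y) : Real.log (x : ℝ) ≤ Real.log (y : ℝ) := by
  rcases hx.eq_or_lt with h | h
  · subst h
    rcases hxy.eq_or_lt with h' | h'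
    · subst h'
      exact le_rfl
    · rw [Int.cast_zero, Real.log_zero]
      refine Real.log_nonneg ?_
      exact_mod_cast h'
  · refine Real.log_le_log ?_ ?_
    · exact_mod_cast h
    · exact_mod_cast hxy

theorem BL3_lognn {x : ℤ} (hx : 0 ≤ x) : 0 ≤ Real.log (x : ℝ) := by
  have := BL3_log le_rfl hx
  rwa [Int.cast_zero, Real.log_zero] at this

theorem BL3_exp {x : ℤ} {y : ℝ} (h : Real.log (x : ℝ) ≤ y) : (x : ℝ) ≤ Real.exp y := by
  rcases le_or_gt (x : ℝ) 0 with h' | h'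
  · exact h'.trans (Real.exp_pos _).le
  · rw [← Real.exp_log h']
    exact Real.exp_le_exp.2 h

theorem BL3_div {Q u j : ℕ} (hQ : 0 < Q) : u / Q = j ↔ j * Q ≤ u ∧ u < j * Q + Q := by
  constructor
  · rintro rfl
    exact ⟨Nat.div_mul_le_self u Q, Nat.lt_div_mul_add hQ⟩
  · rintro ⟨h1, h2⟩
    refine le_antisymm ?_ ?_
    · rw [← Nat.lt_succ_iff, Nat.div_lt_iff_lt_mul hQ]
      calc u < j * Q + Q := h2
        _ = (j + 1) * Q := by ring
    · exact (Nat.le_div_iff_mul_le hQ).2 h1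

/-- counting in blocks -/
theorem BL3_cnt {Q : ℕ} (J S : Finset ℕ) (c : ℝ)
    (h : ∀ j ∈ J, c ≤ ((S.filter (fun u => u / Q = j)).card : ℝ)) : (J.card : ℝ) * c ≤ S.card := by
  have h1 : ∑ j ∈ J, (S.filter (fun u => u / Q = j)).card ≤ S.card := by
    have h2 := Finset.card_eq_sum_card_fiberwise (f := fun u : ℕ => u / Q)
      (s := S.filter fun u => u / Q ∈ J) (t := J) (fun u hu => (mem_filter.1 hu).2)
    have h3 : ∀ j ∈ J, ((S.filter fun u => u / Q ∈ J).filter fun u => u / Q = j) =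
        S.filter fun u => u / Q = j := by
      intro j hj
      ext u
      simp only [mem_filter]
      constructor
      · rintro ⟨⟨h4, _⟩, h5⟩
        exact ⟨h4, h5⟩
      · rintro ⟨h4, h5⟩
        exact ⟨⟨h4, h5 ▸ hj⟩, h5⟩
    calc ∑ j ∈ J, (S.filter (fun u => u / Q = j)).card =
          ∑ j ∈ J, ((S.filter fun u => u / Q ∈ J).filter fun u => u / Q = j).card :=
          sum_congr rfl fun j hj => by rw [h3 j hj]
      _ = (S.filter fun u => u / Q ∈ J).card := h2.symm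
      _ ≤ S.card := card_le_card (filter_subset _ _)
  calc (J.card : ℝ) * c = ∑ j ∈ J, c := by rw [sum_const, nsmul_eq_mul]
    _ ≤ ∑ j ∈ J, ((S.filter (fun u => u / Q = j)).card : ℝ) := sum_le_sum h
    _ = ((∑ j ∈ J, (S.filter (fun u => u / Q = j)).card : ℕ) : ℝ) := by push_cast; rfl
    _ ≤ S.card := by exact_mod_cast h1

theorem stmt_BL3 (hM : Stmt_MXB) : Stmt_BL3 := by
  classical
  intro a k₀ C₀ hD N m Q W y es d₂ hm hmQ hd hes hy
  obtain ⟨mono, -, -, -, -, -, -, -, -, -, hG, -, -, -⟩ := hM a k₀ C₀ hD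
  have hQ : 0 < Q := by omega
  have hdiff : ∀ s t : ℕ, s ≤ t → 0 ≤ Mx a t - Mx a s := fun s t h => sub_nonneg.2 (mono h)
  have key : ∀ j ∈ DD a k₀ N m Q W y es d₂, ∀ i : ℕ, j * Q - Q ≤ i → i ≤ j * Q + Q →
      Gm a m i ≤ y := by
    intro j hj i h1 h2
    obtain ⟨-, h3, h4, h5, -, -, -⟩ := mem_DD.1 hj
    refine le_trans ?_ h5
    unfold Gm
    refine BL3_log (hdiff _ _ (by omega)) ?_
    have e1 := mono (show i + m ≤ j * Q + 2 * Q by omega)
    have e2 := mono h1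
    linarith
  have hsh : ∀ j ∈ DD a k₀ N m Q W y es d₂, d₂ / 2 ≤ sh a Q j := by
    intro j hj
    obtain ⟨-, -, -, -, -, h6, h7⟩ := mem_DD.1 hj
    have := (abs_le.1 h6).1
    linarith
  refine ⟨?_, fun j hj => ⟨key j hj, hsh j hj, ?_, ?_, ?_, ?_, ?_, ?_⟩⟩
  · -- counting
    have e1 : (Q : ℝ) * ∑ j ∈ DD a k₀ N m Q W y es d₂, sh a Q j =
        ((∑ j ∈ DD a k₀ N m Q W y es d₂, (Rf a (j * Q) (j * Q + Q)).card : ℕ) : ℝ) := by
      rw [mul_sum]
      push_cast
      refine sum_congr rfl fun j _ => ?_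
      unfold sh Rc
      have : (Q : ℝ) ≠ 0 := by exact_mod_cast hQ.ne'
      field_simp
    rw [e1]
    have e2 : ∑ j ∈ DD a k₀ N m Q W y es d₂, (Rf a (j * Q) (j * Q + Q)).card ≤
        cnt a k₀ N m y := by
      rw [← card_biUnion]
      · unfold cnt
        refine card_le_card fun u hu => ?_
        rw [mem_biUnion] at hu
        obtain ⟨j, hj, hu⟩ := hu
        obtain ⟨⟨h1, h2⟩, h3⟩ := mem_Rf.1 hu
        obtain ⟨-, h4, h5, -⟩ := mem_DD.1 hj
        rw [mem_filter, mem_Ico]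
        refine ⟨⟨by omega, by omega⟩, h3, key j hj u (by omega) (by omega)⟩
      · intro i _ j _ hij
        change Disjoint (Rf a (i * Q) (i * Q + Q)) (Rf a (j * Q) (j * Q + Q))
        rw [disjoint_left]
        intro u hu hu'
        have h1 := (BL3_div hQ).2 (mem_Rf.1 hu).1
        have h2 := (BL3_div hQ).2 (mem_Rf.1 hu').1
        exact hij (h1.symm.trans h2)
    exact_mod_cast e2
  · have h1 := hsh j hj
    have h2 : 0 < (Rf a (j * Q) (j * Q + Q)).card := by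
      by_contra hc
      have h3 : (Rf a (j * Q) (j * Q + Q)).card = 0 := by omega
      unfold sh Rc at h1
      rw [h3] at h1
      simp at h1
      linarith
    obtain ⟨r, hr⟩ := card_pos.1 h2
    obtain ⟨⟨h3, h4⟩, h5⟩ := mem_Rf.1 hr
    exact ⟨r, h3, h4, h5⟩
  · obtain ⟨-, h3, -⟩ := mem_DD.1 hj
    by_contra hc
    have : j = 0 := by omega
    subst this
    omega
  · exact (mem_DD.1 hj).2.1
  · have := (mem_DD.1 hj).2.2.1
    omega
  · obtain ⟨-, h3, h4, h5, -, -, -⟩ := mem_DD.1 hj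
    refine BL3_exp (le_trans ?_ h5)
    refine BL3_log (hdiff _ _ (by omega)) ?_
    have e1 := mono (show j * Q + Q ≤ j * Q + 2 * Q by omega)
    have e2 := mono (show j * Q - Q ≤ j * Q by omega)
    linarith
  · exact (mem_DD.1 hj).2.2.2.2.1

end Pool.Agent.Work.MP_b29d7f_two
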