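import Pool.Agent.Work.MP_b29d7f_two.Interface1

/-!
# Block CLU: elements of the set in a short interval
-/

namespace Pool.Agent.Work.MP_b29d7f_two

open Finset
open Pool.Agent.Work.MP_b29d7f_nt (PS ld PS_insert)
open Pool.Agent.Work.MP_b29d7f_half (Ord)

theorem CLU_PS_const (c : ℝ) (X : Finset ℤ) :
    2 * PS (fun _ _ => c) X = X.card * (X.card - 1) * c := by
  classical
  induction X using Finset.induction_on with
  | empty => simp [PS]
  | insert z X hz ih =>
    rw [PS_insert _ (fun _ _ => rfl) X z hz, Finset.card_insert_of_notMem hz, mul_add, ih,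
      Finset.sum_const, nsmul_eq_mul]
    push_cast
    ring

theorem stmt_CLU (hTSU : Stmt_TSU) : Stmt_CLU := by
  intro a ho X Z hX hZ hd
  have h1 := (hTSU a ho).2.2.2.2 X hX
  have h2 : PS ld X ≤ PS (fun _ _ => Real.log Z) X := by
    unfold PS
    apply Finset.sum_le_sum
    intro x hx
    apply Finset.sum_le_sum
    intro y hy
    obtain ⟨hy1, hy2⟩ := Finset.mem_filter.1 hy
    unfold ld
    have h3 : ((x - y : ℤ) : ℝ) = (x : ℝ) - y := by push_cast; ring
    rw [h3]
    apply Real.log_le_log
    · rw [abs_pos, sub_ne_zero]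
      exact fun h => (ne_of_lt hy2) (by exact_mod_cast h.symm)
    · exact hd x hx y hy1
  have h4 := CLU_PS_const (Real.log Z) X
  linarith

end Pool.Agent.Work.MP_b29d7f_two
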