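import Pool.Agent.Work.MP_b29d7f_two.Interface1

/-!
# Block CPA (helper84)
-/

namespace Pool.Agent.Work.MP_b29d7f_two

open Finset
open Pool.Agent.Work.MP_b29d7f_nt (IsPOrdering HasSimultaneousOrdering PS vd ld tv)
open Pool.Agent.Work.MP_b29d7f_half (Ord A wv lD)
open Pool.Agent.Work.MP_b29d7f_sep (nv EW EL)

theorem stmt_CPA (hP : Stmt_PRF) : Stmt_CPA := by
  intro a ha N P hPN
  obtain ⟨hpr, -, hlD, -, -⟩ := hP a ha (2 * N)
  have h1 := hlD P hPN
  have h2 : ∑ p ∈ PA a N P, Real.log p * (nv p a P : ℝ) = lD a P := by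
    rw [h1]
    refine Finset.sum_subset (fun p hp => (mem_PA.mp hp).1) (fun p hp hn => ?_)
    have h0 : nv p a P = 0 := by
      by_contra hc
      exact hn (mem_PA.mpr ⟨hp, by omega⟩)
    rw [h0]
    simp
  have h3 : ∀ p ∈ PA a N P, p.Prime := fun p hp => hpr p (mem_PA.mp hp).1
  have h4 : ∑ p ∈ PA a N P, Real.log p ≤ lD a P := by
    rw [← h2]
    refine Finset.sum_le_sum (fun p hp => ?_)
    have h5 : 0 ≤ Real.log p := Real.log_natCast_nonneg p
    have h6 : (1 : ℝ) ≤ nv p a P := by exact_mod_cast (mem_PA.mp hp).2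
    nlinarith
  refine ⟨?_, h4, h2⟩
  refine le_trans ?_ h4
  rw [← nsmul_eq_mul, ← Finset.sum_const]
  refine Finset.sum_le_sum (fun p hp => ?_)
  exact Real.log_le_log (by norm_num) (by exact_mod_cast (h3 p hp).two_le)

end Pool.Agent.Work.MP_b29d7f_two
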