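import Pool.Agent.Work.MP_b29d7f_two.Interface3
import Pool.Agent.Work.MP_b29d7f_half.Tools

namespace Pool.Agent.Work.MP_b29d7f_two

open Finset
open Pool.Agent.Work.MP_b29d7f_nt (IsPOrdering HasSimultaneousOrdering PS vd ld tv)
open Pool.Agent.Work.MP_b29d7f_half (Ord A wv lD)

theorem DIA_ld {x y : ℤ} (h : y ≤ x) : ld x y = Real.log ((x - y : ℤ) : ℝ) := by
  unfold ld
  rw [abs_of_nonneg]
  have : (0 : ℤ) ≤ x - y := by omega
  exact_mod_cast this

theorem DIA_avg {a : ℕ → ℤ} {k : ℕ} {D : ℤ} (hD : 1 ≤ D) (h : ∀ i < k, |a k - a i| ≤ D) :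
    gg a k ≤ Real.log (D : ℝ) := by
  have hD1 : (1 : ℝ) ≤ D := by exact_mod_cast hD
  have h0 : 0 ≤ Real.log (D : ℝ) := Real.log_nonneg hD1
  unfold gg
  rcases Nat.eq_zero_or_pos k with rfl | hk
  · simpa using h0
  · have hk' : (0 : ℝ) < k := by exact_mod_cast hk
    rw [div_le_iff₀ hk']
    unfold lD
    calc ∑ i ∈ range k, ld (a k) (a i) ≤ ∑ _i ∈ range k, Real.log (D : ℝ) := by
          refine Finset.sum_le_sum fun i hi => ?_
          have h1 := h i (Finset.mem_range.1 hi)
          unfold ld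
          have h2 : |((a k - a i : ℤ) : ℝ)| ≤ D := by exact_mod_cast h1
          rcases eq_or_ne (a k - a i) 0 with h3 | h3
          · rw [h3]
            simpa using h0
          · apply Real.log_le_log _ h2
            have : ((a k - a i : ℤ) : ℝ) ≠ 0 := by exact_mod_cast h3
            positivity
      _ = Real.log (D : ℝ) * k := by
          rw [Finset.sum_const, Finset.card_range, nsmul_eq_mul]
          ring

theorem stmt_DIA (hMXB : Stmt_MXB) : Stmt_DIA := by
  intro a k₀ C₀ hD
  obtain ⟨-, -, -, haM, -, hle, -, -, -, hL, -, -, -, -⟩ := hMXB a k₀ C₀ hD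
  have key : ∀ i u : ℕ, ¬ Rt a i → i ≤ u → ∀ j : ℕ, j < i → a i < a j ∧ a j ≤ Mx a u := by
    intro i u hi hiu j hj
    exact ⟨(hL i hi).2 j hj, hle j u (by omega)⟩
  have key0 : ∀ i u : ℕ, ¬ Rt a i → i ≤ u → a i < Mx a u := by
    intro i u hi hiu
    obtain ⟨h1, h2⟩ := hL i hi
    obtain ⟨h3, h4⟩ := key i u hi hiu 0 (by omega)
    omega
  refine ⟨?_, ?_, ?_⟩
  · intro h l hh hl
    obtain ⟨h1, h2⟩ := hL l hl
    rcases lt_trichotomy l h with hlt | heq | hgt
    · rw [min_eq_right hlt.le, DIA_ld (hh l hlt).le]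
      apply DIA_avg
      · have := hh l hlt
        omega
      · intro i hi
        have h3 := h2 i hi
        have h4 := hh i (by omega)
        rw [abs_le]
        omega
    · subst heq
      exact absurd hh hl
    · rw [min_eq_left hgt.le, DIA_ld (h2 h hgt).le]
      apply DIA_avg
      · have := h2 h hgt
        omega
      · intro i hi
        have h3 := h2 i (by omega)
        have h4 := hh i hi
        rw [abs_le]
        omega
  · intro i u hi hiu
    apply DIA_avg
    · have := key0 i u hi hiu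
      omega
    · intro j hj
      obtain ⟨h3, h4⟩ := key i u hi hiu j hj
      rw [abs_le]
      omega
  · intro i u hi hiu
    have h1 := haM u
    have h2 := key0 i u hi hiu
    rw [h1, Pool.Agent.Work.MP_b29d7f_nt.ld_comm, DIA_ld h2.le]

end Pool.Agent.Work.MP_b29d7f_two
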