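import Pool.Agent.Work.MP_b29d7f_two.Interface3

/-!
# Block DYA (helper89, after helper7): popular differences, two-sided
-/

set_option autoImplicit false

namespace Pool.Agent.Work.MP_b29d7f_two

open Finset
open Pool.Agent.Work.MP_b29d7f_nt (IsPOrdering HasSimultaneousOrdering PS vd ld tv)
open Pool.Agent.Work.MP_b29d7f_half (Ord A wv lD)
open Pool.Agent.Work.MP_b29d7f_sep (nv EW EL)

theorem DYA_A_mem {a : ℕ → ℤ} {N i : ℕ} (h : i < N) : a i ∈ A a N := by
  unfold A
  exact mem_image_of_mem a (mem_range.mpr h)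

theorem DYA_A_card (a : ℕ → ℤ) (N : ℕ) : (A a N).card ≤ N := by
  unfold A
  exact card_image_le.trans (by rw [card_range])

/-- Cauchy-Schwarz over the blocks of length `m` -/
theorem DYA_cs (F : Finset ℕ) (N m : ℕ) (hm : 1 ≤ m) (hmN : m ≤ N) (hF : ∀ u ∈ F, u < N)
    (hbig : 4 * N ≤ F.card * m) :
    F.card ^ 2 * m ≤
      8 * N * ((F ×ˢ F).filter fun q => q.1 < q.2 ∧ q.1 / m = q.2 / m).card := by
  classical
  set P := (F ×ˢ F).filter fun q => q.1 < q.2 ∧ q.1 / m = q.2 / m with hP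
  set E := (F ×ˢ F).filter fun q => q.1 / m = q.2 / m with hE
  set B := N / m + 1 with hB
  set f : ℕ → ℕ := fun j => (F.filter fun u => u / m = j).card with hf
  -- the number of pairs in a block
  have e1 : E.card = ∑ j ∈ range B, f j ^ 2 := by
    have h1 : ∀ q ∈ E, q.1 / m ∈ range B := by
      intro q hq
      rw [hE, mem_filter, mem_product] at hq
      rw [mem_range, hB]
      have h2 := hF q.1 hq.1.1
      have h3 : q.1 / m ≤ N / m := Nat.div_le_div_right h2.le
      omega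
    rw [card_eq_sum_card_fiberwise (f := fun q : ℕ × ℕ => q.1 / m) h1]
    refine sum_congr rfl fun j _ => ?_
    have h2 : (E.filter fun q => q.1 / m = j) =
        (F.filter fun u => u / m = j) ×ˢ (F.filter fun u => u / m = j) := by
      ext q
      rw [hE, mem_filter, mem_filter, mem_product, mem_product, mem_filter, mem_filter]
      constructor
      · rintro ⟨⟨⟨h3, h4⟩, h5⟩, h6⟩
        exact ⟨⟨h3, h6⟩, h4, by rw [← h5]; exact h6⟩
      · rintro ⟨⟨h3, h4⟩, h5, h6⟩
        exact ⟨⟨⟨h3, h5⟩, by rw [h4, h6]⟩, h4⟩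
    rw [h2, card_product]
    simp only [hf]
    ring
  have e2 : F.card = ∑ j ∈ range B, f j := by
    have h1 : ∀ u ∈ F, u / m ∈ range B := by
      intro u hu
      rw [mem_range, hB]
      have h3 : u / m ≤ N / m := Nat.div_le_div_right (hF u hu).le
      omega
    exact card_eq_sum_card_fiberwise (f := fun u : ℕ => u / m) h1
  have e3 : (F.card : ℤ) ^ 2 ≤ B * E.card := by
    rw [e1, e2]
    push_cast
    have h1 := sq_sum_le_card_mul_sum_sq (s := range B) (f := fun j => (f j : ℤ))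
    rw [card_range] at h1
    exact h1
  -- pairs of different elements
  have e4 : E.card = F.card + 2 * P.card := by
    set P' := (F ×ˢ F).filter fun q => q.2 < q.1 ∧ q.1 / m = q.2 / m with hP'
    set D := (F ×ˢ F).filter fun q => q.1 = q.2 with hD
    have h1 : E = D ∪ (P ∪ P') := by
      ext q
      rw [hE, mem_union, mem_union, hD, hP, hP', mem_filter, mem_filter, mem_filter, mem_filter]
      constructor
      · rintro ⟨h2, h3⟩
        rcases lt_trichotomy q.1 q.2 with h | h | h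
        · exact Or.inr (Or.inl ⟨h2, h, h3⟩)
        · exact Or.inl ⟨h2, h⟩
        · exact Or.inr (Or.inr ⟨h2, h, h3⟩)
      · rintro (⟨h2, h3⟩ | ⟨h2, -, h3⟩ | ⟨h2, -, h3⟩)
        · exact ⟨h2, by rw [h3]⟩
        · exact ⟨h2, h3⟩
        · exact ⟨h2, h3⟩
    have h2 : Disjoint D (P ∪ P') := by
      rw [disjoint_left]
      intro q hq hq2
      rw [hD, mem_filter] at hq
      rw [mem_union, hP, hP', mem_filter, mem_filter] at hq2
      rcases hq2 with h | h <;> omega
    have h3 : Disjoint P P' := by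
      rw [disjoint_left]
      intro q hq hq2
      rw [hP, mem_filter] at hq
      rw [hP', mem_filter] at hq2
      omega
    have h4 : D.card = F.card := by
      symm
      apply card_bij (fun u _ => (u, u))
      · intro u hu
        rw [hD, mem_filter, mem_product]
        exact ⟨⟨hu, hu⟩, rfl⟩
      · intro u _ v _ huv
        exact (Prod.mk.injEq _ _ _ _ ▸ huv).1
      · intro q hq
        rw [hD, mem_filter, mem_product] at hq
        exact ⟨q.1, hq.1.1, Prod.ext rfl hq.2⟩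
    have h5 : P'.card = P.card := by
      apply card_bij (fun q _ => (q.2, q.1))
      · intro q hq
        rw [hP', mem_filter, mem_product] at hq
        rw [hP, mem_filter, mem_product]
        exact ⟨⟨hq.1.2, hq.1.1⟩, hq.2.1, hq.2.2.symm⟩
      · intro q _ r _ hqr
        have h6 := Prod.mk.injEq _ _ _ _ ▸ hqr
        exact Prod.ext h6.2 h6.1
      · intro q hq
        rw [hP, mem_filter, mem_product] at hq
        refine ⟨(q.2, q.1), ?_, rfl⟩
        rw [hP', mem_filter, mem_product]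
        exact ⟨⟨hq.1.2, hq.1.1⟩, hq.2.1, hq.2.2.symm⟩
    rw [h1, card_union_of_disjoint h2, card_union_of_disjoint h3, h4, h5]
    ring
  have e5 : (B : ℤ) * m ≤ 2 * N := by
    have h1 : N / m * m ≤ N := Nat.div_mul_le_self N m
    have h2 : B * m ≤ 2 * N := by
      rw [hB]
      nlinarith
    exact_mod_cast h2
  have e6 : (E.card : ℤ) = F.card + 2 * P.card := by exact_mod_cast e4
  have hbig' : 4 * (N : ℤ) ≤ F.card * m := by exact_mod_cast hbig
  have hE0 : (0 : ℤ) ≤ E.card := Int.natCast_nonneg _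
  have hF0 : (0 : ℤ) ≤ F.card := Int.natCast_nonneg _
  have hm0 : (0 : ℤ) ≤ m := Int.natCast_nonneg _
  have e7 : (F.card : ℤ) ^ 2 * m ≤ 2 * N * (F.card + 2 * P.card) := by
    calc (F.card : ℤ) ^ 2 * m ≤ B * E.card * m := mul_le_mul_of_nonneg_right e3 hm0
      _ = (B * m) * E.card := by ring
      _ ≤ 2 * N * E.card := mul_le_mul_of_nonneg_right e5 hE0
      _ = 2 * N * (F.card + 2 * P.card) := by rw [e6]
  have e8 : 4 * (N : ℤ) * F.card ≤ F.card ^ 2 * m := by
    calc 4 * (N : ℤ) * F.card ≤ F.card * m * F.card := mul_le_mul_of_nonneg_right hbig' hF0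
      _ = F.card ^ 2 * m := by ring
  have e9 : (F.card : ℤ) ^ 2 * m ≤ 8 * N * P.card := by linarith
  exact_mod_cast e9

theorem stmt_DYA (hMXB : Stmt_MXB) (h : Stmt_PAE) : Stmt_DYA := by
  classical
  intro a k₀ C₀ hd N m H c hN hm hmN hmc hc hcF
  have hinj : Function.Injective a := (h a hd.ord).1
  obtain ⟨hMm, -, -, -, -, -, -, hMR, -⟩ := hMXB a k₀ C₀ hd
  set F := (Rf a k₀ N).filter fun u => Mx a (u + m) - Mx a u ≤ (H : ℤ) with hF
  have hFmem : ∀ u ∈ F, u < N ∧ Rt a u ∧ Mx a (u + m) - Mx a u ≤ (H : ℤ) := by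
    intro u hu
    rw [hF, mem_filter, mem_Rf] at hu
    exact ⟨hu.1.1.2, hu.1.2, hu.2⟩
  set P := (F ×ˢ F).filter fun q => q.1 < q.2 ∧ q.1 / m = q.2 / m with hP
  have hcs := DYA_cs F N m hm hmN (fun u hu => (hFmem u hu).1)
    (hmc.trans (Nat.mul_le_mul_right m hcF))
  rw [← hP] at hcs
  have hcP : c ^ 2 * m ≤ 8 * N * P.card :=
    (Nat.mul_le_mul_right m (Nat.pow_le_pow_left hcF 2)).trans hcs
  have hPmem : ∀ q ∈ P, q.1 ∈ F ∧ q.2 ∈ F ∧ q.1 < q.2 ∧ q.2 < q.1 + m := by
    intro q hq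
    rw [hP, mem_filter, mem_product] at hq
    refine ⟨hq.1.1, hq.1.2, hq.2.1, ?_⟩
    have h1 := Nat.div_add_mod q.1 m
    have h2 := Nat.div_add_mod q.2 m
    have h3 := Nat.mod_lt q.2 (show 0 < m by omega)
    rw [← hq.2.2] at h2
    omega
  have hmaps : ∀ q ∈ P, a q.2 - a q.1 ∈ Icc 1 (H : ℤ) := by
    intro q hq
    obtain ⟨h1, h2, h3, h4⟩ := hPmem q hq
    obtain ⟨f1, f2, f3⟩ := hFmem q.1 h1
    obtain ⟨g1, g2, g3⟩ := hFmem q.2 h2
    rw [mem_Icc]
    have h6 : a q.1 < a q.2 := g2 q.1 h3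
    have h7 : Mx a q.2 ≤ Mx a (q.1 + m) := hMm h4.le
    rw [hMR q.2 g2] at h7
    rw [hMR q.1 f2] at f3
    constructor
    · omega
    · omega
  have hfib : ∀ δ ∈ Icc 1 (H : ℤ), (P.filter fun q => a q.2 - a q.1 = δ).card ≤
      (Kd a N δ).card := by
    intro δ _
    apply card_le_card_of_injOn (fun q => a q.1)
    · intro q hq
      rw [mem_coe, mem_filter] at hq
      obtain ⟨h1, h2, h3, h4⟩ := hPmem q hq.1
      rw [mem_coe, mem_Kd]
      refine ⟨DYA_A_mem (hFmem q.1 h1).1, ?_⟩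
      have h6 : a q.1 + δ = a q.2 := by rw [← hq.2]; ring
      simp only
      rw [h6]
      exact DYA_A_mem (hFmem q.2 h2).1
    · intro q hq r hr hqr
      rw [mem_coe, mem_filter] at hq hr
      simp only at hqr
      have h1 : q.1 = r.1 := hinj hqr
      have h2 : a q.2 = a r.2 := by
        have := hq.2
        have := hr.2
        linarith
      exact Prod.ext h1 (hinj h2)
  have hsum : P.card ≤ ∑ δ ∈ Icc 1 (H : ℤ), (Kd a N δ).card := by
    calc P.card = ∑ δ ∈ Icc 1 (H : ℤ), (P.filter fun q => a q.2 - a q.1 = δ).card :=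
          card_eq_sum_card_fiberwise hmaps
      _ ≤ ∑ δ ∈ Icc 1 (H : ℤ), (Kd a N δ).card := sum_le_sum hfib
  have hKN : ∀ δ, (Kd a N δ).card ≤ N := by
    intro δ
    have h1 : Kd a N δ ⊆ A a N := by
      intro x hx
      exact (mem_Kd.mp hx).1
    exact (card_le_card h1).trans (DYA_A_card a N)
  set S := (Icc 1 (H : ℤ)).filter fun δ => 1 ≤ (Kd a N δ).card with hS
  have hsumS : ∑ δ ∈ Icc 1 (H : ℤ), (Kd a N δ).card = ∑ δ ∈ S, (Kd a N δ).card := by
    rw [hS, sum_filter]
    refine sum_congr rfl fun δ _ => ?_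
    split_ifs with h1
    · rfl
    · omega
  have hmap2 : ∀ δ ∈ S, Nat.log 2 (Kd a N δ).card ∈ range (Nat.log 2 N + 1) := by
    intro δ _
    rw [mem_range]
    have := Nat.log_mono_right (b := 2) (hKN δ)
    omega
  have hfw : ∑ j ∈ range (Nat.log 2 N + 1),
      ∑ δ ∈ S.filter (fun δ => Nat.log 2 (Kd a N δ).card = j), (Kd a N δ).card =
      ∑ δ ∈ S, (Kd a N δ).card := sum_fiberwise_of_maps_to hmap2 _
  have hne : (range (Nat.log 2 N + 1)).Nonempty := ⟨0, by simp⟩
  obtain ⟨j, hj, hjj⟩ := exists_le_of_sum_le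
    (f := fun _ => P.card)
    (g := fun j => (∑ δ ∈ S.filter (fun δ => Nat.log 2 (Kd a N δ).card = j), (Kd a N δ).card) *
      (Nat.log 2 N + 1)) hne (by
      have e1 : ∑ _j ∈ range (Nat.log 2 N + 1), P.card = P.card * (Nat.log 2 N + 1) := by
        rw [sum_const, card_range, smul_eq_mul, mul_comm]
      rw [e1, ← sum_mul (range (Nat.log 2 N + 1)) (fun j =>
        ∑ δ ∈ S.filter (fun δ => Nat.log 2 (Kd a N δ).card = j), (Kd a N δ).card)
        (Nat.log 2 N + 1), hfw, ← hsumS]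
      exact Nat.mul_le_mul_right _ hsum)
  set D := S.filter (fun δ => Nat.log 2 (Kd a N δ).card = j) with hD
  have hpos : 0 < P.card := by
    by_contra h0
    have h1 : P.card = 0 := by omega
    rw [h1, Nat.mul_zero] at hcP
    have h2 : 0 < c ^ 2 * m := Nat.mul_pos (Nat.pow_pos (by omega)) (by omega)
    omega
  have hDne : D.Nonempty := by
    rw [nonempty_iff_ne_empty]
    intro h0
    rw [h0, sum_empty, Nat.zero_mul] at hjj
    omega
  have hDmem : ∀ δ ∈ D, δ ∈ Icc 1 (H : ℤ) ∧ 2 ^ j ≤ (Kd a N δ).card ∧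
      (Kd a N δ).card < 2 * 2 ^ j := by
    intro δ hδ
    rw [hD, mem_filter, hS, mem_filter] at hδ
    obtain ⟨⟨h1, h2⟩, h3⟩ := hδ
    refine ⟨h1, ?_, ?_⟩
    · rw [← h3]
      exact Nat.pow_log_le_self 2 (by omega)
    · rw [← h3, ← pow_succ']
      exact Nat.lt_pow_succ_log_self (by norm_num) _
  refine ⟨2 ^ j, D, Nat.one_le_two_pow, ?_, ?_, hDne, ?_, ?_⟩
  · obtain ⟨δ, hδ⟩ := hDne
    exact (hDmem δ hδ).2.1.trans (hKN δ)
  · intro δ hδ
    exact (hDmem δ hδ).1
  · intro δ hδ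
    exact (hDmem δ hδ).2
  · refine hcP.trans (Nat.mul_le_mul_left _ (hjj.trans (Nat.mul_le_mul_right _ ?_)))
    calc ∑ δ ∈ D, (Kd a N δ).card ≤ ∑ _δ ∈ D, 2 * 2 ^ j :=
          sum_le_sum fun δ hδ => (hDmem δ hδ).2.2.le
      _ = D.card * (2 * 2 ^ j) := by rw [sum_const, smul_eq_mul]

end Pool.Agent.Work.MP_b29d7f_two
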