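import Pool.Agent.Work.MP_b29d7f_two.Interface3

/-!
# Block ENG: energies of signed weights and of the equilibrium measure
-/

namespace Pool.Agent.Work.MP_b29d7f_two

open Finset
open Pool.Agent.Work.MP_b29d7f_nt (IsPOrdering HasSimultaneousOrdering PS vd ld tv)
open Pool.Agent.Work.MP_b29d7f_half (Ord A wv lD)
open Pool.Agent.Work.MP_b29d7f_sep (nv EW EL)

/-- one level: the sum over the pairs in the same class is a sum of squares -/
theorem eng_level (X : Finset ℤ) (q : ℤ) (f : ℤ → ℝ) :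
    0 ≤ ∑ x ∈ X, ∑ y ∈ X, (if q ∣ x - y then f x * f y else 0) := by
  classical
  have h1 : ∀ x ∈ X, ∀ y ∈ X, (if q ∣ x - y then f x * f y else 0) =
      (if x % q = y % q then f x * f y else 0) := by
    intro x _ y _
    have : q ∣ x - y ↔ x % q = y % q := by
      rw [← Int.modEq_iff_dvd]
      exact ⟨fun h => h.symm, fun h => h.symm⟩
    simp only [this]
  rw [Finset.sum_congr rfl fun x hx => Finset.sum_congr rfl fun y hy => h1 x hx y hy]
  have h2 : ∀ x ∈ X, ∑ y ∈ X, (if x % q = y % q then f x * f y else 0) =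
      f x * ∑ y ∈ X.filter (fun y => y % q = x % q), f y := by
    intro x _
    rw [Finset.mul_sum, Finset.sum_filter]
    refine Finset.sum_congr rfl fun y _ => ?_
    by_cases h : x % q = y % q
    · rw [if_pos h, if_pos h.symm]
    · rw [if_neg h, if_neg (fun h' => h h'.symm)]
  rw [Finset.sum_congr rfl h2]
  rw [← Finset.sum_fiberwise_of_maps_to (s := X) (t := X.image fun x => x % q)
    (g := fun x => x % q) (fun x hx => Finset.mem_image_of_mem _ hx)]
  refine Finset.sum_nonneg fun c _ => ?_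
  have h3 : ∑ x ∈ X with x % q = c, f x * ∑ y ∈ X.filter (fun y => y % q = x % q), f y =
      (∑ x ∈ X with x % q = c, f x) * ∑ y ∈ X.filter (fun y => y % q = c), f y := by
    rw [Finset.sum_mul]
    refine Finset.sum_congr rfl fun x hx => ?_
    rw [(Finset.mem_filter.mp hx).2]
  rw [h3]
  exact mul_self_nonneg _

theorem eng_tv (p L : ℕ) (x : ℤ) :
    (tv p L x : ℝ) = ∑ i ∈ Icc 1 L, (if (p : ℤ) ^ i ∣ x then (1 : ℝ) else 0) := by
  classical
  rw [Pool.Agent.Work.MP_b29d7f_nt.tv_eq, Finset.card_filter]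
  push_cast
  refine Finset.sum_congr rfl fun i _ => ?_
  split_ifs <;> simp

theorem eng_symm (p L : ℕ) (x y : ℤ) : (tv p L (x - y) : ℝ) = (tv p L (y - x) : ℝ) := by
  rw [eng_tv, eng_tv]
  refine Finset.sum_congr rfl fun i _ => ?_
  have : (p : ℤ) ^ i ∣ x - y ↔ (p : ℤ) ^ i ∣ y - x := by
    rw [← dvd_neg, neg_sub]
  simp only [this]

theorem eng_nonneg (X : Finset ℤ) (p L : ℕ) (f : ℤ → ℝ) :
    0 ≤ ∑ x ∈ X, ∑ y ∈ X, (tv p L (x - y) : ℝ) * f x * f y := by
  classical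
  have h1 : ∑ x ∈ X, ∑ y ∈ X, (tv p L (x - y) : ℝ) * f x * f y =
      ∑ i ∈ Icc 1 L, ∑ x ∈ X, ∑ y ∈ X, (if (p : ℤ) ^ i ∣ x - y then f x * f y else 0) := by
    symm
    calc ∑ i ∈ Icc 1 L, ∑ x ∈ X, ∑ y ∈ X, (if (p : ℤ) ^ i ∣ x - y then f x * f y else 0)
        = ∑ x ∈ X, ∑ i ∈ Icc 1 L, ∑ y ∈ X, (if (p : ℤ) ^ i ∣ x - y then f x * f y else 0) :=
          Finset.sum_comm
      _ = ∑ x ∈ X, ∑ y ∈ X, ∑ i ∈ Icc 1 L, (if (p : ℤ) ^ i ∣ x - y then f x * f y else 0) :=
          Finset.sum_congr rfl fun x _ => Finset.sum_comm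
      _ = ∑ x ∈ X, ∑ y ∈ X, (tv p L (x - y) : ℝ) * f x * f y := by
          refine Finset.sum_congr rfl fun x _ => Finset.sum_congr rfl fun y _ => ?_
          rw [eng_tv, mul_assoc, Finset.sum_mul]
          refine Finset.sum_congr rfl fun i _ => ?_
          split_ifs <;> simp
  rw [h1]
  exact Finset.sum_nonneg fun i _ => eng_level X _ f

theorem eng_eq (X : Finset ℤ) (p L : ℕ) (μ : ℤ → ℝ) (θ : ℝ) (h : IsEq X p L μ θ) (ν : ℤ → ℝ)
    (hν : ∑ x ∈ X, ν x = 1) :
    ∑ x ∈ X, ∑ y ∈ X, (tv p L (x - y) : ℝ) * ν x * ν y =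
      θ + ∑ x ∈ X, ∑ y ∈ X, (tv p L (x - y) : ℝ) * (ν x - μ x) * (ν y - μ y) := by
  have hpot : ∀ g : ℤ → ℝ, ∑ x ∈ X, ∑ y ∈ X, (tv p L (x - y) : ℝ) * g x * μ y =
      θ * ∑ x ∈ X, g x := by
    intro g
    rw [Finset.mul_sum]
    refine Finset.sum_congr rfl fun x hx => ?_
    have := h.pot x hx
    calc ∑ y ∈ X, (tv p L (x - y) : ℝ) * g x * μ y
        = g x * ∑ y ∈ X, (tv p L (x - y) : ℝ) * μ y := by
          rw [Finset.mul_sum]
          exact Finset.sum_congr rfl fun y _ => by ring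
      _ = θ * g x := by rw [this]; ring
  have hpot' : ∀ g : ℤ → ℝ, ∑ x ∈ X, ∑ y ∈ X, (tv p L (x - y) : ℝ) * μ x * g y =
      θ * ∑ x ∈ X, g x := by
    intro g
    rw [← hpot g, Finset.sum_comm]
    refine Finset.sum_congr rfl fun x _ => Finset.sum_congr rfl fun y _ => ?_
    rw [eng_symm p L y x]
    ring
  have e1 := hpot ν
  have e2 := hpot' ν
  have e3 := hpot μ
  rw [hν] at e1 e2
  rw [h.sum_one] at e3
  have e4 : ∑ x ∈ X, ∑ y ∈ X, (tv p L (x - y) : ℝ) * (ν x - μ x) * (ν y - μ y) =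
      ∑ x ∈ X, ∑ y ∈ X, (tv p L (x - y) : ℝ) * ν x * ν y -
      ∑ x ∈ X, ∑ y ∈ X, (tv p L (x - y) : ℝ) * ν x * μ y -
      ∑ x ∈ X, ∑ y ∈ X, (tv p L (x - y) : ℝ) * μ x * ν y +
      ∑ x ∈ X, ∑ y ∈ X, (tv p L (x - y) : ℝ) * μ x * μ y := by
    rw [← Finset.sum_sub_distrib, ← Finset.sum_sub_distrib, ← Finset.sum_add_distrib]
    refine Finset.sum_congr rfl fun x _ => ?_
    rw [← Finset.sum_sub_distrib, ← Finset.sum_sub_distrib, ← Finset.sum_add_distrib]
    exact Finset.sum_congr rfl fun y _ => by ring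
  rw [e4]
  linarith

theorem stmt_ENG : Stmt_ENG := by
  classical
  intro X p L
  refine ⟨eng_nonneg X p L, fun μ θ h ν hν => eng_eq X p L μ θ h ν hν, ?_⟩
  intro μ θ h K hK hne
  have hc : (0 : ℝ) < (K.card : ℝ) := by exact_mod_cast hne.card_pos
  have hKX : X.filter (fun x => x ∈ K) = K := by
    ext x
    simp only [Finset.mem_filter]
    exact ⟨fun h => h.2, fun h => ⟨hK h, h⟩⟩
  set ν : ℤ → ℝ := fun x => if x ∈ K then 1 / (K.card : ℝ) else 0 with hνdef
  have hν : ∑ x ∈ X, ν x = 1 := by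
    rw [hνdef]
    simp only
    rw [← Finset.sum_filter, hKX, Finset.sum_const, nsmul_eq_mul]
    field_simp
  have e1 := eng_eq X p L μ θ h ν hν
  have e2 := eng_nonneg X p L (fun x => ν x - μ x)
  have e3 : ∑ x ∈ X, ∑ y ∈ X, (tv p L (x - y) : ℝ) * ν x * ν y = Xe p L K := by
    unfold Xe
    have h1 : ∀ x ∈ X, ∑ y ∈ X, (tv p L (x - y) : ℝ) * ν x * ν y =
        if x ∈ K then (∑ y ∈ K, (tv p L (x - y) : ℝ)) / (K.card : ℝ) ^ 2 else 0 := by
      intro x _
      by_cases hx : x ∈ K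
      · rw [if_pos hx]
        have h2 : ∀ y ∈ X, (tv p L (x - y) : ℝ) * ν x * ν y =
            if y ∈ K then (tv p L (x - y) : ℝ) / (K.card : ℝ) ^ 2 else 0 := by
          intro y _
          rw [hνdef]
          simp only
          rw [if_pos hx]
          by_cases hy : y ∈ K
          · rw [if_pos hy, if_pos hy]
            field_simp
          · rw [if_neg hy, if_neg hy]
            ring
        rw [Finset.sum_congr rfl h2, ← Finset.sum_filter, hKX, Finset.sum_div]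
      · rw [if_neg hx]
        refine Finset.sum_eq_zero fun y _ => ?_
        rw [hνdef]
        simp only
        rw [if_neg hx]
        ring
    rw [Finset.sum_congr rfl h1, ← Finset.sum_filter, hKX, Finset.sum_div]
  rw [← e3, e1]
  linarith

end Pool.Agent.Work.MP_b29d7f_two
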