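import Pool.Agent.Work.MP_b29d7f_two.Interface3

/-! # Block ENT: the entropy inequality (helper40) -/

namespace Pool.Agent.Work.MP_b29d7f_two

open Finset

theorem ENT_aux {x y s t : ℝ} (hx : 0 ≤ x) (hxy : x ≤ y) (hst : s + t = x + y) (h1 : x ≤ s)
    (h2 : s ≤ y) :
    Real.negMulLog x + Real.negMulLog y ≤ Real.negMulLog s + Real.negMulLog t := by
  rcases hxy.eq_or_lt with h | h
  · subst h
    have hs : s = x := le_antisymm h2 h1
    subst hs
    have ht : t = s := by linarith
    subst ht
    exact le_rfl
  · have hd : 0 < y - x := sub_pos.2 h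
    have hc := Real.concaveOn_negMulLog
    have hxm : x ∈ Set.Ici (0 : ℝ) := hx
    have hym : y ∈ Set.Ici (0 : ℝ) := hx.trans hxy
    set a : ℝ := (s - x) / (y - x) with ha
    have ha0 : 0 ≤ a := div_nonneg (by linarith) hd.le
    have ha1 : a ≤ 1 := by rw [ha, div_le_one hd]; linarith
    have hs : (1 - a) • x + a • y = s := by
      simp only [smul_eq_mul]
      have : a * (y - x) = s - x := by rw [ha]; field_simp
      linarith
    have ht : a • x + (1 - a) • y = t := by
      simp only [smul_eq_mul]
      have : a * (y - x) = s - x := by rw [ha]; field_simp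
      linarith
    have e1 := hc.2 hxm hym (sub_nonneg.2 ha1) ha0 (by ring)
    have e2 := hc.2 hxm hym ha0 (sub_nonneg.2 ha1) (by ring)
    rw [hs] at e1
    rw [ht] at e2
    simp only [smul_eq_mul] at e1 e2
    linarith

theorem stmt_ENT : Stmt_ENT := by
  intro u v k hu hv hk
  have hPu : Ps u k = Ps u (k - 1) + u k := by
    obtain ⟨n, rfl⟩ : ∃ n, k = n + 1 := ⟨k - 1, by omega⟩
    unfold Ps
    rw [Finset.sum_Icc_succ_top (by omega)]
    simp
  have hPv : Ps v k = Ps v (k - 1) + v k := by
    obtain ⟨n, rfl⟩ : ∃ n, k = n + 1 := ⟨k - 1, by omega⟩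
    unfold Ps
    rw [Finset.sum_Icc_succ_top (by omega)]
    simp
  rw [hPu, hPv]
  generalize Ps u (k - 1) = a
  generalize Ps v (k - 1) = b
  have hu0 := hu k
  have hv0 := hv k
  generalize u k = x at *
  generalize v k = y at *
  have hsum : (min (a + x) (b + y) - min a b) + (max (a + x) (b + y) - max a b) = x + y := by
    have := min_add_max (a + x) (b + y)
    have := min_add_max a b
    linarith
  have hlo : min x y ≤ min (a + x) (b + y) - min a b := by
    rw [le_sub_iff_add_le, le_min_iff]
    constructor
    · have := min_le_left x y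
      have := min_le_left a b
      linarith
    · have := min_le_right x y
      have := min_le_right a b
      linarith
  have hhi : min (a + x) (b + y) - min a b ≤ max x y := by
    rw [sub_le_iff_le_add]
    rcases min_cases a b with ⟨h, _⟩ | ⟨h, _⟩
    · rw [h]
      have := min_le_left (a + x) (b + y)
      have := le_max_left x y
      linarith
    · rw [h]
      have := min_le_right (a + x) (b + y)
      have := le_max_right x y
      linarith
  rcases le_total x y with h | h
  · rw [min_eq_left h] at hlo
    rw [max_eq_right h] at hhi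
    exact ENT_aux hu0 h hsum hlo hhi
  · rw [min_eq_right h] at hlo
    rw [max_eq_left h] at hhi
    have := ENT_aux hv0 h (hsum.trans (add_comm x y)) hlo hhi
    linarith

end Pool.Agent.Work.MP_b29d7f_two
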