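import Pool.Agent.Work.MP_b29d7f_two.Interface1

/-!
# Block EPU: the energies `E_p(n)`
-/

namespace Pool.Agent.Work.MP_b29d7f_two

open Finset
open Pool.Agent.Work.MP_b29d7f_nt (PS vd vd_comm PS_seq injective_of_ordering)
open Pool.Agent.Work.MP_b29d7f_half (Ord A wv lD)
open Pool.Agent.Work.MP_b29d7f_sep (nv EW EL wv_eq_nv)

theorem stmt_EPU (_h1 : Stmt_PAD) : Stmt_EPU := by
  classical
  intro a ho p hp
  have hinj : Function.Injective a := injective_of_ordering ho.inf hp (ho.ord p hp)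
  have h3 : ∀ n : ℕ, PS (vd p) (A a n) = Ep p a n := by
    intro n
    have h := PS_seq (vd p) (vd_comm p) a hinj n
    unfold Ep A
    rw [h]
    apply Finset.sum_congr rfl
    intro k _
    rw [← wv_eq_nv]
    rfl
  refine ⟨?_, ?_, h3⟩
  · intro n
    obtain ⟨-, -, -, -, h5, -⟩ :=
      Pool.Agent.Work.MP_b29d7f_half.stmt_ORD Pool.Agent.Work.MP_b29d7f_half.stmt_VDM
        (Set.range a) a ho
    have h6 := Pool.Agent.Work.MP_b29d7f_half.avg_sum_erase (vd p) (vd_comm p) (A a n)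
    rw [← h3 n, ← h6]
    calc ∑ x ∈ A a n, ∑ y ∈ (A a n).erase x, vd p x y
        ≤ ∑ x ∈ A a n, wv p a n := Finset.sum_le_sum (fun x hx => h5 p hp n x hx)
      _ = n * nv p a n := by
          rw [Finset.sum_const, Pool.Agent.Work.MP_b29d7f_half.card_A hinj, nsmul_eq_mul,
            wv_eq_nv]
  · intro n W hn hnW hW
    have h7 := Pool.Agent.Work.MP_b29d7f_half.stmt_AVG Pool.Agent.Work.MP_b29d7f_half.stmt_VDM
      (Set.range a) a ho p hp n W hn hnW hW
    rwa [h3 n] at h7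

end Pool.Agent.Work.MP_b29d7f_two
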