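import Pool.Agent.Work.MP_b29d7f_two.Interface1

/-!
# Block GGB: bounds for `g` (helper7)
-/

namespace Pool.Agent.Work.MP_b29d7f_two

open Finset
open Pool.Agent.Work.MP_b29d7f_nt (IsPOrdering HasSimultaneousOrdering PS vd ld tv)
open Pool.Agent.Work.MP_b29d7f_half (Ord A wv lD)
open Pool.Agent.Work.MP_b29d7f_sep (nv EW EL)

theorem GGB_ld (a : ℕ → ℤ) (k₀ : ℕ) (C₀ : ℝ) (h : Dat a k₀ C₀) (i j k : ℕ) (hk : 2 ≤ k)
    (hi : i ≤ k) (hj : j ≤ k) : ld (a i) (a j) ≤ C₀ * Real.log k := by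
  have hs := h.size i j k hk hi hj
  have hk1 : (1 : ℝ) ≤ k := by exact_mod_cast (by omega : 1 ≤ k)
  have hk0 : (0 : ℝ) < k := by linarith
  have hC : 1 ≤ C₀ := h.one_le
  unfold ld
  by_cases h0 : |((a i - a j : ℤ) : ℝ)| = 0
  · rw [h0, Real.log_zero]
    exact mul_nonneg (by linarith) (Real.log_nonneg hk1)
  · have hpos : 0 < |((a i - a j : ℤ) : ℝ)| := lt_of_le_of_ne (abs_nonneg _) (Ne.symm h0)
    have h1 : |((a i - a j : ℤ) : ℝ)| ≤ (k : ℝ) ^ C₀ := by
      push_cast
      exact hs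
    have h2 := Real.log_le_log hpos h1
    rwa [Real.log_rpow hk0] at h2

theorem GGB_mul {a : ℕ → ℤ} (hadd : ∀ k l : ℕ, lD a k + lD a l ≤ lD a (k + l))
    (h0 : ∀ k : ℕ, 0 ≤ lD a k) (q r s : ℕ) : (q : ℝ) * lD a r ≤ lD a (q * r + s) := by
  induction q with
  | zero => simpa using h0 s
  | succ q ih =>
    have h1 := hadd r (q * r + s)
    have h2 : r + (q * r + s) = (q + 1) * r + s := by ring
    rw [h2] at h1
    push_cast
    linarith

/-- **GGB** -/
theorem stmt_GGB (h1 : Stmt_TSU) : Stmt_GGB := by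
  intro a k₀ C₀ hD
  obtain ⟨hadd, hpos, _, _, _⟩ := h1 a hD.ord
  have hC : 1 ≤ C₀ := hD.one_le
  have hld := GGB_ld a k₀ C₀ hD
  -- the bound by `log N`
  have hup : ∀ N r : ℕ, 2 ≤ N → r ≤ N → gg a r ≤ C₀ * Real.log N := by
    intro N r hN hr
    have hN1 : (1 : ℝ) ≤ N := by exact_mod_cast (by omega : 1 ≤ N)
    have hCN : 0 ≤ C₀ * Real.log N := mul_nonneg (by linarith) (Real.log_nonneg hN1)
    unfold gg
    rcases Nat.eq_zero_or_pos r with h0 | h0
    · subst h0
      simpa using hCN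
    · have hr0 : (0 : ℝ) < r := by exact_mod_cast h0
      rw [div_le_iff₀ hr0]
      unfold lD
      calc ∑ i ∈ range r, ld (a r) (a i) ≤ ∑ _i ∈ range r, C₀ * Real.log N := by
            apply Finset.sum_le_sum
            intro i hi
            exact hld r i N hN hr (by have := Finset.mem_range.mp hi; omega)
        _ = C₀ * Real.log N * r := by
            rw [Finset.sum_const, Finset.card_range, nsmul_eq_mul]
            ring
  have hmul : ∀ k : ℕ, (k : ℝ) * gg a k = lD a k := by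
    intro k
    unfold gg
    rcases Nat.eq_zero_or_pos k with h0 | h0
    · subst h0
      simp [lD]
    · have : (k : ℝ) ≠ 0 := by exact_mod_cast h0.ne'
      field_simp
  have hnn : ∀ k : ℕ, 0 ≤ gg a k := fun k => div_nonneg (hpos k) (Nat.cast_nonneg k)
  have h4 : ∀ r k : ℕ, 1 ≤ r → r ≤ k → gg a r * (1 - (r : ℝ) / k) ≤ gg a k := by
    intro r k hr hk
    have hr0 : (0 : ℝ) < r := by exact_mod_cast hr
    have hk0 : (0 : ℝ) < k := by exact_mod_cast (by omega : 0 < k)
    have e1 := GGB_mul hadd hpos (k / r) r (k % r)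
    have e2 : k / r * r + k % r = k := by
      rw [mul_comm]
      exact Nat.div_add_mod k r
    rw [e2] at e1
    have e3 : (k : ℝ) - r ≤ ((k / r : ℕ) : ℝ) * r := by
      have e4 : k % r < r := Nat.mod_lt k hr
      have e5 : k ≤ k / r * r + r := by omega
      have e6 : (k : ℝ) ≤ ((k / r : ℕ) : ℝ) * r + r := by exact_mod_cast e5
      linarith
    rw [← hmul k, ← hmul r] at e1
    -- `q * (r * gg r) ≤ k * gg k`
    have e7 : ((k : ℝ) - r) * gg a r ≤ k * gg a k := by
      have e8 := mul_le_mul_of_nonneg_right e3 (hnn r)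
      linarith
    have e9 : gg a r * (1 - (r : ℝ) / k) = ((k : ℝ) - r) * gg a r / k := by
      field_simp
    rw [e9, div_le_iff₀ hk0]
    linarith
  refine ⟨fun k hk => hup k k hk le_rfl, hnn, hmul, h4, ?_, ?_, hld⟩
  · intro N r k hN hr hrN hk
    have hN1 : (1 : ℝ) < N := by exact_mod_cast (by omega : 1 < N)
    have hlog : 0 < Real.log N := Real.log_pos hN1
    have hel : Real.log N ≤ el N := Nat.le_ceil _
    have hel1 : 1 ≤ el N := by
      unfold el
      exact Nat.one_le_ceil_iff.mpr hlog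
    have hrk : r ≤ k := le_trans (by nlinarith) hk
    have hr0 : (0 : ℝ) < r := by exact_mod_cast hr
    have hk0 : (0 : ℝ) < k := by exact_mod_cast (by omega : 0 < k)
    have e1 := h4 r k hr hrk
    have e2 : gg a r * ((r : ℝ) / k) ≤ C₀ := by
      rw [mul_div_assoc', div_le_iff₀ hk0]
      have e3 : gg a r ≤ C₀ * el N := (hup N r hN hrN).trans
        (mul_le_mul_of_nonneg_left hel (by linarith))
      have e4 : ((el N : ℕ) : ℝ) * r ≤ k := by exact_mod_cast hk
      calc gg a r * r ≤ C₀ * el N * r := mul_le_mul_of_nonneg_right e3 hr0.le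
        _ = C₀ * (el N * r) := by ring
        _ ≤ C₀ * k := mul_le_mul_of_nonneg_left e4 (by linarith)
    have e5 : gg a r * (1 - (r : ℝ) / k) = gg a r - gg a r * ((r : ℝ) / k) := by ring
    linarith
  · intro i j N hN hi hj
    have e1 := hld i j (2 * N) (by omega) hi hj
    have hN0 : (0 : ℝ) < N := by exact_mod_cast (by omega : 0 < N)
    have e2 : Real.log ((2 * N : ℕ) : ℝ) ≤ 2 * Real.log N := by
      have e3 : ((2 * N : ℕ) : ℝ) ≤ (N : ℝ) ^ 2 := by
        have : 2 * N ≤ N ^ 2 := by nlinarith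
        exact_mod_cast this
      have e4 : (0 : ℝ) < ((2 * N : ℕ) : ℝ) := by exact_mod_cast (by omega : 0 < 2 * N)
      have e5 := Real.log_le_log e4 e3
      rw [Real.log_pow] at e5
      exact_mod_cast e5
    calc ld (a i) (a j) ≤ C₀ * Real.log ((2 * N : ℕ) : ℝ) := e1
      _ ≤ C₀ * (2 * Real.log N) := mul_le_mul_of_nonneg_left e2 (by linarith)
      _ = 2 * C₀ * Real.log N := by ring

end Pool.Agent.Work.MP_b29d7f_two
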