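import Pool.Agent.Work.MP_b29d7f_two.Interface3

/-!
# Block GIJ2: the cancellation of the conditional probabilities with the roles exchanged
-/

namespace Pool.Agent.Work.MP_b29d7f_two

open Finset
open Pool.Agent.Work.MP_b29d7f_nt (IsPOrdering HasSimultaneousOrdering PS vd ld tv)
open Pool.Agent.Work.MP_b29d7f_half (Ord A wv lD)
open Pool.Agent.Work.MP_b29d7f_sep (nv EW EL)

theorem GIJ2_Pr_shift (K : Finset ℤ) (q : ℕ) (x δ : ℤ) :
    Pr (K.image (fun y => y + δ)) q (x + δ) = Pr K q x := by
  classical
  unfold Pr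
  have hinj : Function.Injective (fun y : ℤ => y + δ) := add_left_injective δ
  have h1 : ((K.image (fun y => y + δ)).filter fun y => (q : ℤ) ∣ y - (x + δ)) =
      (K.filter fun y => (q : ℤ) ∣ y - x).image (fun y => y + δ) := by
    rw [Finset.filter_image]
    congr 1
    apply Finset.filter_congr
    intro y _
    rw [add_sub_add_right_eq_sub]
  have h2 : ((K.image (fun y => y + δ)).card : ℝ) = K.card := by
    rw [Finset.card_image_of_injective _ hinj]
  have h3 : (((K.image (fun y => y + δ)).filter fun y => (q : ℤ) ∣ y - (x + δ)).card : ℝ) =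
      (K.filter fun y => (q : ℤ) ∣ y - x).card := by
    rw [h1, Finset.card_image_of_injective _ hinj]
  convert congrArg₂ (· / ·) h3 h2 using 1

theorem GIJ2_Pr_neg (D : Finset ℤ) (q : ℕ) (δ : ℤ) :
    Pr (D.image (fun y => -y)) q (-δ) = Pr D q δ := by
  classical
  unfold Pr
  have hinj : Function.Injective (fun y : ℤ => -y) := neg_injective
  have h1 : ((D.image (fun y => -y)).filter fun y => (q : ℤ) ∣ y - (-δ)) =
      (D.filter fun y => (q : ℤ) ∣ y - δ).image (fun y => -y) := by
    rw [Finset.filter_image]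
    congr 1
    apply Finset.filter_congr
    intro y _
    rw [show -y - -δ = -(y - δ) by ring, dvd_neg]
  have h2 : ((D.image (fun y => -y)).card : ℝ) = D.card := by
    rw [Finset.card_image_of_injective _ hinj]
  have h3 : (((D.image (fun y => -y)).filter fun y => (q : ℤ) ∣ y - (-δ)).card : ℝ) =
      (D.filter fun y => (q : ℤ) ∣ y - δ).card := by
    rw [h1, Finset.card_image_of_injective _ hinj]
  convert congrArg₂ (· / ·) h3 h2 using 1

theorem stmt_GIJ2 (hG : Stmt_GIJ) : Stmt_GIJ2 := by
  classical
  intro X D K μ q r f hq hqr hr hμ hf hper hD hK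
  have hinjn : Function.Injective (fun y : ℤ => -y) := neg_injective
  have h := hG X (D.image (fun y => -y)) (fun δ' => (K (-δ')).image (fun y => y + -δ')) μ q r
    (fun x y => f y x) hq hqr hr hμ (fun x y => hf y x)
    (fun x x' y y' h1 h2 => hper y y' x x' h2 h1) (hD.image _)
    (by
      intro δ' hδ'
      rw [Finset.mem_image] at hδ'
      obtain ⟨δ, hδ, rfl⟩ := hδ'
      obtain ⟨h1, h2⟩ := hK δ hδ
      simp only [neg_neg]
      refine ⟨h1.image _, fun x hx => ?_⟩
      rw [Finset.mem_image] at hx
      obtain ⟨y, hy, rfl⟩ := hx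
      have h3 := h2 y hy
      refine ⟨h3.2, ?_⟩
      rw [show y + δ + -δ = y by ring]
      exact h3.1)
  rw [Finset.sum_image (fun x _ y _ hxy => hinjn hxy), Finset.card_image_of_injective _ hinjn] at h
  have hR : ∑ x ∈ X, ∑ y ∈ X, μ x * μ y * f y x = ∑ x ∈ X, ∑ y ∈ X, μ x * μ y * f x y := by
    rw [Finset.sum_comm]
    apply Finset.sum_congr rfl
    intro x _
    apply Finset.sum_congr rfl
    intro y _
    ring
  rw [hR] at h
  refine le_trans (le_of_eq ?_) h
  congr 1
  apply Finset.sum_congr rfl
  intro δ hδ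
  simp only [neg_neg]
  have hinj : Function.Injective (fun y : ℤ => y + δ) := add_left_injective δ
  rw [Finset.card_image_of_injective _ hinj, Finset.sum_image (fun x _ y _ hxy => hinj hxy)]
  congr 1
  apply Finset.sum_congr rfl
  intro x _
  rw [GIJ2_Pr_shift, GIJ2_Pr_neg, show x + δ + -δ = x by ring, mul_comm (Ms X μ q x)]

end Pool.Agent.Work.MP_b29d7f_two
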