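import Pool.Agent.Work.MP_b29d7f_two.Interface1

/-!
# Block GLOW: lower bound for `g` above the scale `P'`
-/

namespace Pool.Agent.Work.MP_b29d7f_two

open Finset
open Pool.Agent.Work.MP_b29d7f_nt (IsPOrdering HasSimultaneousOrdering PS vd ld tv)
open Pool.Agent.Work.MP_b29d7f_half (Ord A wv lD)
open Pool.Agent.Work.MP_b29d7f_sep (nv EW EL)

theorem GLOW_log3 {N : ℕ} (h : 21 ≤ N) : (3 : ℝ) ≤ Real.log N := by
  have hNr : (21 : ℝ) ≤ (N : ℝ) := by exact_mod_cast h
  have h1 : Real.exp 3 ≤ 21 := by
    have h2 := Real.exp_one_lt_d9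
    have h3 : Real.exp 3 = Real.exp 1 ^ 3 := by
      rw [← Real.exp_nat_mul]; norm_num
    rw [h3]
    calc Real.exp 1 ^ 3 ≤ (2.7182818286 : ℝ) ^ 3 := by
          apply pow_le_pow_left₀ (Real.exp_pos _).le h2.le
      _ ≤ 21 := by norm_num
  calc (3 : ℝ) = Real.log (Real.exp 3) := (Real.log_exp 3).symm
    _ ≤ Real.log N := Real.log_le_log (Real.exp_pos _) (h1.trans hNr)

theorem stmt_GLOW (hGG : Stmt_GGB) : Stmt_GLOW := by
  classical
  intro a k₀ C₀ κ b β₁ β₂ e₃ e₇ e₈ K J hD hb hβ₁ hβ₂ hK
  obtain ⟨g1, g2, g3, g4, g5, -⟩ := hGG a k₀ C₀ hD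
  have hC₀ := hD.one_le
  refine ⟨C₀ + b * J, max 21 ⌈Real.exp K⌉₊, by positivity, ?_⟩
  intro n N R m hN hF k hk
  have hN21 : 21 ≤ N := (le_max_left _ _).trans hN
  have hNK : Real.exp K ≤ N := (Nat.le_ceil _).trans (by exact_mod_cast (le_max_right _ _).trans hN)
  have hlog3 := GLOW_log3 hN21
  set l : ℕ := el N with hl
  have hlge : Real.log N ≤ (l : ℝ) := by rw [hl]; exact Nat.le_ceil _
  have hl3 : (3 : ℝ) ≤ (l : ℝ) := hlog3.trans hlge
  have hlpos : (0 : ℝ) < l := by linarith
  have hlN : 3 ≤ l := by exact_mod_cast hl3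
  have hloglpos : 1 ≤ Real.log l := by
    calc (1 : ℝ) = Real.log (Real.exp 1) := (Real.log_exp 1).symm
      _ ≤ Real.log l := Real.log_le_log (Real.exp_pos _) (by
          have := Real.exp_one_lt_d9; linarith)
  have hKl : K ≤ l := by
    have h1 : (K : ℝ) ≤ Real.log N := by
      calc (K : ℝ) = Real.log (Real.exp K) := (Real.log_exp _).symm
        _ ≤ Real.log N := Real.log_le_log (Real.exp_pos _) hNK
    exact_mod_cast h1.trans hlge
  have hm1 : 1 ≤ m := by
    have h1 := hF.m_big
    have h2 : 1 ≤ el N ^ 30 := Nat.one_le_pow _ _ (by omega)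
    omega
  set P := P1 K m N with hP
  have hPdef : P = K * m * l ^ 3 := by rw [hP, hl]; rfl
  have hP1 : 1 ≤ P := by
    rw [hPdef]
    exact Nat.mul_pos (Nat.mul_pos hK hm1) (pow_pos (by omega) 3)
  have hPr : (1 : ℝ) ≤ (P : ℝ) := by exact_mod_cast hP1
  have hmr : (1 : ℝ) ≤ (m : ℝ) := by exact_mod_cast hm1
  -- l P ≤ R
  have hlPR : l * P ≤ R := by
    have h1 : l * P ≤ m * l ^ 20 := by
      rw [hPdef]
      calc l * (K * m * l ^ 3) = m * (K * l ^ 4) := by ring
        _ ≤ m * (l * l ^ 4) := by gcongr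
        _ = m * l ^ 5 := by ring
        _ ≤ m * l ^ 20 := by
            apply Nat.mul_le_mul_left
            exact Nat.pow_le_pow_right (by omega) (by norm_num)
    exact h1.trans hF.m_hi
  have hR1 : 1 ≤ R := hF.rrec.1
  have hRr : (1 : ℝ) ≤ (R : ℝ) := by exact_mod_cast hR1
  have hRN : R ≤ N := by
    have h1 : Real.log R ≤ Real.log N := by
      have h2 := hF.R_hi
      have h3 : β₂ * Real.log N ≤ 1 / 4 * Real.log N := by
        apply mul_le_mul_of_nonneg_right hβ₂ (by linarith)
      linarith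
    have hNpos : (0 : ℝ) < N := by
      have : 0 < N := by omega
      exact_mod_cast this
    have h2 := (Real.log_le_log_iff (by linarith) hNpos).mp h1
    exact_mod_cast h2
  have hPR : P ≤ R := by
    have : 1 * P ≤ l * P := Nat.mul_le_mul_right _ (by omega)
    omega
  have hPN : P ≤ N := hPR.trans hRN
  -- the two comparisons
  have hgR : gg a P - C₀ ≤ gg a R := g5 N P R (by omega) hP1 hPN hlPR
  have hgk : gg a P - C₀ ≤ gg a k := g5 N P k (by omega) hP1 hPN hk
  have hlogRP : Real.log R - Real.log P ≤ J * Real.log l := by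
    have h1 : Real.log R ≤ Real.log m + J * Real.log l := by
      have h2 : (R : ℝ) ≤ (m : ℝ) * (l : ℝ) ^ J := by exact_mod_cast hF.m_lo
      calc Real.log R ≤ Real.log ((m : ℝ) * (l : ℝ) ^ J) :=
            Real.log_le_log (by linarith) h2
        _ = Real.log m + J * Real.log l := by
            rw [Real.log_mul (by linarith) (by positivity), Real.log_pow]
    have h2 : Real.log m ≤ Real.log P := by
      apply Real.log_le_log (by linarith)
      have : m ≤ P := by
        rw [hPdef]
        calc m = 1 * m * 1 := by ring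
          _ ≤ K * m * l ^ 3 := by
            apply Nat.mul_le_mul (Nat.mul_le_mul_right _ hK)
            exact Nat.one_le_pow _ _ (by omega)
      exact_mod_cast this
    linarith
  have hbJ : 0 ≤ b * (J : ℝ) := by positivity
  have hC : C₀ ≤ C₀ * Real.log l := by nlinarith
  by_cases hkR : R ≤ k
  · have h1 := hF.rrec.2 k hkR
    have h2 : b * (Real.log k - Real.log P) ≤
        b * (Real.log k - Real.log R) + b * (J * Real.log l) := by
      have : Real.log k - Real.log P ≤ (Real.log k - Real.log R) + J * Real.log l := by linarith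
      nlinarith
    nlinarith
  · push Not at hkR
    have hkpos : (0 : ℝ) < k := by
      have h1 : 1 * 1 ≤ l * P := Nat.mul_le_mul (by omega) hP1
      have h2 : l * P ≤ k := hk
      have : 0 < k := by omega
      exact_mod_cast this
    have h1 : Real.log k ≤ Real.log R := by
      apply Real.log_le_log hkpos
      exact_mod_cast hkR.le
    have h2 : b * (Real.log k - Real.log P) ≤ b * (J * Real.log l) := by
      apply mul_le_mul_of_nonneg_left _ hb
      linarith
    nlinarith

end Pool.Agent.Work.MP_b29d7f_two
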