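import Pool.Agent.Work.MP_b29d7f_two.Interface3

/-!
# Block GPR (note 2820, section 3.4): Proposition G
-/

namespace Pool.Agent.Work.MP_b29d7f_two

open Finset
open Pool.Agent.Work.MP_b29d7f_nt (IsPOrdering HasSimultaneousOrdering PS vd ld tv)
open Pool.Agent.Work.MP_b29d7f_half (Ord A wv lD)
open Pool.Agent.Work.MP_b29d7f_sep (nv EW EL)

namespace GPRaux

theorem key1 {s y : ℝ} (hs : 0 ≤ s) (hy : 0 < y) :
    s + s * Real.log y + Real.negMulLog s ≤ y := by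
  rcases hs.eq_or_lt with h | h
  · rw [← h]
    simp [hy.le]
  · have h1 := Real.log_le_sub_one_of_pos (div_pos hy h)
    rw [Real.log_div hy.ne' h.ne'] at h1
    have h2 : s * (Real.log y - Real.log s) ≤ s * (y / s - 1) := mul_le_mul_of_nonneg_left h1 hs
    have h3 : s * (y / s - 1) = y - s := by
      field_simp
    rw [Real.negMulLog]
    linarith

theorem swap (L : ℕ) (C : ℕ → ℕ → ℝ) (m : ℕ → ℕ → ℕ) (φ : ℕ → ℝ)
    (hm : ∀ i ∈ Icc 1 L, ∀ j ∈ Icc 1 L, m i j ∈ Icc 1 L) :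
    ∑ k ∈ Icc 1 L, (∑ i ∈ Icc 1 L, ∑ j ∈ Icc 1 L, (if m i j = k then C i j else 0)) * φ k =
      ∑ i ∈ Icc 1 L, ∑ j ∈ Icc 1 L, C i j * φ (m i j) := by
  have h1 : ∀ k ∈ Icc 1 L,
      (∑ i ∈ Icc 1 L, ∑ j ∈ Icc 1 L, (if m i j = k then C i j else 0)) * φ k =
        ∑ i ∈ Icc 1 L, ∑ j ∈ Icc 1 L, (if m i j = k then C i j * φ k else 0) := by
    intro k _
    rw [Finset.sum_mul]
    refine Finset.sum_congr rfl fun i _ => ?_
    rw [Finset.sum_mul]
    refine Finset.sum_congr rfl fun j _ => ?_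
    split_ifs <;> simp
  rw [Finset.sum_congr rfl h1, Finset.sum_comm]
  refine Finset.sum_congr rfl fun i hi => ?_
  rw [Finset.sum_comm]
  refine Finset.sum_congr rfl fun j hj => ?_
  rw [Finset.sum_ite_eq]
  rw [if_pos (hm i hi j hj)]

theorem max_mem (L : ℕ) : ∀ i ∈ Icc 1 L, ∀ j ∈ Icc 1 L, max i j ∈ Icc 1 L := by
  intro i hi j hj
  rw [mem_Icc] at *
  exact ⟨le_max_of_le_left hi.1, max_le hi.2 hj.2⟩

theorem min_mem (L : ℕ) : ∀ i ∈ Icc 1 L, ∀ j ∈ Icc 1 L, min i j ∈ Icc 1 L := by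
  intro i hi j hj
  rw [mem_Icc] at *
  exact ⟨le_min hi.1 hj.1, min_le_of_left_le hi.2⟩

/-- the pointwise inequality -/
theorem point (hC : Stmt_COUP) (hE : Stmt_ENT) (u v a b : ℕ → ℝ) (L : ℕ) (θ lam : ℝ)
    (hu : ∀ i, 0 ≤ u i) (hv : ∀ i, 0 ≤ v i) (hu1 : ∑ i ∈ Icc 1 L, u i = θ)
    (hv1 : ∑ i ∈ Icc 1 L, v i = θ) (ha : ∀ i, 0 < a i) (hb : ∀ i, 0 < b i) (hl : 0 < lam) :
    3 * θ - ∑ i ∈ Icc 1 L, ∑ j ∈ Icc 1 L,
      Cm (Ps u) (Ps v) i j * (u i * v j / (a (max i j) * b (min i j))) ≤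
      lam * ∑ i ∈ Icc 1 L, a i + (∑ i ∈ Icc 1 L, b i) / lam := by
  obtain ⟨hC0, hCu, hCv, hCs, hCt⟩ := hC u v L hu hv (by rw [hu1, hv1])
  set C := Cm (Ps u) (Ps v) with hCdef
  set s : ℕ → ℝ := fun k => min (Ps u k) (Ps v k) - min (Ps u (k - 1)) (Ps v (k - 1)) with hs
  set t : ℕ → ℝ := fun k => max (Ps u k) (Ps v k) - max (Ps u (k - 1)) (Ps v (k - 1)) with ht
  have hs0 : ∀ k ∈ Icc 1 L, 0 ≤ s k := by
    intro k hk
    rw [hs]
    show 0 ≤ min (Ps u k) (Ps v k) - min (Ps u (k - 1)) (Ps v (k - 1))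
    rw [← hCs k hk]
    refine Finset.sum_nonneg fun i _ => Finset.sum_nonneg fun j _ => ?_
    split_ifs
    · exact hC0 i j
    · exact le_rfl
  have ht0 : ∀ k ∈ Icc 1 L, 0 ≤ t k := by
    intro k hk
    rw [ht]
    show 0 ≤ max (Ps u k) (Ps v k) - max (Ps u (k - 1)) (Ps v (k - 1))
    rw [← hCt k hk]
    refine Finset.sum_nonneg fun i _ => Finset.sum_nonneg fun j _ => ?_
    split_ifs
    · exact hC0 i j
    · exact le_rfl
  have hsφ : ∀ φ : ℕ → ℝ, ∑ k ∈ Icc 1 L, s k * φ k =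
      ∑ i ∈ Icc 1 L, ∑ j ∈ Icc 1 L, C i j * φ (max i j) := by
    intro φ
    rw [← swap L C max φ (max_mem L)]
    refine Finset.sum_congr rfl fun k hk => ?_
    rw [hCs k hk]
  have htφ : ∀ φ : ℕ → ℝ, ∑ k ∈ Icc 1 L, t k * φ k =
      ∑ i ∈ Icc 1 L, ∑ j ∈ Icc 1 L, C i j * φ (min i j) := by
    intro φ
    rw [← swap L C min φ (min_mem L)]
    refine Finset.sum_congr rfl fun k hk => ?_
    rw [hCt k hk]
  have huφ : ∀ φ : ℕ → ℝ, ∑ k ∈ Icc 1 L, u k * φ k =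
      ∑ i ∈ Icc 1 L, ∑ j ∈ Icc 1 L, C i j * φ i := by
    intro φ
    refine Finset.sum_congr rfl fun k hk => ?_
    rw [← Finset.sum_mul, hCu k hk]
  have hvφ : ∀ φ : ℕ → ℝ, ∑ k ∈ Icc 1 L, v k * φ k =
      ∑ i ∈ Icc 1 L, ∑ j ∈ Icc 1 L, C i j * φ j := by
    intro φ
    rw [Finset.sum_comm]
    refine Finset.sum_congr rfl fun k hk => ?_
    rw [← Finset.sum_mul, hCv k hk]
  have hCtot : ∑ i ∈ Icc 1 L, ∑ j ∈ Icc 1 L, C i j = θ := by
    rw [← hu1]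
    exact Finset.sum_congr rfl fun i hi => hCu i hi
  have hstot : ∑ k ∈ Icc 1 L, s k = θ := by
    have h := hsφ fun _ => 1
    simp only [mul_one] at h
    rw [h, hCtot]
  have httot : ∑ k ∈ Icc 1 L, t k = θ := by
    have h := htφ fun _ => 1
    simp only [mul_one] at h
    rw [h, hCtot]
  -- the two elementary inequalities
  have h1 : ∑ k ∈ Icc 1 L, (s k + s k * Real.log (lam * a k) + Real.negMulLog (s k)) ≤
      lam * ∑ i ∈ Icc 1 L, a i := by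
    rw [Finset.mul_sum]
    exact Finset.sum_le_sum fun k hk => key1 (hs0 k hk) (mul_pos hl (ha k))
  have h2 : ∑ k ∈ Icc 1 L, (t k + t k * Real.log (b k / lam) + Real.negMulLog (t k)) ≤
      (∑ i ∈ Icc 1 L, b i) / lam := by
    rw [Finset.sum_div]
    exact Finset.sum_le_sum fun k hk => key1 (ht0 k hk) (div_pos (hb k) hl)
  have h3 : ∑ k ∈ Icc 1 L, (Real.negMulLog (u k) + Real.negMulLog (v k)) ≤
      ∑ k ∈ Icc 1 L, (Real.negMulLog (s k) + Real.negMulLog (t k)) :=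
    Finset.sum_le_sum fun k hk => hE u v k hu hv (mem_Icc.mp hk).1
  have e1 : ∑ k ∈ Icc 1 L, (s k + s k * Real.log (lam * a k) + Real.negMulLog (s k)) =
      θ + (Real.log lam * θ + ∑ i ∈ Icc 1 L, ∑ j ∈ Icc 1 L, C i j * Real.log (a (max i j))) +
        ∑ k ∈ Icc 1 L, Real.negMulLog (s k) := by
    rw [Finset.sum_add_distrib, Finset.sum_add_distrib, hstot]
    congr 2
    rw [← hsφ fun k => Real.log (a k), ← hstot, Finset.mul_sum, ← Finset.sum_add_distrib]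
    refine Finset.sum_congr rfl fun k _ => ?_
    rw [Real.log_mul hl.ne' (ha k).ne']
    ring
  have e2 : ∑ k ∈ Icc 1 L, (t k + t k * Real.log (b k / lam) + Real.negMulLog (t k)) =
      θ + (- (Real.log lam * θ) + ∑ i ∈ Icc 1 L, ∑ j ∈ Icc 1 L, C i j * Real.log (b (min i j))) +
        ∑ k ∈ Icc 1 L, Real.negMulLog (t k) := by
    rw [Finset.sum_add_distrib, Finset.sum_add_distrib, httot]
    congr 2
    rw [← htφ fun k => Real.log (b k), ← httot, Finset.mul_sum, ← Finset.sum_neg_distrib,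
      ← Finset.sum_add_distrib]
    refine Finset.sum_congr rfl fun k _ => ?_
    rw [Real.log_div (hb k).ne' hl.ne']
    ring
  have e3 : ∑ k ∈ Icc 1 L, (Real.negMulLog (u k) + Real.negMulLog (v k)) =
      - (∑ i ∈ Icc 1 L, ∑ j ∈ Icc 1 L, C i j * Real.log (u i)) -
        ∑ i ∈ Icc 1 L, ∑ j ∈ Icc 1 L, C i j * Real.log (v j) := by
    rw [← huφ fun k => Real.log (u k), ← hvφ fun k => Real.log (v k), ← Finset.sum_neg_distrib,
      ← Finset.sum_sub_distrib]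
    refine Finset.sum_congr rfl fun k _ => ?_
    rw [Real.negMulLog, Real.negMulLog]
    ring
  have h4 : ∑ i ∈ Icc 1 L, ∑ j ∈ Icc 1 L,
      (C i j - C i j * (u i * v j / (a (max i j) * b (min i j)))) ≤
      ∑ i ∈ Icc 1 L, ∑ j ∈ Icc 1 L, (C i j * Real.log (a (max i j)) +
        C i j * Real.log (b (min i j)) - C i j * Real.log (u i) - C i j * Real.log (v j)) := by
    refine Finset.sum_le_sum fun i hi => Finset.sum_le_sum fun j hj => ?_
    rcases (hC0 i j).eq_or_lt with h | h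
    · rw [← h]
      simp
    · have hui : 0 < u i := by
        rw [← hCu i hi]
        exact lt_of_lt_of_le h (Finset.single_le_sum (f := fun j => C i j)
          (fun j _ => hC0 i j) hj)
      have hvj : 0 < v j := by
        rw [← hCv j hj]
        exact lt_of_lt_of_le h (Finset.single_le_sum (f := fun i => C i j)
          (fun i _ => hC0 i j) hi)
      have hA := ha (max i j)
      have hB := hb (min i j)
      have h5 := Real.log_le_sub_one_of_pos (div_pos (mul_pos hui hvj) (mul_pos hA hB))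
      rw [Real.log_div (mul_pos hui hvj).ne' (mul_pos hA hB).ne', Real.log_mul hui.ne' hvj.ne',
        Real.log_mul hA.ne' hB.ne'] at h5
      have h6 := mul_le_mul_of_nonneg_left h5 h.le
      linarith
  have e4 : ∑ i ∈ Icc 1 L, ∑ j ∈ Icc 1 L,
      (C i j - C i j * (u i * v j / (a (max i j) * b (min i j)))) =
      θ - ∑ i ∈ Icc 1 L, ∑ j ∈ Icc 1 L, C i j * (u i * v j / (a (max i j) * b (min i j))) := by
    rw [← hCtot]
    simp only [Finset.sum_sub_distrib]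
  have e5 : ∑ i ∈ Icc 1 L, ∑ j ∈ Icc 1 L, (C i j * Real.log (a (max i j)) +
        C i j * Real.log (b (min i j)) - C i j * Real.log (u i) - C i j * Real.log (v j)) =
      ∑ i ∈ Icc 1 L, ∑ j ∈ Icc 1 L, C i j * Real.log (a (max i j)) +
      ∑ i ∈ Icc 1 L, ∑ j ∈ Icc 1 L, C i j * Real.log (b (min i j)) -
      ∑ i ∈ Icc 1 L, ∑ j ∈ Icc 1 L, C i j * Real.log (u i) -
      ∑ i ∈ Icc 1 L, ∑ j ∈ Icc 1 L, C i j * Real.log (v j) := by
    simp only [Finset.sum_sub_distrib, Finset.sum_add_distrib]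
  rw [e1] at h1
  rw [e2] at h2
  rw [e3, Finset.sum_add_distrib] at h3
  rw [e4, e5] at h4
  linarith

/-- the average over `δ ∈ D` and `x ∈ K δ` -/
noncomputable def EE (D : Finset ℤ) (K : ℤ → Finset ℤ) (F : ℤ → ℤ → ℝ) : ℝ :=
  (∑ δ ∈ D, (∑ x ∈ K δ, F δ x) / (K δ).card) / D.card

theorem EE_mono {D : Finset ℤ} {K : ℤ → Finset ℤ} {F G : ℤ → ℤ → ℝ}
    (h : ∀ δ ∈ D, ∀ x ∈ K δ, F δ x ≤ G δ x) : EE D K F ≤ EE D K G := by
  unfold EE
  refine div_le_div_of_nonneg_right ?_ (Nat.cast_nonneg _)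
  refine Finset.sum_le_sum fun δ hδ => ?_
  refine div_le_div_of_nonneg_right ?_ (Nat.cast_nonneg _)
  exact Finset.sum_le_sum fun x hx => h δ hδ x hx

theorem EE_congr {D : Finset ℤ} {K : ℤ → Finset ℤ} {F G : ℤ → ℤ → ℝ}
    (h : ∀ δ ∈ D, ∀ x ∈ K δ, F δ x = G δ x) : EE D K F = EE D K G := by
  unfold EE
  congr 1
  refine Finset.sum_congr rfl fun δ hδ => ?_
  congr 1
  exact Finset.sum_congr rfl fun x hx => h δ hδ x hx

theorem EE_add (D : Finset ℤ) (K : ℤ → Finset ℤ) (F G : ℤ → ℤ → ℝ) :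
    EE D K (fun δ x => F δ x + G δ x) = EE D K F + EE D K G := by
  unfold EE
  rw [← add_div, ← Finset.sum_add_distrib]
  congr 1
  refine Finset.sum_congr rfl fun δ _ => ?_
  rw [← add_div, ← Finset.sum_add_distrib]

theorem EE_smul (D : Finset ℤ) (K : ℤ → Finset ℤ) (c : ℝ) (F : ℤ → ℤ → ℝ) :
    EE D K (fun δ x => c * F δ x) = c * EE D K F := by
  unfold EE
  rw [← mul_div_assoc, Finset.mul_sum]
  congr 1
  refine Finset.sum_congr rfl fun δ _ => ?_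
  rw [← mul_div_assoc, Finset.mul_sum]

theorem EE_sum (D : Finset ℤ) (K : ℤ → Finset ℤ) {ι : Type*} (s : Finset ι)
    (F : ι → ℤ → ℤ → ℝ) :
    EE D K (fun δ x => ∑ i ∈ s, F i δ x) = ∑ i ∈ s, EE D K (F i) := by
  classical
  induction s using Finset.induction_on with
  | empty => simp [EE]
  | insert i s hi ih =>
    rw [Finset.sum_insert hi, ← ih, ← EE_add]
    exact EE_congr fun δ _ x _ => Finset.sum_insert hi

theorem EE_left {D : Finset ℤ} {K : ℤ → Finset ℤ} (hK : ∀ δ ∈ D, (K δ).Nonempty)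
    (F : ℤ → ℝ) : EE D K (fun δ _ => F δ) = (∑ δ ∈ D, F δ) / D.card := by
  unfold EE
  congr 1
  refine Finset.sum_congr rfl fun δ hδ => ?_
  have hc : ((K δ).card : ℝ) ≠ 0 := Nat.cast_ne_zero.mpr (hK δ hδ).card_ne_zero
  rw [Finset.sum_const, nsmul_eq_mul]
  field_simp

theorem EE_const {D : Finset ℤ} {K : ℤ → Finset ℤ} (hD : D.Nonempty)
    (hK : ∀ δ ∈ D, (K δ).Nonempty) (c : ℝ) : EE D K (fun _ _ => c) = c := by
  rw [EE_left hK fun _ => c]
  have hc : (D.card : ℝ) ≠ 0 := Nat.cast_ne_zero.mpr hD.card_ne_zero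
  rw [Finset.sum_const, nsmul_eq_mul]
  field_simp

theorem Ps_congr {u u' : ℕ → ℝ} {i : ℕ} (h : ∀ l, 1 ≤ l → l ≤ i → u l = u' l) :
    Ps u i = Ps u' i := by
  unfold Ps
  refine Finset.sum_congr rfl fun l hl => ?_
  rw [mem_Icc] at hl
  exact h l hl.1 hl.2

end GPRaux

open GPRaux

theorem stmt_GPR (hC : Stmt_COUP) (hE : Stmt_ENT) (hG : Stmt_GIJ) (hG2 : Stmt_GIJ2)
    (hX : Stmt_XPR) : Stmt_GPR := by
  intro X D K p L μ θ hp hEq hD hK lam hlam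
  have hp1 : 1 ≤ p := by omega
  obtain ⟨x1, x2, x3, x4⟩ := hX p L hp1
  have hKn : ∀ δ ∈ D, (K δ).Nonempty := fun δ hδ => (hK δ hδ).1
  have hXav : Xav p L D K = EE D K (fun δ x => ∑ i ∈ Icc 1 L, Pr (K δ) (p ^ i) x) := by
    unfold Xav EE
    congr 1
    exact Finset.sum_congr rfl fun δ hδ => x1 (K δ) (hKn δ hδ)
  have hXe : Xe p L D = EE D K (fun δ _ => ∑ i ∈ Icc 1 L, Pr D (p ^ i) δ) := by
    rw [EE_left hKn, x1 D hD]
  -- masses
  have hM0 : ∀ (q : ℕ) (x : ℤ), 0 ≤ Ms X μ q x := by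
    intro q x
    unfold Ms
    exact Finset.sum_nonneg fun y _ => hEq.nonneg y
  have hMθ : ∀ x ∈ X, ∑ i ∈ Icc 1 L, Ms X μ (p ^ i) x = θ := by
    intro x hx
    rw [← x2 X μ x]
    exact hEq.pot x hx
  set f : ℕ → ℕ → ℤ → ℤ → ℝ := fun i j x y =>
    Cm (Ps fun l => Ms X μ (p ^ l) x) (Ps fun l => Ms X μ (p ^ l) y) i j with hf
  have hPs : ∀ (i : ℕ) (x x' : ℤ), ((p ^ i : ℕ) : ℤ) ∣ x - x' → ∀ l ≤ i,
      Ps (fun l => Ms X μ (p ^ l) x) l = Ps (fun l => Ms X μ (p ^ l) x') l := by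
    intro i x x' hd l hl
    refine Ps_congr fun l' _ hl' => ?_
    refine x4 X μ (p ^ l') x x' (dvd_trans ?_ hd)
    exact_mod_cast pow_dvd_pow p (hl'.trans hl)
  have hf0 : ∀ i j x y, 0 ≤ f i j x y := by
    intro i j x y
    rw [hf]
    show 0 ≤ Cm (Ps fun l => Ms X μ (p ^ l) x) (Ps fun l => Ms X μ (p ^ l) y) i j
    unfold Cm
    exact le_max_left _ _
  have hfc : ∀ (i j : ℕ) (x x' y y' : ℤ), ((p ^ i : ℕ) : ℤ) ∣ x - x' →
      ((p ^ j : ℕ) : ℤ) ∣ y - y' → f i j x y = f i j x' y' := by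
    intro i j x x' y y' hx hy
    rw [hf]
    show Cm (Ps fun l => Ms X μ (p ^ l) x) (Ps fun l => Ms X μ (p ^ l) y) i j =
      Cm (Ps fun l => Ms X μ (p ^ l) x') (Ps fun l => Ms X μ (p ^ l) y') i j
    unfold Cm
    rw [hPs i x x' hx i le_rfl, hPs i x x' hx (i - 1) (Nat.sub_le _ _),
      hPs j y y' hy j le_rfl, hPs j y y' hy (j - 1) (Nat.sub_le _ _)]
  -- the pointwise inequality
  have hpt : EE D K (fun δ x => 3 * θ + (-1) * ∑ i ∈ Icc 1 L, ∑ j ∈ Icc 1 L,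
      f i j x (x + δ) * (Ms X μ (p ^ i) x * Ms X μ (p ^ j) (x + δ) /
        (Pr (K δ) (p ^ max i j) x * Pr D (p ^ min i j) δ))) ≤
      EE D K (fun δ x => lam * ∑ i ∈ Icc 1 L, Pr (K δ) (p ^ i) x +
        lam⁻¹ * ∑ i ∈ Icc 1 L, Pr D (p ^ i) δ) := by
    refine EE_mono fun δ hδ x hx => ?_
    have h := point hC hE (fun l => Ms X μ (p ^ l) x) (fun l => Ms X μ (p ^ l) (x + δ))
      (fun l => Pr (K δ) (p ^ l) x) (fun l => Pr D (p ^ l) δ) L θ lam
      (fun l => hM0 _ _) (fun l => hM0 _ _) (hMθ x ((hK δ hδ).2 x hx).1)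
      (hMθ (x + δ) ((hK δ hδ).2 x hx).2) (fun l => (x3 (K δ) (p ^ l) x hx).1)
      (fun l => (x3 D (p ^ l) δ hδ).1) hlam
    rw [hf]
    simp only at h ⊢
    rw [div_eq_inv_mul] at h
    linarith
  rw [EE_add, EE_add, EE_const hD hKn, EE_smul, EE_smul, EE_smul, ← hXav, ← hXe, EE_sum] at hpt
  -- the average of the ratios
  have hbound : ∀ i ∈ Icc 1 L, EE D K (fun δ x => ∑ j ∈ Icc 1 L,
      f i j x (x + δ) * (Ms X μ (p ^ i) x * Ms X μ (p ^ j) (x + δ) /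
        (Pr (K δ) (p ^ max i j) x * Pr D (p ^ min i j) δ))) ≤
      ∑ j ∈ Icc 1 L, ∑ x ∈ X, ∑ y ∈ X, μ x * μ y * f i j x y := by
    intro i _
    rw [EE_sum]
    refine Finset.sum_le_sum fun j _ => ?_
    rcases le_or_gt j i with hij | hij
    · have h := hG X D K μ (p ^ j) (p ^ i) (f i j) (Nat.one_le_pow _ _ hp1)
        (pow_dvd_pow p hij) (Nat.one_le_pow _ _ hp1) hEq.nonneg (hf0 i j)
        (fun x x' y y' hx hy => hfc i j x x' y y' hx hy) hD hK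
      refine le_trans (le_of_eq ?_) h
      unfold EE
      congr 1
      refine Finset.sum_congr rfl fun δ _ => ?_
      congr 1
      refine Finset.sum_congr rfl fun x _ => ?_
      rw [max_eq_left hij, min_eq_right hij, mul_div_assoc]
    · have h := hG2 X D K μ (p ^ i) (p ^ j) (f i j) (Nat.one_le_pow _ _ hp1)
        (pow_dvd_pow p hij.le) (Nat.one_le_pow _ _ hp1) hEq.nonneg (hf0 i j)
        (fun x x' y y' hx hy => hfc i j x x' y y' hx hy) hD hK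
      refine le_trans (le_of_eq ?_) h
      unfold EE
      congr 1
      refine Finset.sum_congr rfl fun δ _ => ?_
      congr 1
      refine Finset.sum_congr rfl fun x _ => ?_
      rw [max_eq_right hij.le, min_eq_left hij.le, mul_div_assoc]
  have hsum := Finset.sum_le_sum hbound
  have htot : ∑ i ∈ Icc 1 L, ∑ j ∈ Icc 1 L, ∑ x ∈ X, ∑ y ∈ X, μ x * μ y * f i j x y = θ := by
    have h1 : ∀ x ∈ X, ∀ y ∈ X, ∑ i ∈ Icc 1 L, ∑ j ∈ Icc 1 L, μ x * μ y * f i j x y =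
        μ x * μ y * θ := by
      intro x hx y hy
      obtain ⟨_, hCu, _⟩ := hC (fun l => Ms X μ (p ^ l) x) (fun l => Ms X μ (p ^ l) y) L
        (fun l => hM0 _ _) (fun l => hM0 _ _) (by rw [hMθ x hx, hMθ y hy])
      rw [← hMθ x hx, Finset.mul_sum]
      refine Finset.sum_congr rfl fun i hi => ?_
      rw [← Finset.mul_sum]
      congr 1
      exact hCu i hi
    have h2 : ∑ i ∈ Icc 1 L, ∑ j ∈ Icc 1 L, ∑ x ∈ X, ∑ y ∈ X, μ x * μ y * f i j x y =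
        ∑ x ∈ X, ∑ y ∈ X, ∑ i ∈ Icc 1 L, ∑ j ∈ Icc 1 L, μ x * μ y * f i j x y := by
      calc ∑ i ∈ Icc 1 L, ∑ j ∈ Icc 1 L, ∑ x ∈ X, ∑ y ∈ X, μ x * μ y * f i j x y
          = ∑ i ∈ Icc 1 L, ∑ x ∈ X, ∑ j ∈ Icc 1 L, ∑ y ∈ X, μ x * μ y * f i j x y :=
            Finset.sum_congr rfl fun i _ => Finset.sum_comm
        _ = ∑ x ∈ X, ∑ i ∈ Icc 1 L, ∑ j ∈ Icc 1 L, ∑ y ∈ X, μ x * μ y * f i j x y :=
            Finset.sum_comm
        _ = ∑ x ∈ X, ∑ i ∈ Icc 1 L, ∑ y ∈ X, ∑ j ∈ Icc 1 L, μ x * μ y * f i j x y :=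
            Finset.sum_congr rfl fun x _ => Finset.sum_congr rfl fun i _ => Finset.sum_comm
        _ = ∑ x ∈ X, ∑ y ∈ X, ∑ i ∈ Icc 1 L, ∑ j ∈ Icc 1 L, μ x * μ y * f i j x y :=
            Finset.sum_congr rfl fun x _ => Finset.sum_comm
    rw [h2]
    have h3 : ∑ x ∈ X, ∑ y ∈ X, ∑ i ∈ Icc 1 L, ∑ j ∈ Icc 1 L, μ x * μ y * f i j x y =
        ∑ x ∈ X, ∑ y ∈ X, μ x * μ y * θ :=
      Finset.sum_congr rfl fun x hx => Finset.sum_congr rfl fun y hy => h1 x hx y hy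
    rw [h3]
    have h4 : ∀ x ∈ X, ∑ y ∈ X, μ x * μ y * θ = μ x * θ := by
      intro x _
      rw [← Finset.sum_mul, ← Finset.mul_sum, hEq.sum_one, mul_one]
    rw [Finset.sum_congr rfl h4, ← Finset.sum_mul, hEq.sum_one, one_mul]
  rw [htot] at hsum
  rw [div_eq_inv_mul]
  linarith

end Pool.Agent.Work.MP_b29d7f_two
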