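import Pool.Agent.Work.MP_b29d7f_two.Interface2

/-!
# GR1, two-sided: the growth between two `R`-times, exactly
-/

namespace Pool.Agent.Work.MP_b29d7f_two

open Finset
open Pool.Agent.Work.MP_b29d7f_nt (IsPOrdering HasSimultaneousOrdering PS vd ld tv)
open Pool.Agent.Work.MP_b29d7f_half (Ord A wv lD)
open Pool.Agent.Work.MP_b29d7f_sep (nv EW EL)

theorem stmt_GR1 (hMXB : Stmt_MXB) : Stmt_GR1 := by
  intro a k₀ C₀ hD u v huv
  obtain ⟨-, hmono, -, hval, -⟩ := hMXB a k₀ C₀ hD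
  have h1 : ∀ w, lD a (hx a w) = ∑ i ∈ range (hx a w), Real.log ((Mx a w - a i : ℤ) : ℝ) := by
    intro w
    unfold lD
    apply Finset.sum_congr rfl
    intro i hi
    unfold ld
    rw [hval w, Real.log_abs]
  rw [h1 v, h1 u, Finset.sum_sub_distrib,
    ← Finset.sum_range_add_sum_Ico (fun i => Real.log ((Mx a v - a i : ℤ) : ℝ)) (hmono huv)]
  ring

end Pool.Agent.Work.MP_b29d7f_two
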