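import Pool.Agent.Work.MP_b29d7f_two.Interface2

/-!
# GR2, two-sided: the contribution of one index telescopes
-/

namespace Pool.Agent.Work.MP_b29d7f_two

open Finset
open Pool.Agent.Work.MP_b29d7f_nt (IsPOrdering HasSimultaneousOrdering PS vd ld tv)
open Pool.Agent.Work.MP_b29d7f_half (Ord A wv lD)
open Pool.Agent.Work.MP_b29d7f_sep (nv EW EL)

theorem GR2_tel (f : ℕ → ℝ) (E : Finset ℕ) (j₀ j₁ : ℕ) (h01 : j₀ ≤ j₁)
    (hE : ∀ j ∈ E, j₀ ≤ j ∧ j ≤ j₁) (hf : ∀ j, f j ≤ f (j + 1)) :
    ∑ j ∈ E, (f (j + 1) - f j) ≤ f (j₁ + 1) - f j₀ := by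
  have h1 : ∑ j ∈ E, (f (j + 1) - f j) ≤ ∑ j ∈ Ico j₀ (j₁ + 1), (f (j + 1) - f j) := by
    apply Finset.sum_le_sum_of_subset_of_nonneg
    · intro j hj
      have := hE j hj
      rw [mem_Ico]
      omega
    · intro j hj _
      have := hf j
      linarith
  refine h1.trans (le_of_eq ?_)
  rw [Finset.sum_Ico_eq_sum_range]
  have h2 := Finset.sum_range_sub (fun k => f (j₀ + k)) (j₁ + 1 - j₀)
  simp only [← add_assoc, add_zero] at h2
  rw [h2]
  congr 2
  omega

theorem stmt_GR2 (hMXB : Stmt_MXB) : Stmt_GR2 := by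
  classical
  intro a k₀ C₀ hD Q i N D Z S hQ hZ hS hiN hj
  obtain ⟨hMm, hhm, hhle, hval, hRh, hle, hRt, hRM, -, hnR, -⟩ := hMXB a k₀ C₀ hD
  set f : ℕ → ℝ := fun j => if i < hx a (j * Q) then Real.log ((Mx a (j * Q) - a i : ℤ) : ℝ)
    else 0 with hf
  have hfpos : ∀ j, i < hx a (j * Q) → f j = Real.log ((Mx a (j * Q) - a i : ℤ) : ℝ) := by
    intro j hij
    rw [hf]
    simp only [if_pos hij]
  have hfneg : ∀ j, ¬ i < hx a (j * Q) → f j = 0 := by
    intro j hij
    rw [hf]
    simp only [if_neg hij]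
  have h1le : ∀ k, i < hx a k → (1 : ℝ) ≤ ((Mx a k - a i : ℤ) : ℝ) := by
    intro k hik
    have h1 := hRh k i hik
    rw [hval k] at h1
    have h2 : (1 : ℤ) ≤ Mx a k - a i := by omega
    exact_mod_cast h2
  have hmono2 : ∀ k l, k ≤ l → ((Mx a k - a i : ℤ) : ℝ) ≤ ((Mx a l - a i : ℤ) : ℝ) := by
    intro k l hkl
    have h1 := hMm hkl
    have h2 : Mx a k - a i ≤ Mx a l - a i := by omega
    exact_mod_cast h2
  have hsucc : ∀ j, (j + 1) * Q = j * Q + Q := fun j => by ring
  have hstep : ∀ j, i < hx a (j * Q) → i < hx a ((j + 1) * Q) := by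
    intro j hi
    have h1 : hx a (j * Q) ≤ hx a ((j + 1) * Q) := hhm (by rw [hsucc j]; omega)
    omega
  have hf0 : ∀ j, 0 ≤ f j := by
    intro j
    by_cases hi : i < hx a (j * Q)
    · rw [hfpos j hi]
      exact Real.log_nonneg (h1le _ hi)
    · rw [hfneg j hi]
  have hfmono : ∀ j, f j ≤ f (j + 1) := by
    intro j
    by_cases hi : i < hx a (j * Q)
    · rw [hfpos j hi, hfpos (j + 1) (hstep j hi)]
      apply Real.log_le_log
      · have := h1le (j * Q) hi
        linarith
      · exact hmono2 _ _ (by rw [hsucc j]; omega)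
    · rw [hfneg j hi]
      exact hf0 (j + 1)
  -- the sums as sums of differences of `f`
  have s1 : ∀ E : Finset ℕ, (∀ j ∈ E, i < hx a (j * Q)) →
      ∑ j ∈ E, (Real.log ((Mx a (j * Q + Q) - a i : ℤ) : ℝ) -
        Real.log ((Mx a (j * Q) - a i : ℤ) : ℝ)) = ∑ j ∈ E, (f (j + 1) - f j) := by
    intro E hE
    apply Finset.sum_congr rfl
    intro j h1
    rw [hfpos j (hE j h1), hfpos (j + 1) (hstep j (hE j h1)), hsucc j]
  set E2 := D.filter (fun j => hx a (j * Q) ≤ i ∧ i < hx a (j * Q + Q)) with hE2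
  have s2 : ∑ j ∈ E2, Real.log ((Mx a (j * Q + Q) - a i : ℤ) : ℝ) =
      ∑ j ∈ E2, (f (j + 1) - f j) := by
    apply Finset.sum_congr rfl
    intro j h1
    rw [hE2, Finset.mem_filter] at h1
    rw [hfneg j (by omega), hfpos (j + 1) (by rw [hsucc j]; exact h1.2.2), hsucc j, sub_zero]
  -- the general bound
  have key : ∀ (E : Finset ℕ), E ⊆ D → (∀ j ∈ E, i < hx a ((j + 1) * Q)) → E.Nonempty →
      ∃ j₀ ∈ E, ∃ j₁ ∈ E, ∑ j ∈ E, (f (j + 1) - f j) ≤
        Real.log ((Mx a (j₁ * Q + Q) - a i : ℤ) : ℝ) - f j₀ := by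
    intro E hED hE hne
    obtain ⟨j₁, hj₁, hmax⟩ := Finset.exists_max_image E id hne
    obtain ⟨j₀, hj₀, hmin⟩ := Finset.exists_min_image E id hne
    refine ⟨j₀, hj₀, j₁, hj₁, ?_⟩
    have e1 := GR2_tel f E j₀ j₁ (hmax j₀ hj₀) (fun j h => ⟨hmin j h, hmax j h⟩) hfmono
    rw [hfpos (j₁ + 1) (hE j₁ hj₁), hsucc j₁] at e1
    exact e1
  refine ⟨?_, ?_, ?_⟩
  · intro hR
    set E1 := D.filter (fun j => i < hx a (j * Q) ∧ ((Mx a (j * Q) - a i : ℤ) : ℝ) ≤ Z) with hE1
    have hdisj : Disjoint E1 E2 := by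
      rw [Finset.disjoint_left]
      intro j h1 h2
      rw [hE1, Finset.mem_filter] at h1
      rw [hE2, Finset.mem_filter] at h2
      omega
    rw [s1 E1 (fun j h => by rw [hE1, Finset.mem_filter] at h; exact h.2.1), s2,
      ← Finset.sum_union hdisj]
    rcases (E1 ∪ E2).eq_empty_or_nonempty with hemp | hne
    · rw [hemp, Finset.sum_empty]
      apply Real.log_nonneg
      linarith
    · obtain ⟨j₀, hj₀, j₁, hj₁, hsum⟩ := key (E1 ∪ E2)
        (Finset.union_subset (Finset.filter_subset _ _) (Finset.filter_subset _ _)) (by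
          intro j hjE
          rw [Finset.mem_union] at hjE
          rcases hjE with h | h
          · rw [hE1, Finset.mem_filter] at h
            exact hstep j h.2.1
          · rw [hE2, Finset.mem_filter] at h
            rw [hsucc j]
            exact h.2.2) hne
      have hf00 := hf0 j₀
      have hlog : Real.log ((Mx a (j₁ * Q + Q) - a i : ℤ) : ℝ) ≤ Real.log (Z + S) := by
        rw [Finset.mem_union] at hj₁
        rcases hj₁ with h | h
        · rw [hE1, Finset.mem_filter] at h
          have h1 := hstep j₁ h.2.1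
          rw [hsucc j₁] at h1
          apply Real.log_le_log
          · have := h1le _ h1
            linarith
          · have h5 := (hj j₁ h.1).2
            have h6 := h.2.2
            push_cast at h5 h6 ⊢
            linarith
        · rw [hE2, Finset.mem_filter] at h
          apply Real.log_le_log
          · have := h1le _ h.2.2
            linarith
          · have h5 := (hj j₁ h.1).2
            have h6 : Mx a (j₁ * Q) ≤ a i := by
              rw [← hval (j₁ * Q)]
              rcases Nat.lt_or_ge (hx a (j₁ * Q)) i with h7 | h7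
              · exact (hR _ h7).le
              · have h8 : hx a (j₁ * Q) = i := by omega
                rw [h8]
            have h8 : (Mx a (j₁ * Q) : ℝ) ≤ a i := by exact_mod_cast h6
            push_cast at h5 ⊢
            linarith
      linarith
  · set E1 := D.filter (fun j => i < hx a (j * Q)) with hE1
    have hdisj : Disjoint E1 E2 := by
      rw [Finset.disjoint_left]
      intro j h1 h2
      rw [hE1, Finset.mem_filter] at h1
      rw [hE2, Finset.mem_filter] at h2
      omega
    rw [s1 E1 (fun j h => by rw [hE1, Finset.mem_filter] at h; exact h.2), s2,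
      ← Finset.sum_union hdisj]
    rcases (E1 ∪ E2).eq_empty_or_nonempty with hemp | hne
    · rw [hemp, Finset.sum_empty]
      have h1 := hle i N hiN.le
      rcases eq_or_lt_of_le h1 with h2 | h2
      · rw [← h2]
        simp
      · apply Real.log_nonneg
        have h3 : (1 : ℤ) ≤ Mx a N - a i := by omega
        exact_mod_cast h3
    · have hE' : ∀ j ∈ E1 ∪ E2, i < hx a ((j + 1) * Q) := by
        intro j hjE
        rw [Finset.mem_union] at hjE
        rcases hjE with h | h
        · rw [hE1, Finset.mem_filter] at h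
          exact hstep j h.2
        · rw [hE2, Finset.mem_filter] at h
          rw [hsucc j]
          exact h.2.2
      obtain ⟨j₀, hj₀, j₁, hj₁, hsum⟩ := key (E1 ∪ E2)
        (Finset.union_subset (Finset.filter_subset _ _) (Finset.filter_subset _ _)) hE' hne
      have hf00 := hf0 j₀
      have h1 := hE' j₁ hj₁
      rw [hsucc j₁] at h1
      have hjD : j₁ ∈ D := by
        rw [Finset.mem_union] at hj₁
        rcases hj₁ with h | h
        · exact (Finset.mem_filter.1 h).1
        · exact (Finset.mem_filter.1 h).1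
      have hlog : Real.log ((Mx a (j₁ * Q + Q) - a i : ℤ) : ℝ) ≤
          Real.log ((Mx a N - a i : ℤ) : ℝ) := by
        apply Real.log_le_log
        · have := h1le _ h1
          linarith
        · exact hmono2 _ _ (hj j₁ hjD).1
      linarith
  · intro hR
    have hpos : (1 : ℝ) ≤ ((Mx a i - a i : ℤ) : ℝ) := by
      obtain ⟨h1, h2⟩ := hnR i hR
      have h3 := h2 0 (by omega)
      have h4 := hle 0 i (Nat.zero_le i)
      have h5 : (1 : ℤ) ≤ Mx a i - a i := by omega
      exact_mod_cast h5
    set E1 := D.filter (fun j => i < hx a (j * Q)) with hE1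
    have hE1m : ∀ j ∈ E1, i < hx a (j * Q) := fun j h => (Finset.mem_filter.1 h).2
    rw [s1 E1 hE1m]
    rcases E1.eq_empty_or_nonempty with hemp | hne
    · rw [hemp, Finset.sum_empty]
      have := Real.log_le_log (by linarith : (0 : ℝ) < ((Mx a i - a i : ℤ) : ℝ))
        (hmono2 i N hiN.le)
      linarith
    · obtain ⟨j₀, hj₀, j₁, hj₁, hsum⟩ := key E1 (Finset.filter_subset _ _)
        (fun j h => hstep j (hE1m j h)) hne
      have h1 := hstep j₁ (hE1m j₁ hj₁)
      rw [hsucc j₁] at h1
      have hlog : Real.log ((Mx a (j₁ * Q + Q) - a i : ℤ) : ℝ) ≤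
          Real.log ((Mx a N - a i : ℤ) : ℝ) := by
        apply Real.log_le_log
        · have := h1le _ h1
          linarith
        · exact hmono2 _ _ (hj j₁ (Finset.mem_filter.1 hj₁).1).1
      have hlog2 : Real.log ((Mx a i - a i : ℤ) : ℝ) ≤ f j₀ := by
        rw [hfpos j₀ (hE1m j₀ hj₀)]
        apply Real.log_le_log (by linarith)
        apply hmono2
        have h2 := hhle (j₀ * Q)
        have h3 := hE1m j₀ hj₀
        omega
      linarith

end Pool.Agent.Work.MP_b29d7f_two
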