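import Pool.Agent.Work.MP_b29d7f_two.Interface2

namespace Pool.Agent.Work.MP_b29d7f_two

open Finset
open Pool.Agent.Work.MP_b29d7f_nt (IsPOrdering HasSimultaneousOrdering PS vd ld tv)
open Pool.Agent.Work.MP_b29d7f_half (Ord A wv lD)
open Pool.Agent.Work.MP_b29d7f_sep (nv EW EL)

theorem stmt_GR4 (hFROST : Stmt_FROST) (_hGGB : Stmt_GGB) (_hCLU : Stmt_CLU) : Stmt_GR4 := by
  intro a k₀ C₀ κ b β₁ β₂ e₃ e₇ e₈ K J hD hb hβ₁ hβ₂ hK
  obtain ⟨C, N₁, hC, hF⟩ := hFROST a k₀ C₀ κ b β₁ β₂ e₃ e₇ e₈ K J hD hb.le hβ₁ hβ₂ hK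
  have hC0 : 1 ≤ C₀ := hD.one_le
  have hinj : Function.Injective a := by
    have hO := hD.ord
    exact MP_b29d7f_nt.injective_of_ordering hO.inf Nat.prime_two (hO.ord 2 Nat.prime_two)
  refine ⟨C + 2, max N₁ (⌈Real.exp (3 * C₀ + 3)⌉₊ + 2), by linarith, ?_⟩
  intro n N R m hN hFr u z hku huN hgz hz
  have hN1 : N₁ ≤ N := le_trans (le_max_left _ _) hN
  have hN2 : ⌈Real.exp (3 * C₀ + 3)⌉₊ + 2 ≤ N := le_trans (le_max_right _ _) hN
  have hNN : 2 ≤ N := by omega
  have hNpos : (0 : ℝ) < N := by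
    have : 0 < N := by omega
    exact_mod_cast this
  set L : ℝ := Real.log N with hL
  have hBL : 3 * C₀ + 3 ≤ L := by
    have h1 : Real.exp (3 * C₀ + 3) ≤ (N : ℝ) := by
      have h2 : Real.exp (3 * C₀ + 3) ≤ (⌈Real.exp (3 * C₀ + 3)⌉₊ : ℝ) := Nat.le_ceil _
      have h3 : ((⌈Real.exp (3 * C₀ + 3)⌉₊ : ℕ) : ℝ) ≤ (N : ℝ) := by
        exact_mod_cast (by omega : ⌈Real.exp (3 * C₀ + 3)⌉₊ ≤ N)
      linarith
    calc 3 * C₀ + 3 = Real.log (Real.exp (3 * C₀ + 3)) := (Real.log_exp _).symm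
      _ ≤ L := Real.log_le_log (Real.exp_pos _) h1
  set l : ℕ := el N with hl
  have hlL : L ≤ (l : ℝ) := by
    rw [hl]
    exact Nat.le_ceil _
  have hlpos : (0 : ℝ) < l := by linarith
  set g : ℝ := gg a (P1 K m N) with hg
  set d : ℕ → ℝ := fun i => ((a u - a i : ℤ) : ℝ) with hd
  set F : Finset ℕ := (range u).filter (fun i => Real.exp z < ((a u - a i : ℤ) : ℝ)) with hFdef
  have hFd : ∀ i ∈ F, i < u ∧ Real.exp z < d i := by
    intro i hi
    rw [hFdef, Finset.mem_filter, Finset.mem_range] at hi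
    exact hi
  have hdpos : ∀ i ∈ F, 0 < d i := fun i hi => lt_trans (Real.exp_pos _) (hFd i hi).2
  have hdz : ∀ i ∈ F, z < Real.log (d i) := by
    intro i hi
    rw [Real.lt_log_iff_exp_lt (hdpos i hi)]
    exact (hFd i hi).2
  set τ : ℕ → ℕ := fun i => ⌊Real.log (d i) - z⌋₊ with hτ
  have hτlo : ∀ i ∈ F, z + τ i ≤ Real.log (d i) := by
    intro i hi
    have := Nat.floor_le (sub_nonneg.mpr (hdz i hi).le)
    simp only [hτ]
    linarith
  have hτhi : ∀ i ∈ F, Real.log (d i) < z + τ i + 1 := by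
    intro i hi
    have := Nat.lt_floor_add_one (Real.log (d i) - z)
    simp only [hτ]
    linarith
  set T : ℕ := ⌊C₀ * L⌋₊ + 1 with hT
  have hτT : ∀ i ∈ F, τ i ∈ range T := by
    intro i hi
    rw [Finset.mem_range, hT]
    refine Nat.lt_succ_of_le (Nat.floor_le_floor ?_)
    have h1 : d i ≤ (N : ℝ) ^ C₀ := by
      have h2 := hD.size u i N hNN huN (le_trans (hFd i hi).1.le huN)
      refine le_trans (le_trans (le_abs_self _) ?_) h2
      simp only [hd]
      push_cast
      exact le_refl _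
    have h3 : Real.log (d i) ≤ C₀ * L := by
      calc Real.log (d i) ≤ Real.log ((N : ℝ) ^ C₀) := Real.log_le_log (hdpos i hi) h1
        _ = C₀ * L := Real.log_rpow hNpos _
    linarith
  set W : ℝ := (l : ℝ) ^ C * (P1 K m N : ℝ) with hW
  have hWnn : 0 ≤ W := by positivity
  -- one range
  have hone : ∀ t ∈ range T, ∑ i ∈ F.filter (fun i => τ i = t), 1 / d i ≤
      W * Real.exp ((z - g) / b - z) * Real.exp 1 := by
    intro t _
    have hsub : ∀ i ∈ F.filter (fun i => τ i = t), i ∈ F ∧ τ i = t := by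
      intro i hi
      simpa using hi
    have h1 : ∑ i ∈ F.filter (fun i => τ i = t), 1 / d i ≤
        ((F.filter (fun i => τ i = t)).card : ℝ) * Real.exp (-(z + t)) := by
      rw [← nsmul_eq_mul]
      refine Finset.sum_le_card_nsmul _ _ _ ?_
      intro i hi
      obtain ⟨hiF, hit⟩ := hsub i hi
      rw [one_div, Real.exp_neg]
      refine inv_anti₀ (Real.exp_pos _) ?_
      rw [← Real.le_log_iff_exp_le (hdpos i hiF)]
      have := hτlo i hiF
      rw [hit] at this
      exact this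
    have h2 : ((F.filter (fun i => τ i = t)).card : ℝ) ≤ W * Real.exp ((z + t + 1 - g) / b) := by
      set X : Finset ℤ := (F.filter (fun i => τ i = t)).image a with hX
      have hcard : X.card = (F.filter (fun i => τ i = t)).card :=
        Finset.card_image_of_injective _ hinj
      have hX1 : (X : Set ℤ) ⊆ Set.range a := by
        intro x hx
        rw [hX, Finset.coe_image] at hx
        obtain ⟨i, _, rfl⟩ := hx
        exact ⟨i, rfl⟩
      have hX2 : X.card ≤ 2 * N := by
        rw [hcard]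
        calc (F.filter (fun i => τ i = t)).card ≤ F.card := Finset.card_filter_le _ _
          _ ≤ (range u).card := Finset.card_filter_le _ _
          _ = u := Finset.card_range u
          _ ≤ 2 * N := by omega
      have htt : (0 : ℝ) ≤ t := Nat.cast_nonneg _
      have hZ1 : (1 : ℝ) ≤ Real.exp (z + t + 1) := Real.one_le_exp (by linarith)
      have hZ2 : g ≤ Real.log (Real.exp (z + t + 1)) := by
        rw [Real.log_exp]
        linarith
      have hrng : ∀ x ∈ X, 0 < ((a u : ℤ) : ℝ) - x ∧ ((a u : ℤ) : ℝ) - x ≤ Real.exp (z + t + 1) := by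
        intro x hx
        rw [hX, Finset.mem_image] at hx
        obtain ⟨i, hi, rfl⟩ := hx
        obtain ⟨hiF, hit⟩ := hsub i hi
        have h3 := hdpos i hiF
        have h4 := hτhi i hiF
        rw [hit] at h4
        have h5 : d i ≤ Real.exp (z + t + 1) := by
          rw [← Real.log_le_iff_le_exp h3]
          exact h4.le
        have h6 : d i = ((a u : ℤ) : ℝ) - (a i : ℝ) := by
          simp only [hd]
          push_cast
          ring
        rw [h6] at h3 h5
        exact ⟨h3, h5⟩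
      have hX3 : ∀ x ∈ X, ∀ y ∈ X, (|x - y| : ℝ) ≤ Real.exp (z + t + 1) := by
        intro x hx y hy
        obtain ⟨h3, h4⟩ := hrng x hx
        obtain ⟨h5, h6⟩ := hrng y hy
        rw [abs_le]
        constructor <;> linarith
      have h7 := hF n N R m hN1 hFr X (Real.exp (z + t + 1)) hX1 hX2 hZ1 hZ2 hX3
      rw [Real.log_exp, hcard] at h7
      exact h7
    have hbp : 0 < b := by linarith
    calc ∑ i ∈ F.filter (fun i => τ i = t), 1 / d i
        ≤ ((F.filter (fun i => τ i = t)).card : ℝ) * Real.exp (-(z + t)) := h1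
      _ ≤ (W * Real.exp ((z + t + 1 - g) / b)) * Real.exp (-(z + t)) :=
          mul_le_mul_of_nonneg_right h2 (Real.exp_pos _).le
      _ = W * Real.exp ((z + t + 1 - g) / b - (z + t)) := by
          rw [mul_assoc, ← Real.exp_add]
          congr 2
      _ ≤ W * Real.exp ((z - g) / b - z + 1) := by
          refine mul_le_mul_of_nonneg_left (Real.exp_le_exp.mpr ?_) hWnn
          have htt : (0 : ℝ) ≤ t := Nat.cast_nonneg _
          have h8 : (z + t + 1 - g) / b = (z - g) / b + (t + 1) / b := by ring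
          have h9 : ((t : ℝ) + 1) / b ≤ t + 1 := by
            rw [div_le_iff₀ hbp]
            nlinarith
          rw [h8]
          linarith
      _ = W * Real.exp ((z - g) / b - z) * Real.exp 1 := by
          rw [Real.exp_add]
          ring
  have hsum : ∑ i ∈ F, 1 / d i ≤ T * (W * Real.exp ((z - g) / b - z) * Real.exp 1) := by
    rw [← Finset.sum_fiberwise_of_maps_to hτT (fun i => 1 / d i)]
    calc _ ≤ ∑ t ∈ range T, (W * Real.exp ((z - g) / b - z) * Real.exp 1) :=
          Finset.sum_le_sum hone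
      _ = _ := by simp
  have hTe : (T : ℝ) * Real.exp 1 ≤ (l : ℝ) ^ (2 : ℝ) := by
    have h1 : (T : ℝ) ≤ C₀ * L + 1 := by
      rw [hT]
      push_cast
      have : (⌊C₀ * L⌋₊ : ℝ) ≤ C₀ * L := Nat.floor_le (by nlinarith)
      linarith
    have h2 : Real.exp 1 ≤ 3 := by
      have := Real.exp_one_lt_d9
      linarith
    have h3 : (l : ℝ) ^ (2 : ℝ) = l * l := by
      rw [show (2 : ℝ) = ((2 : ℕ) : ℝ) by norm_num, Real.rpow_natCast]
      ring
    rw [h3]
    have h4 : (0 : ℝ) ≤ T := Nat.cast_nonneg _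
    calc (T : ℝ) * Real.exp 1 ≤ (C₀ * L + 1) * 3 := by
          refine mul_le_mul h1 h2 (Real.exp_pos _).le (by nlinarith)
      _ ≤ (C₀ * l + 1) * 3 := by nlinarith
      _ ≤ l * l := by nlinarith
  have hgoal : (l : ℝ) ^ (C + 2) * (P1 K m N : ℝ) * Real.exp ((z - g) / b - z) =
      (l : ℝ) ^ (2 : ℝ) * (W * Real.exp ((z - g) / b - z)) := by
    rw [Real.rpow_add hlpos, hW]
    ring
  calc ∑ i ∈ F, 1 / ((a u - a i : ℤ) : ℝ) = ∑ i ∈ F, 1 / d i := rfl
    _ ≤ T * (W * Real.exp ((z - g) / b - z) * Real.exp 1) := hsum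
    _ = (T * Real.exp 1) * (W * Real.exp ((z - g) / b - z)) := by ring
    _ ≤ (l : ℝ) ^ (2 : ℝ) * (W * Real.exp ((z - g) / b - z)) :=
        mul_le_mul_of_nonneg_right hTe (by positivity)
    _ = _ := hgoal.symm

end Pool.Agent.Work.MP_b29d7f_two
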