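import Pool.Agent.Work.MP_b29d7f_two.Interface2

/-!
# Block GRO, two-sided: the growth between `R`-times over the blocks of small span (helper84)
-/

namespace Pool.Agent.Work.MP_b29d7f_two

open Finset
open Pool.Agent.Work.MP_b29d7f_nt (IsPOrdering HasSimultaneousOrdering PS vd ld tv)
open Pool.Agent.Work.MP_b29d7f_half (Ord A wv lD)
open Pool.Agent.Work.MP_b29d7f_sep (nv EW EL)

theorem GRO_log {x d : ℝ} (hx : 0 < x) (hd : 0 ≤ d) : Real.log (x + d) - Real.log x ≤ d / x := by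
  have hxd : 0 < x + d := by linarith
  rw [← Real.log_div hxd.ne' hx.ne']
  have h := Real.log_le_sub_one_of_pos (div_pos hxd hx)
  refine h.trans (le_of_eq ?_)
  field_simp
  ring

theorem GRO_mem_Lft {D : Finset ℕ} {j : ℕ} : j ∈ Lft D ↔ j ∈ D ∧ 1 ≤ j ∧ j - 1 ∈ D := by
  unfold Lft
  rw [mem_filter]

open Classical in
/-- the `L`-times in the intervals between the last `R`-times -/
theorem GRO_Lcount (hMXB : Stmt_MXB) (a : ℕ → ℤ) (k₀ : ℕ) (C₀ : ℝ) (hD : Dat a k₀ C₀) (Q : ℕ)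
    (hQ : 1 ≤ Q) (D : Finset ℕ)
    (hr : ∀ j ∈ D, ∃ r : ℕ, j * Q ≤ r ∧ r < j * Q + Q ∧ Rt a r) :
    ∑ j ∈ Lft D, (((Ico (hx a (j * Q)) (hx a (j * Q + Q))).filter
      (fun i => ¬ Rt a i)).card : ℝ) ≤ Q * ∑ j ∈ D, (1 - sh a Q j) := by
  obtain ⟨hMm, hhm, hhle, hval, hRh, hle, hRt, hRM, hsr, hnR, hG0, hbt, hRcadd, hRcle⟩ :=
    hMXB a k₀ C₀ hD
  have hdisj : (↑(Lft D) : Set ℕ).PairwiseDisjoint
      (fun j => (Ico (hx a (j * Q)) (hx a (j * Q + Q))).filter (fun i => ¬ Rt a i)) := by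
    have key : ∀ j j' : ℕ, j < j' →
        Disjoint ((Ico (hx a (j * Q)) (hx a (j * Q + Q))).filter (fun i => ¬ Rt a i))
          ((Ico (hx a (j' * Q)) (hx a (j' * Q + Q))).filter (fun i => ¬ Rt a i)) := by
      intro j j' hjj
      rw [Finset.disjoint_left]
      intro i hi hi'
      rw [mem_filter, mem_Ico] at hi hi'
      have h1 : j * Q + Q ≤ j' * Q := by
        have : (j + 1) * Q ≤ j' * Q := Nat.mul_le_mul_right Q hjj
        linarith
      have h2 := hhm h1
      omega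
    intro j _ j' _ hne
    rcases lt_or_gt_of_ne hne with h | h
    · exact key j j' h
    · exact (key j' j h).symm
  have hcard : ∑ j ∈ Lft D, ((Ico (hx a (j * Q)) (hx a (j * Q + Q))).filter
      (fun i => ¬ Rt a i)).card ≤
      ∑ j ∈ D, ((Ico (j * Q) (j * Q + Q)).filter (fun i => ¬ Rt a i)).card := by
    rw [← card_biUnion hdisj]
    refine (card_le_card ?_).trans card_biUnion_le
    intro i hi
    rw [mem_biUnion] at hi ⊢
    obtain ⟨j, hj, hij⟩ := hi
    rw [GRO_mem_Lft] at hj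
    rw [mem_filter, mem_Ico] at hij
    obtain ⟨hjD, hj1, hjD1⟩ := hj
    obtain ⟨r, hr1, hr2, hr3⟩ := hr (j - 1) hjD1
    have e : (j - 1) * Q + Q = j * Q := by
      obtain ⟨j', rfl⟩ : ∃ j', j = j' + 1 := ⟨j - 1, by omega⟩
      simp only [Nat.add_sub_cancel]
      ring
    have h1 : (j - 1) * Q ≤ hx a (j * Q) := hsr _ _ r hr1 (by omega) hr3
    have h2 := hhle (j * Q + Q)
    by_cases hlt : i < j * Q
    · refine ⟨j - 1, hjD1, ?_⟩
      rw [mem_filter, mem_Ico]
      exact ⟨⟨h1.trans hij.1.1, by omega⟩, hij.2⟩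
    · refine ⟨j, hjD, ?_⟩
      rw [mem_filter, mem_Ico]
      exact ⟨⟨by omega, by omega⟩, hij.2⟩
  have hone : ∀ j ∈ D, (((Ico (j * Q) (j * Q + Q)).filter (fun i => ¬ Rt a i)).card : ℝ) =
      Q * (1 - sh a Q j) := by
    intro j _
    have h1 := card_filter_add_card_filter_not (s := Ico (j * Q) (j * Q + Q)) (Rt a)
    rw [Nat.card_Ico] at h1
    have h2 : ((Ico (j * Q) (j * Q + Q)).filter (Rt a)).card = Rc a (j * Q) (j * Q + Q) := by
      unfold Rc Rf
      rfl
    rw [h2] at h1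
    have h3 : (Rc a (j * Q) (j * Q + Q) : ℝ) +
        (((Ico (j * Q) (j * Q + Q)).filter (fun i => ¬ Rt a i)).card : ℝ) = Q := by
      have : Rc a (j * Q) (j * Q + Q) +
        ((Ico (j * Q) (j * Q + Q)).filter (fun i => ¬ Rt a i)).card = Q := by omega
      exact_mod_cast this
    have hQ0 : (Q : ℝ) ≠ 0 := by
      have : 0 < Q := hQ
      positivity
    unfold sh
    field_simp
    linarith
  rw [mul_sum, ← sum_congr rfl hone]
  exact_mod_cast hcard

set_option maxHeartbeats 4000000 in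
open Classical in
theorem stmt_GRO (hGR1 : Stmt_GR1) (hGR2 : Stmt_GR2) (hGR3 : Stmt_GR3) (hGR4 : Stmt_GR4)
    (hLRE : Stmt_LRE) (hDIA : Stmt_DIA) (hLSM : Stmt_LSM) (hMXB : Stmt_MXB) : Stmt_GRO := by
  intro a k₀ C₀ κ b β₁ β₂ e₃ e₇ e₈ K J hD hκ hb hβ₁ hβ₂ hK
  obtain ⟨C₄, N₄, hC₄, hG4⟩ := hGR4 a k₀ C₀ κ b β₁ β₂ e₃ e₇ e₈ K J hD hb hβ₁ hβ₂ hK
  obtain ⟨C₅, N₅, hC₅, hG5⟩ := hLRE a k₀ C₀ κ hD hκ
  refine ⟨C₄ + C₅ + 4 * κ, max (max N₄ N₅) 3, by positivity, ?_⟩
  intro n N R m hN hF y y₂ z D hy hyy hyz hgz hDD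
  have hN4 : N₄ ≤ N := (le_max_left _ _).trans ((le_max_left _ _).trans hN)
  have hN5 : N₅ ≤ N := (le_max_right _ _).trans ((le_max_left _ _).trans hN)
  have hN3 : 3 ≤ N := (le_max_right _ _).trans hN
  have hN1 : 1 ≤ N := by omega
  have hz0 : 0 ≤ z := hy.trans hyz
  have hel : 1 ≤ el N := by
    unfold el
    apply Nat.ceil_pos.mpr
    apply Real.log_pos
    have : (3 : ℝ) ≤ N := by exact_mod_cast hN3
    linarith
  have hm1 : 1 ≤ m := (Nat.one_le_pow _ _ hel).trans hF.m_big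
  have hmQ : m ≤ Qb K m N := by
    unfold Qb
    calc m = 1 * m * 1 := by ring
      _ ≤ K * m * el N ^ 4 := Nat.mul_le_mul (Nat.mul_le_mul_right m hK) (Nat.one_le_pow _ _ hel)
  have hG4' := hG4 n N R m hN4 hF
  have hdiam := hG5 n N hN5 hF.n_lo hF.n_hi hF.lrec
  obtain ⟨hMm, hhm, hhle, hval, hRh, hle, hRt, hRM, hsr, hnR, hG0, hbt, hRcadd, hRcle⟩ :=
    hMXB a k₀ C₀ hD
  obtain ⟨-, hDIA2, -⟩ := hDIA a k₀ C₀ hD
  obtain ⟨Q, hQ⟩ : ∃ Q, Q = Qb K m N := ⟨_, rfl⟩
  rw [← hQ] at hmQ hDD ⊢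
  have hQ1 : 1 ≤ Q := hm1.trans hmQ
  set G : ℝ := gg a n with hGdef
  have hGC : 0 ≤ G + C₅ := by
    have h := hdiam 0 0 (Nat.zero_le _) (Nat.zero_le _)
    unfold ld at h
    simpa using h
  -- blocks of `Lft D`
  have hL : ∀ j ∈ Lft D, j ∈ D ∧ j * Q - Q ≤ hx a (j * Q) := by
    intro j hj
    rw [GRO_mem_Lft] at hj
    obtain ⟨hjD, hj1, hjD1⟩ := hj
    obtain ⟨-, ⟨r, hr1, hr2, hr3⟩, -⟩ := hDD (j - 1) hjD1
    have e : (j - 1) * Q + Q = j * Q := by
      obtain ⟨j', rfl⟩ : ∃ j', j = j' + 1 := ⟨j - 1, by omega⟩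
      simp only [Nat.add_sub_cancel]
      ring
    have h1 : (j - 1) * Q ≤ hx a (j * Q) := hsr _ _ r hr1 (by omega) hr3
    exact ⟨hjD, by omega⟩
  have hLsub : Lft D ⊆ D := fun j hj => (hL j hj).1
  -- positivity
  have hpos : ∀ i u : ℕ, i < hx a u → (0 : ℝ) < ((Mx a u - a i : ℤ) : ℝ) := by
    intro i u hi
    have h1 := hRh u i hi
    rw [hval u] at h1
    have h' : 0 < Mx a u - a i := by linarith
    exact_mod_cast h'
  have hone1 : ∀ i u : ℕ, i < hx a u → (1 : ℝ) ≤ ((Mx a u - a i : ℤ) : ℝ) := by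
    intro i u hi
    have h1 := hRh u i hi
    rw [hval u] at h1
    have h' : 1 ≤ Mx a u - a i := by linarith
    exact_mod_cast h'
  have hnn : ∀ i u : ℕ, i ≤ u → (0 : ℝ) ≤ ((Mx a u - a i : ℤ) : ℝ) := by
    intro i u hi
    have h1 := hle i u hi
    have h' : 0 ≤ Mx a u - a i := by linarith
    exact_mod_cast h'
  -- the logarithm of a distance to a maximum
  have hlogle : ∀ i u : ℕ, i ≤ N → u ≤ N → Real.log ((Mx a u - a i : ℤ) : ℝ) ≤ G + C₅ := by
    intro i u hi hu
    have h := hdiam (hx a u) i ((hhle u).trans hu) hi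
    unfold ld at h
    rw [hval u, Real.log_abs] at h
    exact h
  -- the dense indices
  obtain ⟨De, hDe⟩ : ∃ De : Finset ℕ,
      De = (range N).filter (fun i => Rt a i ∧ (i < k₀ ∨ Gm a m i ≤ y₂)) := ⟨_, rfl⟩
  obtain ⟨Lt, hLt⟩ : ∃ Lt : Finset ℕ, Lt = (range N).filter (fun i => ¬ Rt a i) := ⟨_, rfl⟩
  have hcard : (De.card : ℝ) ≤ cnt a k₀ N m y₂ + k₀ := by
    have hsub : De ⊆ range k₀ ∪ (Ico k₀ N).filter (fun u => Rt a u ∧ Gm a m u ≤ y₂) := by
      intro i hi
      rw [hDe, mem_filter, mem_range] at hi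
      rw [mem_union, mem_range, mem_filter, mem_Ico]
      by_cases hik : i < k₀
      · exact Or.inl hik
      · exact Or.inr ⟨⟨not_lt.mp hik, hi.1⟩, hi.2.1, hi.2.2.resolve_left hik⟩
    have hc1 := (card_le_card hsub).trans (card_union_le _ _)
    rw [card_range] at hc1
    have hc2 : ((Ico k₀ N).filter (fun u => Rt a u ∧ Gm a m u ≤ y₂)).card = cnt a k₀ N m y₂ := by
      unfold cnt
      congr 1
    rw [hc2] at hc1
    have : (De.card : ℝ) ≤ ((k₀ + cnt a k₀ N m y₂ : ℕ) : ℝ) := by exact_mod_cast hc1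
    push_cast at this
    linarith
  -- one block
  have hone : ∀ j ∈ Lft D, lD a (hx a (j * Q + Q)) - lD a (hx a (j * Q)) ≤
      (∑ i ∈ De, if (i < hx a (j * Q) ∧ ((Mx a (j * Q) - a i : ℤ) : ℝ) ≤ Real.exp z) then
        (Real.log ((Mx a (j * Q + Q) - a i : ℤ) : ℝ) -
          Real.log ((Mx a (j * Q) - a i : ℤ) : ℝ)) else 0) +
      (∑ i ∈ De, if (hx a (j * Q) ≤ i ∧ i < hx a (j * Q + Q)) then
        Real.log ((Mx a (j * Q + Q) - a i : ℤ) : ℝ) else 0) +
      (∑ i ∈ Lt, if (i < hx a (j * Q)) then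
        (Real.log ((Mx a (j * Q + Q) - a i : ℤ) : ℝ) -
          Real.log ((Mx a (j * Q) - a i : ℤ) : ℝ)) else 0) +
      (((Ico (hx a (j * Q)) (hx a (j * Q + Q))).filter (fun i => ¬ Rt a i)).card : ℝ) *
        (G + C₅) +
      (Real.exp y * m * (1 + Real.log N) * Real.exp (-y₂) +
        Real.exp y * ((el N : ℝ) ^ C₄ * P1 K m N *
          Real.exp ((z - gg a (P1 K m N)) / b - z))) := by
    intro j hj
    obtain ⟨hjD, hjQ⟩ := hL j hj
    obtain ⟨hGy, -, hj1, hk0, hjN, hspan⟩ := hDD j hjD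
    have hvN : hx a (j * Q + Q) ≤ N := (hhle _).trans hjN
    have huv : hx a (j * Q) ≤ hx a (j * Q + Q) := hhm (by omega)
    have huj : hx a (j * Q) ≤ j * Q := hhle _
    have hvj : hx a (j * Q + Q) ≤ j * Q + Q := hhle _
    rw [hGR1 a k₀ C₀ hD (j * Q) (j * Q + Q) (by omega)]
    have hd0 : (0 : ℝ) ≤ ((Mx a (j * Q + Q) - Mx a (j * Q) : ℤ) : ℝ) := by
      have h := hMm (show j * Q ≤ j * Q + Q by omega)
      have h' : 0 ≤ Mx a (j * Q + Q) - Mx a (j * Q) := by linarith
      exact_mod_cast h'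
    -- the terms
    have hT : ∀ i : ℕ, i < hx a (j * Q) →
        Real.log ((Mx a (j * Q + Q) - a i : ℤ) : ℝ) - Real.log ((Mx a (j * Q) - a i : ℤ) : ℝ) ≤
          Real.exp y * (1 / ((Mx a (j * Q) - a i : ℤ) : ℝ)) := by
      intro i hi
      have hx := hpos i (j * Q) hi
      have e : ((Mx a (j * Q + Q) - a i : ℤ) : ℝ) =
          ((Mx a (j * Q) - a i : ℤ) : ℝ) +
            ((Mx a (j * Q + Q) - Mx a (j * Q) : ℤ) : ℝ) := by
        push_cast; ring
      rw [e]
      refine (GRO_log hx hd0).trans ?_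
      rw [mul_one_div]
      exact div_le_div_of_nonneg_right hspan hx.le
    have hTnn : ∀ i : ℕ, i < hx a (j * Q) → 0 ≤
        Real.log ((Mx a (j * Q + Q) - a i : ℤ) : ℝ) -
          Real.log ((Mx a (j * Q) - a i : ℤ) : ℝ) := by
      intro i hi
      have hx := hpos i (j * Q) hi
      have e : ((Mx a (j * Q + Q) - a i : ℤ) : ℝ) =
          ((Mx a (j * Q) - a i : ℤ) : ℝ) +
            ((Mx a (j * Q + Q) - Mx a (j * Q) : ℤ) : ℝ) := by
        push_cast; ring
      have := Real.log_le_log hx (show ((Mx a (j * Q) - a i : ℤ) : ℝ) ≤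
        ((Mx a (j * Q + Q) - a i : ℤ) : ℝ) by rw [e]; linarith)
      linarith
    have hT0 : ∀ i : ℕ, i < hx a (j * Q) →
        0 ≤ Real.exp y * (1 / ((Mx a (j * Q) - a i : ℤ) : ℝ)) := by
      intro i hi
      have hx := hpos i (j * Q) hi
      positivity
    -- four classes
    have hsplit : ∑ i ∈ range (hx a (j * Q)),
        (Real.log ((Mx a (j * Q + Q) - a i : ℤ) : ℝ) -
          Real.log ((Mx a (j * Q) - a i : ℤ) : ℝ)) ≤
        (∑ i ∈ De, if (i < hx a (j * Q) ∧ ((Mx a (j * Q) - a i : ℤ) : ℝ) ≤ Real.exp z) then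
          (Real.log ((Mx a (j * Q + Q) - a i : ℤ) : ℝ) -
            Real.log ((Mx a (j * Q) - a i : ℤ) : ℝ)) else 0) +
        (∑ i ∈ Lt, if (i < hx a (j * Q)) then
          (Real.log ((Mx a (j * Q + Q) - a i : ℤ) : ℝ) -
            Real.log ((Mx a (j * Q) - a i : ℤ) : ℝ)) else 0) +
        (∑ i ∈ (Rf a k₀ (j * Q)).filter (fun i => y₂ < Gm a m i),
          Real.exp y * (1 / ((Mx a (j * Q) - a i : ℤ) : ℝ))) +
        ∑ i ∈ (range (hx a (j * Q))).filter
            (fun i => Real.exp z < ((a (hx a (j * Q)) - a i : ℤ) : ℝ)),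
          Real.exp y * (1 / ((a (hx a (j * Q)) - a i : ℤ) : ℝ)) := by
      have s1 : (∑ i ∈ De, if (i < hx a (j * Q) ∧
            ((Mx a (j * Q) - a i : ℤ) : ℝ) ≤ Real.exp z) then
          (Real.log ((Mx a (j * Q + Q) - a i : ℤ) : ℝ) -
            Real.log ((Mx a (j * Q) - a i : ℤ) : ℝ)) else 0) =
          ∑ i ∈ range (hx a (j * Q)),
            if (i ∈ De ∧ ((Mx a (j * Q) - a i : ℤ) : ℝ) ≤ Real.exp z) then
          (Real.log ((Mx a (j * Q + Q) - a i : ℤ) : ℝ) -
            Real.log ((Mx a (j * Q) - a i : ℤ) : ℝ)) else 0 := by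
        rw [← sum_filter, ← sum_filter]
        apply sum_congr _ fun _ _ => rfl
        ext i
        simp only [mem_filter, mem_range]
        tauto
      have s1' : (∑ i ∈ Lt, if (i < hx a (j * Q)) then
          (Real.log ((Mx a (j * Q + Q) - a i : ℤ) : ℝ) -
            Real.log ((Mx a (j * Q) - a i : ℤ) : ℝ)) else 0) =
          ∑ i ∈ range (hx a (j * Q)), if (i ∈ Lt) then
          (Real.log ((Mx a (j * Q + Q) - a i : ℤ) : ℝ) -
            Real.log ((Mx a (j * Q) - a i : ℤ) : ℝ)) else 0 := by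
        rw [← sum_filter, ← sum_filter]
        apply sum_congr _ fun _ _ => rfl
        ext i
        simp only [mem_filter, mem_range]
        tauto
      have s2 : (∑ i ∈ range (hx a (j * Q)), if (k₀ ≤ i ∧ Rt a i ∧ y₂ < Gm a m i) then
            Real.exp y * (1 / ((Mx a (j * Q) - a i : ℤ) : ℝ)) else 0) ≤
          ∑ i ∈ (Rf a k₀ (j * Q)).filter (fun i => y₂ < Gm a m i),
          Real.exp y * (1 / ((Mx a (j * Q) - a i : ℤ) : ℝ)) := by
        rw [← sum_filter]
        apply sum_le_sum_of_subset_of_nonneg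
        · intro i hi
          rw [mem_filter, mem_range] at hi
          rw [mem_filter, mem_Rf]
          exact ⟨⟨⟨hi.2.1, by omega⟩, hi.2.2.1⟩, hi.2.2.2⟩
        · intro i hi _
          rw [mem_filter, mem_Rf] at hi
          have h := hnn i (j * Q) (by omega)
          positivity
      have s3 : (∑ i ∈ (range (hx a (j * Q))).filter
            (fun i => Real.exp z < ((a (hx a (j * Q)) - a i : ℤ) : ℝ)),
          Real.exp y * (1 / ((a (hx a (j * Q)) - a i : ℤ) : ℝ))) =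
          ∑ i ∈ range (hx a (j * Q)), if (Real.exp z < ((Mx a (j * Q) - a i : ℤ) : ℝ)) then
            Real.exp y * (1 / ((Mx a (j * Q) - a i : ℤ) : ℝ)) else 0 := by
        rw [← sum_filter, hval]
      rw [s1, s1', s3]
      refine le_trans ?_ (add_le_add_left (add_le_add_right s2 _) _)
      rw [← sum_add_distrib, ← sum_add_distrib, ← sum_add_distrib]
      refine sum_le_sum fun i hi => ?_
      rw [mem_range] at hi
      have hTi := hT i hi
      have hTi0 := hT0 i hi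
      have hTin := hTnn i hi
      have hiN : i < N := by omega
      have c1 : 0 ≤ (if (i ∈ De ∧ ((Mx a (j * Q) - a i : ℤ) : ℝ) ≤ Real.exp z) then
          (Real.log ((Mx a (j * Q + Q) - a i : ℤ) : ℝ) -
            Real.log ((Mx a (j * Q) - a i : ℤ) : ℝ)) else 0) := by
        split_ifs
        · exact hTin
        · exact le_rfl
      have c2 : 0 ≤ (if (i ∈ Lt) then
          (Real.log ((Mx a (j * Q + Q) - a i : ℤ) : ℝ) -
            Real.log ((Mx a (j * Q) - a i : ℤ) : ℝ)) else 0) := by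
        split_ifs
        · exact hTin
        · exact le_rfl
      have c3 : 0 ≤ (if (k₀ ≤ i ∧ Rt a i ∧ y₂ < Gm a m i) then
            Real.exp y * (1 / ((Mx a (j * Q) - a i : ℤ) : ℝ)) else 0) := by
        split_ifs
        · exact hTi0
        · exact le_rfl
      have c4 : 0 ≤ (if (Real.exp z < ((Mx a (j * Q) - a i : ℤ) : ℝ)) then
            Real.exp y * (1 / ((Mx a (j * Q) - a i : ℤ) : ℝ)) else 0) := by
        split_ifs
        · exact hTi0
        · exact le_rfl
      by_cases hR : Rt a i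
      · by_cases hfar : Real.exp z < ((Mx a (j * Q) - a i : ℤ) : ℝ)
        · rw [if_pos hfar]
          linarith
        · by_cases hde : i ∈ De
          · rw [if_pos ⟨hde, not_lt.mp hfar⟩]
            linarith
          · have hnd : k₀ ≤ i ∧ Rt a i ∧ y₂ < Gm a m i := by
              rw [hDe, mem_filter, mem_range] at hde
              have h1 : ¬ (i < k₀ ∨ Gm a m i ≤ y₂) := fun h => hde ⟨hiN, hR, h⟩
              rw [not_or, not_lt, not_le] at h1
              exact ⟨h1.1, hR, h1.2⟩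
            rw [if_pos hnd]
            linarith
      · have hLi : i ∈ Lt := by
          rw [hLt, mem_filter, mem_range]
          exact ⟨hiN, hR⟩
        rw [if_pos hLi]
        linarith
    have hin : ∑ i ∈ Ico (hx a (j * Q)) (hx a (j * Q + Q)),
          Real.log ((Mx a (j * Q + Q) - a i : ℤ) : ℝ) ≤
        (∑ i ∈ De, if (hx a (j * Q) ≤ i ∧ i < hx a (j * Q + Q)) then
          Real.log ((Mx a (j * Q + Q) - a i : ℤ) : ℝ) else 0) +
        (((Ico (hx a (j * Q)) (hx a (j * Q + Q))).filter (fun i => ¬ Rt a i)).card : ℝ) *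
          (G + C₅) := by
      rw [← sum_filter_add_sum_filter_not (Ico (hx a (j * Q)) (hx a (j * Q + Q))) (Rt a)]
      have t1 : ∑ i ∈ (Ico (hx a (j * Q)) (hx a (j * Q + Q))).filter (Rt a),
          Real.log ((Mx a (j * Q + Q) - a i : ℤ) : ℝ) =
          ∑ i ∈ De, if (hx a (j * Q) ≤ i ∧ i < hx a (j * Q + Q)) then
          Real.log ((Mx a (j * Q + Q) - a i : ℤ) : ℝ) else 0 := by
        rw [← sum_filter]
        apply sum_congr _ fun _ _ => rfl
        ext i
        rw [mem_filter, mem_Ico, hDe, mem_filter, mem_filter, mem_range]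
        constructor
        · rintro ⟨⟨hi1, hi2⟩, hi3⟩
          refine ⟨⟨by omega, hi3, Or.inr ?_⟩, hi1, hi2⟩
          exact (hGy i (by omega) (by omega)).trans hyy
        · rintro ⟨⟨-, h1, -⟩, h2⟩
          exact ⟨h2, h1⟩
      have t2 : ∑ i ∈ (Ico (hx a (j * Q)) (hx a (j * Q + Q))).filter (fun i => ¬ Rt a i),
          Real.log ((Mx a (j * Q + Q) - a i : ℤ) : ℝ) ≤
          (((Ico (hx a (j * Q)) (hx a (j * Q + Q))).filter (fun i => ¬ Rt a i)).card : ℝ) *
          (G + C₅) := by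
        rw [← nsmul_eq_mul]
        apply sum_le_card_nsmul
        intro i hi
        rw [mem_filter, mem_Ico] at hi
        exact hlogle i (j * Q + Q) (by omega) hjN
      rw [t1]
      linarith
    -- GR3, GR4
    have hg3 := hGR3 a k₀ C₀ hD N m (j * Q) y₂ hm1 hN1 (by omega) (by omega) (hy.trans hyy)
      (fun i hi1 hi2 => (hGy i (by omega) (by omega)).trans hyy)
    have hg4 := hG4' (hx a (j * Q)) z (hRh _) (by omega) hgz hz0
    rw [← mul_sum, ← mul_sum] at hsplit
    have hey : 0 < Real.exp y := Real.exp_pos y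
    have e3 := mul_le_mul_of_nonneg_left hg3 hey.le
    have e4 := mul_le_mul_of_nonneg_left hg4 hey.le
    have e5 : Real.exp y * (m * (1 + Real.log N) * Real.exp (-y₂)) =
        Real.exp y * m * (1 + Real.log N) * Real.exp (-y₂) := by ring
    linarith
  -- the sum over the blocks
  have hRs : Rh a Q (Lft D) ≤ ∑ j ∈ Lft D,
      ((∑ i ∈ De, if (i < hx a (j * Q) ∧ ((Mx a (j * Q) - a i : ℤ) : ℝ) ≤ Real.exp z) then
        (Real.log ((Mx a (j * Q + Q) - a i : ℤ) : ℝ) -
          Real.log ((Mx a (j * Q) - a i : ℤ) : ℝ)) else 0) +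
      (∑ i ∈ De, if (hx a (j * Q) ≤ i ∧ i < hx a (j * Q + Q)) then
        Real.log ((Mx a (j * Q + Q) - a i : ℤ) : ℝ) else 0) +
      (∑ i ∈ Lt, if (i < hx a (j * Q)) then
        (Real.log ((Mx a (j * Q + Q) - a i : ℤ) : ℝ) -
          Real.log ((Mx a (j * Q) - a i : ℤ) : ℝ)) else 0) +
      (((Ico (hx a (j * Q)) (hx a (j * Q + Q))).filter (fun i => ¬ Rt a i)).card : ℝ) *
        (G + C₅) +
      (Real.exp y * m * (1 + Real.log N) * Real.exp (-y₂) +
        Real.exp y * ((el N : ℝ) ^ C₄ * P1 K m N *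
          Real.exp ((z - gg a (P1 K m N)) / b - z)))) := by
    unfold Rh
    exact sum_le_sum hone
  rw [sum_add_distrib, sum_add_distrib, sum_add_distrib, sum_add_distrib, sum_comm,
    sum_comm (s := Lft D) (t := De)
    (f := fun j i => if (hx a (j * Q) ≤ i ∧ i < hx a (j * Q + Q)) then
        Real.log ((Mx a (j * Q + Q) - a i : ℤ) : ℝ) else 0), ← sum_add_distrib,
    sum_comm (s := Lft D) (t := Lt), ← sum_mul, sum_const,
    nsmul_eq_mul] at hRs
  have hspanD : ∀ j ∈ Lft D, j * Q + Q ≤ N ∧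
      ((Mx a (j * Q + Q) - Mx a (j * Q) : ℤ) : ℝ) ≤ Real.exp y := by
    intro j hj
    obtain ⟨-, -, -, -, h1, h2⟩ := hDD j (hLsub hj)
    exact ⟨h1, h2⟩
  have hgg0 : 0 ≤ min (z + 1) (G + C₅) := le_min (by linarith) hGC
  have hdense : ∑ i ∈ De, ((∑ j ∈ Lft D, if (i < hx a (j * Q) ∧
        ((Mx a (j * Q) - a i : ℤ) : ℝ) ≤ Real.exp z) then
        (Real.log ((Mx a (j * Q + Q) - a i : ℤ) : ℝ) -
          Real.log ((Mx a (j * Q) - a i : ℤ) : ℝ)) else 0) +
      ∑ j ∈ Lft D, if (hx a (j * Q) ≤ i ∧ i < hx a (j * Q + Q)) then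
        Real.log ((Mx a (j * Q + Q) - a i : ℤ) : ℝ) else 0) ≤
      ((cnt a k₀ N m y₂ : ℝ) + k₀) * min (z + 1) (G + C₅) := by
    have hlog : Real.log (Real.exp z + Real.exp y) ≤ z + 1 := by
      have h2e : Real.exp z + Real.exp y ≤ Real.exp (z + 1) := by
        have hyz' : Real.exp y ≤ Real.exp z := Real.exp_le_exp.mpr hyz
        have h21 : (2 : ℝ) ≤ Real.exp 1 := by
          have := Real.add_one_le_exp (1 : ℝ); linarith
        rw [Real.exp_add]
        nlinarith [Real.exp_pos z]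
      calc Real.log (Real.exp z + Real.exp y) ≤ Real.log (Real.exp (z + 1)) :=
            Real.log_le_log (by positivity) h2e
        _ = z + 1 := Real.log_exp _
    calc _ ≤ ∑ _i ∈ De, min (z + 1) (G + C₅) := by
          refine sum_le_sum fun i hi => ?_
          rw [hDe, mem_filter, mem_range] at hi
          obtain ⟨g1, g2, -⟩ := hGR2 a k₀ C₀ hD Q i N (Lft D) (Real.exp z) (Real.exp y) hQ1
            (Real.one_le_exp hz0) (Real.one_le_exp hy) hi.1 hspanD
          have g1' := g1 hi.2.1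
          rw [← sum_filter, ← sum_filter]
          refine le_min (g1'.trans hlog) ?_
          refine le_trans (add_le_add_left ?_ _) (g2.trans (hlogle i N hi.1.le le_rfl))
          apply sum_le_sum_of_subset_of_nonneg
          · intro j hj
            rw [mem_filter] at hj ⊢
            exact ⟨hj.1, hj.2.1⟩
          · intro j hj _
            rw [mem_filter] at hj
            have hp := hpos i (j * Q) hj.2
            have h := hMm (show j * Q ≤ j * Q + Q by omega)
            have h' : Mx a (j * Q) - a i ≤ Mx a (j * Q + Q) - a i := by linarith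
            have h'' : ((Mx a (j * Q) - a i : ℤ) : ℝ) ≤ ((Mx a (j * Q + Q) - a i : ℤ) : ℝ) := by
              exact_mod_cast h'
            have := Real.log_le_log hp h''
            linarith
      _ = (De.card : ℝ) * min (z + 1) (G + C₅) := by rw [sum_const, nsmul_eq_mul]
      _ ≤ _ := mul_le_mul_of_nonneg_right hcard hgg0
  -- the `L`-times
  have hNn : (N : ℝ) ≤ n := by
    have h := hF.n_lo
    have : N ≤ n := by omega
    exact_mod_cast this
  have hLpart : ∑ i ∈ Lt, (∑ j ∈ Lft D, if (i < hx a (j * Q)) then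
        (Real.log ((Mx a (j * Q + Q) - a i : ℤ) : ℝ) -
          Real.log ((Mx a (j * Q) - a i : ℤ) : ℝ)) else 0) ≤ C₅ * N + κ * (4 * N) := by
    have h1 : ∀ i ∈ Lt, (∑ j ∈ Lft D, if (i < hx a (j * Q)) then
        (Real.log ((Mx a (j * Q + Q) - a i : ℤ) : ℝ) -
          Real.log ((Mx a (j * Q) - a i : ℤ) : ℝ)) else 0) ≤
          C₅ + κ * (Real.log n - Real.log i) := by
      intro i hi
      rw [hLt, mem_filter, mem_range] at hi
      obtain ⟨-, -, g3⟩ := hGR2 a k₀ C₀ hD Q i N (Lft D) (Real.exp z) (Real.exp y) hQ1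
            (Real.one_le_exp hz0) (Real.one_le_exp hy) hi.1 hspanD
      have g3' := g3 hi.2
      rw [← sum_filter]
      have hd := hDIA2 i i hi.2 le_rfl
      have hl := hlogle i N hi.1.le le_rfl
      have hi1 : 1 ≤ i := (hnR i hi.2).1
      have hrec := hF.lrec.2 i hi1 (by have := hF.n_lo; omega)
      rw [← hGdef] at hrec
      linarith
    refine (sum_le_sum h1).trans ?_
    have hsub : Lt ⊆ Ico 1 N := by
      intro i hi
      rw [hLt, mem_filter, mem_range] at hi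
      rw [mem_Ico]
      exact ⟨(hnR i hi.2).1, hi.1⟩
    have hterm : ∀ i ∈ Ico 1 N, 0 ≤ C₅ + κ * (Real.log n - Real.log i) := by
      intro i hi
      rw [mem_Ico] at hi
      have hi0 : (0 : ℝ) < i := by
        have : 0 < i := by omega
        exact_mod_cast this
      have hin : (i : ℝ) ≤ n := le_trans (by exact_mod_cast hi.2.le) hNn
      have := Real.log_le_log hi0 hin
      have h2 : 0 ≤ Real.log n - Real.log i := by linarith
      positivity
    refine (sum_le_sum_of_subset_of_nonneg hsub (fun i hi _ => hterm i hi)).trans ?_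
    rw [sum_add_distrib, ← mul_sum, sum_const, Nat.card_Ico, nsmul_eq_mul]
    have hs := (hLSM n N Q hN1 hF.n_lo hF.n_hi hQ1).1
    have h3 := mul_le_mul_of_nonneg_left hs hκ
    have h4 : ((N - 1 : ℕ) : ℝ) * C₅ ≤ C₅ * N := by
      rw [mul_comm]
      apply mul_le_mul_of_nonneg_left _ hC₅
      exact_mod_cast Nat.sub_le N 1
    linarith
  have hLc := GRO_Lcount hMXB a k₀ C₀ hD Q hQ1 D (fun j hj => (hDD j hj).2.1)
  have hLc2 := mul_le_mul_of_nonneg_right hLc hGC
  -- the constants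
  have hsh : 0 ≤ (Q : ℝ) * ∑ j ∈ D, (1 - sh a Q j) := by
    refine le_trans ?_ hLc
    apply sum_nonneg
    intro j _
    positivity
  set B : ℝ := (Q : ℝ) * ∑ j ∈ D, (1 - sh a Q j) with hB
  have hκ4 : 0 ≤ 4 * κ := by positivity
  have hmin : ((cnt a k₀ N m y₂ : ℝ) + k₀) * min (z + 1) (G + C₅) ≤
      ((cnt a k₀ N m y₂ : ℝ) + k₀) * min (z + 1) (G + (C₄ + C₅ + 4 * κ)) := by
    apply mul_le_mul_of_nonneg_left _ (by positivity)
    apply min_le_min le_rfl
    linarith
  have hB2 : B * (G + C₅) ≤ (G + (C₄ + C₅ + 4 * κ)) * B := by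
    rw [mul_comm]
    apply mul_le_mul_of_nonneg_right _ hsh
    linarith
  have hN0 : (0 : ℝ) ≤ N := by positivity
  have hCN : C₅ * N + κ * (4 * N) ≤ (C₄ + C₅ + 4 * κ) * N := by
    nlinarith [mul_nonneg hC₄ hN0]
  have helR : (1 : ℝ) ≤ el N := by exact_mod_cast hel
  have hpow : (el N : ℝ) ^ C₄ ≤ (el N : ℝ) ^ (C₄ + C₅ + 4 * κ) :=
    Real.rpow_le_rpow_of_exponent_le helR (by linarith)
  have hlogN : 0 ≤ 1 + Real.log N := by
    have : (1 : ℝ) ≤ N := by exact_mod_cast hN1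
    have := Real.log_nonneg this
    linarith
  have hterm : Real.exp y * m * (1 + Real.log N) * Real.exp (-y₂) +
        Real.exp y * ((el N : ℝ) ^ C₄ * P1 K m N *
          Real.exp ((z - gg a (P1 K m N)) / b - z)) ≤
      Real.exp y * m * (1 + Real.log N) * Real.exp (-y₂) +
        Real.exp y * ((el N : ℝ) ^ (C₄ + C₅ + 4 * κ) * P1 K m N *
          Real.exp ((z - gg a (P1 K m N)) / b - z)) := by
    gcongr
  have hterm0 : 0 ≤ Real.exp y * m * (1 + Real.log N) * Real.exp (-y₂) +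
        Real.exp y * ((el N : ℝ) ^ (C₄ + C₅ + 4 * κ) * P1 K m N *
          Real.exp ((z - gg a (P1 K m N)) / b - z)) := by positivity
  have hcardL : ((Lft D).card : ℝ) ≤ D.card := by exact_mod_cast card_le_card hLsub
  have hlast : ((Lft D).card : ℝ) * (Real.exp y * m * (1 + Real.log N) * Real.exp (-y₂) +
        Real.exp y * ((el N : ℝ) ^ C₄ * P1 K m N *
          Real.exp ((z - gg a (P1 K m N)) / b - z))) ≤
      D.card * (Real.exp y * m * (1 + Real.log N) * Real.exp (-y₂) +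
        Real.exp y * ((el N : ℝ) ^ (C₄ + C₅ + 4 * κ) * P1 K m N *
          Real.exp ((z - gg a (P1 K m N)) / b - z))) :=
    (mul_le_mul_of_nonneg_left hterm (by positivity)).trans
      (mul_le_mul_of_nonneg_right hcardL hterm0)
  linarith

end Pool.Agent.Work.MP_b29d7f_two
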