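import Pool.Agent.Work.MP_b29d7f_two.Interface2

/-!
# Block GWC: the number of good windows in a stable block
-/

namespace Pool.Agent.Work.MP_b29d7f_two

open Finset

/-- the indicator of the `R`-times -/
noncomputable def gwcI (a : ℕ → ℤ) (x : ℕ) : ℝ := by
  classical
  exact if Rt a x then 1 else 0

theorem gwcI_nonneg (a : ℕ → ℤ) (x : ℕ) : 0 ≤ gwcI a x := by
  classical
  unfold gwcI
  split_ifs <;> norm_num

theorem gwcI_le (a : ℕ → ℤ) (x : ℕ) : gwcI a x ≤ 1 := by
  classical
  unfold gwcI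
  split_ifs <;> norm_num

theorem gwc_Rc (a : ℕ → ℤ) (s t : ℕ) : (Rc a s t : ℝ) = ∑ x ∈ Ico s t, gwcI a x := by
  classical
  unfold Rc Rf gwcI
  rw [Finset.card_filter]
  push_cast
  rfl

theorem gwc_sh_nonneg (a : ℕ → ℤ) (W i : ℕ) : 0 ≤ sh a W i := by
  unfold sh
  positivity

theorem gwc_sh_le (a : ℕ → ℤ) (W i : ℕ) : sh a W i ≤ 1 := by
  unfold sh
  apply div_le_one_of_le₀ _ (Nat.cast_nonneg _)
  rw [gwc_Rc]
  calc ∑ x ∈ Ico (i * W) (i * W + W), gwcI a x ≤ ∑ _x ∈ Ico (i * W) (i * W + W), (1 : ℝ) :=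
        Finset.sum_le_sum fun x _ => gwcI_le a x
    _ = W := by simp

theorem gwc_block (a : ℕ → ℤ) (m i : ℕ) (hm : 1 ≤ m) :
    ∑ x ∈ Ico (i * m) (i * m + m), (gwcI a x - sh a m (x / m)) = 0 := by
  have h1 : ∀ x ∈ Ico (i * m) (i * m + m), gwcI a x - sh a m (x / m) = gwcI a x - sh a m i := by
    intro x hx
    rw [Finset.mem_Ico] at hx
    have : x / m = i := by
      apply Nat.div_eq_of_lt_le
      · exact hx.1
      · rw [Nat.succ_mul]
        exact hx.2
    rw [this]
  rw [Finset.sum_congr rfl h1, Finset.sum_sub_distrib, ← gwc_Rc, Finset.sum_const, Nat.card_Ico,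
    nsmul_eq_mul]
  unfold sh
  have hm' : (0 : ℝ) < m := by exact_mod_cast hm
  have e : ((i * m + m - i * m : ℕ) : ℝ) = m := by
    rw [Nat.add_sub_cancel_left]
  rw [e]
  field_simp
  ring

theorem gwc_mul (a : ℕ → ℤ) (m i : ℕ) (hm : 1 ≤ m) :
    ∑ x ∈ range (i * m), (gwcI a x - sh a m (x / m)) = 0 := by
  induction i with
  | zero => simp
  | succ i ih =>
    rw [Nat.succ_mul, Finset.range_eq_Ico, ← Finset.sum_Ico_consecutive _ (Nat.zero_le (i * m))
      (Nat.le_add_right _ _), gwc_block a m i hm, ← Finset.range_eq_Ico, ih, add_zero]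

theorem gwc_F (a : ℕ → ℤ) (m v : ℕ) (hm : 1 ≤ m) :
    |∑ x ∈ range v, (gwcI a x - sh a m (x / m))| ≤ m := by
  have h1 : v / m * m ≤ v := Nat.div_mul_le_self v m
  rw [Finset.range_eq_Ico, ← Finset.sum_Ico_consecutive _ (Nat.zero_le (v / m * m)) h1,
    ← Finset.range_eq_Ico, gwc_mul a m _ hm, zero_add]
  calc |∑ x ∈ Ico (v / m * m) v, (gwcI a x - sh a m (x / m))|
      ≤ ∑ x ∈ Ico (v / m * m) v, |gwcI a x - sh a m (x / m)| := Finset.abs_sum_le_sum_abs _ _
    _ ≤ ∑ _x ∈ Ico (v / m * m) v, (1 : ℝ) := by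
        apply Finset.sum_le_sum
        intro x _
        rw [abs_le]
        have := gwcI_nonneg a x
        have := gwcI_le a x
        have := gwc_sh_nonneg a m (x / m)
        have := gwc_sh_le a m (x / m)
        constructor <;> linarith
    _ = ((v - v / m * m : ℕ) : ℝ) := by simp
    _ ≤ m := by
        have h2 : v - v / m * m ≤ m := by
          have := Nat.mod_add_div v m
          have h3 := Nat.mod_lt v (by omega : 0 < m)
          rw [mul_comm m] at this
          omega
        exact_mod_cast h2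

theorem gwc_int (a : ℕ → ℤ) (m u d : ℕ) (hm : 1 ≤ m) :
    |∑ x ∈ Ico u (u + d), (gwcI a x - sh a m (x / m))| ≤ 2 * m := by
  have h1 := gwc_F a m u hm
  have h2 := gwc_F a m (u + d) hm
  have h3 : ∑ x ∈ range u, (gwcI a x - sh a m (x / m)) +
      ∑ x ∈ Ico u (u + d), (gwcI a x - sh a m (x / m)) =
      ∑ x ∈ range (u + d), (gwcI a x - sh a m (x / m)) := by
    simp only [Finset.range_eq_Ico]
    rw [Finset.sum_Ico_consecutive _ (Nat.zero_le _) (Nat.le_add_right _ _)]
  rw [abs_le] at h1 h2 ⊢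
  constructor <;> linarith [h1.1, h1.2, h2.1, h2.2]

/-- a window with few bad indices is good -/
theorem gwc_good (a : ℕ → ℤ) (m Q w j u : ℕ) (es : ℝ) (hm : 1 ≤ m)
    (hes : 0 < es) (hes1 : es ≤ 1) (h2m : 2 * (m : ℝ) ≤ es * w)
    (hu : j * Q ≤ u) (hu2 : u + w ≤ j * Q + Q) (B : Finset ℕ)
    (hB : ∀ x ∈ Ico (j * Q) (j * Q + Q), es < |sh a m (x / m) - sh a Q j| → x ∈ B)
    (hBc : (((Ico u (u + w + 1)).filter (· ∈ B)).card : ℝ) ≤ es * w) :
    GoodW a w (sh a Q j) (4 * es) u := by
  classical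
  intro d hd
  have hρ0 := gwc_sh_nonneg a Q j
  have hρ1 := gwc_sh_le a Q j
  have h1 : (Rc a u (u + d) : ℝ) - sh a Q j * d =
      ∑ x ∈ Ico u (u + d), (gwcI a x - sh a m (x / m)) +
      ∑ x ∈ Ico u (u + d), (sh a m (x / m) - sh a Q j) := by
    rw [← Finset.sum_add_distrib]
    have e : ∀ x ∈ Ico u (u + d), (gwcI a x - sh a m (x / m)) + (sh a m (x / m) - sh a Q j) =
        gwcI a x - sh a Q j := by
      intro x _
      ring
    rw [Finset.sum_congr rfl e, Finset.sum_sub_distrib, ← gwc_Rc, Finset.sum_const, Nat.card_Ico,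
      nsmul_eq_mul, Nat.add_sub_cancel_left]
    ring
  have h2 : |∑ x ∈ Ico u (u + d), (sh a m (x / m) - sh a Q j)| ≤
      es * (w + 1) + (es * w + 1) := by
    calc |∑ x ∈ Ico u (u + d), (sh a m (x / m) - sh a Q j)|
        ≤ ∑ x ∈ Ico u (u + d), |sh a m (x / m) - sh a Q j| := Finset.abs_sum_le_sum_abs _ _
      _ ≤ ∑ x ∈ Ico u (u + w + 1), |sh a m (x / m) - sh a Q j| := by
          apply Finset.sum_le_sum_of_subset_of_nonneg
          · apply Finset.Ico_subset_Ico_right
            omega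
          · intro x _ _
            exact abs_nonneg _
      _ ≤ ∑ x ∈ Ico u (u + w + 1), (es + ((if x ∈ B then 1 else 0) +
            (if x = j * Q + Q then 1 else 0))) := by
          apply Finset.sum_le_sum
          intro x hx
          rw [Finset.mem_Ico] at hx
          have hle : |sh a m (x / m) - sh a Q j| ≤ 1 := by
            rw [abs_le]
            have := gwc_sh_nonneg a m (x / m)
            have := gwc_sh_le a m (x / m)
            constructor <;> linarith
          by_cases hxe : x = j * Q + Q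
          · rw [if_pos hxe]
            have : (0 : ℝ) ≤ if x ∈ B then 1 else 0 := by split_ifs <;> norm_num
            linarith
          · rw [if_neg hxe]
            have hxI : x ∈ Ico (j * Q) (j * Q + Q) := by
              rw [Finset.mem_Ico]
              omega
            by_cases hbad : es < |sh a m (x / m) - sh a Q j|
            · rw [if_pos (hB x hxI hbad)]
              linarith
            · push Not at hbad
              have : (0 : ℝ) ≤ if x ∈ B then 1 else 0 := by split_ifs <;> norm_num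
              linarith
      _ = es * (w + 1) + (((Ico u (u + w + 1)).filter (· ∈ B)).card +
            ∑ x ∈ Ico u (u + w + 1), (if x = j * Q + Q then (1 : ℝ) else 0)) := by
          rw [Finset.sum_add_distrib, Finset.sum_add_distrib, Finset.sum_const, Nat.card_Ico,
            nsmul_eq_mul, Finset.card_filter]
          have e : ((u + w + 1 - u : ℕ) : ℝ) = w + 1 := by
            rw [show u + w + 1 - u = w + 1 by omega]
            push_cast
            ring
          rw [e]
          push_cast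
          ring
      _ ≤ es * (w + 1) + (es * w + 1) := by
          have : ∑ x ∈ Ico u (u + w + 1), (if x = j * Q + Q then (1 : ℝ) else 0) ≤ 1 := by
            rw [Finset.sum_ite_eq']
            split_ifs <;> norm_num
          linarith
  have h3 := gwc_int a m u d hm
  have hm' : (1 : ℝ) ≤ m := by exact_mod_cast hm
  rw [h1]
  calc |∑ x ∈ Ico u (u + d), (gwcI a x - sh a m (x / m)) +
      ∑ x ∈ Ico u (u + d), (sh a m (x / m) - sh a Q j)|
      ≤ |∑ x ∈ Ico u (u + d), (gwcI a x - sh a m (x / m))| +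
        |∑ x ∈ Ico u (u + d), (sh a m (x / m) - sh a Q j)| := abs_add_le _ _
    _ ≤ 2 * m + (es * (w + 1) + (es * w + 1)) := add_le_add h3 h2
    _ ≤ 4 * es * w := by nlinarith

theorem p_GWC (_ : Stmt_MXB) : Stmt_GWC := by
  classical
  intro a m Q w j es hm hmQ hes hes1 h2m hwQ hw hbd
  obtain ⟨B, hBdef⟩ : ∃ B : Finset ℕ, B =
    ((Ico (j * Q) (j * Q + Q)).filter fun u => es < |sh a m (u / m) - sh a Q j|) := ⟨_, rfl⟩
  have hBc : (B.card : ℝ) ≤ es ^ 2 * Q := by
    rw [hBdef]
    unfold bd at hbd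
    convert hbd
  have hw' : (1 : ℝ) ≤ w := by exact_mod_cast hw
  have hwQ' : w ≤ Q := by
    have : (w : ℝ) ≤ Q := by
      have : (0 : ℝ) ≤ Q := Nat.cast_nonneg _
      nlinarith
    exact_mod_cast this
  obtain ⟨U, hU⟩ : ∃ U : Finset ℕ, U = Ico (j * Q) (j * Q + Q - w + 1) := ⟨_, rfl⟩
  have hUc : (U.card : ℝ) = Q - w + 1 := by
    rw [hU, Nat.card_Ico, show j * Q + Q - w + 1 - j * Q = Q - w + 1 by omega]
    push_cast [hwQ']
    ring
  -- the bad windows
  obtain ⟨V, hV⟩ : ∃ V : Finset ℕ, V =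
    U.filter fun u => es * w < (((Ico u (u + w + 1)).filter (· ∈ B)).card : ℝ) := ⟨_, rfl⟩
  have hVc : (V.card : ℝ) * (es * w) ≤ (w + 1) * B.card := by
    calc (V.card : ℝ) * (es * w) = ∑ _u ∈ V, es * w := by rw [Finset.sum_const, nsmul_eq_mul]
      _ ≤ ∑ u ∈ V, (((Ico u (u + w + 1)).filter (· ∈ B)).card : ℝ) := by
          apply Finset.sum_le_sum
          intro u hu
          rw [hV, Finset.mem_filter] at hu
          exact hu.2.le
      _ ≤ ∑ u ∈ V, ∑ x ∈ B, (if x ∈ Ico u (u + w + 1) then (1 : ℝ) else 0) := by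
          apply Finset.sum_le_sum
          intro u _
          rw [← Finset.sum_filter, Finset.sum_const, nsmul_eq_mul, mul_one]
          have : ((Ico u (u + w + 1)).filter (· ∈ B)) ⊆ B.filter (· ∈ Ico u (u + w + 1)) := by
            intro x hx
            rw [Finset.mem_filter] at hx ⊢
            exact ⟨hx.2, hx.1⟩
          exact_mod_cast Finset.card_le_card this
      _ = ∑ x ∈ B, ∑ u ∈ V, (if x ∈ Ico u (u + w + 1) then (1 : ℝ) else 0) := Finset.sum_comm
      _ ≤ ∑ _x ∈ B, ((w : ℝ) + 1) := by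
          apply Finset.sum_le_sum
          intro x _
          rw [← Finset.sum_filter, Finset.sum_const, nsmul_eq_mul, mul_one]
          have : (V.filter fun u => x ∈ Ico u (u + w + 1)) ⊆ Ico (x - w) (x + 1) := by
            intro u hu
            rw [Finset.mem_filter, Finset.mem_Ico] at hu
            rw [Finset.mem_Ico]
            omega
          have h2 := Finset.card_le_card this
          rw [Nat.card_Ico] at h2
          have h3 : (V.filter fun u => x ∈ Ico u (u + w + 1)).card ≤ w + 1 := by omega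
          exact_mod_cast h3
      _ = (w + 1) * B.card := by rw [Finset.sum_const, nsmul_eq_mul]; ring
  have hVc2 : (V.card : ℝ) ≤ 2 * es * Q := by
    have h1 : (V.card : ℝ) * (es * w) ≤ (2 * es * Q) * (es * w) := by
      have hQ0 : (0 : ℝ) ≤ Q := Nat.cast_nonneg _
      calc (V.card : ℝ) * (es * w) ≤ (w + 1) * B.card := hVc
        _ ≤ (w + 1) * (es ^ 2 * Q) := by gcongr
        _ ≤ (2 * w) * (es ^ 2 * Q) := by
            apply mul_le_mul_of_nonneg_right _ (by positivity)
            linarith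
        _ = (2 * es * Q) * (es * w) := by ring
    exact le_of_mul_le_mul_right h1 (by positivity)
  have hsub : U \ V ⊆ GW a (j * Q) Q w (sh a Q j) (4 * es) := by
    intro u hu
    rw [Finset.mem_sdiff] at hu
    have hu1 := hu.1
    rw [hU, Finset.mem_Ico] at hu1
    rw [mem_GW]
    refine ⟨hu1, ?_⟩
    refine gwc_good a m Q w j u es hm hes hes1 h2m hu1.1 (by omega) B ?_ ?_
    · intro x hx hbad
      rw [hBdef, Finset.mem_filter]
      exact ⟨hx, hbad⟩
    · by_contra hcon
      push Not at hcon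
      apply hu.2
      rw [hV, Finset.mem_filter]
      exact ⟨hu.1, hcon⟩
  have hVU : V ⊆ U := by
    rw [hV]
    exact Finset.filter_subset _ _
  have h1 := Finset.card_le_card hsub
  rw [Finset.card_sdiff_of_subset hVU] at h1
  have h2 : (U.card : ℝ) - V.card ≤ ((GW a (j * Q) Q w (sh a Q j) (4 * es)).card : ℝ) := by
    have h3 : U.card ≤ (GW a (j * Q) Q w (sh a Q j) (4 * es)).card + V.card := by omega
    have h4 : (U.card : ℝ) ≤ (GW a (j * Q) Q w (sh a Q j) (4 * es)).card + V.card := by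
      exact_mod_cast h3
    linarith
  rw [hUc] at h2
  linarith

end Pool.Agent.Work.MP_b29d7f_two
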