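import Pool.Agent.Work.MP_b29d7f_two.Interface1

/-!
# One-sided sets of exponent smaller than one half: block JUMP
-/

namespace Pool.Agent.Work.MP_b29d7f_two

open Finset
open Pool.Agent.Work.MP_b29d7f_nt (IsPOrdering HasSimultaneousOrdering PS vd ld tv)
open Pool.Agent.Work.MP_b29d7f_half (Ord A wv lD)
open Pool.Agent.Work.MP_b29d7f_sep (nv EW EL)

theorem stmt_JUMP (hPAD : Stmt_PAD) (hPAE : Stmt_PAE) (hVLM : Stmt_VLM) (hGGB : Stmt_GGB) :
    Stmt_JUMP := by
  intro a k₀ C₀ h N M p hN hp hC u v huv hvM hvN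
  obtain ⟨-, hn0, hF1, -, -⟩ := hPAD a h.ord p hp
  obtain ⟨-, hE⟩ := hPAE a h.ord
  obtain ⟨-, -, hz, -, hl, -⟩ := hE p hp
  obtain ⟨-, -, -, -, -, hG, -⟩ := hGGB a k₀ C₀ h
  have hL0 : 0 ≤ 2 * C₀ * Real.log N := by
    have h1 : 0 ≤ Real.log N := Real.log_nonneg (by exact_mod_cast (by omega : 1 ≤ N))
    have h2 := h.one_le
    positivity
  unfold Catch at hC
  push Not at hC
  obtain ⟨j, hvj, hj2, hj⟩ := hC u v huv hvM hvN
  have h1 : nv p a v ≤ ∑ i ∈ range v, vl p a j i := hF1 v j hvj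
  have h2 : ∑ i ∈ range v, vl p a j i = ∑ i ∈ range u, vl p a j i := by
    symm
    refine Finset.sum_subset (Finset.range_mono huv) fun i hi hiu => ?_
    rw [Finset.mem_range] at hi hiu
    exact (hz j i (by omega)).2 (hj i (by omega) hi)
  rcases Nat.eq_zero_or_pos u with hu0 | hu0
  · rw [h2, hu0, Finset.range_zero, Finset.sum_empty] at h1
    have h3 : nv p a v = 0 := by omega
    rw [h3, hu0, hn0, sub_self, zero_mul]
    exact hL0
  obtain ⟨l, hlu, hV⟩ := hVLM a h.ord p hp u j hu0 (huv.trans hvj)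
  have h3 : nv p a v ≤ nv p a u + vl p a j l := by rw [h2] at h1; exact h1.trans hV
  have h3' : (nv p a v : ℝ) - nv p a u ≤ vl p a j l := by
    have : (nv p a v : ℝ) ≤ nv p a u + vl p a j l := by exact_mod_cast h3
    linarith
  have hp0 : 0 < Real.log p := Real.log_pos (by exact_mod_cast hp.one_lt)
  calc ((nv p a v : ℝ) - nv p a u) * Real.log p ≤ vl p a j l * Real.log p :=
        mul_le_mul_of_nonneg_right h3' hp0.le
    _ = Real.log p * vl p a j l := mul_comm _ _
    _ ≤ ld (a j) (a l) := hl j l (by omega)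
    _ ≤ 2 * C₀ * Real.log N := hG j l N hN (by omega) (by omega)

end Pool.Agent.Work.MP_b29d7f_two
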