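import Pool.Agent.Work.MP_b29d7f_two.Interface1

/-!
# Block LIM: the lower limit of `f(k) / log k`
-/

namespace Pool.Agent.Work.MP_b29d7f_two

theorem stmt_LIM : Stmt_LIM := by
  intro f c C hc hC
  set T : Set ℝ := {β : ℝ | ∃ k₁ : ℕ, ∀ k, k₁ ≤ k → β * Real.log k ≤ f k} with hT
  have hub : ∀ β ∈ T, β ≤ C := by
    intro β hβ
    obtain ⟨k₁, h1⟩ := hβ
    obtain ⟨k₂, h2⟩ := hC
    have e1 := h1 (max (max k₁ k₂) 3) (le_trans (le_max_left _ _) (le_max_left _ _))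
    have e2 := h2 (max (max k₁ k₂) 3) (le_trans (le_max_right _ _) (le_max_left _ _))
    have h3 : (3 : ℝ) ≤ ((max (max k₁ k₂) 3 : ℕ) : ℝ) := by
      exact_mod_cast le_max_right (max k₁ k₂) 3
    have hl : 0 < Real.log ((max (max k₁ k₂) 3 : ℕ) : ℝ) := Real.log_pos (by linarith)
    exact le_of_mul_le_mul_right (e1.trans e2) hl
  have hbdd : BddAbove T := ⟨C, fun β hβ => hub β hβ⟩
  have hne : T.Nonempty := ⟨c, hc⟩
  have hlog : ∀ k : ℕ, 0 ≤ Real.log (k : ℝ) := fun k => Real.log_natCast_nonneg k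
  refine ⟨sSup T, le_csSup hbdd hc, csSup_le hne hub, ?_⟩
  intro ε hε
  constructor
  · obtain ⟨β, hβ, hlt⟩ := exists_lt_of_lt_csSup hne (show sSup T - ε < sSup T by linarith)
    obtain ⟨k₁, h1⟩ := hβ
    refine ⟨k₁, fun k hk => le_trans ?_ (h1 k hk)⟩
    exact mul_le_mul_of_nonneg_right hlt.le (hlog k)
  · intro k₁
    by_contra hcon
    push Not at hcon
    have hmem : sSup T + ε ∈ T := ⟨k₁, fun k hk => (hcon k hk).le⟩
    have := le_csSup hbdd hmem
    linarith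

end Pool.Agent.Work.MP_b29d7f_two
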