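import Pool.Agent.Work.MP_b29d7f_two.Interface3

/-!
# Block LLD: the quantities of the levels
-/

namespace Pool.Agent.Work.MP_b29d7f_two

open Finset
open Pool.Agent.Work.MP_b29d7f_nt (IsPOrdering HasSimultaneousOrdering PS vd ld tv)

theorem mz_eq (X : Finset ℤ) (f : ℤ → ℝ) (n : ℕ) (c : ZMod n) :
    Mz X f n c = ∑ x ∈ X, if (x : ZMod n) = c then f x else 0 := by
  classical
  unfold Mz
  rw [Finset.sum_filter]

theorem mz_nonneg {X : Finset ℤ} {f : ℤ → ℝ} (hf : ∀ x, 0 ≤ f x) (n : ℕ) (c : ZMod n) :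
    0 ≤ Mz X f n c := by
  unfold Mz
  exact Finset.sum_nonneg fun x _ => hf x

theorem mz_sum_mul (X : Finset ℤ) (f : ℤ → ℝ) (n : ℕ) [NeZero n] (g : ZMod n → ℝ) :
    ∑ c : ZMod n, Mz X f n c * g c = ∑ x ∈ X, f x * g (x : ZMod n) := by
  classical
  have h : ∀ c : ZMod n, Mz X f n c * g c =
      ∑ x ∈ X, if (x : ZMod n) = c then f x * g c else 0 := by
    intro c
    rw [mz_eq, Finset.sum_mul]
    refine Finset.sum_congr rfl fun x _ => ?_
    split_ifs <;> simp
  rw [Finset.sum_congr rfl fun c _ => h c, Finset.sum_comm]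
  refine Finset.sum_congr rfl fun x _ => ?_
  rw [Finset.sum_ite_eq]
  simp

theorem mz_sum (X : Finset ℤ) (f : ℤ → ℝ) (n : ℕ) [NeZero n] :
    ∑ c : ZMod n, Mz X f n c = ∑ x ∈ X, f x := by
  have := mz_sum_mul X f n (fun _ => 1)
  simpa using this

theorem mz_sq (X : Finset ℤ) (f : ℤ → ℝ) (n : ℕ) [NeZero n] :
    ∑ c : ZMod n, (Mz X f n c) ^ 2 =
      ∑ x ∈ X, ∑ y ∈ X, if (x : ZMod n) = (y : ZMod n) then f x * f y else 0 := by
  classical
  have h : ∀ c : ZMod n, (Mz X f n c) ^ 2 = Mz X f n c * Mz X f n c := fun c => sq _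
  rw [Finset.sum_congr rfl fun c _ => h c, mz_sum_mul X f n (fun c => Mz X f n c)]
  refine Finset.sum_congr rfl fun x _ => ?_
  rw [mz_eq, Finset.mul_sum]
  refine Finset.sum_congr rfl fun y _ => ?_
  by_cases hxy : (x : ZMod n) = (y : ZMod n)
  · rw [if_pos hxy, if_pos hxy.symm]
  · rw [if_neg hxy, if_neg (fun h => hxy h.symm), mul_zero]

theorem tv_real (p L : ℕ) (x y : ℤ) :
    (tv p L (x - y) : ℝ) = ∑ i ∈ Icc 1 L, if (x : ZMod (p ^ i)) = (y : ZMod (p ^ i)) then 1 else 0 := by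
  classical
  unfold Pool.Agent.Work.MP_b29d7f_nt.tv
  rw [Finset.card_filter]
  push_cast
  refine Finset.sum_congr rfl fun i _ => ?_
  have h : (p : ℤ) ^ i ∣ x - y ↔ (x : ZMod (p ^ i)) = (y : ZMod (p ^ i)) := by
    rw [eq_comm, ZMod.intCast_eq_intCast_iff_dvd_sub]
    push_cast
    exact Iff.rfl
  by_cases hd : (p : ℤ) ^ i ∣ x - y
  · rw [if_pos hd, if_pos (h.1 hd)]
  · rw [if_neg hd, if_neg (fun h' => hd (h.2 h'))]

/-- the energy as a sum over the levels -/
theorem energy_levels (X : Finset ℤ) (f : ℤ → ℝ) (p L : ℕ) [NeZero p] :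
    ∑ x ∈ X, ∑ y ∈ X, (tv p L (x - y) : ℝ) * f x * f y =
      ∑ i ∈ Icc 1 L, ∑ c : ZMod (p ^ i), (Mz X f (p ^ i) c) ^ 2 := by
  have h : ∀ i ∈ Icc 1 L, ∑ c : ZMod (p ^ i), (Mz X f (p ^ i) c) ^ 2 =
      ∑ x ∈ X, ∑ y ∈ X, if (x : ZMod (p ^ i)) = (y : ZMod (p ^ i)) then f x * f y else 0 :=
    fun i _ => mz_sq X f (p ^ i)
  have h' := Finset.sum_congr (rfl : Icc 1 L = Icc 1 L) h
  rw [h', Finset.sum_comm (s := Icc 1 L) (t := X)]
  refine Finset.sum_congr rfl fun x _ => ?_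
  rw [Finset.sum_comm (s := Icc 1 L) (t := X)]
  refine Finset.sum_congr rfl fun y _ => ?_
  rw [tv_real, Finset.sum_mul, Finset.sum_mul]
  refine Finset.sum_congr rfl fun i _ => ?_
  split_ifs <;> ring

theorem mz_sub (X : Finset ℤ) (f g : ℤ → ℝ) (n : ℕ) (c : ZMod n) :
    Mz X (fun x => f x - g x) n c = Mz X f n c - Mz X g n c := by
  unfold Mz
  simp only [Finset.sum_sub_distrib]

theorem Xe_eq (p L : ℕ) (K : Finset ℤ) :
    Xe p L K = ∑ x ∈ K, ∑ y ∈ K, (tv p L (x - y) : ℝ) * (1 / (K.card : ℝ)) * (1 / (K.card : ℝ)) := by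
  unfold Xe
  rw [Finset.sum_div]
  refine Finset.sum_congr rfl fun x _ => ?_
  rw [Finset.sum_div]
  refine Finset.sum_congr rfl fun y _ => ?_
  ring

theorem stmt_LLD (hE : Stmt_ENG) : Stmt_LLD := by
  classical
  intro X D K p L hp0 μ θ hp hμ hD hK
  have hDc : (0 : ℝ) < D.card := by exact_mod_cast hD.card_pos
  set ν : ℤ → ℝ := fun _ => 1 / (D.card : ℝ) with hν
  have hνn : ∀ x, 0 ≤ ν x := fun x => by rw [hν]; positivity
  obtain ⟨-, hE2, -⟩ := hE X p L
  have hsum2 : ∀ i : ℕ, ∑ c : ZMod (p ^ i), Mz D ν (p ^ i) c = 1 := by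
    intro i
    rw [mz_sum, hν, Finset.sum_const, nsmul_eq_mul]
    field_simp
  have h4 : ∑ i ∈ Icc 1 L, ∑ c : ZMod (p ^ i), (Mz D ν (p ^ i) c) ^ 2 = Xe p L D := by
    rw [← energy_levels D ν p L, Xe_eq]
  refine ⟨fun i c => ⟨mz_nonneg hμ.nonneg _ c, mz_nonneg hνn _ c⟩,
    fun i => ⟨by rw [mz_sum]; exact hμ.sum_one, hsum2 i⟩, ?_, h4, ?_, ?_⟩
  · rw [← energy_levels X μ p L]
    have h : ∀ x ∈ X, ∑ y ∈ X, (tv p L (x - y) : ℝ) * μ x * μ y = μ x * θ := by
      intro x hx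
      rw [← hμ.pot x hx, Finset.mul_sum]
      refine Finset.sum_congr rfl fun y _ => ?_
      ring
    rw [Finset.sum_congr rfl h, ← Finset.sum_mul, hμ.sum_one, one_mul]
  · -- the fifth item
    have key : ∀ δ ∈ D, ∑ i ∈ Icc 1 L, ∑ c : ZMod (p ^ i),
        (Mz X μ (p ^ i) (c + (δ : ZMod (p ^ i))) - Mz X μ (p ^ i) c) ^ 2 ≤
          4 * (Xe p L (K δ) - θ) := by
      intro δ hδ
      obtain ⟨hKne, hKX⟩ := hK δ hδ
      have hKc : (0 : ℝ) < (K δ).card := by exact_mod_cast hKne.card_pos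
      set k : ℝ := 1 / ((K δ).card : ℝ) with hk
      have hk1 : (K δ).card * k = 1 := by rw [hk]; field_simp
      -- the two measures
      set f : ℤ → ℝ := fun x => if x ∈ K δ then k else 0 with hf
      set g : ℤ → ℝ := fun x => if x - δ ∈ K δ then k else 0 with hg
      have hKsub : K δ ⊆ X := fun x hx => (hKX x hx).1
      have hfX : ∀ F : ℤ → ℝ, ∑ x ∈ X, f x * F x = ∑ x ∈ K δ, k * F x := by
        intro F
        rw [← Finset.sum_subset hKsub]
        · refine Finset.sum_congr rfl fun x hx => ?_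
          rw [hf]
          simp only [hx, if_true]
        · intro x _ hx
          rw [hf]
          simp only [hx, if_false, zero_mul]
      have hgX : ∀ F : ℤ → ℝ, ∑ x ∈ X, g x * F x = ∑ x ∈ K δ, k * F (x + δ) := by
        intro F
        have hsub : (K δ).image (fun x => x + δ) ⊆ X := by
          intro y hy
          rw [Finset.mem_image] at hy
          obtain ⟨x, hx, rfl⟩ := hy
          exact (hKX x hx).2
        rw [← Finset.sum_subset hsub]
        · rw [Finset.sum_image (fun x _ y _ h => by simpa using h)]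
          refine Finset.sum_congr rfl fun x hx => ?_
          rw [hg]
          simp only [add_sub_cancel_right, hx, if_true]
        · intro x _ hx
          rw [hg]
          have : x - δ ∉ K δ := by
            intro h
            exact hx (Finset.mem_image.mpr ⟨x - δ, h, by ring⟩)
          simp only [this, if_false, zero_mul]
      have hf1 : ∑ x ∈ X, f x = 1 := by
        have := hfX (fun _ => 1)
        simp only [mul_one, Finset.sum_const, nsmul_eq_mul] at this
        rw [this, hk1]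
      have hg1 : ∑ x ∈ X, g x = 1 := by
        have := hgX (fun _ => 1)
        simp only [mul_one, Finset.sum_const, nsmul_eq_mul] at this
        rw [this, hk1]
      have hfe : ∑ x ∈ X, ∑ y ∈ X, (tv p L (x - y) : ℝ) * f x * f y = Xe p L (K δ) := by
        rw [Xe_eq]
        have h1 : ∀ x ∈ X, ∑ y ∈ X, (tv p L (x - y) : ℝ) * f x * f y =
            f x * ∑ y ∈ K δ, k * (tv p L (x - y) : ℝ) := by
          intro x _
          rw [← hfX (fun y => (tv p L (x - y) : ℝ)), Finset.mul_sum]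
          refine Finset.sum_congr rfl fun y _ => ?_
          ring
        rw [Finset.sum_congr rfl h1, hfX (fun x => ∑ y ∈ K δ, k * (tv p L (x - y) : ℝ))]
        refine Finset.sum_congr rfl fun x _ => ?_
        rw [Finset.mul_sum]
        refine Finset.sum_congr rfl fun y _ => ?_
        rw [hk]
        ring
      have hge : ∑ x ∈ X, ∑ y ∈ X, (tv p L (x - y) : ℝ) * g x * g y = Xe p L (K δ) := by
        rw [Xe_eq]
        have h1 : ∀ x ∈ X, ∑ y ∈ X, (tv p L (x - y) : ℝ) * g x * g y =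
            g x * ∑ y ∈ K δ, k * (tv p L (x - (y + δ)) : ℝ) := by
          intro x _
          rw [← hgX (fun y => (tv p L (x - y) : ℝ)), Finset.mul_sum]
          refine Finset.sum_congr rfl fun y _ => ?_
          ring
        rw [Finset.sum_congr rfl h1, hgX (fun x => ∑ y ∈ K δ, k * (tv p L (x - (y + δ)) : ℝ))]
        refine Finset.sum_congr rfl fun x _ => ?_
        rw [Finset.mul_sum]
        refine Finset.sum_congr rfl fun y _ => ?_
        rw [hk]
        have e : x + δ - (y + δ) = x - y := by ring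
        rw [e]
        ring
      have hf2 := hE2 μ θ hμ f hf1
      have hg2 := hE2 μ θ hμ g hg1
      rw [hfe, energy_levels X (fun x => f x - μ x) p L] at hf2
      rw [hge, energy_levels X (fun x => g x - μ x) p L] at hg2
      have hfg : ∀ i : ℕ, ∀ c : ZMod (p ^ i),
          Mz X g (p ^ i) (c + (δ : ZMod (p ^ i))) = Mz X f (p ^ i) c := by
        intro i c
        have e1 : Mz X g (p ^ i) (c + (δ : ZMod (p ^ i))) =
            ∑ x ∈ X, g x * (if (x : ZMod (p ^ i)) = c + (δ : ZMod (p ^ i)) then 1 else 0) := by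
          rw [mz_eq]
          refine Finset.sum_congr rfl fun x _ => ?_
          split_ifs <;> simp
        have e2 : Mz X f (p ^ i) c =
            ∑ x ∈ X, f x * (if (x : ZMod (p ^ i)) = c then 1 else 0) := by
          rw [mz_eq]
          refine Finset.sum_congr rfl fun x _ => ?_
          split_ifs <;> simp
        rw [e1, e2, hgX, hfX]
        refine Finset.sum_congr rfl fun x _ => ?_
        congr 1
        push_cast
        simp only [add_left_inj]
      have hlev : ∀ i ∈ Icc 1 L, ∑ c : ZMod (p ^ i),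
          (Mz X μ (p ^ i) (c + (δ : ZMod (p ^ i))) - Mz X μ (p ^ i) c) ^ 2 ≤
          2 * ∑ c : ZMod (p ^ i), (Mz X (fun x => g x - μ x) (p ^ i) c) ^ 2 +
          2 * ∑ c : ZMod (p ^ i), (Mz X (fun x => f x - μ x) (p ^ i) c) ^ 2 := by
        intro i _
        have e3 : ∑ c : ZMod (p ^ i), (Mz X (fun x => g x - μ x) (p ^ i) c) ^ 2 =
            ∑ c : ZMod (p ^ i),
              (Mz X (fun x => g x - μ x) (p ^ i) (c + (δ : ZMod (p ^ i)))) ^ 2 :=
          (Equiv.sum_comp (Equiv.addRight (δ : ZMod (p ^ i)))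
            (fun c => (Mz X (fun x => g x - μ x) (p ^ i) c) ^ 2)).symm
        rw [e3, Finset.mul_sum, Finset.mul_sum, ← Finset.sum_add_distrib]
        refine Finset.sum_le_sum fun c _ => ?_
        rw [mz_sub, mz_sub, hfg]
        nlinarith [sq_nonneg (2 * Mz X f (p ^ i) c - Mz X μ (p ^ i) (c + (δ : ZMod (p ^ i))) -
          Mz X μ (p ^ i) c)]
      have hlev2 := Finset.sum_le_sum hlev
      rw [Finset.sum_add_distrib, ← Finset.mul_sum, ← Finset.mul_sum] at hlev2
      linarith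
    have e5 : ∑ i ∈ Icc 1 L, ∑ δ : ZMod (p ^ i), Mz D ν (p ^ i) δ *
        ∑ c : ZMod (p ^ i), (Mz X μ (p ^ i) (c + δ) - Mz X μ (p ^ i) c) ^ 2 =
        ∑ δ ∈ D, (1 / (D.card : ℝ)) * ∑ i ∈ Icc 1 L, ∑ c : ZMod (p ^ i),
          (Mz X μ (p ^ i) (c + (δ : ZMod (p ^ i))) - Mz X μ (p ^ i) c) ^ 2 := by
      have h : ∀ i ∈ Icc 1 L, ∑ δ : ZMod (p ^ i), Mz D ν (p ^ i) δ *
          ∑ c : ZMod (p ^ i), (Mz X μ (p ^ i) (c + δ) - Mz X μ (p ^ i) c) ^ 2 =
          ∑ δ ∈ D, (1 / (D.card : ℝ)) * ∑ c : ZMod (p ^ i),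
            (Mz X μ (p ^ i) (c + (δ : ZMod (p ^ i))) - Mz X μ (p ^ i) c) ^ 2 := by
        intro i _
        rw [mz_sum_mul D ν (p ^ i)
          (fun δ => ∑ c : ZMod (p ^ i), (Mz X μ (p ^ i) (c + δ) - Mz X μ (p ^ i) c) ^ 2)]
      rw [Finset.sum_congr rfl h, Finset.sum_comm]
      refine Finset.sum_congr rfl fun δ _ => ?_
      rw [Finset.mul_sum]
    rw [e5]
    calc ∑ δ ∈ D, (1 / (D.card : ℝ)) * ∑ i ∈ Icc 1 L, ∑ c : ZMod (p ^ i),
          (Mz X μ (p ^ i) (c + (δ : ZMod (p ^ i))) - Mz X μ (p ^ i) c) ^ 2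
        ≤ ∑ δ ∈ D, (1 / (D.card : ℝ)) * (4 * (Xe p L (K δ) - θ)) := by
          refine Finset.sum_le_sum fun δ hδ => ?_
          exact mul_le_mul_of_nonneg_left (key δ hδ) (by positivity)
      _ = 4 * (Xav p L D K - θ) := by
          unfold Xav
          rw [← Finset.mul_sum, ← Finset.mul_sum, Finset.sum_sub_distrib, Finset.sum_const,
            nsmul_eq_mul]
          field_simp
  · -- the last item
    intro i hi hhalf
    rw [mem_Icc] at hi
    have h1 : 1 ≤ L := hi.1.trans hi.2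
    -- the mass of the multiples of p
    have e1 : ∑ δ ∈ (Finset.univ : Finset (ZMod (p ^ i))).filter
        (fun δ => δ * (p : ZMod (p ^ i)) ^ (i - 1) = 0), Mz D ν (p ^ i) δ =
        Mz D ν (p ^ 1) 0 := by
      rw [Finset.sum_filter]
      have e2 : ∀ δ : ZMod (p ^ i), (if δ * (p : ZMod (p ^ i)) ^ (i - 1) = 0 then
          Mz D ν (p ^ i) δ else 0) = Mz D ν (p ^ i) δ *
          (if δ * (p : ZMod (p ^ i)) ^ (i - 1) = 0 then 1 else 0) := by
        intro δ
        split_ifs <;> simp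
      rw [Finset.sum_congr rfl fun δ _ => e2 δ, mz_sum_mul D ν (p ^ i)
        (fun δ => if δ * (p : ZMod (p ^ i)) ^ (i - 1) = 0 then 1 else 0), mz_eq]
      refine Finset.sum_congr rfl fun x _ => ?_
      have e3 : (x : ZMod (p ^ i)) * (p : ZMod (p ^ i)) ^ (i - 1) = 0 ↔
          (x : ZMod (p ^ 1)) = 0 := by
        have e4 : (x : ZMod (p ^ i)) * (p : ZMod (p ^ i)) ^ (i - 1) =
            ((x * (p : ℤ) ^ (i - 1) : ℤ) : ZMod (p ^ i)) := by push_cast; ring
        rw [e4, ZMod.intCast_zmod_eq_zero_iff_dvd, ZMod.intCast_zmod_eq_zero_iff_dvd]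
        push_cast
        rw [pow_one]
        have hpp : (p : ℤ) ^ i = p * (p : ℤ) ^ (i - 1) := by
          rw [← pow_succ']
          congr 1
          omega
        rw [hpp]
        have hpne : (p : ℤ) ^ (i - 1) ≠ 0 := by
          have : (p : ℤ) ≠ 0 := by exact_mod_cast hp0.ne
          exact pow_ne_zero _ this
        exact mul_dvd_mul_iff_right hpne
      by_cases hx : (x : ZMod (p ^ 1)) = 0
      · rw [if_pos hx, if_pos (e3.2 hx), mul_one]
      · rw [if_neg hx, if_neg (fun h => hx (e3.1 h)), mul_zero]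
    rw [e1] at hhalf
    rw [← h4]
    calc (1 : ℝ) / 4 ≤ (Mz D ν (p ^ 1) 0) ^ 2 := by nlinarith
      _ ≤ ∑ c : ZMod (p ^ 1), (Mz D ν (p ^ 1) c) ^ 2 :=
          Finset.single_le_sum (f := fun c : ZMod (p ^ 1) => (Mz D ν (p ^ 1) c) ^ 2)
            (fun c _ => sq_nonneg _) (Finset.mem_univ _)
      _ ≤ ∑ i ∈ Icc 1 L, ∑ c : ZMod (p ^ i), (Mz D ν (p ^ i) c) ^ 2 :=
          Finset.single_le_sum (f := fun i : ℕ => ∑ c : ZMod (p ^ i), (Mz D ν (p ^ i) c) ^ 2)
            (fun i _ => Finset.sum_nonneg fun c _ => sq_nonneg _) (Finset.mem_Icc.mpr ⟨le_rfl, h1⟩)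

end Pool.Agent.Work.MP_b29d7f_two
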