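import Pool.Agent.Work.MP_b29d7f_two.Interface3

/-!
# Block LLP: Proposition LL
-/

namespace Pool.Agent.Work.MP_b29d7f_two

open Finset

theorem LLP_geom (p : ℝ) (hp : 1 < p) (L : ℕ) :
    ∑ i ∈ Icc 1 L, 1 / p ^ i ≤ 1 / (p - 1) := by
  have h0 : 0 < p := by linarith
  have h1 : 0 < p - 1 := by linarith
  have h : ∑ i ∈ Icc 1 L, 1 / p ^ i = 1 / (p - 1) - 1 / ((p - 1) * p ^ L) := by
    induction L with
    | zero => simp
    | succ L ih =>
      rw [Finset.sum_Icc_succ_top (by omega), ih]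
      have h2 : p ^ L ≠ 0 := by positivity
      have h3 : p - 1 ≠ 0 := h1.ne'
      field_simp
      ring
  rw [h]
  have h4 : 0 ≤ 1 / ((p - 1) * p ^ L) := by positivity
  linarith

/-- the bound for one of the two quantities -/
theorem LLP_elem (x y θ ε : ℝ) (hθ : 0 < θ) (hε : 0 < ε) (hε1 : ε ≤ 1 / 2)
    (hxy : x + y < (2 + ε ^ 2) * θ) (h : 2 * θ ≤ (1 - ε) * x + y / (1 - ε)) :
    x ≤ (1 + 2 * ε) * θ := by
  have h1 : 0 < 1 - ε := by linarith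
  have h2 : 2 * θ * (1 - ε) ≤ (1 - ε) ^ 2 * x + y := by
    have h3 := mul_le_mul_of_nonneg_right h h1.le
    have h4 : ((1 - ε) * x + y / (1 - ε)) * (1 - ε) = (1 - ε) ^ 2 * x + y := by
      field_simp
    rw [h4] at h3
    exact h3
  -- `x (2 ε - ε²) ≤ θ (2 ε + ε²)`
  have h5 : x * (ε * (2 - ε)) ≤ θ * (ε * (2 + ε)) := by nlinarith
  have h6 : x * (2 - ε) ≤ θ * (2 + ε) := by
    have h7 : (x * (2 - ε)) * ε ≤ (θ * (2 + ε)) * ε := by nlinarith
    exact le_of_mul_le_mul_right h7 hε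
  by_contra hcon
  rw [not_le] at hcon
  have h8 : (1 + 2 * ε) * θ * (2 - ε) < x * (2 - ε) :=
    mul_lt_mul_of_pos_right hcon (by linarith)
  have h9 : θ * (2 + ε) ≤ (1 + 2 * ε) * θ * (2 - ε) := by
    have : (1 + 2 * ε) * θ * (2 - ε) = θ * (2 + ε) + θ * (2 * ε * (1 - ε)) := by ring
    rw [this]
    have : 0 ≤ θ * (2 * ε * (1 - ε)) := by positivity
    linarith
  linarith

theorem stmt_LLP (hG : Stmt_GPR) (hD : Stmt_LLD) (hL : Stmt_LL1) : Stmt_LLP := by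
  obtain ⟨e, he, hL⟩ := hL 24 (by norm_num)
  obtain ⟨η, hη, hηe, hη4⟩ : ∃ η : ℝ, 0 < η ∧ 48 * η ≤ e ∧ η ≤ 1 / 4 :=
    ⟨min (e / 48) (1 / 4), by positivity,
      by have := min_le_left (e / 48) (1 / 4); linarith, min_le_right _ _⟩
  refine ⟨(η / 2) ^ 2, by positivity, by nlinarith, ?_⟩
  intro X D K p L μ θ hp hE hDne hK hθ1 hθ2
  by_contra hcon
  rw [not_le] at hcon
  have hθ : 0 < θ := hE.pos
  have : NeZero p := ⟨hp.ne_zero⟩
  have hp2 : 2 ≤ p := hp.two_le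
  have hp2' : (2 : ℝ) ≤ p := by exact_mod_cast hp2
  have hε : 0 < η / 2 := by positivity
  have hε1 : η / 2 ≤ 1 / 2 := by linarith
  -- the two bounds
  have hx : Xav p L D K ≤ (1 + η) * θ := by
    have h1 := hG X D K p L μ θ hp2 hE hDne hK (1 - η / 2) (by linarith)
    have h2 := LLP_elem _ _ θ (η / 2) hθ hε hε1 hcon h1
    have h3 : (1 + 2 * (η / 2)) * θ = (1 + η) * θ := by ring
    linarith
  have hy : Xe p L D ≤ (1 + η) * θ := by
    have h0 : 0 < 1 - η / 2 := by linarith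
    have h1 := hG X D K p L μ θ hp2 hE hDne hK (1 / (1 - η / 2)) (by positivity)
    have h2 : 1 / (1 - η / 2) * Xav p L D K + Xe p L D / (1 / (1 - η / 2)) =
        (1 - η / 2) * Xe p L D + Xav p L D K / (1 - η / 2) := by
      field_simp
      ring
    rw [h2] at h1
    have h3 := LLP_elem (Xe p L D) (Xav p L D K) θ (η / 2) hθ hε hε1 (by linarith) h1
    have h4 : (1 + 2 * (η / 2)) * θ = (1 + η) * θ := by ring
    linarith
  obtain ⟨hnn, hs1, hst, hsy, hsd, hlast⟩ := hD X D K p L μ θ hp2 hE hDne hK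
  -- a good level
  have hlev : ∃ i ∈ Icc 1 L,
      0 < ∑ c : ZMod (p ^ i), (Mz X μ (p ^ i) c) ^ 2 - 1 / (p : ℝ) ^ i ∧
      ∑ δ : ZMod (p ^ i), Mz D (fun _ => 1 / (D.card : ℝ)) (p ^ i) δ *
        ∑ c : ZMod (p ^ i), (Mz X μ (p ^ i) (c + δ) - Mz X μ (p ^ i) c) ^ 2 ≤
        48 * η * (∑ c : ZMod (p ^ i), (Mz X μ (p ^ i) c) ^ 2 - 1 / (p : ℝ) ^ i) ∧
      ∑ c : ZMod (p ^ i), (Mz D (fun _ => 1 / (D.card : ℝ)) (p ^ i) c) ^ 2 ≤
        24 * (∑ c : ZMod (p ^ i), (Mz X μ (p ^ i) c) ^ 2 - 1 / (p : ℝ) ^ i) := by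
    by_contra hno
    push Not at hno
    have h1 : ∀ i ∈ Icc 1 L, ∑ c : ZMod (p ^ i), (Mz X μ (p ^ i) c) ^ 2 - 1 / (p : ℝ) ^ i ≤
        (∑ δ : ZMod (p ^ i), Mz D (fun _ => 1 / (D.card : ℝ)) (p ^ i) δ *
          ∑ c : ZMod (p ^ i), (Mz X μ (p ^ i) (c + δ) - Mz X μ (p ^ i) c) ^ 2) / (48 * η) +
        (∑ c : ZMod (p ^ i), (Mz D (fun _ => 1 / (D.card : ℝ)) (p ^ i) c) ^ 2) / 24 := by
      intro i hi
      have hd0 : 0 ≤ (∑ δ : ZMod (p ^ i), Mz D (fun _ => 1 / (D.card : ℝ)) (p ^ i) δ *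
          ∑ c : ZMod (p ^ i), (Mz X μ (p ^ i) (c + δ) - Mz X μ (p ^ i) c) ^ 2) / (48 * η) := by
        refine div_nonneg (Finset.sum_nonneg fun δ _ => ?_) (by positivity)
        exact mul_nonneg (hnn i δ).2 (Finset.sum_nonneg fun c _ => sq_nonneg _)
      have hy0 : 0 ≤ (∑ c : ZMod (p ^ i),
          (Mz D (fun _ => 1 / (D.card : ℝ)) (p ^ i) c) ^ 2) / 24 :=
        div_nonneg (Finset.sum_nonneg fun c _ => sq_nonneg _) (by norm_num)
      by_cases hk : 0 < ∑ c : ZMod (p ^ i), (Mz X μ (p ^ i) c) ^ 2 - 1 / (p : ℝ) ^ i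
      · by_cases hdk : ∑ δ : ZMod (p ^ i), Mz D (fun _ => 1 / (D.card : ℝ)) (p ^ i) δ *
            ∑ c : ZMod (p ^ i), (Mz X μ (p ^ i) (c + δ) - Mz X μ (p ^ i) c) ^ 2 ≤
            48 * η * (∑ c : ZMod (p ^ i), (Mz X μ (p ^ i) c) ^ 2 - 1 / (p : ℝ) ^ i)
        · have h2 := hno i hi hk hdk
          have h3 : ∑ c : ZMod (p ^ i), (Mz X μ (p ^ i) c) ^ 2 - 1 / (p : ℝ) ^ i ≤
              (∑ c : ZMod (p ^ i),
                (Mz D (fun _ => 1 / (D.card : ℝ)) (p ^ i) c) ^ 2) / 24 := by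
            rw [le_div_iff₀ (by norm_num)]
            linarith
          linarith
        · rw [not_le] at hdk
          have h3 : ∑ c : ZMod (p ^ i), (Mz X μ (p ^ i) c) ^ 2 - 1 / (p : ℝ) ^ i ≤
              (∑ δ : ZMod (p ^ i), Mz D (fun _ => 1 / (D.card : ℝ)) (p ^ i) δ *
                ∑ c : ZMod (p ^ i), (Mz X μ (p ^ i) (c + δ) - Mz X μ (p ^ i) c) ^ 2) /
                  (48 * η) := by
            rw [le_div_iff₀ (by positivity)]
            linarith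
          linarith
      · rw [not_lt] at hk
        linarith
    have h2 := Finset.sum_le_sum h1
    rw [Finset.sum_sub_distrib, hst, Finset.sum_add_distrib, ← Finset.sum_div,
      ← Finset.sum_div, hsy] at h2
    have h3 := LLP_geom (p : ℝ) (by linarith) L
    have h4 : 1 / ((p : ℝ) - 1) ≤ 2 / 3 * θ := by
      have h5 : 3 / 2 / ((p : ℝ) - 1) = 3 / 2 * (1 / ((p : ℝ) - 1)) := by ring
      rw [h5] at hθ1
      linarith
    have h6 : (∑ i ∈ Icc 1 L, ∑ δ : ZMod (p ^ i), Mz D (fun _ => 1 / (D.card : ℝ)) (p ^ i) δ *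
          ∑ c : ZMod (p ^ i), (Mz X μ (p ^ i) (c + δ) - Mz X μ (p ^ i) c) ^ 2) / (48 * η) ≤
        θ / 12 := by
      rw [div_le_iff₀ (by positivity)]
      calc _ ≤ 4 * (Xav p L D K - θ) := hsd
        _ ≤ 4 * (η * θ) := by linarith
        _ = θ / 12 * (48 * η) := by ring
    have h7 : Xe p L D / 24 ≤ θ / 12 := by
      rw [div_le_iff₀ (by norm_num)]
      have : (1 + η) * θ ≤ 2 * θ := mul_le_mul_of_nonneg_right (by linarith) hθ.le
      linarith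
    linarith
  obtain ⟨i, hi, hk, hdk, hyk⟩ := hlev
  have hi1 : 1 ≤ i := (Finset.mem_Icc.1 hi).1
  have h1 := hL p i hp hi1 (Mz X μ (p ^ i)) (Mz D (fun _ => 1 / (D.card : ℝ)) (p ^ i))
    (fun c => (hnn i c).1) (fun c => (hnn i c).2) (hs1 i).1 (hs1 i).2 hk
    (hdk.trans (mul_le_mul_of_nonneg_right hηe hk.le)) hyk
  have h2 := hlast i hi h1
  have h3 : (1 + η) * θ < 1 / 4 := by nlinarith
  linarith

end Pool.Agent.Work.MP_b29d7f_two
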