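import Pool.Agent.Work.MP_b29d7f_two.Interface2

/-!
# Block LOCW: the growth of the small primes over a set of blocks, with weights
-/

namespace Pool.Agent.Work.MP_b29d7f_two

open Finset
open Pool.Agent.Work.MP_b29d7f_sep (nv)

theorem stmt_LOCW (h1 : Stmt_LOCA) : Stmt_LOCW := by
  intro a k₀ C₀ κ b β₁ β₂ e₃ e₇ e₈ K J hd hκ hβ₁ hβ₂ hK
  obtain ⟨C, N₀, hC, hloc⟩ := h1 a k₀ C₀ κ b β₁ β₂ e₃ e₇ e₈ K J hd hκ hβ₁ hβ₂ hK
  refine ⟨C, N₀, hC, ?_⟩
  intro n N R m hN hF D ρ hD hρ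
  classical
  set Q : ℕ := Qb K m N with hQ
  set g : ℝ := gg a (P1 K m N) with hg
  set G : ℕ → ℝ := fun j => ∑ p ∈ PA a N (K * m), Real.log p *
    ((nv p a (j * Q + Q) : ℝ) - nv p a (j * Q)) with hG
  set D' : Finset ℕ := D.filter fun j => (Q : ℝ) * g < G j with hD'
  have hloc' := hloc n N R m hN hF D' (fun j hj => hD j (mem_filter.1 hj).1)
  have hsw : ∑ p ∈ PA a N (K * m), Real.log p * ∑ j ∈ D',
      ((nv p a (j * Q + Q) : ℝ) - nv p a (j * Q)) = ∑ j ∈ D', G j := by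
    simp only [hG]
    rw [Finset.sum_comm]
    apply Finset.sum_congr rfl
    intro p _
    rw [Finset.mul_sum]
  rw [hsw] at hloc'
  have h3 : ∑ j ∈ D, ρ j * (G j - Q * g) ≤ ∑ j ∈ D', (G j - Q * g) := by
    have h4 : ∑ j ∈ D, ρ j * (G j - Q * g) ≤ ∑ j ∈ D, if (Q : ℝ) * g < G j then G j - Q * g
        else 0 := by
      apply Finset.sum_le_sum
      intro j hj
      obtain ⟨h5, h6⟩ := hρ j hj
      split_ifs with h7
      · nlinarith
      · nlinarith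
    rw [hD', Finset.sum_filter]
    exact h4
  have h8 : ∑ j ∈ D', (G j - Q * g) = ∑ j ∈ D', G j - (D'.card : ℝ) * (Q * g) := by
    rw [Finset.sum_sub_distrib, Finset.sum_const, nsmul_eq_mul]
  have h9 : ∑ j ∈ D, ρ j * (G j - Q * g) = ∑ j ∈ D, ρ j * G j - (∑ j ∈ D, ρ j) * (Q * g) := by
    rw [Finset.sum_mul, ← Finset.sum_sub_distrib]
    apply Finset.sum_congr rfl
    intro j _
    ring
  rw [h8, h9] at h3
  have h10 : (D'.card : ℝ) * Q * g = (D'.card : ℝ) * (Q * g) := by ring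
  have h11 : (∑ j ∈ D, ρ j) * Q * g = (∑ j ∈ D, ρ j) * (Q * g) := by ring
  have h12 : ∑ j ∈ D, ρ j * ∑ p ∈ PA a N (K * m), Real.log p *
      ((nv p a (j * Q + Q) : ℝ) - nv p a (j * Q)) = ∑ j ∈ D, ρ j * G j := rfl
  rw [h12, h11]
  rw [h10] at hloc'
  linarith

end Pool.Agent.Work.MP_b29d7f_two
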