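import Pool.Agent.Work.MP_b29d7f_two.Interface1

/-!
# Block LRA: consequences of a left record
-/

namespace Pool.Agent.Work.MP_b29d7f_two

open Finset
open Pool.Agent.Work.MP_b29d7f_nt (IsPOrdering HasSimultaneousOrdering PS vd ld tv)
open Pool.Agent.Work.MP_b29d7f_half (Ord A wv lD)
open Pool.Agent.Work.MP_b29d7f_sep (nv EW EL)

theorem LRA_mul_log {j k : ℝ} (hj : 0 < j) (hk : 0 < k) :
    j * (Real.log k - Real.log j) ≤ k - j := by
  have h1 : Real.log (k / j) ≤ k / j - 1 := Real.log_le_sub_one_of_pos (div_pos hk hj)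
  rw [Real.log_div hk.ne' hj.ne'] at h1
  have h2 : j * (Real.log k - Real.log j) ≤ j * (k / j - 1) :=
    mul_le_mul_of_nonneg_left h1 hj.le
  have h3 : j * (k / j - 1) = k - j := by field_simp
  linarith

theorem LRA_sum (k : ℕ) : ∑ j ∈ range k, ((k : ℝ) - j) ≤ (k : ℝ) ^ 2 - k * (k - 1) / 2 := by
  have h : ∀ m : ℕ, ∑ j ∈ range m, ((k : ℝ) - j) = m * k - m * (m - 1) / 2 := by
    intro m
    induction m with
    | zero => simp
    | succ m ih =>
      rw [Finset.sum_range_succ, ih]
      push_cast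
      ring
  rw [h k]
  nlinarith

theorem LRA_sum2 (k : ℕ) : ∑ j ∈ range k, (j : ℝ) = (k : ℝ) * (k - 1) / 2 := by
  induction k with
  | zero => simp
  | succ m ih =>
    rw [Finset.sum_range_succ, ih]
    push_cast
    ring

theorem stmt_LRA (hTSU : Stmt_TSU) (hGGB : Stmt_GGB) : Stmt_LRA := by
  intro a k₀ C₀ κ hD hκ
  obtain ⟨-, g2, g3, -⟩ := hGGB a k₀ C₀ hD
  obtain ⟨t1, t2, -⟩ := hTSU a hD.ord
  refine ⟨gg a 1 + 3 * κ, by linarith [g2 1], ?_⟩
  intro n hn k hk hkn
  obtain ⟨hn1, hrec⟩ := hn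
  have hkR : (1 : ℝ) ≤ k := by exact_mod_cast hk
  have hkn' : (k : ℝ) ≤ n := by exact_mod_cast hkn
  have hc : gg a n - κ * (Real.log n - Real.log k) ≤ gg a 1 + κ * Real.log k := by
    have h := hrec 1 le_rfl hn1
    simp only [Nat.cast_one, Real.log_one, sub_zero] at h
    linarith
  refine ⟨?_, ?_, hc⟩
  · rcases hkn.lt_or_eq with hlt | heq
    · have h1 := t1 k (n - k)
      rw [show k + (n - k) = n by omega, ← g3 k, ← g3 (n - k), ← g3 n] at h1
      have h2 := hrec (n - k) (by omega) (by omega)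
      have hpos : (0 : ℝ) < ((n - k : ℕ) : ℝ) := by
        have : 0 < n - k := by omega
        exact_mod_cast this
      have hcast : ((n - k : ℕ) : ℝ) = n - k := by
        push_cast [Nat.cast_sub hkn]
        ring
      have h3 := LRA_mul_log hpos (show (0 : ℝ) < n by linarith)
      have h4 : ((n - k : ℕ) : ℝ) * (gg a n - κ * (Real.log n - Real.log ((n - k : ℕ) : ℝ))) ≤
          ((n - k : ℕ) : ℝ) * gg a (n - k) := mul_le_mul_of_nonneg_left h2 hpos.le
      have h5 : κ * (((n - k : ℕ) : ℝ) * (Real.log n - Real.log ((n - k : ℕ) : ℝ))) ≤ κ * k := by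
        refine mul_le_mul_of_nonneg_left ?_ hκ
        rw [hcast] at h3 ⊢
        linarith
      have h6 : (k : ℝ) * gg a k ≤ k * (gg a n + κ) := by
        rw [hcast] at h4 h5 h1
        nlinarith
      exact le_of_mul_le_mul_left h6 (by linarith)
    · rw [heq]
      linarith
  · set Y : ℝ := gg a n - κ * (Real.log n - Real.log k) with hY
    have hE : ∑ j ∈ range k, ((j : ℝ) * Y - κ * ((k : ℝ) - j)) ≤ Es a k := by
      unfold Es
      refine Finset.sum_le_sum fun j hj => ?_
      rw [Finset.mem_range] at hj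
      rcases Nat.eq_zero_or_pos j with rfl | hj0
      · have := t2 0
        simp only [Nat.cast_zero, zero_mul, sub_zero, zero_sub]
        nlinarith
      · rw [← g3 j]
        have h1 := hrec j hj0 (by omega)
        have hjR : (0 : ℝ) < j := by exact_mod_cast hj0
        have h2 := LRA_mul_log hjR (show (0 : ℝ) < k by linarith)
        have h3 : (j : ℝ) * (gg a n - κ * (Real.log n - Real.log j)) ≤ j * gg a j :=
          mul_le_mul_of_nonneg_left h1 hjR.le
        have h4 : κ * ((j : ℝ) * (Real.log k - Real.log j)) ≤ κ * (k - j) :=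
          mul_le_mul_of_nonneg_left h2 hκ
        rw [hY]
        nlinarith
    rw [Finset.sum_sub_distrib, ← Finset.sum_mul, ← Finset.mul_sum, LRA_sum2] at hE
    have h5 := mul_le_mul_of_nonneg_left (LRA_sum k) hκ
    have h6 : Real.log k ≤ k := by
      have := Real.log_le_sub_one_of_pos (show (0 : ℝ) < k by linarith)
      linarith
    have h7 : (k : ℝ) * Y ≤ k ^ 2 * (gg a 1 + κ) := by
      have h8 : (k : ℝ) * Y ≤ k * (gg a 1 + κ * k) := by
        refine mul_le_mul_of_nonneg_left ?_ (by linarith)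
        nlinarith
      have h9 : (k : ℝ) * gg a 1 ≤ k ^ 2 * gg a 1 := by
        refine mul_le_mul_of_nonneg_right ?_ (g2 1)
        nlinarith
      nlinarith
    have h10 : κ * (k : ℝ) ≤ κ * (k : ℝ) ^ 2 := by
      refine mul_le_mul_of_nonneg_left ?_ hκ
      nlinarith
    linarith
end Pool.Agent.Work.MP_b29d7f_two
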