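import Pool.Agent.Work.MP_b29d7f_two.Interface1
import Pool.Agent.Work.MP_b29d7f_two.B_LRC

/-!
# LRE, two-sided: the diameter of `A_N` at a left record
-/

namespace Pool.Agent.Work.MP_b29d7f_two

open Finset
open Pool.Agent.Work.MP_b29d7f_nt (IsPOrdering HasSimultaneousOrdering PS vd ld tv)
open Pool.Agent.Work.MP_b29d7f_half (Ord A wv lD)
open Pool.Agent.Work.MP_b29d7f_sep (nv EW EL)

theorem LRE_ld_mono {x y z w : ℤ} (h1 : x ≠ y) (h2 : |x - y| ≤ |z - w|) : ld x y ≤ ld z w := by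
  unfold ld
  have h3 : (0 : ℝ) < |((x - y : ℤ) : ℝ)| := by
    rw [abs_pos]
    exact_mod_cast sub_ne_zero.2 h1
  apply Real.log_le_log h3
  exact_mod_cast h2

theorem LRE_aux {a : ℕ → ℤ} {C₀ κ C₁ : ℝ} {n N : ℕ} (hclu : Stmt_CLU)
    (ha : Ord (Set.range a) a) (hinj : Function.Injective a) (hκ : 0 ≤ κ) (hC₁ : 0 ≤ C₁)
    (hC₀ : 1 ≤ C₀)
    (hA : ∀ k : ℕ, 1 ≤ k → k ≤ n → gg a k ≤ gg a n + κ ∧
      (k : ℝ) ^ 2 * (gg a n - κ * (Real.log n - Real.log k) - C₁) ≤ 2 * Es a k)
    (hT : ∀ h k : ℕ, h ≤ k → ∑ l ∈ (range (k + 1)).erase h, ld (a h) (a l) ≤ lD a k)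
    (hgk : ((2 * N : ℕ) : ℝ) * gg a (2 * N) = lD a (2 * N))
    (hgn : gg a n ≤ C₀ * Real.log n) (hN : 1 ≤ N) (hn1 : 2 * N ≤ n) (hn2 : n ≤ 2 * N + 1)
    (R : Finset ℕ) (hR : ∀ l ∈ R, N ≤ l ∧ l < 2 * N) (hRc : N ≤ 2 * R.card) (i₀ : ℕ)
    (hi₀ : i₀ ≤ N) (hi₀R : i₀ ∉ R) (i j : ℕ) (hij : a i ≠ a j)
    (hd : ∀ l ∈ R, |a i - a j| ≤ |a i₀ - a l|) :
    ld (a i) (a j) ≤ gg a n + (6 * C₀ + 17 * κ + 4 * C₁ + 4 * Real.log 2) := by
  classical
  have hlog2 : 0 ≤ Real.log 2 := Real.log_nonneg (by norm_num)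
  have hRN : R.card ≤ N := by
    have h1 : R ⊆ Ico N (2 * N) := fun l hl => mem_Ico.2 (hR l hl)
    have h2 := Finset.card_le_card h1
    rw [Nat.card_Ico] at h2
    omega
  set Y : Finset ℕ := ((range (2 * N)).erase i₀) \ R with hY
  have hRsub : R ⊆ (range (2 * N)).erase i₀ := by
    intro l hl
    rw [Finset.mem_erase, mem_range]
    exact ⟨fun h => hi₀R (h ▸ hl), (hR l hl).2⟩
  have hYc : Y.card + R.card = 2 * N - 1 := by
    have h1 := Finset.card_sdiff_add_card_eq_card hRsub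
    rw [Finset.card_erase_of_mem (mem_range.2 (by omega)), Finset.card_range] at h1
    exact h1
  set r := Y.card with hr
  have hiY : ∀ l ∈ Y, l ≠ i₀ := by
    intro l hl
    rw [hY, Finset.mem_sdiff, Finset.mem_erase] at hl
    exact hl.1.1
  have e1 := LRC_core hclu ha (fun k hk1 hk2 => (hA k hk1 hk2).2) (a i₀) ⟨i₀, rfl⟩ r
    (Y.image a) (by rw [Finset.card_image_of_injective _ hinj])
    (by
      intro y hy
      rw [Finset.mem_coe, Finset.mem_image] at hy
      obtain ⟨l, -, rfl⟩ := hy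
      exact ⟨l, rfl⟩)
    (by
      intro h
      rw [Finset.mem_image] at h
      obtain ⟨l, hl, hl2⟩ := h
      exact hiY l hl (hinj hl2)) (by omega)
  rw [Finset.sum_image (fun x _ y _ h => hinj h)] at e1
  have e2 := hT i₀ (2 * N) (by omega)
  have e3 : ∑ l ∈ Y, ld (a i₀) (a l) + ∑ l ∈ R, ld (a i₀) (a l) ≤
      ∑ l ∈ (range (2 * N + 1)).erase i₀, ld (a i₀) (a l) := by
    rw [hY, Finset.sum_sdiff hRsub]
    apply Finset.sum_le_sum_of_subset_of_nonneg
    · intro l hl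
      rw [Finset.mem_erase, mem_range] at hl ⊢
      omega
    · intro l hl _
      rw [Finset.mem_erase, mem_range] at hl
      unfold ld
      apply Real.log_nonneg
      have h6 : a i₀ - a l ≠ 0 := by
        intro h
        exact hl.1 (hinj (by omega))
      exact_mod_cast Int.one_le_abs h6
  have e4 : (R.card : ℝ) * ld (a i) (a j) ≤ ∑ l ∈ R, ld (a i₀) (a l) := by
    rw [← nsmul_eq_mul, ← Finset.sum_const]
    apply Finset.sum_le_sum
    intro l hl
    exact LRE_ld_mono hij (hd l hl)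
  have e5 := (hA (2 * N) (by omega) hn1).1
  have e6 := LRC_fact (r + 1)
  rw [Finset.sum_range_succ'] at e6
  push_cast at e6
  simp only [zero_add, Real.log_one, add_zero] at e6
  have e7 : ∑ j ∈ range r, Real.log ((j : ℝ) + 1 + 1) = ∑ j ∈ range r, Real.log ((j : ℝ) + 2) := by
    apply Finset.sum_congr rfl
    intro j _
    congr 1
    ring
  rw [e7] at e6
  have e8 := mul_le_mul_of_nonneg_left e6 hκ
  have hr0 : (0 : ℝ) ≤ r := Nat.cast_nonneg r
  have hlog : Real.log n ≤ 2 + Real.log ((r : ℝ) + 1) := by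
    have h7 : (n : ℝ) ≤ 3 * ((r : ℝ) + 1) := by
      have : n ≤ 3 * (r + 1) := by omega
      exact_mod_cast this
    have h8 : Real.log n ≤ Real.log (3 * ((r : ℝ) + 1)) := by
      apply Real.log_le_log _ h7
      have : 1 ≤ n := by omega
      exact_mod_cast this
    rw [Real.log_mul (by norm_num) (by positivity)] at h8
    have h9 : Real.log 3 ≤ 2 := by
      have := Real.log_le_sub_one_of_pos (show (0 : ℝ) < 3 by norm_num)
      linarith
    linarith
  have hlr : 0 ≤ Real.log ((r : ℝ) + 1) := Real.log_nonneg (by linarith)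
  have hRpos : (1 : ℝ) ≤ R.card := by
    have : 1 ≤ R.card := by omega
    exact_mod_cast this
  have hrR : (r : ℝ) ≤ 4 * R.card := by
    have : r ≤ 4 * R.card := by omega
    exact_mod_cast this
  have hcard : 2 * (N : ℝ) = r + R.card + 1 := by
    have : 2 * N = r + R.card + 1 := by omega
    exact_mod_cast this
  have hN4 : 2 * (N : ℝ) ≤ 4 * R.card := by
    have : 2 * N ≤ 4 * R.card := by omega
    exact_mod_cast this
  have hgn2 : gg a n ≤ C₀ * (6 * R.card) := by
    refine hgn.trans ?_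
    apply mul_le_mul_of_nonneg_left _ (by linarith)
    have h1 : Real.log n ≤ n := by
      have h2 : (0 : ℝ) < n := by
        have : 0 < n := by omega
        exact_mod_cast this
      have := Real.log_le_sub_one_of_pos h2
      linarith
    have h2 : (n : ℝ) ≤ 6 * R.card := by
      have : n ≤ 6 * R.card := by omega
      exact_mod_cast this
    linarith
  have e9 : lD a (2 * N) ≤ 2 * N * (gg a n + κ) := by
    rw [← hgk]
    push_cast
    apply mul_le_mul_of_nonneg_left e5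
    positivity
  -- the lower bound for the sum over `Y`
  have e10 : κ * ((r : ℝ) * Real.log n) ≤ κ * (r * (2 + Real.log ((r : ℝ) + 1))) :=
    mul_le_mul_of_nonneg_left (mul_le_mul_of_nonneg_left hlog hr0) hκ
  have e11 : (r : ℝ) * (gg a n - C₁ - Real.log 2) - κ * (3 * r + 1) ≤
      ∑ l ∈ Y, ld (a i₀) (a l) := by
    have h1 : 0 ≤ κ * Real.log ((r : ℝ) + 1) := mul_nonneg hκ hlr
    nlinarith
  have e12 : (R.card : ℝ) * ld (a i) (a j) ≤ 2 * N * (gg a n + κ) -
      ((r : ℝ) * (gg a n - C₁ - Real.log 2) - κ * (3 * r + 1)) := by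
    linarith
  have e13 : (R.card : ℝ) * ld (a i) (a j) ≤
      R.card * (gg a n + (6 * C₀ + 17 * κ + 4 * C₁ + 4 * Real.log 2)) := by
    refine e12.trans ?_
    have h1 : κ * (2 * (N : ℝ)) ≤ κ * (4 * R.card) := mul_le_mul_of_nonneg_left hN4 hκ
    have h2 : κ * (3 * (r : ℝ) + 1) ≤ κ * (13 * R.card) := by
      apply mul_le_mul_of_nonneg_left _ hκ
      linarith
    have h3 : (r : ℝ) * (C₁ + Real.log 2) ≤ 4 * R.card * (C₁ + Real.log 2) :=
      mul_le_mul_of_nonneg_right hrR (by linarith)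
    have h4 : 2 * (N : ℝ) * (gg a n + κ) = (r + R.card + 1) * gg a n + κ * (2 * (N : ℝ)) := by
      rw [← hcard]
      ring
    rw [h4]
    linarith
  exact le_of_mul_le_mul_left e13 (by linarith)

theorem stmt_LRE (h1 : Stmt_TSU) (h2 : Stmt_LRA) (h3 : Stmt_CLU) (h4 : Stmt_PAE)
    (h5 : Stmt_GGB) : Stmt_LRE := by
  classical
  intro a k₀ C₀ κ hD hκ
  obtain ⟨C₁, hC₁, hA⟩ := h2 a k₀ C₀ κ hD hκ
  obtain ⟨-, -, -, hT, -⟩ := h1 a hD.ord
  obtain ⟨hinj, -⟩ := h4 a hD.ord
  obtain ⟨hg1, hg0, hgk, -, -, -, -⟩ := h5 a k₀ C₀ hD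
  have hC₀ := hD.one_le
  have hlog2 : 0 ≤ Real.log 2 := Real.log_nonneg (by norm_num)
  refine ⟨6 * C₀ + 17 * κ + 4 * C₁ + 4 * Real.log 2, 1, by positivity, ?_⟩
  intro n N hN hn1 hn2 hrec i j hi hj
  have hA' : ∀ k : ℕ, 1 ≤ k → k ≤ n → gg a k ≤ gg a n + κ ∧
      (k : ℝ) ^ 2 * (gg a n - κ * (Real.log n - Real.log k) - C₁) ≤ 2 * Es a k :=
    fun k hk1 hk2 => ⟨(hA n hrec k hk1 hk2).1, (hA n hrec k hk1 hk2).2.1⟩
  rcases eq_or_ne (a i) (a j) with hij | hij
  · unfold ld
    rw [hij]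
    simp
    have := hg0 n
    positivity
  set R : Finset ℕ := (Ico N (2 * N)).filter (Rt a) with hRdef
  set L : Finset ℕ := (Ico N (2 * N)).filter (fun l => ¬ Rt a l) with hLdef
  have hRL : R.card + L.card = N := by
    rw [hRdef, hLdef, Finset.card_filter_add_card_filter_not, Nat.card_Ico]
    omega
  have hR : ∀ l ∈ R, (N ≤ l ∧ l < 2 * N) ∧ Rt a l := by
    intro l hl
    rw [hRdef, Finset.mem_filter, mem_Ico] at hl
    exact hl
  have hL : ∀ l ∈ L, (N ≤ l ∧ l < 2 * N) ∧ ∀ i < l, a l < a i := by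
    intro l hl
    rw [hLdef, Finset.mem_filter, mem_Ico] at hl
    refine ⟨hl.1, ?_⟩
    rcases hD.hull l with h | h
    · exact absurd h hl.2
    · exact h
  by_cases hc : N ≤ 2 * R.card
  · obtain ⟨i₀, hi₀, hmin⟩ := Finset.exists_min_image (range (N + 1)) a
      ⟨0, mem_range.2 (by omega)⟩
    have hi₀N : i₀ ≤ N := by
      have := mem_range.1 hi₀
      omega
    have hlow : ∀ i ≤ N, a i₀ ≤ a i := fun i hi => hmin i (mem_range.2 (by omega))
    refine LRE_aux h3 hD.ord hinj hκ hC₁ hC₀ hA' hT (hgk _) (hg1 n (by omega)) hN hn1 hn2 R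
      (fun l hl => (hR l hl).1) hc i₀ hi₀N ?_ i j hij ?_
    · intro h
      have h6 := (hR i₀ h).2 0 (by have := (hR i₀ h).1.1; omega)
      have h7 := hlow 0 (by omega)
      omega
    · intro l hl
      obtain ⟨⟨h6, h7⟩, h8⟩ := hR l hl
      have hup : ∀ i ≤ N, a i ≤ a l := by
        intro i hi
        rcases Nat.lt_or_ge i l with h | h
        · exact (h8 i h).le
        · have : i = l := by omega
          rw [this]
      have b1 := hlow i hi
      have b2 := hlow j hj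
      have b3 := hup i hi
      have b4 := hup j hj
      rw [abs_sub_comm (a i₀) (a l), abs_of_nonneg (a := a l - a i₀) (by linarith), abs_le]
      constructor <;> linarith
  · have hc2 : N ≤ 2 * L.card := by omega
    obtain ⟨i₀, hi₀, hmax⟩ := Finset.exists_max_image (range (N + 1)) a
      ⟨0, mem_range.2 (by omega)⟩
    have hi₀N : i₀ ≤ N := by
      have := mem_range.1 hi₀
      omega
    have hup : ∀ i ≤ N, a i ≤ a i₀ := fun i hi => hmax i (mem_range.2 (by omega))
    refine LRE_aux h3 hD.ord hinj hκ hC₁ hC₀ hA' hT (hgk _) (hg1 n (by omega)) hN hn1 hn2 L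
      (fun l hl => (hL l hl).1) hc2 i₀ hi₀N ?_ i j hij ?_
    · intro h
      have h6 := (hL i₀ h).2 0 (by have := (hL i₀ h).1.1; omega)
      have h7 := hup 0 (by omega)
      omega
    · intro l hl
      obtain ⟨⟨h6, h7⟩, h8⟩ := hL l hl
      have hlow : ∀ i ≤ N, a l ≤ a i := by
        intro i hi
        rcases Nat.lt_or_ge i l with h | h
        · exact (h8 i h).le
        · have : i = l := by omega
          rw [this]
      have b1 := hlow i hi
      have b2 := hlow j hj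
      have b3 := hup i hi
      have b4 := hup j hj
      rw [abs_of_nonneg (a := a i₀ - a l) (by linarith), abs_le]
      constructor <;> linarith

end Pool.Agent.Work.MP_b29d7f_two
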