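import Pool.Agent.Work.MP_b29d7f_two.Interface1

/-! # Block LSM (helper17) -/

set_option autoImplicit false

namespace Pool.Agent.Work.MP_b29d7f_two

open Finset

theorem LSM_aux (N : ℕ) (hN : 1 ≤ N) :
    ∑ i ∈ Ico 1 N, (Real.log N - Real.log i) ≤ N - 1 := by
  induction N, hN using Nat.le_induction with
  | base => simp
  | succ N hN ih =>
    rw [Finset.sum_Ico_succ_top hN]
    have hN0 : (0 : ℝ) < N := by exact_mod_cast hN
    have h1 : ∑ i ∈ Ico 1 N, (Real.log ((N + 1 : ℕ) : ℝ) - Real.log i) =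
        ∑ i ∈ Ico 1 N, (Real.log N - Real.log i) +
          ((N : ℝ) - 1) * (Real.log ((N + 1 : ℕ) : ℝ) - Real.log N) := by
      have h2 : ((N : ℝ) - 1) * (Real.log ((N + 1 : ℕ) : ℝ) - Real.log N) =
          ∑ i ∈ Ico 1 N, (Real.log ((N + 1 : ℕ) : ℝ) - Real.log N) := by
        rw [Finset.sum_const, Nat.card_Ico, nsmul_eq_mul, Nat.cast_sub hN, Nat.cast_one]
      rw [h2, ← Finset.sum_add_distrib]
      apply Finset.sum_congr rfl
      intro i _
      ring
    rw [h1]
    have h3 : Real.log ((N + 1 : ℕ) : ℝ) - Real.log N ≤ 1 / N := by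
      rw [← Real.log_div (by positivity) hN0.ne']
      have h4 : ((N + 1 : ℕ) : ℝ) / N = 1 + 1 / N := by
        push_cast
        field_simp
      rw [h4]
      have h5 := Real.log_le_sub_one_of_pos (x := 1 + 1 / (N : ℝ)) (by positivity)
      linarith
    have h6 : (N : ℝ) * (1 / N) = 1 := by field_simp
    have h7 : (N : ℝ) * (Real.log ((N + 1 : ℕ) : ℝ) - Real.log N) ≤ 1 := by
      rw [← h6]
      exact mul_le_mul_of_nonneg_left h3 hN0.le
    have h8 : ((N + 1 : ℕ) : ℝ) = (N : ℝ) + 1 := by push_cast; ring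
    rw [h8] at h7 ⊢
    linarith

theorem stmt_LSM : Stmt_LSM := by
  intro n N Q hN hn1 hn2 hQ
  have hN0 : (0 : ℝ) < N := by exact_mod_cast hN
  have hn0 : (0 : ℝ) < n := by
    have : 0 < n := by omega
    exact_mod_cast this
  have hlog3 : Real.log n ≤ Real.log N + 2 := by
    have h1 : (n : ℝ) ≤ 3 * N := by
      have : n ≤ 3 * N := by omega
      exact_mod_cast this
    have h2 : Real.log n ≤ Real.log (3 * N) := Real.log_le_log hn0 h1
    rw [Real.log_mul (by norm_num) hN0.ne'] at h2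
    have h3 : Real.log 3 ≤ 2 := by
      have := Real.log_le_sub_one_of_pos (x := 3) (by norm_num)
      linarith
    linarith
  have hA : ∑ i ∈ Ico 1 N, (Real.log n - Real.log i) ≤ 3 * N := by
    have h1 : ∑ i ∈ Ico 1 N, (Real.log n - Real.log i) ≤
        ∑ i ∈ Ico 1 N, ((Real.log N - Real.log i) + 2) := by
      apply Finset.sum_le_sum
      intro i _
      linarith
    rw [Finset.sum_add_distrib, Finset.sum_const, Nat.card_Ico, nsmul_eq_mul, Nat.cast_sub hN,
      Nat.cast_one] at h1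
    have h2 := LSM_aux N hN
    linarith
  refine ⟨by linarith, ?_⟩
  intro D hD
  have hpos : ∀ i ∈ Ico 1 N, 0 ≤ Real.log n - Real.log i := by
    intro i hi
    obtain ⟨h1, h2⟩ := mem_Ico.1 hi
    have h3 : Real.log i ≤ Real.log n :=
      Real.log_le_log (by exact_mod_cast h1) (by exact_mod_cast (by omega : i ≤ n))
    linarith
  have hblock : ∀ j ∈ D, (Q : ℝ) * (Real.log n - Real.log ((j * Q : ℕ) : ℝ)) ≤
      ∑ i ∈ Ico (j * Q) (j * Q + Q), ((Real.log n - Real.log i) + 1) := by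
    intro j hj
    obtain ⟨h1, h2⟩ := hD j hj
    have h3 : (Q : ℝ) * (Real.log n - Real.log ((j * Q : ℕ) : ℝ)) =
        ∑ i ∈ Ico (j * Q) (j * Q + Q), (Real.log n - Real.log ((j * Q : ℕ) : ℝ)) := by
      rw [Finset.sum_const, Nat.card_Ico, nsmul_eq_mul, Nat.add_sub_cancel_left]
    rw [h3]
    apply Finset.sum_le_sum
    intro i hi
    obtain ⟨h4, h5⟩ := mem_Ico.1 hi
    have hjQ : 1 ≤ j * Q := Nat.mul_pos h1 hQ
    have hjQ0 : (0 : ℝ) < ((j * Q : ℕ) : ℝ) := by exact_mod_cast hjQ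
    have h6 : i ≤ 2 * (j * Q) := by
      have : Q ≤ j * Q := Nat.le_mul_of_pos_left Q h1
      omega
    have h7 : Real.log i ≤ Real.log (2 * ((j * Q : ℕ) : ℝ)) :=
      Real.log_le_log (by exact_mod_cast (by omega : 0 < i)) (by exact_mod_cast h6)
    rw [Real.log_mul (by norm_num) hjQ0.ne'] at h7
    have h8 : Real.log 2 ≤ 1 := by
      have := Real.log_le_sub_one_of_pos (x := 2) (by norm_num)
      linarith
    linarith
  rw [Finset.mul_sum]
  refine (Finset.sum_le_sum hblock).trans ?_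
  have hdisj : ∀ x ∈ D, ∀ y ∈ D, x ≠ y →
      Disjoint (Ico (x * Q) (x * Q + Q)) (Ico (y * Q) (y * Q + Q)) := by
    intro x _ y _ hxy
    rw [Finset.disjoint_left]
    intro i hi hi'
    obtain ⟨h4, h5⟩ := mem_Ico.1 hi
    obtain ⟨h6, h7⟩ := mem_Ico.1 hi'
    rcases lt_or_gt_of_ne hxy with h | h
    · have : (x + 1) * Q ≤ y * Q := Nat.mul_le_mul_right Q h
      rw [add_mul, one_mul] at this
      omega
    · have : (y + 1) * Q ≤ x * Q := Nat.mul_le_mul_right Q h
      rw [add_mul, one_mul] at this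
      omega
  rw [← Finset.sum_biUnion hdisj]
  have hsub : D.biUnion (fun j => Ico (j * Q) (j * Q + Q)) ⊆ Ico 1 N := by
    intro i hi
    obtain ⟨j, hj, hij⟩ := mem_biUnion.1 hi
    obtain ⟨h1, h2⟩ := hD j hj
    obtain ⟨h4, h5⟩ := mem_Ico.1 hij
    have hjQ : 1 ≤ j * Q := Nat.mul_pos h1 hQ
    exact mem_Ico.2 ⟨by omega, by omega⟩
  refine (Finset.sum_le_sum_of_subset_of_nonneg hsub ?_).trans ?_
  · intro i hi _
    have := hpos i hi
    linarith
  · rw [Finset.sum_add_distrib, Finset.sum_const, Nat.card_Ico, nsmul_eq_mul, Nat.cast_sub hN,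
      Nat.cast_one]
    linarith

end Pool.Agent.Work.MP_b29d7f_two
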