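import Pool.Agent.Work.MP_b29d7f_two.Interface3

/-!
# Block LVL: the truncation level
-/

namespace Pool.Agent.Work.MP_b29d7f_two

open Finset
open Pool.Agent.Work.MP_b29d7f_nt (IsPOrdering HasSimultaneousOrdering PS vd ld tv)
open Pool.Agent.Work.MP_b29d7f_half (Ord A wv lD)
open Pool.Agent.Work.MP_b29d7f_sep (nv EW EL)

theorem stmt_LVL (hGGB : Stmt_GGB) (hCPA : Stmt_CPA) (hPRF : Stmt_PRF) (hPAE : Stmt_PAE) :
    Stmt_LVL := by
  classical
  intro a k₀ C₀ hD
  obtain ⟨g1, g2, g3, -, -, -, g7⟩ := hGGB a k₀ C₀ hD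
  obtain ⟨hinj, hpae⟩ := hPAE a hD.ord
  have hC := hD.one_le
  -- the threshold
  refine ⟨max 3 ⌈Real.exp (2 * C₀ + 2 * C₀ ^ 2 + 2)⌉₊, ?_⟩
  intro N P₂ hN hP hPN
  have hN3 : 3 ≤ N := le_trans (le_max_left _ _) hN
  have hNe : Real.exp (2 * C₀ + 2 * C₀ ^ 2 + 2) ≤ N :=
    (Nat.le_ceil _).trans (by exact_mod_cast le_trans (le_max_right _ _) hN)
  have hN0 : (0 : ℝ) < N := by
    have : 0 < N := by omega
    exact_mod_cast this
  have hlog : 2 * C₀ + 2 * C₀ ^ 2 + 2 ≤ Real.log N := by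
    rw [Real.le_log_iff_exp_le hN0]
    exact hNe
  have hl : Real.log N ≤ (el N : ℝ) := Nat.le_ceil _
  have hl0 : 2 * C₀ + 2 * C₀ ^ 2 + 2 ≤ (el N : ℝ) := hlog.trans hl
  have hl2 : 2 ≤ el N := by
    have : (2 : ℝ) ≤ el N := by nlinarith
    exact_mod_cast this
  have hl3 : 8 ≤ el N ^ 3 := by
    calc 8 = 2 ^ 3 := by norm_num
      _ ≤ el N ^ 3 := Nat.pow_le_pow_left hl2 3
  refine ⟨?_, ?_⟩
  · intro p P₃ hp
    refine ⟨le_max_left _ _, le_trans (by omega) (le_max_right _ _), ?_⟩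
    intro i j hi hj hij
    refine le_trans ?_ (le_max_right _ _)
    obtain ⟨-, -, -, q4, -⟩ := hpae p hp
    have h1 := q4 i j hij
    have h2 := hD.size i j N (by omega) hi.le hj.le
    have h3 : ((p : ℝ)) ^ vl p a i j ≤ (N : ℝ) ^ C₀ := by
      refine le_trans ?_ h2
      have : (((p : ℤ) ^ vl p a i j : ℤ) : ℝ) ≤ ((|a i - a j| : ℤ) : ℝ) := by exact_mod_cast h1
      push_cast at this
      exact this
    have h4 : p ^ vl p a i j ≤ ⌊(N : ℝ) ^ C₀⌋₊ := by
      refine Nat.le_floor ?_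
      push_cast
      exact h3
    have h5 : vl p a i j ≤ Nat.log p ⌊(N : ℝ) ^ C₀⌋₊ := Nat.le_log_of_pow_le hp.one_lt h4
    omega
  · set P₃ := P₂ * el N ^ 3 with hP₃
    have hP₃2 : 2 ≤ P₃ := by
      rw [hP₃]
      nlinarith
    have hP₂₃ : P₂ ≤ P₃ := by
      rw [hP₃]
      nlinarith
    have hlN : 0 < Real.log N := by nlinarith
    obtain ⟨r1, -, r3, -, -⟩ := hPRF a hD.ord (2 * N)
    obtain ⟨c1, c2, -⟩ := hCPA a hD.ord N P₂ (by omega)
    -- bound of `lD`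
    have hlog_mono : ∀ k : ℕ, 1 ≤ k → k ≤ N → Real.log k ≤ Real.log N := by
      intro k hk hkN
      exact Real.log_le_log (by exact_mod_cast hk) (by exact_mod_cast hkN)
    have hlD : ∀ k : ℕ, 1 ≤ k → k ≤ N → lD a k ≤ k * (C₀ * Real.log N) := by
      intro k hk hkN
      rcases hk.lt_or_eq with hk1 | hk1
      · rw [← g3 k]
        refine mul_le_mul_of_nonneg_left ?_ (Nat.cast_nonneg _)
        refine (g1 k hk1).trans ?_
        exact mul_le_mul_of_nonneg_left (hlog_mono k hk hkN) (by linarith)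
      · rw [← hk1]
        have h1 := g7 1 0 2 le_rfl (by omega) (by omega)
        have h2 : lD a 1 = ld (a 1) (a 0) := by
          unfold lD
          simp
        rw [h2]
        have h3 := hlog_mono 2 (by omega) (by omega)
        push_cast
        push_cast at h1 h3
        nlinarith
    have hcard : ((PA a N P₂).card : ℝ) ≤ P₂ * (2 * C₀ * Real.log N) := by
      have h1 := hlD P₂ hP (hP₂₃.trans hPN)
      have h2 : (1 / 2 : ℝ) ≤ Real.log 2 := by
        have := Real.log_two_gt_d9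
        linarith
      have h3 : (0 : ℝ) ≤ (PA a N P₂).card := Nat.cast_nonneg _
      nlinarith
    have hsum : ∑ p ∈ PA a N P₂, Real.log p * (Lv C₀ a N P₃ p : ℝ) ≤
        ∑ p ∈ PA a N P₂, (Real.log p * nv p a P₃ + C₀ * Real.log N + Real.log p) := by
      refine Finset.sum_le_sum fun p hp => ?_
      have hpp : p.Prime := r1 p (mem_PA.mp hp).1
      have hlp : 0 ≤ Real.log p := Real.log_nonneg (by exact_mod_cast hpp.one_le)
      have h1 : (Lv C₀ a N P₃ p : ℝ) ≤ nv p a P₃ + (Nat.log p ⌊(N : ℝ) ^ C₀⌋₊ + 1) := by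
        unfold Lv
        push_cast
        refine max_le ?_ ?_
        · have : (0 : ℝ) ≤ Nat.log p ⌊(N : ℝ) ^ C₀⌋₊ := Nat.cast_nonneg _
          linarith
        · have : (0 : ℝ) ≤ nv p a P₃ := Nat.cast_nonneg _
          linarith
      have h2 : Real.log p * (Nat.log p ⌊(N : ℝ) ^ C₀⌋₊ : ℝ) ≤ C₀ * Real.log N := by
        rw [← Real.log_rpow hN0, mul_comm, ← Real.log_pow]
        have hfl : ⌊(N : ℝ) ^ C₀⌋₊ ≠ 0 := by
          have : 1 ≤ ⌊(N : ℝ) ^ C₀⌋₊ := by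
            refine Nat.le_floor ?_
            push_cast
            refine Real.one_le_rpow ?_ (by linarith)
            have : 1 ≤ N := by omega
            exact_mod_cast this
          omega
        refine Real.log_le_log ?_ ?_
        · have : 0 < p := hpp.pos
          positivity
        · have h3 := Nat.pow_log_le_self p hfl
          have h4 : ((p ^ Nat.log p ⌊(N : ℝ) ^ C₀⌋₊ : ℕ) : ℝ) ≤ (⌊(N : ℝ) ^ C₀⌋₊ : ℝ) := by
            exact_mod_cast h3
          push_cast at h4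
          exact h4.trans (Nat.floor_le (by positivity))
      have h3 := mul_le_mul_of_nonneg_left h1 hlp
      nlinarith
    rw [Finset.sum_add_distrib, Finset.sum_add_distrib, Finset.sum_const, nsmul_eq_mul] at hsum
    have hs1 : ∑ p ∈ PA a N P₂, Real.log p * (nv p a P₃ : ℝ) ≤ lD a P₃ := by
      rw [r3 P₃ (by omega)]
      refine Finset.sum_le_sum_of_subset_of_nonneg ?_ ?_
      · intro p hp
        exact (mem_PA.mp hp).1
      · intro p hp _
        have hpp : p.Prime := r1 p hp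
        have hlp : 0 ≤ Real.log p := Real.log_nonneg (by exact_mod_cast hpp.one_le)
        positivity
    have hs2 := hlD P₃ (by omega) hPN
    have hs3 := hlD P₂ hP (hP₂₃.trans hPN)
    have hP₃R : (P₃ : ℝ) = P₂ * (el N : ℝ) ^ 3 := by
      rw [hP₃]
      push_cast
      ring
    have hPR : (1 : ℝ) ≤ P₂ := by exact_mod_cast hP
    set l : ℝ := (el N : ℝ) with hldef
    have hl1 : 1 ≤ l := by nlinarith
    have hCl : 0 ≤ C₀ := by linarith
    -- total
    have e1 : lD a P₃ ≤ P₂ * (C₀ * l ^ 4) := by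
      refine hs2.trans ?_
      rw [hP₃R]
      have : C₀ * Real.log N ≤ C₀ * l := mul_le_mul_of_nonneg_left hl hCl
      have h6 : (P₂ : ℝ) * l ^ 3 * (C₀ * Real.log N) ≤ (P₂ : ℝ) * l ^ 3 * (C₀ * l) :=
        mul_le_mul_of_nonneg_left this (by positivity)
      calc (P₂ : ℝ) * l ^ 3 * (C₀ * Real.log N) ≤ (P₂ : ℝ) * l ^ 3 * (C₀ * l) := h6
        _ = P₂ * (C₀ * l ^ 4) := by ring
    have hl14 : l ≤ l ^ 4 := by
      calc l = l ^ 1 := (pow_one l).symm
        _ ≤ l ^ 4 := pow_le_pow_right₀ hl1 (by norm_num)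
    have hl24 : l ^ 2 ≤ l ^ 4 := pow_le_pow_right₀ hl1 (by norm_num)
    have e2 : ((PA a N P₂).card : ℝ) * (C₀ * Real.log N) ≤ P₂ * (2 * C₀ ^ 2 * l ^ 4) := by
      have h1 : ((PA a N P₂).card : ℝ) * (C₀ * Real.log N) ≤
          (P₂ * (2 * C₀ * Real.log N)) * (C₀ * Real.log N) :=
        mul_le_mul_of_nonneg_right hcard (by positivity)
      have h2 : (P₂ * (2 * C₀ * Real.log N)) * (C₀ * Real.log N) ≤
          P₂ * (2 * C₀ ^ 2 * l ^ 2) := by
        have h3 : Real.log N ^ 2 ≤ l ^ 2 := pow_le_pow_left₀ hlN.le hl 2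
        calc (P₂ * (2 * C₀ * Real.log N)) * (C₀ * Real.log N)
            = (P₂ * (2 * C₀ ^ 2)) * Real.log N ^ 2 := by ring
          _ ≤ (P₂ * (2 * C₀ ^ 2)) * l ^ 2 := mul_le_mul_of_nonneg_left h3 (by positivity)
          _ = P₂ * (2 * C₀ ^ 2 * l ^ 2) := by ring
      have h4 : (P₂ : ℝ) * (2 * C₀ ^ 2 * l ^ 2) ≤ P₂ * (2 * C₀ ^ 2 * l ^ 4) := by
        refine mul_le_mul_of_nonneg_left ?_ (by linarith)
        exact mul_le_mul_of_nonneg_left hl24 (by positivity)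
      linarith
    have e3 : lD a P₂ ≤ P₂ * (C₀ * l ^ 4) := by
      refine hs3.trans ?_
      refine mul_le_mul_of_nonneg_left ?_ (by linarith)
      refine mul_le_mul_of_nonneg_left ?_ hCl
      linarith
    have e4 : (P₂ : ℝ) * (C₀ * l ^ 4) + P₂ * (2 * C₀ ^ 2 * l ^ 4) + P₂ * (C₀ * l ^ 4) ≤
        P₂ * l ^ 5 := by
      have h1 : (2 * C₀ + 2 * C₀ ^ 2) * l ^ 4 ≤ l * l ^ 4 := by
        refine mul_le_mul_of_nonneg_right ?_ (by positivity)
        linarith
      have h2 : (P₂ : ℝ) * ((2 * C₀ + 2 * C₀ ^ 2) * l ^ 4) ≤ P₂ * (l * l ^ 4) :=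
        mul_le_mul_of_nonneg_left h1 (by linarith)
      calc (P₂ : ℝ) * (C₀ * l ^ 4) + P₂ * (2 * C₀ ^ 2 * l ^ 4) + P₂ * (C₀ * l ^ 4)
          = P₂ * ((2 * C₀ + 2 * C₀ ^ 2) * l ^ 4) := by ring
        _ ≤ P₂ * (l * l ^ 4) := h2
        _ = P₂ * l ^ 5 := by ring
    linarith

end Pool.Agent.Work.MP_b29d7f_two
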