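import Pool.Agent.Work.MP_b29d7f_two.Interface2

/-!
# Block LW1: one window, lower bound
-/

namespace Pool.Agent.Work.MP_b29d7f_two

open Finset
open Pool.Agent.Work.MP_b29d7f_nt (IsPOrdering HasSimultaneousOrdering PS vd ld tv)
open Pool.Agent.Work.MP_b29d7f_half (Ord A wv lD)
open Pool.Agent.Work.MP_b29d7f_sep (nv EW EL)

theorem lw1_near (m : ℕ) (R : Finset ℕ) (h : ℕ) :
    ((R.filter fun l => h < l + m ∧ l < h + m).card : ℝ) ≤ 2 * m := by
  have hsub : (R.filter fun l => h < l + m ∧ l < h + m) ⊆ Ico (h + 1 - m) (h + m) := by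
    intro l hl
    rw [Finset.mem_filter] at hl
    rw [Finset.mem_Ico]
    omega
  have h1 := Finset.card_le_card hsub
  rw [Nat.card_Ico] at h1
  have h2 : (R.filter fun l => h < l + m ∧ l < h + m).card ≤ 2 * m := by omega
  exact_mod_cast h2

theorem lw1_pair (hM : Stmt_MXB) (a : ℕ → ℤ) (k₀ : ℕ) (C₀ : ℝ) (hD : Dat a k₀ C₀)
    (m : ℕ) (y : ℝ) (hy : 0 ≤ y) (h l : ℕ) (hR : Rt a h) (hL : Rt a l) (hml : h + m ≤ l)
    (hG : y < Gm a m h) : y ≤ ld (a h) (a l) := by
  obtain ⟨hmono, -, -, -, -, -, -, hMx, -⟩ := hM a k₀ C₀ hD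
  have e1 : Mx a h = a h := hMx h hR
  have e2 : Mx a l = a l := hMx l hL
  have e3 : Mx a (h + m) ≤ Mx a l := hmono hml
  have e4 : Mx a h ≤ Mx a (h + m) := hmono (Nat.le_add_right _ _)
  unfold Gm at hG
  unfold ld
  have hpos : 0 < Mx a (h + m) - Mx a h := by
    rcases lt_or_eq_of_le (sub_nonneg.mpr e4) with h1 | h1
    · exact h1
    · exfalso
      rw [← h1] at hG
      simp at hG
      linarith
  have hposR : (0 : ℝ) < ((Mx a (h + m) - Mx a h : ℤ) : ℝ) := by exact_mod_cast hpos
  refine hG.le.trans ?_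
  apply Real.log_le_log hposR
  have h5 : ((Mx a (h + m) - Mx a h : ℤ) : ℝ) ≤ ((a l - a h : ℤ) : ℝ) := by
    have : Mx a (h + m) - Mx a h ≤ a l - a h := by omega
    exact_mod_cast this
  refine h5.trans ?_
  rw [show ((a h - a l : ℤ) : ℝ) = -((a l - a h : ℤ) : ℝ) by push_cast; ring, abs_neg]
  exact le_abs_self _

theorem lw1_nonneg (a : ℕ → ℤ) (hinj : Function.Injective a) (h l : ℕ) :
    0 ≤ ld (a h) (a l) := by
  unfold ld
  by_cases hne : h = l
  · rw [hne]
    simp
  · apply Real.log_nonneg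
    have h1 : a h - a l ≠ 0 := sub_ne_zero.mpr fun h2 => hne (hinj h2)
    have h2 : 1 ≤ |a h - a l| := Int.one_le_abs h1
    have h3 : (1 : ℝ) ≤ ((|a h - a l| : ℤ) : ℝ) := by exact_mod_cast h2
    rw [Int.cast_abs] at h3
    exact h3

theorem lw1_comm (x z : ℤ) : ld x z = ld z x := by
  unfold ld
  rw [show ((x - z : ℤ) : ℝ) = -((z - x : ℤ) : ℝ) by push_cast; ring, abs_neg]

theorem p_LW1 (hM : Stmt_MXB) (hDI : Stmt_DIA) (hP : Stmt_PAE) : Stmt_LW1 := by
  classical
  intro a k₀ C₀ hD m w u y Γ x hm hy hΓ hgg hx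
  obtain ⟨hinj, -⟩ := hP a hD.ord
  obtain ⟨hdia, -, -⟩ := hDI a k₀ C₀ hD
  obtain ⟨R, hRdef⟩ : ∃ R : Finset ℕ, R = Rf a u (u + w + 1) := ⟨_, rfl⟩
  obtain ⟨E, hEdef⟩ : ∃ E : Finset ℕ, E = R.filter fun h => Gm a m h ≤ y := ⟨_, rfl⟩
  have hmemR : ∀ h, h ∈ R ↔ (u ≤ h ∧ h < u + w + 1) ∧ Rt a h := by
    intro h
    rw [hRdef, mem_Rf]
  have hxE : (x : ℝ) = E.card := by
    rw [hx, hEdef, hRdef]
  have hRc : Rc a u (u + w + 1) = R.card := by
    rw [hRdef]
    rfl
  rw [hRc]
  unfold ELR
  rw [← hRdef]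
  have hRI : R ⊆ Ico u (u + w + 1) := by
    intro h hh
    rw [Finset.mem_Ico]
    exact ((hmemR h).mp hh).1
  -- the lower bound for one `h`
  have hone : ∀ h ∈ R, (∑ l ∈ R, y * (1 - (if h < l + m ∧ l < h + m then 1 else 0) -
        (if h ∈ E then 1 else 0) - (if l ∈ E then 1 else 0))) +
        Γ * ((w : ℝ) + 1 - R.card) ≤
      ∑ l ∈ (Ico u (u + w + 1)).erase h, ld (a h) (a l) := by
    intro h hh
    obtain ⟨hh1, hh2⟩ := (hmemR h).mp hh
    have hsplit : (Ico u (u + w + 1)).erase h = (R.erase h) ∪ (Ico u (u + w + 1) \ R) := by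
      ext l
      rw [Finset.mem_erase, Finset.mem_union, Finset.mem_erase, Finset.mem_sdiff]
      constructor
      · rintro ⟨h1, h2⟩
        by_cases h3 : l ∈ R
        · exact Or.inl ⟨h1, h3⟩
        · exact Or.inr ⟨h2, h3⟩
      · rintro (⟨h1, h2⟩ | ⟨h1, h2⟩)
        · exact ⟨h1, hRI h2⟩
        · refine ⟨?_, h1⟩
          rintro rfl
          exact h2 hh
    have hdisj : Disjoint (R.erase h) (Ico u (u + w + 1) \ R) := by
      rw [Finset.disjoint_left]
      intro l hl hl2
      exact (Finset.mem_sdiff.mp hl2).2 (Finset.mem_of_mem_erase hl)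
    rw [hsplit, Finset.sum_union hdisj]
    apply add_le_add
    · rw [← Finset.add_sum_erase R _ hh]
      have hself : y * (1 - (if h < h + m ∧ h < h + m then 1 else 0) -
        (if h ∈ E then 1 else 0) - (if h ∈ E then 1 else 0)) ≤ 0 := by
        rw [if_pos ⟨by omega, by omega⟩]
        have : (0 : ℝ) ≤ if h ∈ E then 1 else 0 := by split_ifs <;> norm_num
        apply mul_nonpos_of_nonneg_of_nonpos hy
        linarith
      have hrest : ∑ l ∈ R.erase h, y * (1 - (if h < l + m ∧ l < h + m then 1 else 0) -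
        (if h ∈ E then 1 else 0) - (if l ∈ E then 1 else 0)) ≤
          ∑ l ∈ R.erase h, ld (a h) (a l) := by
        apply Finset.sum_le_sum
        intro l hl
        have hlR := Finset.mem_of_mem_erase hl
        obtain ⟨hl1, hl2⟩ := (hmemR l).mp hlR
        have hnn := lw1_nonneg a hinj h l
        have i1 : (0 : ℝ) ≤ if h ∈ E then 1 else 0 := by split_ifs <;> norm_num
        have i2 : (0 : ℝ) ≤ if l ∈ E then 1 else 0 := by split_ifs <;> norm_num
        have i3 : (0 : ℝ) ≤ if h < l + m ∧ l < h + m then 1 else 0 := by split_ifs <;> norm_num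
        by_cases c1 : h < l + m ∧ l < h + m
        · rw [if_pos c1]
          refine le_trans (mul_nonpos_of_nonneg_of_nonpos hy ?_) hnn
          linarith
        by_cases c2 : h ∈ E
        · rw [if_pos c2]
          refine le_trans (mul_nonpos_of_nonneg_of_nonpos hy ?_) hnn
          linarith
        by_cases c3 : l ∈ E
        · rw [if_pos c3]
          refine le_trans (mul_nonpos_of_nonneg_of_nonpos hy ?_) hnn
          linarith
        rw [if_neg c1, if_neg c2, if_neg c3]
        have hyy : y ≤ ld (a h) (a l) := by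
          have hE1 : y < Gm a m h := by
            by_contra hcon
            push Not at hcon
            apply c2
            rw [hEdef, Finset.mem_filter]
            exact ⟨hh, hcon⟩
          have hE2 : y < Gm a m l := by
            by_contra hcon
            push Not at hcon
            apply c3
            rw [hEdef, Finset.mem_filter]
            exact ⟨hlR, hcon⟩
          rcases Nat.lt_or_ge h (l + m) with c4 | c4
          · have c5 : h + m ≤ l := by
              by_contra hcon
              exact c1 ⟨c4, by omega⟩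
            exact lw1_pair hM a k₀ C₀ hD m y hy h l hh2 hl2 c5 hE1
          · rw [lw1_comm]
            exact lw1_pair hM a k₀ C₀ hD m y hy l h hl2 hh2 c4 hE2
        linarith
      linarith
    · have hcard : ((Ico u (u + w + 1) \ R).card : ℝ) = w + 1 - R.card := by
        have h1 := Finset.card_sdiff_of_subset hRI
        rw [Nat.card_Ico, show u + w + 1 - u = w + 1 by omega] at h1
        have h2 : R.card ≤ w + 1 := by
          have := Finset.card_le_card hRI
          rw [Nat.card_Ico] at this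
          omega
        rw [h1]
        push_cast [h2]
        ring
      rw [← hcard, mul_comm, ← nsmul_eq_mul, ← Finset.sum_const]
      apply Finset.sum_le_sum
      intro l hl
      rw [Finset.mem_sdiff, Finset.mem_Ico] at hl
      have hlR : ¬ Rt a l := fun hcon => hl.2 ((hmemR l).mpr ⟨hl.1, hcon⟩)
      refine le_trans (hgg (min h l) ?_ ?_) (hdia h l hh2 hlR)
      · exact le_min hh1.1 hl.1.1
      · exact (min_le_left _ _).trans (by omega)
  refine le_trans ?_ (Finset.sum_le_sum hone)
  rw [Finset.sum_add_distrib, Finset.sum_const, nsmul_eq_mul]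
  have hmain : y * ((R.card : ℝ) * ((R.card : ℝ) - 2 * m - 2 * x)) ≤
      ∑ h ∈ R, ∑ l ∈ R, y * (1 - (if h < l + m ∧ l < h + m then 1 else 0) -
        (if h ∈ E then 1 else 0) - (if l ∈ E then 1 else 0)) := by
    have e0 : ∑ h ∈ R, ∑ l ∈ R, y * (1 - (if h < l + m ∧ l < h + m then 1 else 0) -
        (if h ∈ E then 1 else 0) - (if l ∈ E then 1 else 0)) =
        y * ∑ h ∈ R, ∑ l ∈ R, ((1 : ℝ) - (if h < l + m ∧ l < h + m then 1 else 0) -
        (if h ∈ E then 1 else 0) - (if l ∈ E then 1 else 0)) := by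
      rw [Finset.mul_sum]
      apply Finset.sum_congr rfl
      intro h _
      rw [Finset.mul_sum]
    rw [e0]
    apply mul_le_mul_of_nonneg_left _ hy
    have hEc : ∑ l ∈ R, (if l ∈ E then (1 : ℝ) else 0) = x := by
      rw [hxE, ← Finset.sum_filter, Finset.sum_const, nsmul_eq_mul, mul_one]
      congr 2
      ext l
      rw [Finset.mem_filter, hEdef, Finset.mem_filter]
      tauto
    have e1 : ∀ h ∈ R, ∑ l ∈ R, ((1 : ℝ) - (if h < l + m ∧ l < h + m then 1 else 0) -
        (if h ∈ E then 1 else 0) - (if l ∈ E then 1 else 0)) =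
        R.card - ((R.filter fun l => h < l + m ∧ l < h + m).card : ℝ) -
          R.card * (if h ∈ E then 1 else 0) - x := by
      intro h _
      rw [Finset.sum_sub_distrib, Finset.sum_sub_distrib, Finset.sum_sub_distrib, hEc,
        Finset.sum_const, Finset.sum_const, nsmul_eq_mul, nsmul_eq_mul, mul_one, Finset.card_filter]
      push_cast
      rfl
    rw [Finset.sum_congr rfl e1, Finset.sum_sub_distrib, Finset.sum_sub_distrib,
      Finset.sum_sub_distrib, ← Finset.mul_sum, hEc, Finset.sum_const, Finset.sum_const,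
      nsmul_eq_mul, nsmul_eq_mul]
    have e2 : ∑ h ∈ R, ((R.filter fun l => h < l + m ∧ l < h + m).card : ℝ) ≤
        R.card * (2 * m) := by
      rw [← nsmul_eq_mul, ← Finset.sum_const]
      exact Finset.sum_le_sum fun h _ => lw1_near m R h
    linarith
  have e3 : Γ * ((R.card : ℝ) * ((w : ℝ) + 1 - R.card)) =
      (R.card : ℝ) * (Γ * ((w : ℝ) + 1 - R.card)) := by ring
  rw [e3]
  linarith

end Pool.Agent.Work.MP_b29d7f_two
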