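import Pool.Agent.Work.MP_b29d7f_two.Interface2

/-! # Block LWL, TWO (helper87): lower bound for the energy of the good windows -/

namespace Pool.Agent.Work.MP_b29d7f_two

open Finset
open Pool.Agent.Work.MP_b29d7f_nt (IsPOrdering HasSimultaneousOrdering PS vd ld tv)
open Pool.Agent.Work.MP_b29d7f_half (Ord A wv lD)
open Pool.Agent.Work.MP_b29d7f_sep (nv EW EL)

/-- The arithmetic of one window. -/
theorem LWL_arith (W w ρ e d₃ r m K x y Γ E : ℝ) (hW : W = w + 1) (hw : 1 ≤ w) (hd : 0 < d₃)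
    (hρ : d₃ ≤ ρ) (hρ1 : ρ ≤ 1) (he : 0 ≤ e) (hr0 : 0 ≤ r) (hrW : r ≤ W)
    (hr : |r - ρ * W| ≤ e * w) (hm : 1 ≤ m) (hK : 1 ≤ K) (hKm : K * m ≤ w)
    (hx : 0 ≤ x) (hy : 0 ≤ y) (hΓ : 0 ≤ Γ)
    (hE : y * (r * (r - 2 * m - 2 * x)) + Γ * (r * (W - r)) ≤ E) :
    W ^ 2 * (y * (ρ * (1 + ρ)) + Γ * ((1 + ρ) * (1 - ρ))) -
        W ^ 2 * ((y + Γ) * (8 * (e / d₃) + 4 / K)) - (4 + 4 * (e / d₃)) * y * (W * x) ≤
      ((1 + ρ) / ρ) * E := by
  have hρ0 : 0 < ρ := lt_of_lt_of_le hd hρ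
  set c : ℝ := (1 + ρ) / ρ with hc
  have hcρ : c * ρ = 1 + ρ := by rw [hc]; field_simp
  have hc0 : 0 < c := by positivity
  have hc2 : c ≤ 2 / d₃ := by
    rw [hc, div_le_div_iff₀ hρ0 hd]
    nlinarith
  set q : ℝ := e / d₃ with hq
  have hq0 : 0 ≤ q := by positivity
  have hce : c * e ≤ 2 * q := by
    have h1 : c * e ≤ 2 / d₃ * e := mul_le_mul_of_nonneg_right hc2 he
    have h2 : 2 / d₃ * e = 2 * q := by rw [hq]; ring
    linarith
  have hce0 : 0 ≤ c * e := by positivity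
  have hW0 : 0 ≤ W := by linarith
  have hwW : w ≤ W := by linarith
  have hr1 := (abs_le.1 hr).1
  have hr2 := (abs_le.1 hr).2
  have hew : 0 ≤ e * w := by positivity
  have hewW : e * w * W ≤ e * W ^ 2 := by
    have : e * (w * W) ≤ e * (W * W) :=
      mul_le_mul_of_nonneg_left (mul_le_mul_of_nonneg_right hwW hW0) he
    nlinarith
  have hρW0 : 0 ≤ ρ * W := by positivity
  have hρWW : ρ * W ≤ W := by nlinarith
  -- (a)
  have ha1 : ρ ^ 2 * W ^ 2 - 2 * (e * W ^ 2) ≤ r * r := by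
    have h1 : -(e * w) * (r + ρ * W) ≤ (r - ρ * W) * (r + ρ * W) :=
      mul_le_mul_of_nonneg_right (by linarith) (by linarith)
    have h2 : (e * w) * (r + ρ * W) ≤ (e * w) * (2 * W) :=
      mul_le_mul_of_nonneg_left (by linarith) hew
    nlinarith
  have ha : (ρ * (1 + ρ)) * W ^ 2 - 4 * q * W ^ 2 ≤ c * (r * r) := by
    have h1 := mul_le_mul_of_nonneg_left ha1 hc0.le
    have h2 : c * (ρ ^ 2 * W ^ 2 - 2 * (e * W ^ 2)) =
        (c * ρ) * ρ * W ^ 2 - 2 * ((c * e) * W ^ 2) := by ring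
    have h3 : (c * e) * W ^ 2 ≤ (2 * q) * W ^ 2 :=
      mul_le_mul_of_nonneg_right hce (by positivity)
    rw [h2, hcρ] at h1
    nlinarith
  -- (b)
  have hmW : m * W ≤ W ^ 2 / K := by
    rw [le_div_iff₀ (by linarith)]
    nlinarith
  have hmw : m ≤ w := by nlinarith
  have hb : c * (2 * m * r) ≤ 4 / K * W ^ 2 + 4 * q * W ^ 2 := by
    have h1 : c * (2 * m * r) ≤ c * (2 * m * (ρ * W + e * w)) := by
      apply mul_le_mul_of_nonneg_left _ hc0.le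
      apply mul_le_mul_of_nonneg_left (by linarith) (by linarith)
    have h2 : c * (2 * m * (ρ * W + e * w)) = 2 * (c * ρ) * (m * W) + 2 * ((c * e) * (m * w)) := by
      ring
    have h3 : 2 * (c * ρ) * (m * W) ≤ 4 * (m * W) := by
      rw [hcρ]
      have : 0 ≤ m * W := by positivity
      nlinarith
    have h4 : 4 * (m * W) ≤ 4 / K * W ^ 2 := by
      have : 4 / K * W ^ 2 = 4 * (W ^ 2 / K) := by ring
      linarith
    have h5 : (c * e) * (m * w) ≤ (2 * q) * W ^ 2 := by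
      apply mul_le_mul hce _ (by positivity) (by positivity)
      nlinarith
    linarith
  -- (c)
  have hcc : c * (2 * x * r) ≤ (4 + 4 * q) * (W * x) := by
    have h1 : c * (2 * x * r) ≤ c * (2 * x * (ρ * W + e * w)) := by
      apply mul_le_mul_of_nonneg_left _ hc0.le
      apply mul_le_mul_of_nonneg_left (by linarith) (by linarith)
    have h2 : c * (2 * x * (ρ * W + e * w)) = 2 * (c * ρ) * (W * x) + 2 * ((c * e) * (w * x)) := by
      ring
    have hWx : 0 ≤ W * x := by positivity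
    have h3 : 2 * (c * ρ) * (W * x) ≤ 4 * (W * x) := by
      rw [hcρ]
      nlinarith
    have h5 : (c * e) * (w * x) ≤ (2 * q) * (W * x) := by
      apply mul_le_mul hce _ (by positivity) (by positivity)
      exact mul_le_mul_of_nonneg_right hwW hx
    linarith
  -- (d)
  have hd1 : ρ * (1 - ρ) * W ^ 2 - e * W ^ 2 ≤ r * (W - r) := by
    have h1 : |(r - ρ * W) * (W - r - ρ * W)| ≤ (e * w) * W := by
      rw [abs_mul]
      apply mul_le_mul hr _ (abs_nonneg _) hew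
      rw [abs_le]
      constructor <;> linarith
    have h2 := (abs_le.1 h1).1
    nlinarith
  have hdd : ((1 + ρ) * (1 - ρ)) * W ^ 2 - 2 * q * W ^ 2 ≤ c * (r * (W - r)) := by
    have h1 := mul_le_mul_of_nonneg_left hd1 hc0.le
    have h2 : c * (ρ * (1 - ρ) * W ^ 2 - e * W ^ 2) =
        (c * ρ) * (1 - ρ) * W ^ 2 - ((c * e) * W ^ 2) := by ring
    have h3 : (c * e) * W ^ 2 ≤ (2 * q) * W ^ 2 :=
      mul_le_mul_of_nonneg_right hce (by positivity)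
    rw [h2, hcρ] at h1
    linarith
  -- total
  have hy1 : y * ((ρ * (1 + ρ)) * W ^ 2 - 4 * q * W ^ 2 - (4 / K * W ^ 2 + 4 * q * W ^ 2) -
      (4 + 4 * q) * (W * x)) ≤ y * (c * (r * r) - c * (2 * m * r) - c * (2 * x * r)) :=
    mul_le_mul_of_nonneg_left (by linarith) hy
  have hΓ1 : Γ * (((1 + ρ) * (1 - ρ)) * W ^ 2 - 2 * q * W ^ 2) ≤ Γ * (c * (r * (W - r))) :=
    mul_le_mul_of_nonneg_left hdd hΓ
  have hE1 := mul_le_mul_of_nonneg_left hE hc0.le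
  have hK0 : 0 ≤ 4 / K := by positivity
  have h6 : 0 ≤ Γ * W ^ 2 * (6 * q + 4 / K) := by positivity
  have h7 : W ^ 2 * (y * (ρ * (1 + ρ)) + Γ * ((1 + ρ) * (1 - ρ))) -
        W ^ 2 * ((y + Γ) * (8 * q + 4 / K)) - (4 + 4 * q) * y * (W * x) =
      y * ((ρ * (1 + ρ)) * W ^ 2 - 4 * q * W ^ 2 - (4 / K * W ^ 2 + 4 * q * W ^ 2) -
      (4 + 4 * q) * (W * x)) + Γ * (((1 + ρ) * (1 - ρ)) * W ^ 2 - 2 * q * W ^ 2) -
      Γ * W ^ 2 * (6 * q + 4 / K) := by ring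
  have h8 : c * (y * (r * (r - 2 * m - 2 * x)) + Γ * (r * (W - r))) =
      y * (c * (r * r) - c * (2 * m * r) - c * (2 * x * r)) + Γ * (c * (r * (W - r))) := by ring
  rw [h7]
  rw [h8] at hE1
  linarith

/-- The last exceptional index of a window is dropped. -/
theorem LWL_arith2 (W w ρ e d₃ r m K x x' y Γ E : ℝ) (hW : W = w + 1) (hw : 1 ≤ w) (hd : 0 < d₃)
    (hρ : d₃ ≤ ρ) (hρ1 : ρ ≤ 1) (he : 0 ≤ e) (hr0 : 0 ≤ r) (hrW : r ≤ W)
    (hr : |r - ρ * W| ≤ e * w) (hm : 1 ≤ m) (hK : 1 ≤ K) (hKm : K * m ≤ w)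
    (hx : 0 ≤ x) (hxx : x ≤ x' + 1) (hy : 0 ≤ y) (hΓ : 0 ≤ Γ)
    (hE : y * (r * (r - 2 * m - 2 * x)) + Γ * (r * (W - r)) ≤ E) :
    W ^ 2 * (y * (ρ * (1 + ρ)) + Γ * ((1 + ρ) * (1 - ρ))) -
        W ^ 2 * ((y + Γ) * (12 * (e / d₃) + 8 / K)) - (4 + 4 * (e / d₃)) * y * (W * x') ≤
      ((1 + ρ) / ρ) * E := by
  have h := LWL_arith W w ρ e d₃ r m K x y Γ E hW hw hd hρ hρ1 he hr0 hrW hr hm hK hKm hx hy hΓ hE
  refine le_trans ?_ h
  set q : ℝ := e / d₃ with hq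
  have hq0 : 0 ≤ q := by positivity
  have hW1 : 1 ≤ W := by linarith
  have hKW : K ≤ W := by nlinarith
  have h1 : W * x ≤ W * x' + W := by nlinarith
  have h2 : (4 + 4 * q) * y * (W * x) ≤ (4 + 4 * q) * y * (W * x' + W) :=
    mul_le_mul_of_nonneg_left h1 (by positivity)
  have h3 : W ≤ W ^ 2 / K := by
    rw [le_div_iff₀ (by linarith)]
    nlinarith
  have h4 : W ≤ W ^ 2 := by nlinarith
  have h5 : (4 + 4 * q) * W ≤ (4 / K + 4 * q) * W ^ 2 := by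
    have e1 : 4 / K * W ^ 2 = 4 * (W ^ 2 / K) := by ring
    have e2 : q * W ≤ q * W ^ 2 := mul_le_mul_of_nonneg_left h4 hq0
    nlinarith
  have h6 : y * ((4 + 4 * q) * W) ≤ y * ((4 / K + 4 * q) * W ^ 2) :=
    mul_le_mul_of_nonneg_left h5 hy
  have h7 : 0 ≤ Γ * W ^ 2 * (4 / K + 4 * q) := by positivity
  have e3 : W ^ 2 * ((y + Γ) * (12 * q + 8 / K)) = W ^ 2 * ((y + Γ) * (8 * q + 4 / K)) +
      y * ((4 / K + 4 * q) * W ^ 2) + Γ * W ^ 2 * (4 / K + 4 * q) := by ring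
  rw [e3]
  nlinarith

/-- The exceptional indices of the windows of one block. -/
theorem LWL_blk (w Q s : ℕ) (B : ℕ → ℝ) (hB0 : ∀ i, 0 ≤ B i) (hw : 1 ≤ w)
    (hwQ : w ≤ Q) :
    ∑ u ∈ Ico s (s + Q - w + 1), ∑ i ∈ Ico u (u + w), B i ≤
      ((w : ℝ) + 1) * ∑ i ∈ Ico s (s + Q), B i := by
  have h1 : ∀ u : ℕ, ∑ i ∈ Ico u (u + w), B i = ∑ t ∈ range w, B (u + t) := by
    intro u
    rw [Finset.sum_Ico_eq_sum_range]
    have : u + w - u = w := by omega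
    rw [this]
  rw [Finset.sum_congr rfl (fun u _ => h1 u), Finset.sum_comm]
  have h2 : ∀ t ∈ range w, ∑ u ∈ Ico s (s + Q - w + 1), B (u + t) ≤
      ∑ i ∈ Ico s (s + Q), B i := by
    intro t ht
    rw [Finset.mem_range] at ht
    have e1 : ∑ u ∈ Ico s (s + Q - w + 1), B (u + t) =
        ∑ i ∈ (Ico s (s + Q - w + 1)).image (fun u => u + t), B i := by
      rw [Finset.sum_image]
      intro x _ y _ hxy
      simpa using hxy
    rw [e1]
    apply Finset.sum_le_sum_of_subset_of_nonneg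
    · intro i hi
      rw [Finset.mem_image] at hi
      obtain ⟨u, hu, rfl⟩ := hi
      rw [Finset.mem_Ico] at hu ⊢
      omega
    · intro i _ _
      exact hB0 i
  calc ∑ t ∈ range w, ∑ u ∈ Ico s (s + Q - w + 1), B (u + t)
      ≤ ∑ t ∈ range w, ∑ i ∈ Ico s (s + Q), B i := Finset.sum_le_sum h2
    _ = (w : ℝ) * ∑ i ∈ Ico s (s + Q), B i := by
        rw [Finset.sum_const, card_range, nsmul_eq_mul]
    _ ≤ ((w : ℝ) + 1) * ∑ i ∈ Ico s (s + Q), B i := by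
        apply mul_le_mul_of_nonneg_right _ (Finset.sum_nonneg (fun i _ => hB0 i))
        linarith

/-- The windows of one block. -/
theorem LWL_sum (G : Finset ℕ) (W Q e₁ y Γ ρ P M c : ℝ) (E X : ℕ → ℝ) (hy : 0 ≤ y) (hΓ : 0 ≤ Γ)
    (hρ : 0 ≤ ρ) (hρ1 : ρ ≤ 1) (hP : 0 ≤ P) (hQ : 0 ≤ Q) (he0 : 0 ≤ e₁)
    (hM : M = y * (ρ * (1 + ρ)) + Γ * ((1 + ρ) * (1 - ρ)))
    (hlo : (1 - e₁) * Q ≤ (G.card : ℝ)) (hhi : (G.card : ℝ) ≤ Q)
    (h : ∀ u ∈ G, W ^ 2 * M - W ^ 2 * ((y + Γ) * P) - X u ≤ c * E u) :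
    Q * (W ^ 2 * M) - Q * (W ^ 2 * ((y + Γ) * (P + 2 * e₁))) - ∑ u ∈ G, X u ≤
      c * ∑ u ∈ G, E u := by
  have h1 := Finset.sum_le_sum h
  rw [← Finset.mul_sum, Finset.sum_sub_distrib, Finset.sum_const, nsmul_eq_mul] at h1
  refine le_trans ?_ h1
  have hM0 : 0 ≤ M := by
    rw [hM]
    have : 0 ≤ 1 - ρ := by linarith
    positivity
  have hM1 : M ≤ 2 * (y + Γ) := by
    rw [hM]
    have e1 : y * (ρ * (1 + ρ)) ≤ y * 2 := mul_le_mul_of_nonneg_left (by nlinarith) hy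
    have e2 : Γ * ((1 + ρ) * (1 - ρ)) ≤ Γ * 1 := mul_le_mul_of_nonneg_left (by nlinarith) hΓ
    linarith
  have hWM : 0 ≤ W ^ 2 * M := by positivity
  have h2 : (1 - e₁) * Q * (W ^ 2 * M) ≤ (G.card : ℝ) * (W ^ 2 * M) :=
    mul_le_mul_of_nonneg_right hlo hWM
  have h3 : (G.card : ℝ) * (W ^ 2 * ((y + Γ) * P)) ≤ Q * (W ^ 2 * ((y + Γ) * P)) :=
    mul_le_mul_of_nonneg_right hhi (by positivity)
  have h4 : e₁ * Q * (W ^ 2 * M) ≤ e₁ * Q * (W ^ 2 * (2 * (y + Γ))) := by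
    apply mul_le_mul_of_nonneg_left _ (by positivity)
    exact mul_le_mul_of_nonneg_left hM1 (by positivity)
  nlinarith

theorem stmt_LWL (hLW1 : Stmt_LW1) (hLSM : Stmt_LSM) (hGGB : Stmt_GGB) (hMXB : Stmt_MXB) :
    Stmt_LWL := by
  classical
  intro a k₀ C₀ κ hD hκ n N m w Q K₁ D y d₃ e e₁ hN hn1 hn2 hrec hm hK hKm hwQ hy hd hd1 he he1
    he₁ he₁1 hDD
  obtain ⟨-, -, -, -, -, -, -, -, -, -, -, -, -, hRcle⟩ := hMXB a k₀ C₀ hD
  obtain ⟨-, hgg0, -, -, -, -, -⟩ := hGGB a k₀ C₀ hD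
  have hmR : (1 : ℝ) ≤ m := by exact_mod_cast hm
  have hKR : (1 : ℝ) ≤ K₁ := by exact_mod_cast hK
  have hKmR : (K₁ : ℝ) * m ≤ w := by exact_mod_cast hKm
  have hw1 : 1 ≤ w := by
    have : 1 ≤ K₁ * m := Nat.mul_pos hK hm
    omega
  have hwR : (1 : ℝ) ≤ w := by exact_mod_cast hw1
  have hQ1 : 1 ≤ Q := by omega
  have hQR : (1 : ℝ) ≤ Q := by exact_mod_cast hQ1
  set B : ℕ → ℝ := fun i => if Rt a i ∧ Gm a m i ≤ y then 1 else 0 with hBdef
  have hB0 : ∀ i, 0 ≤ B i := by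
    intro i
    simp only [hBdef]
    split_ifs <;> norm_num
  have hB1 : ∀ i, B i ≤ 1 := by
    intro i
    simp only [hBdef]
    split_ifs <;> norm_num
  have hcnt : (cnt a k₀ N m y : ℝ) = ∑ i ∈ Ico k₀ N, B i := by
    unfold cnt
    rw [Finset.card_filter]
    push_cast
    apply Finset.sum_congr rfl
    intro i _
    simp only [hBdef]
  -- the blocks are disjoint
  have hdis : ∑ j ∈ D, ∑ i ∈ Ico (j * Q) (j * Q + Q), B i ≤ ∑ i ∈ Ico k₀ N, B i := by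
    rw [← Finset.sum_biUnion]
    · apply Finset.sum_le_sum_of_subset_of_nonneg
      · intro i hi
        rw [Finset.mem_biUnion] at hi
        obtain ⟨j, hj, hi⟩ := hi
        rw [Finset.mem_Ico] at hi ⊢
        have h1 := (hDD j hj).1
        have h2 := (hDD j hj).2.2.1
        omega
      · intro i _ _
        exact hB0 i
    · intro j _ j' _ hne
      rw [Function.onFun, Finset.disjoint_left]
      intro i hi hi'
      rw [Finset.mem_Ico] at hi hi'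
      apply hne
      have e1 : i / Q = j := by
        apply Nat.div_eq_of_lt_le
        · exact hi.1
        · rw [Nat.succ_mul]; exact hi.2
      have e2 : i / Q = j' := by
        apply Nat.div_eq_of_lt_le
        · exact hi'.1
        · rw [Nat.succ_mul]; exact hi'.2
      rw [← e1, e2]
  set gn : ℝ := gg a n with hgn
  have hgn0 : 0 ≤ gn := hgg0 n
  set W : ℝ := (w : ℝ) + 1 with hW
  have hW0 : 0 < W := by linarith
  set q : ℝ := e / d₃ with hq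
  have hq0 : 0 ≤ q := by positivity
  have hKinv : 0 < 1 / (K₁ : ℝ) := by positivity
  set Lg : ℕ → ℝ := fun j => Real.log n - Real.log ((j * Q : ℕ) : ℝ) with hLg
  have hLg0 : ∀ j ∈ D, 0 ≤ Lg j := by
    intro j hj
    obtain ⟨-, h1, h2, -, -⟩ := hDD j hj
    have h3 : 1 ≤ j * Q := Nat.mul_pos h1 hQ1
    have h4 : ((j * Q : ℕ) : ℝ) ≤ n := by exact_mod_cast (by omega : j * Q ≤ n)
    have h5 : (0 : ℝ) < ((j * Q : ℕ) : ℝ) := by exact_mod_cast h3
    have := Real.log_le_log h5 h4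
    simp only [hLg]
    linarith
  set Γ : ℕ → ℝ := fun j => max 0 (gn - κ * Lg j) with hΓ
  -- one block
  have hblock : ∀ j ∈ D,
      Q * (W ^ 2 * (y * (sh a Q j * (1 + sh a Q j)) +
        gn * ((1 + sh a Q j) * (1 - sh a Q j)))) - W ^ 2 * (κ * (Q * Lg j)) -
        Q * (W ^ 2 * ((y + gn) * (12 * q + 8 / K₁ + 2 * e₁))) -
        (4 + 4 * q) * y * (W ^ 2 * ∑ i ∈ Ico (j * Q) (j * Q + Q), B i) ≤
      ((1 + sh a Q j) / sh a Q j) * ∑ u ∈ GW a (j * Q) Q w (sh a Q j) e, ELR a u w := by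
    intro j hj
    obtain ⟨hj0, hj1, hj2, hj3, hj4⟩ := hDD j hj
    set ρ : ℝ := sh a Q j with hρdef
    have hρ1 : ρ ≤ 1 := by
      rw [hρdef]
      unfold sh
      rw [div_le_one (by linarith)]
      have := hRcle (j * Q) (j * Q + Q)
      exact_mod_cast (by omega : Rc a (j * Q) (j * Q + Q) ≤ Q)
    have hρ0 : 0 ≤ ρ := by linarith
    have hΓ0 : 0 ≤ Γ j := le_max_left _ _
    have hΓ1 : gn - κ * Lg j ≤ Γ j := le_max_right _ _
    have hΓ2 : Γ j ≤ gn := by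
      apply max_le hgn0
      have := mul_nonneg hκ (hLg0 j hj)
      linarith
    have hcard : ((GW a (j * Q) Q w ρ e).card : ℝ) ≤ Q := by
      have h1 : (GW a (j * Q) Q w ρ e).card ≤ (Ico (j * Q) (j * Q + Q - w + 1)).card := by
        apply Finset.card_le_card
        intro u hu
        rw [mem_GW] at hu
        rw [Finset.mem_Ico]
        exact hu.1
      rw [Nat.card_Ico] at h1
      exact_mod_cast (by omega : (GW a (j * Q) Q w ρ e).card ≤ Q)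
    have hwin : ∀ u ∈ GW a (j * Q) Q w ρ e,
        W ^ 2 * (y * (ρ * (1 + ρ)) + Γ j * ((1 + ρ) * (1 - ρ))) -
          W ^ 2 * ((y + Γ j) * (12 * q + 8 / K₁)) -
          (4 + 4 * q) * y * (W * ∑ i ∈ Ico u (u + w), B i) ≤
        ((1 + ρ) / ρ) * ELR a u w := by
      intro u hu
      rw [mem_GW] at hu
      obtain ⟨⟨hu1, hu2⟩, hgood⟩ := hu
      have hgd := hgood (w + 1) le_rfl
      have hgk : ∀ k : ℕ, u ≤ k → k ≤ u + w → Γ j ≤ gg a k := by
        intro k hk1 hk2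
        apply max_le (hgg0 k)
        have hk0 : 1 ≤ j * Q := Nat.mul_pos hj1 hQ1
        have h1 := hrec.2 k (by omega) (by omega)
        have h2 : Real.log ((j * Q : ℕ) : ℝ) ≤ Real.log k := by
          apply Real.log_le_log
          · exact_mod_cast hk0
          · exact_mod_cast (by omega : j * Q ≤ k)
        have h3 : κ * (Real.log n - Real.log k) ≤ κ * Lg j := by
          apply mul_le_mul_of_nonneg_left _ hκ
          simp only [hLg]
          linarith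
        linarith
      have hE := hLW1 a k₀ C₀ hD m w u y (Γ j) _ hm hy hΓ0 hgk rfl
      set x : ℕ := ((Rf a u (u + w + 1)).filter fun h => Gm a m h ≤ y).card with hx
      have hxx : (x : ℝ) = ∑ i ∈ Ico u (u + w + 1), B i := by
        have h1 : ((Rf a u (u + w + 1)).filter fun h => Gm a m h ≤ y) =
            (Ico u (u + w + 1)).filter (fun h => Rt a h ∧ Gm a m h ≤ y) := by
          ext h
          simp only [Finset.mem_filter, mem_Rf, Finset.mem_Ico]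
          tauto
        rw [hx, h1, Finset.card_filter]
        push_cast
        apply Finset.sum_congr rfl
        intro i _
        simp only [hBdef]
      have hxx' : (x : ℝ) ≤ ∑ i ∈ Ico u (u + w), B i + 1 := by
        rw [hxx, Finset.sum_Ico_succ_top (by omega)]
        have := hB1 (u + w)
        linarith
      have hr1 : (Rc a u (u + w + 1) : ℝ) ≤ W := by
        have := hRcle u (u + w + 1)
        rw [hW]
        exact_mod_cast (by omega : Rc a u (u + w + 1) ≤ w + 1)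
      have hgd' : |(Rc a u (u + w + 1) : ℝ) - ρ * W| ≤ e * w := by
        have e1 : u + (w + 1) = u + w + 1 := by ring
        rw [e1] at hgd
        push_cast at hgd
        rw [hW]
        exact hgd
      exact LWL_arith2 W w ρ e d₃ (Rc a u (u + w + 1)) m K₁ x (∑ i ∈ Ico u (u + w), B i) y (Γ j)
        (ELR a u w) hW hwR hd hj3 hρ1 he (Nat.cast_nonneg _) hr1 hgd' hmR hKR hKmR
        (Nat.cast_nonneg _) hxx' hy hΓ0 hE
    have h1 := LWL_sum (GW a (j * Q) Q w ρ e) W Q e₁ y (Γ j) ρ (12 * q + 8 / K₁) _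
      ((1 + ρ) / ρ) (fun u => ELR a u w) (fun u => (4 + 4 * q) * y * (W * ∑ i ∈ Ico u (u + w), B i))
      hy hΓ0 hρ0 hρ1 (by positivity) (by linarith) he₁ rfl hj4 hcard hwin
    refine le_trans ?_ h1
    have h2 : ∑ u ∈ GW a (j * Q) Q w ρ e, (4 + 4 * q) * y * (W * ∑ i ∈ Ico u (u + w), B i) ≤
        (4 + 4 * q) * y * (W ^ 2 * ∑ i ∈ Ico (j * Q) (j * Q + Q), B i) := by
      rw [← Finset.mul_sum, ← Finset.mul_sum]
      apply mul_le_mul_of_nonneg_left _ (by positivity)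
      have h3 : ∑ u ∈ GW a (j * Q) Q w ρ e, ∑ i ∈ Ico u (u + w), B i ≤
          ∑ u ∈ Ico (j * Q) (j * Q + Q - w + 1), ∑ i ∈ Ico u (u + w), B i := by
        apply Finset.sum_le_sum_of_subset_of_nonneg
        · intro u hu
          rw [mem_GW] at hu
          rw [Finset.mem_Ico]
          exact hu.1
        · intro u _ _
          exact Finset.sum_nonneg (fun i _ => hB0 i)
      have h4 := LWL_blk w Q (j * Q) B hB0 hw1 hwQ
      have h5 : W * ∑ u ∈ GW a (j * Q) Q w ρ e, ∑ i ∈ Ico u (u + w), B i ≤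
          W * (W * ∑ i ∈ Ico (j * Q) (j * Q + Q), B i) :=
        mul_le_mul_of_nonneg_left (le_trans h3 h4) hW0.le
      nlinarith
    have hρρ0 : 0 ≤ (1 + ρ) * (1 - ρ) := by
      have : 0 ≤ 1 - ρ := by linarith
      positivity
    have hρρ1 : (1 + ρ) * (1 - ρ) ≤ 1 := by nlinarith
    have hκL : 0 ≤ κ * Lg j := mul_nonneg hκ (hLg0 j hj)
    have h6 : gn * ((1 + ρ) * (1 - ρ)) - κ * Lg j ≤ Γ j * ((1 + ρ) * (1 - ρ)) := by
      have e1 : (gn - κ * Lg j) * ((1 + ρ) * (1 - ρ)) ≤ Γ j * ((1 + ρ) * (1 - ρ)) :=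
        mul_le_mul_of_nonneg_right hΓ1 hρρ0
      have e2 : κ * Lg j * ((1 + ρ) * (1 - ρ)) ≤ κ * Lg j * 1 :=
        mul_le_mul_of_nonneg_left hρρ1 hκL
      nlinarith
    have hQW : 0 ≤ (Q : ℝ) * W ^ 2 := by positivity
    have h7 : (Q : ℝ) * W ^ 2 * (gn * ((1 + ρ) * (1 - ρ)) - κ * Lg j) ≤
        (Q : ℝ) * W ^ 2 * (Γ j * ((1 + ρ) * (1 - ρ))) := mul_le_mul_of_nonneg_left h6 hQW
    have h8 : (Q : ℝ) * W ^ 2 * ((y + Γ j) * (12 * q + 8 / K₁ + 2 * e₁)) ≤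
        (Q : ℝ) * W ^ 2 * ((y + gn) * (12 * q + 8 / K₁ + 2 * e₁)) := by
      apply mul_le_mul_of_nonneg_left _ hQW
      apply mul_le_mul_of_nonneg_right (by linarith) (by positivity)
    have e5 : (Q : ℝ) * (W ^ 2 * (y * (ρ * (1 + ρ)) + gn * ((1 + ρ) * (1 - ρ)))) -
        W ^ 2 * (κ * (Q * Lg j)) = (Q : ℝ) * W ^ 2 * (y * (ρ * (1 + ρ))) +
          (Q : ℝ) * W ^ 2 * (gn * ((1 + ρ) * (1 - ρ)) - κ * Lg j) := by ring
    have e6 : (Q : ℝ) * (W ^ 2 * (y * (ρ * (1 + ρ)) + Γ j * ((1 + ρ) * (1 - ρ)))) =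
        (Q : ℝ) * W ^ 2 * (y * (ρ * (1 + ρ))) + (Q : ℝ) * W ^ 2 * (Γ j * ((1 + ρ) * (1 - ρ))) := by
      ring
    have e7 : (Q : ℝ) * (W ^ 2 * ((y + gn) * (12 * q + 8 / K₁ + 2 * e₁))) =
        (Q : ℝ) * W ^ 2 * ((y + gn) * (12 * q + 8 / K₁ + 2 * e₁)) := by ring
    have e8 : (Q : ℝ) * (W ^ 2 * ((y + Γ j) * (12 * q + 8 / K₁ + 2 * e₁))) =
        (Q : ℝ) * W ^ 2 * ((y + Γ j) * (12 * q + 8 / K₁ + 2 * e₁)) := by ring
    rw [e5, e6, e7, e8]
    linarith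
  refine le_trans ?_ (Finset.sum_le_sum hblock)
  -- the sum over the blocks
  have hS1 := (hLSM n N Q hN hn1 hn2 hQ1).2 D (fun j hj => ⟨(hDD j hj).2.1, (hDD j hj).2.2.1⟩)
  rw [Finset.sum_sub_distrib, Finset.sum_sub_distrib, Finset.sum_sub_distrib]
  have t1 : ∑ j ∈ D, (Q : ℝ) * (W ^ 2 * (y * (sh a Q j * (1 + sh a Q j)) +
        gn * ((1 + sh a Q j) * (1 - sh a Q j)))) =
      W ^ 2 * (y * (Q * ∑ j ∈ D, sh a Q j * (1 + sh a Q j)) +
        gn * (Q * ∑ j ∈ D, (1 + sh a Q j) * (1 - sh a Q j))) := by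
    rw [Finset.mul_sum, Finset.mul_sum, Finset.mul_sum, Finset.mul_sum, ← Finset.sum_add_distrib,
      Finset.mul_sum]
    apply Finset.sum_congr rfl
    intro j _
    ring
  have t2 : ∑ j ∈ D, W ^ 2 * (κ * (Q * Lg j)) ≤ W ^ 2 * (κ * (8 * N)) := by
    rw [← Finset.mul_sum, ← Finset.mul_sum, ← Finset.mul_sum]
    apply mul_le_mul_of_nonneg_left _ (by positivity)
    exact mul_le_mul_of_nonneg_left hS1 hκ
  have t3 : ∑ j ∈ D, (Q : ℝ) * (W ^ 2 * ((y + gn) * (12 * q + 8 / K₁ + 2 * e₁))) =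
      W ^ 2 * ((y + gn) * (12 * q + 8 / K₁ + 2 * e₁) * (D.card * Q)) := by
    rw [Finset.sum_const, nsmul_eq_mul]
    ring
  have t4 : ∑ j ∈ D, (4 + 4 * q) * y * (W ^ 2 * ∑ i ∈ Ico (j * Q) (j * Q + Q), B i) ≤
      W ^ 2 * ((4 + 4 * q) * y * cnt a k₀ N m y) := by
    rw [← Finset.mul_sum, ← Finset.mul_sum, hcnt]
    have h1 : (4 + 4 * q) * y * (W ^ 2 * ∑ j ∈ D, ∑ i ∈ Ico (j * Q) (j * Q + Q), B i) ≤
        (4 + 4 * q) * y * (W ^ 2 * ∑ i ∈ Ico k₀ N, B i) := by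
      apply mul_le_mul_of_nonneg_left _ (by positivity)
      exact mul_le_mul_of_nonneg_left hdis (by positivity)
    nlinarith
  have t5 : (y + gn) * (12 * q + 8 / K₁ + 2 * e₁) * (D.card * Q) ≤
      (y + gn) * (40 * (q + 1 / K₁ + e₁)) * (D.card * Q) := by
    apply mul_le_mul_of_nonneg_right _ (by positivity)
    apply mul_le_mul_of_nonneg_left _ (by positivity)
    have : 8 / (K₁ : ℝ) = 8 * (1 / K₁) := by ring
    rw [this]
    nlinarith
  have t6 : W ^ 2 * ((y + gn) * (12 * q + 8 / K₁ + 2 * e₁) * (D.card * Q)) ≤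
      W ^ 2 * ((y + gn) * (40 * (q + 1 / K₁ + e₁)) * (D.card * Q)) :=
    mul_le_mul_of_nonneg_left t5 (by positivity)
  have t7 : W ^ 2 * (κ * (8 * N)) ≤ W ^ 2 * (16 * κ * N) := by
    apply mul_le_mul_of_nonneg_left _ (by positivity)
    have : 0 ≤ κ * N := by positivity
    nlinarith
  have e9 : 4 * e / d₃ = 4 * q := by rw [hq]; ring
  rw [t1, t3, e9]
  have e10 : W ^ 2 * (y * (Q * ∑ j ∈ D, sh a Q j * (1 + sh a Q j)) +
        gn * (Q * ∑ j ∈ D, (1 + sh a Q j) * (1 - sh a Q j)) -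
        (y + gn) * (40 * (q + 1 / K₁ + e₁)) * (D.card * Q) -
        (4 + 4 * q) * y * cnt a k₀ N m y - 16 * κ * N) =
      W ^ 2 * (y * (Q * ∑ j ∈ D, sh a Q j * (1 + sh a Q j)) +
        gn * (Q * ∑ j ∈ D, (1 + sh a Q j) * (1 - sh a Q j))) -
        W ^ 2 * ((y + gn) * (40 * (q + 1 / K₁ + e₁)) * (D.card * Q)) -
        W ^ 2 * ((4 + 4 * q) * y * cnt a k₀ N m y) - W ^ 2 * (16 * κ * N) := by ring
  rw [e10]
  linarith

end Pool.Agent.Work.MP_b29d7f_two
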