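import Pool.Agent.Work.MP_b29d7f_two.Interface2

/-!
# Block MNS: the sum of a minimum of two linear functions
-/

namespace Pool.Agent.Work.MP_b29d7f_two

open Finset

theorem mns_eval (N ρ : ℝ) (k w : ℕ) (hk : k ≤ w) :
    ∑ d ∈ Icc 1 w, (if d ≤ k then ρ * (d : ℝ) else N - d) =
      ρ * (k * (k + 1)) / 2 + N * (w - k) - (w * (w + 1) - k * (k + 1)) / 2 := by
  induction w, hk using Nat.le_induction with
  | base =>
      have h : ∀ m : ℕ, m ≤ k → ∑ d ∈ Icc 1 m, (if d ≤ k then ρ * (d : ℝ) else N - d) =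
          ρ * (m * (m + 1)) / 2 := by
        intro m
        induction m with
        | zero => intro _; simp
        | succ m ih =>
            intro hm
            rw [Finset.sum_Icc_succ_top (by omega), ih (by omega), if_pos hm]
            push_cast
            ring
      rw [h k le_rfl]
      ring
  | succ w hw ih =>
      rw [Finset.sum_Icc_succ_top (by omega), ih, if_neg (by omega)]
      push_cast
      ring

theorem mns_one (w : ℕ) (ρ : ℝ) (h0 : 0 ≤ ρ) :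
    ∑ d ∈ Icc 1 w, min (ρ * d) ((w : ℝ) + 1 - d) ≤ ρ * ((w : ℝ) + 1) ^ 2 / (2 * (1 + ρ)) := by
  have hr : (0 : ℝ) < 1 + ρ := by linarith
  obtain ⟨κ, hκ⟩ : ∃ κ : ℝ, κ = ((w : ℝ) + 1) / (1 + ρ) := ⟨_, rfl⟩
  have hκ1 : κ * (1 + ρ) = (w : ℝ) + 1 := by rw [hκ]; field_simp
  have hκ0 : 0 < κ := by rw [hκ]; positivity
  have hκn : κ ≤ (w : ℝ) + 1 := by nlinarith
  obtain ⟨k, hk1, hk2, hkw⟩ : ∃ k : ℕ, κ - 1 ≤ (k : ℝ) ∧ (k : ℝ) ≤ κ ∧ k ≤ w := by
    have hc : 1 ≤ ⌈κ⌉₊ := Nat.one_le_ceil_iff.2 hκ0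
    refine ⟨⌈κ⌉₊ - 1, ?_, ?_, ?_⟩
    · rw [Nat.cast_sub hc]
      have := Nat.le_ceil κ
      push_cast
      linarith
    · rw [Nat.cast_sub hc]
      have := (Nat.ceil_lt_add_one hκ0.le).le
      push_cast
      linarith
    · have : ⌈κ⌉₊ ≤ w + 1 := Nat.ceil_le.2 (by push_cast; exact hκn)
      omega
  have h1 : ∑ d ∈ Icc 1 w, min (ρ * d) ((w : ℝ) + 1 - d) ≤
      ∑ d ∈ Icc 1 w, (if d ≤ k then ρ * (d : ℝ) else ((w : ℝ) + 1) - d) := by
    refine Finset.sum_le_sum fun d _ => ?_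
    split_ifs
    · exact min_le_left _ _
    · exact min_le_right _ _
  refine h1.trans ?_
  rw [mns_eval _ _ _ _ hkw, le_div_iff₀ (by linarith)]
  have h2 : ((k : ℝ) - κ) * ((k : ℝ) - κ + 1) ≤ 0 :=
    mul_nonpos_of_nonpos_of_nonneg (by linarith) (by linarith)
  have hw : (w : ℝ) = κ * (1 + ρ) - 1 := by linarith
  rw [hw]
  have h3 : 0 ≤ (1 + ρ) ^ 2 * -(((k : ℝ) - κ) * ((k : ℝ) - κ + 1)) :=
    mul_nonneg (by positivity) (by linarith)
  nlinarith [h3]

theorem p_MNS : Stmt_MNS := by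
  intro w ρ h0 _
  refine ⟨mns_one w ρ h0, ?_⟩
  have h := mns_one w ρ h0
  refine le_of_eq_of_le ?_ h
  refine Finset.sum_nbij' (fun d => w + 1 - d) (fun d => w + 1 - d) ?_ ?_ ?_ ?_ ?_
  · intro d hd
    simp only [Finset.mem_Icc] at hd ⊢
    omega
  · intro d hd
    simp only [Finset.mem_Icc] at hd ⊢
    omega
  · intro d hd
    simp only [Finset.mem_Icc] at hd
    omega
  · intro d hd
    simp only [Finset.mem_Icc] at hd
    omega
  · intro d hd
    simp only [Finset.mem_Icc] at hd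
    have h2 : ((w + 1 - d : ℕ) : ℝ) = (w : ℝ) + 1 - d := by
      rw [Nat.cast_sub (by omega)]
      push_cast
      ring
    rw [h2]
    congr 1
    ring

end Pool.Agent.Work.MP_b29d7f_two
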