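import Pool.Agent.Work.MP_b29d7f_two.Interface2

/-!
# Two-sided theorem: block MP2
-/

namespace Pool.Agent.Work.MP_b29d7f_two

open Finset

theorem stmt_MP2 : Stmt_MP2 := by
  intro o A B u w E hA hB h1 h2
  have hmono : ∀ g g' : ℕ, g ≤ g' → A g - B g ≤ A g' - B g' ∧
      A g' - B g' ≤ A g - B g + 2 * ((g' : ℝ) - g) := by
    intro g g' hg
    have h3 := hA g g' hg
    have h4 := hB g g' hg
    constructor <;> linarith [h3.1, h3.2, h4.1, h4.2]
  have hD : 0 ≤ ∑ g ∈ Ico u (u + w), ∑ g' ∈ Ico (g + 1) (u + w),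
      (o g : ℝ) * o g' * ((g' : ℝ) - g) := by
    refine sum_nonneg fun g _ => sum_nonneg fun g' hg' => ?_
    have h3 : g + 1 ≤ g' := (mem_Ico.mp hg').1
    have h4 : ((g : ℝ) + 1) ≤ g' := by exact_mod_cast h3
    have h5 : (0 : ℝ) ≤ (o g : ℝ) * o g' := by positivity
    exact mul_nonneg h5 (by linarith)
  by_cases hg : ∀ g ∈ Ico u (u + w), 0 < A g - B g → o g = 0
  · have h3 : ∑ g ∈ Ico u (u + w), (o g : ℝ) * min (A g) (B g) =
        ∑ g ∈ Ico u (u + w), (o g : ℝ) * A g := by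
      refine sum_congr rfl fun g hgI => ?_
      by_cases h4 : 0 < A g - B g
      · rw [hg g hgI h4]
        simp
      · rw [min_eq_left (by linarith)]
    linarith
  by_cases hf : ∀ g ∈ Ico u (u + w), A g - B g < 0 → o g = 0
  · have h3 : ∑ g ∈ Ico u (u + w), (o g : ℝ) * min (A g) (B g) =
        ∑ g ∈ Ico u (u + w), (o g : ℝ) * B g := by
      refine sum_congr rfl fun g hgI => ?_
      by_cases h4 : A g - B g < 0
      · rw [hf g hgI h4]
        simp
      · rw [min_eq_right (by linarith)]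
    linarith
  push Not at hg hf
  obtain ⟨g1, hg1, hg1', hg1o⟩ := hg
  obtain ⟨g0, hg0, hg0', hg0o⟩ := hf
  set F := (Ico u (u + w)).filter (fun g => A g - B g < 0) with hFdef
  set G := (Ico u (u + w)).filter (fun g => 0 < A g - B g) with hGdef
  have hsF : (1 : ℝ) ≤ ∑ g ∈ F, (o g : ℝ) := by
    have h3 : g0 ∈ F := mem_filter.mpr ⟨hg0, hg0'⟩
    have h4 : (o g0 : ℝ) ≤ ∑ g ∈ F, (o g : ℝ) :=
      single_le_sum (f := fun g => (o g : ℝ)) (fun i _ => Nat.cast_nonneg _) h3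
    have h5 : (1 : ℝ) ≤ (o g0 : ℝ) := by
      exact_mod_cast Nat.one_le_iff_ne_zero.mpr hg0o
    linarith
  have hsG : (1 : ℝ) ≤ ∑ g ∈ G, (o g : ℝ) := by
    have h3 : g1 ∈ G := mem_filter.mpr ⟨hg1, hg1'⟩
    have h4 : (o g1 : ℝ) ≤ ∑ g ∈ G, (o g : ℝ) :=
      single_le_sum (f := fun g => (o g : ℝ)) (fun i _ => Nat.cast_nonneg _) h3
    have h5 : (1 : ℝ) ≤ (o g1 : ℝ) := by
      exact_mod_cast Nat.one_le_iff_ne_zero.mpr hg1o
    linarith
  set PF := ∑ g ∈ F, (o g : ℝ) * (B g - A g) with hPF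
  set PG := ∑ g ∈ G, (o g : ℝ) * (A g - B g) with hPG
  have hPF0 : 0 ≤ PF := by
    refine sum_nonneg fun g hgF => ?_
    have h3 : A g - B g < 0 := (mem_filter.mp hgF).2
    exact mul_nonneg (Nat.cast_nonneg _) (by linarith)
  have hPG0 : 0 ≤ PG := by
    refine sum_nonneg fun g hgG => ?_
    have h3 : 0 < A g - B g := (mem_filter.mp hgG).2
    exact mul_nonneg (Nat.cast_nonneg _) (by linarith)
  have hprod : ∑ g ∈ F, ∑ g' ∈ G, (o g : ℝ) * o g' * ((A g' - B g') - (A g - B g)) =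
      PF * (∑ g ∈ G, (o g : ℝ)) + (∑ g ∈ F, (o g : ℝ)) * PG := by
    rw [hPF, hPG, sum_mul_sum, sum_mul_sum, ← sum_add_distrib]
    refine sum_congr rfl fun g _ => ?_
    rw [← sum_add_distrib]
    refine sum_congr rfl fun g' _ => ?_
    ring
  have hlt : ∀ g ∈ F, ∀ g' ∈ G, g < g' := by
    intro g hgF g' hgG
    by_contra h
    have h3 := (hmono g' g (not_lt.mp h)).1
    have h4 := (mem_filter.mp hgF).2
    have h5 := (mem_filter.mp hgG).2
    linarith
  have hle : ∑ g ∈ F, ∑ g' ∈ G, (o g : ℝ) * o g' * ((A g' - B g') - (A g - B g)) ≤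
      2 * ∑ g ∈ Ico u (u + w), ∑ g' ∈ Ico (g + 1) (u + w),
        (o g : ℝ) * o g' * ((g' : ℝ) - g) := by
    calc ∑ g ∈ F, ∑ g' ∈ G, (o g : ℝ) * o g' * ((A g' - B g') - (A g - B g))
        ≤ ∑ g ∈ F, ∑ g' ∈ G, 2 * ((o g : ℝ) * o g' * ((g' : ℝ) - g)) := by
          refine sum_le_sum fun g hgF => sum_le_sum fun g' hgG => ?_
          have h3 := (hmono g g' (hlt g hgF g' hgG).le).2
          have h5 : (0 : ℝ) ≤ (o g : ℝ) * o g' := by positivity
          have h6 : (A g' - B g') - (A g - B g) ≤ 2 * ((g' : ℝ) - g) := by linarith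
          calc (o g : ℝ) * o g' * ((A g' - B g') - (A g - B g))
              ≤ (o g : ℝ) * o g' * (2 * ((g' : ℝ) - g)) := mul_le_mul_of_nonneg_left h6 h5
            _ = 2 * ((o g : ℝ) * o g' * ((g' : ℝ) - g)) := by ring
      _ = 2 * ∑ g ∈ F, ∑ g' ∈ G, (o g : ℝ) * o g' * ((g' : ℝ) - g) := by
          rw [mul_sum]
          refine sum_congr rfl fun g _ => ?_
          rw [mul_sum]
      _ ≤ 2 * ∑ g ∈ F, ∑ g' ∈ Ico (g + 1) (u + w), (o g : ℝ) * o g' * ((g' : ℝ) - g) := by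
          refine mul_le_mul_of_nonneg_left ?_ (by norm_num)
          refine sum_le_sum fun g hgF => ?_
          refine sum_le_sum_of_subset_of_nonneg ?_ ?_
          · intro g' hg'
            have h3 := hlt g hgF g' hg'
            have h5 := mem_Ico.mp (mem_filter.mp hg').1
            exact mem_Ico.mpr ⟨by omega, h5.2⟩
          · intro g' hg' _
            have h3 : g + 1 ≤ g' := (mem_Ico.mp hg').1
            have h4 : ((g : ℝ) + 1) ≤ g' := by exact_mod_cast h3
            have h5 : (0 : ℝ) ≤ (o g : ℝ) * o g' := by positivity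
            exact mul_nonneg h5 (by linarith)
      _ ≤ 2 * ∑ g ∈ Ico u (u + w), ∑ g' ∈ Ico (g + 1) (u + w),
            (o g : ℝ) * o g' * ((g' : ℝ) - g) := by
          refine mul_le_mul_of_nonneg_left ?_ (by norm_num)
          refine sum_le_sum_of_subset_of_nonneg (filter_subset _ _) ?_
          intro g _ _
          refine sum_nonneg fun g' hg' => ?_
          have h3 : g + 1 ≤ g' := (mem_Ico.mp hg').1
          have h4 : ((g : ℝ) + 1) ≤ g' := by exact_mod_cast h3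
          have h5 : (0 : ℝ) ≤ (o g : ℝ) * o g' := by positivity
          exact mul_nonneg h5 (by linarith)
  have h3 : PF ≤ PF * (∑ g ∈ G, (o g : ℝ)) := le_mul_of_one_le_right hPF0 hsG
  have h4 : 0 ≤ (∑ g ∈ F, (o g : ℝ)) * PG := mul_nonneg (by linarith) hPG0
  have hid : ∑ g ∈ Ico u (u + w), (o g : ℝ) * B g =
      ∑ g ∈ Ico u (u + w), (o g : ℝ) * min (A g) (B g) + PF := by
    rw [hPF, hFdef, sum_filter, ← sum_add_distrib]
    refine sum_congr rfl fun g _ => ?_
    by_cases h5 : A g - B g < 0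
    · rw [if_pos h5, min_eq_left (by linarith)]
      ring
    · rw [if_neg h5, min_eq_right (by linarith)]
      ring
  linarith

end Pool.Agent.Work.MP_b29d7f_two
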