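import Pool.Agent.Work.MP_b29d7f_two.Interface1

/-! # Block MRT (helper17) -/

set_option autoImplicit false

namespace Pool.Agent.Work.MP_b29d7f_two

open Finset

open Classical in
theorem MRT_Rc (a : ℕ → ℤ) (s t : ℕ) :
    (Rc a s t : ℝ) = ∑ u ∈ Ico s t, (if Rt a u then (1 : ℝ) else 0) := by
  unfold Rc Rf
  rw [Finset.card_filter]
  push_cast
  rfl

open Classical in
theorem MRT_one (a : ℕ → ℤ) (W : ℕ) (hW : 1 ≤ W) (c : ℕ) :
    ∑ u ∈ Ico (c * W) (c * W + W), sh a W (u / W) =
      ∑ u ∈ Ico (c * W) (c * W + W), (if Rt a u then (1 : ℝ) else 0) := by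
  have h1 : ∀ u ∈ Ico (c * W) (c * W + W), sh a W (u / W) = sh a W c := by
    intro u hu
    obtain ⟨h2, h3⟩ := mem_Ico.1 hu
    have h4 : u / W = c := by
      apply Nat.div_eq_of_lt_le
      · exact h2
      · rw [add_mul, one_mul]
        exact h3
    rw [h4]
  rw [Finset.sum_congr rfl h1, Finset.sum_const, Nat.card_Ico, nsmul_eq_mul,
    Nat.add_sub_cancel_left, ← MRT_Rc]
  unfold sh
  have hW0 : (W : ℝ) ≠ 0 := by
    have : (0 : ℝ) < W := by exact_mod_cast hW
    exact this.ne'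
  field_simp

open Classical in
theorem MRT_many (a : ℕ → ℤ) (W : ℕ) (hW : 1 ≤ W) (c m : ℕ) :
    ∑ u ∈ Ico (c * W) (c * W + m * W), sh a W (u / W) =
      ∑ u ∈ Ico (c * W) (c * W + m * W), (if Rt a u then (1 : ℝ) else 0) := by
  induction m with
  | zero => simp
  | succ m ih =>
    have h1 : c * W + (m + 1) * W = (c + m) * W + W := by ring
    have h2 : c * W + m * W = (c + m) * W := by ring
    have h3 : c * W ≤ (c + m) * W := Nat.mul_le_mul_right W (Nat.le_add_right c m)
    rw [h1, ← Finset.sum_Ico_consecutive _ h3 (Nat.le_add_right _ _),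
      ← Finset.sum_Ico_consecutive _ h3 (Nat.le_add_right _ _)]
    rw [h2] at ih
    rw [ih, MRT_one a W hW (c + m)]

theorem MRT_sh01 (a : ℕ → ℤ) (W : ℕ) (hW : 1 ≤ W) (i : ℕ) : 0 ≤ sh a W i ∧ sh a W i ≤ 1 := by
  classical
  have hW0 : (0 : ℝ) < W := by exact_mod_cast hW
  unfold sh
  refine ⟨by positivity, ?_⟩
  rw [div_le_one hW0]
  have h1 : Rc a (i * W) (i * W + W) ≤ W := by
    unfold Rc Rf
    refine (Finset.card_filter_le _ _).trans ?_
    rw [Nat.card_Ico, Nat.add_sub_cancel_left]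
  exact_mod_cast h1

theorem MRT_zero (a : ℕ → ℤ) (W W' : ℕ) (hW : 1 ≤ W) (hd : W ∣ W') (hW' : 1 ≤ W') (j : ℕ) :
    ∑ u ∈ Ico (j * W') (j * W' + W'),
      2 * sh a W' (u / W') * (sh a W' (u / W') - sh a W (u / W)) = 0 := by
  classical
  obtain ⟨m, rfl⟩ := hd
  have h1 : ∀ u ∈ Ico (j * (W * m)) (j * (W * m) + W * m),
      2 * sh a (W * m) (u / (W * m)) * (sh a (W * m) (u / (W * m)) - sh a W (u / W)) =
      2 * sh a (W * m) j * (sh a (W * m) j - sh a W (u / W)) := by
    intro u hu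
    obtain ⟨h2, h3⟩ := mem_Ico.1 hu
    have h4 : u / (W * m) = j := by
      apply Nat.div_eq_of_lt_le
      · exact h2
      · rw [add_mul, one_mul]
        exact h3
    rw [h4]
  rw [Finset.sum_congr rfl h1, ← Finset.mul_sum, Finset.sum_sub_distrib, Finset.sum_const,
    Nat.card_Ico, nsmul_eq_mul, Nat.add_sub_cancel_left]
  have h5 := MRT_many a W hW (j * m) m
  have h6 : j * m * W = j * (W * m) := by ring
  have h7 : m * W = W * m := by ring
  rw [h6, h7] at h5
  rw [h5, ← MRT_Rc]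
  have h8 : ((W * m : ℕ) : ℝ) * sh a (W * m) j = Rc a (j * (W * m)) (j * (W * m) + W * m) := by
    unfold sh
    have hW0 : ((W * m : ℕ) : ℝ) ≠ 0 := by
      have : (0 : ℝ) < ((W * m : ℕ) : ℝ) := by exact_mod_cast hW'
      exact this.ne'
    field_simp
  rw [h8, sub_self, mul_zero]

theorem MRT_zeros (a : ℕ → ℤ) (W W' : ℕ) (hW : 1 ≤ W) (hd : W ∣ W') (hW' : 1 ≤ W') (q : ℕ) :
    ∑ u ∈ range (q * W'),
      2 * sh a W' (u / W') * (sh a W' (u / W') - sh a W (u / W)) = 0 := by
  induction q with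
  | zero => simp
  | succ q ih =>
    rw [Finset.range_eq_Ico] at ih ⊢
    have h1 : (q + 1) * W' = q * W' + W' := by ring
    rw [h1, ← Finset.sum_Ico_consecutive _ (Nat.zero_le _) (Nat.le_add_right (q * W') W'), ih,
      MRT_zero a W W' hW hd hW' q, add_zero]

theorem stmt_MRT : Stmt_MRT := by
  classical
  intro a N W W' hW hd hW'
  refine ⟨MRT_sh01 a W hW, ?_, ?_⟩
  · have h1 : ∑ u ∈ range N, (sh a W (u / W) - sh a W' (u / W')) ^ 2 =
        ∑ u ∈ range N, (sh a W (u / W)) ^ 2 - ∑ u ∈ range N, (sh a W' (u / W')) ^ 2 +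
        ∑ u ∈ range N, 2 * sh a W' (u / W') * (sh a W' (u / W') - sh a W (u / W)) := by
      rw [← Finset.sum_sub_distrib, ← Finset.sum_add_distrib]
      apply Finset.sum_congr rfl
      intro u _
      ring
    rw [h1]
    have h2 : ∑ u ∈ range N, 2 * sh a W' (u / W') * (sh a W' (u / W') - sh a W (u / W)) ≤
        2 * W' := by
      have hqN : N / W' * W' ≤ N := Nat.div_mul_le_self N W'
      have h3 := MRT_zeros a W W' hW hd hW' (N / W')
      rw [Finset.range_eq_Ico] at h3 ⊢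
      rw [← Finset.sum_Ico_consecutive _ (Nat.zero_le _) hqN, h3, zero_add]
      have h4 : ∀ u ∈ Ico (N / W' * W') N,
          2 * sh a W' (u / W') * (sh a W' (u / W') - sh a W (u / W)) ≤ 2 := by
        intro u _
        obtain ⟨h5, h6⟩ := MRT_sh01 a W' hW' (u / W')
        obtain ⟨h7, h8⟩ := MRT_sh01 a W hW (u / W)
        nlinarith [mul_nonneg h5 h7]
      refine (Finset.sum_le_sum h4).trans ?_
      rw [Finset.sum_const, Nat.card_Ico, nsmul_eq_mul]
      have h9 : N - N / W' * W' ≤ W' := by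
        have h10 := Nat.mod_lt N (by omega : 0 < W')
        have h11 := Nat.div_add_mod N W'
        rw [mul_comm W' (N / W')] at h11
        omega
      have h12 : ((N - N / W' * W' : ℕ) : ℝ) ≤ W' := by exact_mod_cast h9
      linarith
    linarith
  · intro e he
    unfold uns
    rw [Finset.card_filter]
    push_cast
    rw [Finset.sum_mul]
    apply Finset.sum_le_sum
    intro u _
    by_cases h : e < |sh a W (u / W) - sh a W' (u / W')|
    · rw [if_pos h, one_mul, ← sq_abs (sh a W (u / W) - sh a W' (u / W'))]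
      exact pow_le_pow_left₀ he.le h.le 2
    · rw [if_neg h, zero_mul]
      positivity

end Pool.Agent.Work.MP_b29d7f_two
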