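import Pool.Agent.Work.MP_b29d7f_two.Interface1

/-!
# Block MXB: the running maximum
-/

namespace Pool.Agent.Work.MP_b29d7f_two

open Finset

theorem mxb_mono (a : ℕ → ℤ) : Monotone (Mx a) :=
  monotone_nat_of_le_succ fun _ => le_max_left _ _

theorem mxb_hx_succ (a : ℕ → ℤ) (u : ℕ) :
    hx a (u + 1) = if Mx a u < a (u + 1) then u + 1 else hx a u := rfl

theorem mxb_Mx_succ (a : ℕ → ℤ) (u : ℕ) : Mx a (u + 1) = max (Mx a u) (a (u + 1)) := rfl

theorem mxb_hx_le (a : ℕ → ℤ) (u : ℕ) : hx a u ≤ u := by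
  induction u with
  | zero => exact le_rfl
  | succ u ih =>
    rw [mxb_hx_succ]
    split_ifs
    · exact le_rfl
    · omega

theorem mxb_hx_mono (a : ℕ → ℤ) : Monotone (hx a) := by
  apply monotone_nat_of_le_succ
  intro u
  have := mxb_hx_le a u
  rw [mxb_hx_succ]
  split_ifs
  · omega
  · exact le_rfl

theorem mxb_a_hx (a : ℕ → ℤ) (u : ℕ) : a (hx a u) = Mx a u := by
  induction u with
  | zero => rfl
  | succ u ih =>
    rw [mxb_hx_succ, mxb_Mx_succ]
    split_ifs with h
    · exact (max_eq_right h.le).symm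
    · rw [ih]
      exact (max_eq_left (not_lt.mp h)).symm

theorem mxb_le_self (a : ℕ → ℤ) (i : ℕ) : a i ≤ Mx a i := by
  cases i with
  | zero => exact le_rfl
  | succ i => exact le_max_right _ _

theorem mxb_le (a : ℕ → ℤ) (i u : ℕ) (h : i ≤ u) : a i ≤ Mx a u :=
  (mxb_le_self a i).trans (mxb_mono a h)

theorem mxb_Rt_hx (a : ℕ → ℤ) (u : ℕ) : Rt a (hx a u) := by
  induction u with
  | zero =>
    intro i hi
    have h0 : hx a 0 = 0 := rfl
    omega
  | succ u ih =>
    rw [mxb_hx_succ]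
    split_ifs with h
    · intro i hi
      exact (mxb_le a i u (by omega)).trans_lt h
    · exact ih

theorem mxb_hx_eq (a : ℕ → ℤ) (u : ℕ) (h : Rt a u) : hx a u = u := by
  cases u with
  | zero => rfl
  | succ u =>
    rw [mxb_hx_succ, if_pos]
    rw [← mxb_a_hx]
    exact h _ (by have := mxb_hx_le a u; omega)

theorem mxb_Gm (a : ℕ → ℤ) (m u : ℕ) : 0 ≤ Gm a m u := by
  unfold Gm
  exact Real.log_intCast_nonneg _

theorem stmt_MXB (_hPAE : Stmt_PAE) : Stmt_MXB := by
  intro a k₀ C₀ hD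
  refine ⟨mxb_mono a, mxb_hx_mono a, mxb_hx_le a, mxb_a_hx a, mxb_Rt_hx a, mxb_le a, mxb_hx_eq a,
    ?_, ?_, ?_, mxb_Gm a, ?_, ?_, ?_⟩
  · intro u h
    rw [← mxb_a_hx, mxb_hx_eq a u h]
  · intro s t r h1 h2 h3
    have := mxb_hx_mono a h2
    rw [mxb_hx_eq a r h3] at this
    omega
  · intro u h
    constructor
    · by_contra h0
      apply h
      intro i hi
      omega
    · rcases hD.hull u with h1 | h1
      · exact absurd h1 h
      · exact h1
  · intro t i h1 h2 h3
    have := mxb_hx_mono a h2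
    rw [mxb_hx_eq a i h3] at this
    omega
  · intro s t r h1 h2
    unfold Rc
    have hd : Disjoint (Rf a s t) (Rf a t r) := by
      rw [Finset.disjoint_left]
      intro x hx hx'
      rw [mem_Rf] at hx hx'
      omega
    rw [← Finset.card_union_of_disjoint hd]
    congr 1
    ext x
    rw [Finset.mem_union, mem_Rf, mem_Rf, mem_Rf]
    constructor
    · rintro (⟨h, h'⟩ | ⟨h, h'⟩)
      · exact ⟨by omega, h'⟩
      · exact ⟨by omega, h'⟩
    · rintro ⟨h, h'⟩
      rcases lt_or_ge x t with h3 | h3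
      · exact Or.inl ⟨by omega, h'⟩
      · exact Or.inr ⟨by omega, h'⟩
  · intro s t
    unfold Rc
    rw [← Nat.card_Ico]
    apply Finset.card_le_card
    intro x hx
    rw [mem_Rf] at hx
    exact Finset.mem_Ico.mpr hx.1

end Pool.Agent.Work.MP_b29d7f_two
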