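import Pool.Agent.Work.MP_b29d7f_two.Interface1

/-!
# Block NEG: the other side
-/

namespace Pool.Agent.Work.MP_b29d7f_two

open Finset
open Pool.Agent.Work.MP_b29d7f_nt (IsPOrdering HasSimultaneousOrdering PS vd ld tv)
open Pool.Agent.Work.MP_b29d7f_half (Ord A wv lD)
open Pool.Agent.Work.MP_b29d7f_sep (nv EW EL)

theorem neg_ld (x y : ℤ) : ld (-x) (-y) = ld x y := by
  unfold ld
  rw [show (-x - -y : ℤ) = -(x - y) by ring, Int.cast_neg, abs_neg]

theorem neg_emul (p : ℕ) (s : ℤ) (a : ℕ → ℤ) (k : ℕ) :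
    emultiplicity (p : ℤ) (∏ i ∈ range k, (-s - -a i)) =
      emultiplicity (p : ℤ) (∏ i ∈ range k, (s - a i)) := by
  have h : ∏ i ∈ range k, (-s - -a i) = (-1) ^ k * ∏ i ∈ range k, (s - a i) := by
    rw [← Finset.card_range k, ← Finset.prod_const, Finset.card_range, ← Finset.prod_mul_distrib]
    apply Finset.prod_congr rfl
    intro i _
    ring
  rw [h]
  rcases neg_one_pow_eq_or ℤ k with h1 | h1
  · rw [h1, one_mul]
  · rw [h1, neg_one_mul, emultiplicity_neg]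

theorem neg_lD (a : ℕ → ℤ) (k : ℕ) : lD (fun i => - a i) k = lD a k := by
  unfold lD
  exact Finset.sum_congr rfl fun i _ => neg_ld _ _

theorem neg_gg (a : ℕ → ℤ) (k : ℕ) : gg (fun i => - a i) k = gg a k := by
  unfold gg
  rw [neg_lD]

theorem neg_dat (a : ℕ → ℤ) (k₀ : ℕ) (C₀ : ℝ) (hD : Dat a k₀ C₀) :
    Dat (fun i => - a i) k₀ C₀ := by
  refine ⟨⟨?_, ?_⟩, hD.one_le, ?_, ?_⟩
  · have h : Set.range (fun i => - a i) = (fun x : ℤ => -x) '' Set.range a := by
      rw [← Set.range_comp]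
      rfl
    rw [h]
    exact hD.ord.inf.image (neg_injective.injOn)
  · intro p hp
    obtain ⟨-, h2⟩ := hD.ord.ord p hp
    refine ⟨fun k => ⟨k, rfl⟩, ?_⟩
    rintro k s ⟨j, rfl⟩
    have := h2 k (a j) ⟨j, rfl⟩
    rw [neg_emul, neg_emul]
    exact this
  · intro k
    rcases hD.hull k with h | h
    · exact Or.inr fun i hi => neg_lt_neg (h i hi)
    · exact Or.inl fun i hi => neg_lt_neg (h i hi)
  · intro i j k hk hi hj
    have := hD.size j i k hk hj hi
    have e : ((-a i : ℤ) : ℝ) - ((-a j : ℤ) : ℝ) = (a j : ℝ) - (a i : ℝ) := by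
      push_cast
      ring
    rw [e]
    exact this

theorem stmt_NEG : Stmt_NEG := by
  intro a k₀ C₀ hD
  refine ⟨neg_dat a k₀ C₀ hD, neg_lD a, neg_gg a, ?_, ?_, ?_, ?_⟩
  · rintro κ n ⟨h1, h2⟩
    refine ⟨h1, ?_⟩
    intro k hk hkn
    rw [neg_gg, neg_gg]
    exact h2 k hk hkn
  · rintro b R ⟨h1, h2⟩
    refine ⟨h1, ?_⟩
    intro k hk
    rw [neg_gg, neg_gg]
    exact h2 k hk
  · rintro β ⟨k₁, h⟩
    refine ⟨k₁, ?_⟩
    intro k hk
    rw [neg_gg]
    exact h k hk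
  · intro N hN
    have h1 : N - k₀ ≤ Rc a k₀ N + Rc (fun i => - a i) k₀ N := by
      unfold Rc
      rw [← Nat.card_Ico]
      refine le_trans (Finset.card_le_card ?_)
        (Finset.card_union_le (Rf a k₀ N) (Rf (fun i => - a i) k₀ N))
      intro u hu
      rw [Finset.mem_Ico] at hu
      rw [Finset.mem_union, mem_Rf, mem_Rf]
      rcases hD.hull u with h | h
      · exact Or.inl ⟨hu, h⟩
      · exact Or.inr ⟨hu, fun i hi => neg_lt_neg (h i hi)⟩
    omega

end Pool.Agent.Work.MP_b29d7f_two
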