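import Pool.Agent.Work.MP_b29d7f_two.Interface2

/-!
# Block NUM1, TWO: the final inequality of section 2
-/

namespace Pool.Agent.Work.MP_b29d7f_two

theorem stmt_NUM1 : Stmt_NUM1 := by
  intro C₀ b e₅ hC hb he5 he51
  have hb1 : 0 < b - 1 := by linarith
  set γ : ℝ := (b - 2) * e₅ / (b - 1) with hγ
  have hγ0 : 0 < γ := div_pos (mul_pos (by linarith) he5) hb1
  have hγe : γ ≤ e₅ := by
    rw [hγ, div_le_iff₀ hb1]
    nlinarith
  set d : ℝ := γ / (1208 * C₀) with hd
  have hC0 : 0 < C₀ := by linarith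
  have hd0 : 0 < d := by positivity
  have hdC : d * C₀ = γ / 1208 := by
    rw [hd]
    field_simp
  have hd1 : d ≤ γ / 1208 := by
    rw [← hdC]
    nlinarith
  have hd8 : d < 1 / 8 := by linarith
  refine ⟨γ / 16, d, γ / 8, by positivity, by linarith, hd0, hd8, by positivity, ?_⟩
  intro η hη
  set q₀ : ℝ := min 1 (γ * η / (8 * (28 * C₀ + 12))) with hq₀
  have hq₀0 : 0 < q₀ := lt_min one_pos (by positivity)
  refine ⟨q₀, hq₀0, ?_⟩
  intro x t g z F A A₂ B S q ht0 htC htx hxC hg0 hgC hz hηF hF1 hq0 hqq hS0 hA20 hA2A hB0 hB1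
    hA1 hA2 hS hcon
  have hF0 : 0 < F := lt_of_lt_of_le hη hηF
  have hA0 : 0 ≤ A := le_trans hA20 hA2A
  have hq1 : q ≤ 1 := le_trans hqq (min_le_left _ _)
  have hq2 : q * (28 * C₀ + 12) ≤ γ * η / 8 := by
    have h1 : q ≤ γ * η / (8 * (28 * C₀ + 12)) := le_trans hqq (min_le_right _ _)
    rw [le_div_iff₀ (by positivity)] at h1
    linarith
  have hx0 : 0 < x := by linarith
  -- the margin
  have hxz : x - z = - ((x - t) / (b - 1)) - γ / 8 := by
    rw [hz]
    field_simp
    ring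
  have hdiv0 : 0 ≤ (x - t) / (b - 1) := div_nonneg (by linarith) hb1.le
  have hxz0 : x - z ≤ 0 := by
    rw [hxz]
    linarith
  have hm : 7 / 8 * γ ≤ (x - t) + (x - z) := by
    have e1 : (x - t) + (x - z) = (b - 2) * (x - t) / (b - 1) - γ / 8 := by
      rw [hxz]
      field_simp
      ring
    have e2 : γ ≤ (b - 2) * (x - t) / (b - 1) := by
      rw [hγ]
      apply div_le_div_of_nonneg_right _ hb1.le
      exact mul_le_mul_of_nonneg_left (by linarith) (by linarith)
    rw [e1]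
    linarith
  have hz0 : 0 ≤ z := by linarith
  obtain ⟨z', hz'⟩ : ∃ z' : ℝ, z' = min z g := ⟨_, rfl⟩
  have hz'z : z' ≤ z := by rw [hz']; exact min_le_left _ _
  have hz'g : z' ≤ g := by rw [hz']; exact min_le_right _ _
  have hz'0 : 0 ≤ z' := by rw [hz']; exact le_min hz0 hg0
  rw [min_add_add_right, ← hz'] at hS
  -- upper bound of `S`
  have h1 : S ≤ F * z' + g * B + q * (8 * C₀ + 5) := by
    have e1 : (F + q) * (z' + q) + (g + q) * (B + q) + q =
        F * z' + g * B + q * (z' + F + q + g + B + q + 1) := by ring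
    rw [e1] at hS
    have h2 : z' + F + q + g + B + q + 1 ≤ 8 * C₀ + 5 := by linarith
    have h3 := mul_le_mul_of_nonneg_left h2 hq0
    linarith
  have h4 : S ≤ 16 * C₀ + 5 := by
    have h5 : F * z' ≤ 1 * (4 * C₀) := mul_le_mul hF1 (by linarith) hz'0 (by norm_num)
    have h6 : g * B ≤ (4 * C₀) * 1 := mul_le_mul hgC hB1 hB0 (by linarith)
    have h7 : q * (8 * C₀ + 5) ≤ 1 * (8 * C₀ + 5) :=
      mul_le_mul_of_nonneg_right hq1 (by linarith)
    linarith
  have h8 : (1 + q) * S ≤ F * z' + g * B + q * (24 * C₀ + 10) := by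
    have h9 := mul_le_mul_of_nonneg_left h4 hq0
    linarith
  have h10 : F * z' ≤ A * z' + q * (4 * C₀) := by
    have h11 : F * z' ≤ (A + q) * z' := mul_le_mul_of_nonneg_right (by linarith) hz'0
    have h12 : q * z' ≤ q * (4 * C₀) := mul_le_mul_of_nonneg_left (by linarith) hq0
    linarith
  have h13 : 5 * x * d * F ≤ 30 / 1208 * γ * F := by
    apply mul_le_mul_of_nonneg_right _ hF0.le
    have h14 : x * d ≤ (6 * C₀) * d := mul_le_mul_of_nonneg_right hxC hd0.le
    linarith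
  -- lower bound of the left side
  have h15 : A * (x - z) ≤ A₂ * (x - z') := by
    have h16 : A * (x - z) ≤ A₂ * (x - z) := by nlinarith
    have h17 : A₂ * (x - z) ≤ A₂ * (x - z') := mul_le_mul_of_nonneg_left (by linarith) hA20
    linarith
  have h18 : 0 ≤ (A - A₂) * (g - z') := mul_nonneg (by linarith) (by linarith)
  have h19 : A * (7 / 8 * γ) ≤ A * ((x - t) + (x - z)) := mul_le_mul_of_nonneg_left hm hA0
  have h20 : γ / 16 * (A + A₂) ≤ γ / 8 * A := by nlinarith
  have h21 : (3 / 4 * γ) * (F - q) ≤ (3 / 4 * γ) * A :=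
    mul_le_mul_of_nonneg_left hA1 (by positivity)
  have h22 : γ * η ≤ γ * F := mul_le_mul_of_nonneg_left hηF hγ0.le
  have h23 : 0 < γ * F := mul_pos hγ0 hF0
  have h24 : γ * q ≤ 1 * q := mul_le_mul_of_nonneg_right (by linarith) hq0
  nlinarith

end Pool.Agent.Work.MP_b29d7f_two
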