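import Pool.Agent.Work.MP_b29d7f_two.Interface1

/-!
# Block PAD: the `p`-adic facts in index form
-/

namespace Pool.Agent.Work.MP_b29d7f_two

open Finset
open Pool.Agent.Work.MP_b29d7f_nt (IsPOrdering HasSimultaneousOrdering PS vd ld tv)
open Pool.Agent.Work.MP_b29d7f_half (Ord A wv lD HalfDense mem_A sum_A card_A)
open Pool.Agent.Work.MP_b29d7f_sep (nv EW EL stmt_PADIC wv_eq_nv)

theorem PAD_vd_eq_vl (p : ℕ) (s : ℕ → ℤ) (i j : ℕ) : vd p (s i) (s j) = (vl p s i j : ℝ) := by
  unfold vd vl
  rfl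

theorem PAD_inj {S : Set ℤ} {a : ℕ → ℤ} (hs : Ord S a) : Function.Injective a :=
  Pool.Agent.Work.MP_b29d7f_nt.injective_of_ordering hs.inf Nat.prime_two
    (hs.ord 2 Nat.prime_two)

theorem stmt_PAD : Stmt_PAD := by
  classical
  intro s hs p hp
  have hinj : Function.Injective s := PAD_inj hs
  obtain ⟨hF1, hF2, hmono⟩ := stmt_PADIC (Set.range s) s hs p hp
  have h0 : nv p s 0 = 0 := by simp [nv]
  have F1 : ∀ k j : ℕ, k ≤ j → nv p s k ≤ ∑ i ∈ range k, vl p s j i := by
    intro k j hkj
    have hn : s j ∉ A s k := by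
      intro h
      obtain ⟨i, hi, h⟩ := mem_A.mp h
      have := hinj h
      omega
    have h1 := hF1 k (s j) ⟨j, rfl⟩ hn
    rw [sum_A _ hinj, wv_eq_nv] at h1
    have h2 : ∑ i ∈ range k, vd p (s j) (s i) = ((∑ i ∈ range k, vl p s j i : ℕ) : ℝ) := by
      push_cast
      exact Finset.sum_congr rfl (fun i _ => PAD_vd_eq_vl p s j i)
    rw [h2] at h1
    exact_mod_cast h1
  have F2 : ∀ h v : ℕ, h ≤ v → ∑ l ∈ (range (v + 1)).erase h, vl p s h l ≤ nv p s v := by
    intro h v hhv
    have hz : s h ∈ A s (v + 1) := mem_A.mpr ⟨h, by omega, rfl⟩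
    have h1 := hF2 v (s h) hz
    have h2 : ∑ y ∈ (A s (v + 1)).erase (s h), vd p (s h) y =
        ((∑ l ∈ (range (v + 1)).erase h, vl p s h l : ℕ) : ℝ) := by
      have e1 : (A s (v + 1)).erase (s h) = ((range (v + 1)).erase h).image s := by
        unfold A
        rw [Finset.image_erase hinj]
      rw [e1, Finset.sum_image (fun a _ b _ hab => hinj hab)]
      push_cast
      exact Finset.sum_congr rfl (fun i _ => PAD_vd_eq_vl p s h i)
    rw [h2, wv_eq_nv] at h1
    exact_mod_cast h1
  refine ⟨hmono, h0, F1, ?_, ?_⟩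
  · intro u v h huh hhv
    have h3 := F2 h v hhv
    have h4 : (range (v + 1)).erase h = range u ∪ (Icc u v).erase h := by
      ext l
      simp only [mem_erase, mem_range, mem_union, mem_Icc]
      omega
    have h5 : Disjoint (range u) ((Icc u v).erase h) := by
      rw [Finset.disjoint_left]
      intro l hl hl'
      simp only [mem_erase, mem_range, mem_Icc] at hl hl'
      omega
    rw [h4, Finset.sum_union h5] at h3
    have h6 := F1 u h huh
    omega
  · intro h k hk
    have h3 := F2 h (k - 1) (by omega)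
    rw [show k - 1 + 1 = k by omega] at h3
    exact h3.trans (hmono (by omega))

end Pool.Agent.Work.MP_b29d7f_two
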