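import Pool.Agent.Work.MP_b29d7f_two.Interface1

/-!
# Block PAE: consequences of PAD
-/

namespace Pool.Agent.Work.MP_b29d7f_two

open Finset
open Pool.Agent.Work.MP_b29d7f_nt (IsPOrdering HasSimultaneousOrdering PS vd ld tv
  injective_of_ordering)
open Pool.Agent.Work.MP_b29d7f_half (Ord A wv lD)
open Pool.Agent.Work.MP_b29d7f_sep (nv EW EL)

theorem PAE_double (f : ℕ → ℕ → ℝ) (hf : ∀ i j, f i j = f j i) (u v : ℕ) :
    ∑ h ∈ Icc u v, ∑ l ∈ (Icc u v).erase h, f h l =
      2 * ∑ j ∈ Icc u v, ∑ i ∈ Ico u j, f j i := by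
  have h1 : ∀ h ∈ Icc u v, ∑ l ∈ (Icc u v).erase h, f h l =
      ∑ l ∈ Ico u h, f h l + ∑ l ∈ Ioc h v, f h l := by
    intro h hh
    rw [mem_Icc] at hh
    have e : (Icc u v).erase h = Ico u h ∪ Ioc h v := by
      ext l
      simp only [mem_erase, mem_Icc, mem_union, mem_Ico, mem_Ioc]
      omega
    have d : Disjoint (Ico u h) (Ioc h v) := by
      rw [Finset.disjoint_left]
      intro l hl hl'
      simp only [mem_Ico, mem_Ioc] at hl hl'
      omega
    rw [e, Finset.sum_union d]
  rw [Finset.sum_congr rfl h1, Finset.sum_add_distrib]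
  have h2 : ∑ h ∈ Icc u v, ∑ l ∈ Ioc h v, f h l = ∑ j ∈ Icc u v, ∑ i ∈ Ico u j, f j i := by
    rw [Finset.sum_comm' (t' := Icc u v) (s' := fun j => Ico u j)]
    · exact Finset.sum_congr rfl (fun j _ => Finset.sum_congr rfl (fun i _ => hf i j))
    · intro x y
      simp only [mem_Icc, mem_Ioc, mem_Ico]
      omega
  rw [h2]
  ring

theorem stmt_PAE (h1 : Stmt_PAD) : Stmt_PAE := by
  classical
  intro a ho
  have hinj : Function.Injective a :=
    injective_of_ordering ho.inf Nat.prime_two (ho.ord 2 Nat.prime_two)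
  refine ⟨hinj, ?_⟩
  intro p hp
  obtain ⟨hmono, h0, hF1, hF2, hF3⟩ := h1 a ho p hp
  have hsym : ∀ i j : ℕ, vl p a i j = vl p a j i := by
    intro i j
    unfold vl
    rw [← neg_sub, multiplicity_neg]
  have hne : ∀ i j : ℕ, i ≠ j → a i - a j ≠ 0 := fun i j hij =>
    sub_ne_zero.mpr (fun h => hij (hinj h))
  have hfin : ∀ i j : ℕ, i ≠ j → FiniteMultiplicity (p : ℤ) (a i - a j) := by
    intro i j hij
    rw [Int.finiteMultiplicity_iff]
    refine ⟨?_, hne i j hij⟩
    simpa using hp.one_lt.ne'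
  have hzero : ∀ i j : ℕ, vl p a i j = 0 ↔ ¬ (p : ℤ) ∣ a i - a j := by
    intro i j
    unfold vl
    exact multiplicity_eq_zero
  have hEW : ∀ u m : ℕ, EW p a u m =
      ∑ j ∈ Ico u (u + m + 1), ∑ i ∈ Ico u j, (vl p a j i : ℝ) := by
    intro u m
    unfold EW vd vl
    rfl
  have habs : ∀ i j : ℕ, i ≠ j → (p : ℤ) ^ vl p a i j ≤ |a i - a j| := by
    intro i j hij
    have hpos : 0 < |a i - a j| := abs_pos.mpr (hne i j hij)
    exact Int.le_of_dvd hpos ((dvd_abs _ _).mpr (pow_multiplicity_dvd _ _))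
  refine ⟨hsym, ?_, fun i j _ => hzero i j, habs, ?_, ?_, hEW, ?_, ?_⟩
  · intro i j l hij hjl hil
    unfold vl
    rw [← (hfin i l hil).pow_dvd_iff_le_multiplicity]
    have e : a i - a l = (a i - a j) + (a j - a l) := by ring
    rw [e]
    exact dvd_add
      ((pow_dvd_pow _ (min_le_left _ _)).trans (pow_multiplicity_dvd _ _))
      ((pow_dvd_pow _ (min_le_right _ _)).trans (pow_multiplicity_dvd _ _))
  · intro i j hij
    unfold ld
    have h3 := habs i j hij
    have h4 : ((p : ℝ)) ^ vl p a i j ≤ |((a i - a j : ℤ) : ℝ)| := by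
      have h5 : (((p : ℤ) ^ vl p a i j : ℤ) : ℝ) ≤ ((|a i - a j| : ℤ) : ℝ) := by
        exact_mod_cast h3
      push_cast at h5 ⊢
      exact h5
    have hp0 : (0 : ℝ) < p := by exact_mod_cast hp.pos
    have h6 := Real.log_le_log (pow_pos hp0 _) h4
    rw [Real.log_pow] at h6
    linarith
  · intro i j h hij
    unfold vl
    exact (hfin i j hij).pow_dvd_iff_le_multiplicity.symm
  · intro u m
    rw [hEW]
    have e : Ico u (u + m + 1) = Icc u (u + m) := by
      ext l
      simp only [mem_Ico, mem_Icc]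
      omega
    rw [e, ← PAE_double (fun j i => (vl p a j i : ℝ)) (fun i j => by rw [hsym]) u (u + m)]
    calc ∑ h ∈ Icc u (u + m), ∑ l ∈ (Icc u (u + m)).erase h, (vl p a h l : ℝ)
        ≤ ∑ h ∈ Icc u (u + m), ((nv p a (u + m) : ℝ) - nv p a u) := by
          apply Finset.sum_le_sum
          intro h hh
          rw [mem_Icc] at hh
          have h3 := hF2 u (u + m) h hh.1 hh.2
          have h4 : (nv p a u : ℝ) + ∑ l ∈ (Icc u (u + m)).erase h, (vl p a h l : ℝ) ≤
              nv p a (u + m) := by exact_mod_cast h3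
          linarith
      _ = ((m : ℝ) + 1) * ((nv p a (u + m) : ℝ) - nv p a u) := by
          rw [Finset.sum_const, Nat.card_Icc, nsmul_eq_mul]
          have : u + m + 1 - u = m + 1 := by omega
          rw [this]
          push_cast
          ring
  · intro u v i j hui hij hjv hnv
    rw [← hzero]
    have h3 := hF2 u v j (by omega) hjv
    have h4 : vl p a j i ≤ ∑ l ∈ (Icc u v).erase j, vl p a j l := by
      apply Finset.single_le_sum (f := fun l => vl p a j l) (fun _ _ => Nat.zero_le _)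
      simp only [mem_erase, mem_Icc]
      omega
    omega

end Pool.Agent.Work.MP_b29d7f_two
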