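import Pool.Agent.Work.MP_b29d7f_two.Interface2

/-!
# Block PART1: minimal windows (assembly), two-sided version
-/

namespace Pool.Agent.Work.MP_b29d7f_two

open Finset Filter
open Pool.Agent.Work.MP_b29d7f_nt (IsPOrdering HasSimultaneousOrdering PS vd ld tv)
open Pool.Agent.Work.MP_b29d7f_half (Ord A wv lD)
open Pool.Agent.Work.MP_b29d7f_sep (nv EW EL stmt_ARCHO)

/-- the sizes of the scales -/
private theorem p1_sizes (K k₀ : ℕ) (q Λ : ℝ) (hK : 1 ≤ K) (hq : 0 < q) :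
    ∃ N₀ : ℕ, ∀ N R m : ℕ, N₀ ≤ N → m * el N ^ 20 ≤ R → Real.log R ≤ 1 / 8 * Real.log N →
      Λ ≤ Real.log N ∧ 1 ≤ Real.log N ∧ 2 ≤ N ∧ (el N : ℝ) ≤ 2 * Real.log N ∧ Λ ≤ el N ∧
      1 ≤ el N ∧ Wb K m N ≤ N ∧ (k₀ : ℝ) + 20 * Wb K m N ≤ q * N := by
  have hlog : Tendsto (fun N : ℕ => Real.log (N : ℝ)) atTop atTop :=
    Real.tendsto_log_atTop.comp tendsto_natCast_atTop_atTop
  obtain ⟨N₁, hN₁⟩ := (hlog.eventually_ge_atTop (max (max Λ 1) K)).exists_forall_of_atTop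
  obtain ⟨N₂, hN₂⟩ := exists_nat_ge ((k₀ : ℝ) / (q / 4))
  obtain ⟨N₃, hN₃⟩ := exists_nat_ge (20 / (q / 4) * (20 / (q / 4)))
  refine ⟨max (max N₁ N₂) (max N₃ 2), fun N R m hN hmR hR => ?_⟩
  have h1 := hN₁ N (le_trans (by simp) hN)
  have h2 : N₂ ≤ N := le_trans (by simp) hN
  have h4 : N₃ ≤ N := le_trans (by simp) hN
  have h3 : 2 ≤ N := le_trans (by simp) hN
  have hΛ : Λ ≤ Real.log N := le_trans (le_trans (le_max_left _ _) (le_max_left _ _)) h1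
  have hL1 : 1 ≤ Real.log (N : ℝ) := le_trans (le_trans (le_max_right _ _) (le_max_left _ _)) h1
  have hLK : (K : ℝ) ≤ Real.log N := le_trans (le_max_right _ _) h1
  have hel0 : Real.log (N : ℝ) ≤ (el N : ℝ) := Nat.le_ceil _
  have hel2 : (el N : ℝ) ≤ 2 * Real.log N := by
    have : (el N : ℝ) ≤ Real.log N + 1 := by
      unfold el
      exact (Nat.ceil_lt_add_one (by linarith)).le
    linarith
  have helK : K ≤ el N := by exact_mod_cast hLK.trans hel0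
  have hel1 : 1 ≤ el N := hK.trans helK
  have hWR : Wb K m N ≤ R := by
    refine le_trans ?_ hmR
    unfold Wb
    calc K * m * el N ^ 5 ≤ el N * m * el N ^ 5 :=
          Nat.mul_le_mul_right _ (Nat.mul_le_mul_right _ helK)
      _ = m * el N ^ 6 := by ring
      _ ≤ m * el N ^ 20 := Nat.mul_le_mul_left _ (Nat.pow_le_pow_right hel1 (by norm_num))
  have hNpos : (0 : ℝ) < N := by exact_mod_cast (by omega : 0 < N)
  have hRR : (R : ℝ) * R ≤ N := by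
    rcases Nat.eq_zero_or_pos R with h0 | h0
    · rw [h0]
      simp
    · have hR0 : (0 : ℝ) < R := by exact_mod_cast h0
      have : Real.log ((R : ℝ) * R) ≤ Real.log N := by
        rw [Real.log_mul hR0.ne' hR0.ne']
        linarith
      exact (Real.log_le_log_iff (by positivity) hNpos).1 this
  have hR0 : (0 : ℝ) ≤ R := Nat.cast_nonneg R
  have hk : (k₀ : ℝ) ≤ N * (q / 4) := by
    rw [← div_le_iff₀ (by positivity)]
    exact hN₂.trans (by exact_mod_cast h2)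
  obtain ⟨c, hc⟩ : ∃ c : ℝ, c = 20 / (q / 4) := ⟨_, rfl⟩
  have hc0 : 0 < c := by rw [hc]; positivity
  have hcq : c * (q / 4) = 20 := by
    rw [hc]
    field_simp
  have hcN : c * c ≤ N := by
    rw [hc]
    exact hN₃.trans (by exact_mod_cast h4)
  have h20 : 20 * (R : ℝ) ≤ N * (q / 4) := by
    rcases le_total (R : ℝ) c with h | h
    · calc 20 * (R : ℝ) ≤ 20 * c := by linarith
        _ = c * c * (q / 4) := by rw [mul_assoc, hcq]; ring
        _ ≤ N * (q / 4) := mul_le_mul_of_nonneg_right hcN (by positivity)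
    · calc 20 * (R : ℝ) = c * R * (q / 4) := by rw [mul_right_comm, hcq]
        _ ≤ R * R * (q / 4) := by
          refine mul_le_mul_of_nonneg_right (mul_le_mul_of_nonneg_right h hR0) (by positivity)
        _ ≤ N * (q / 4) := mul_le_mul_of_nonneg_right hRR (by positivity)
  have hWR' : (Wb K m N : ℝ) ≤ R := by exact_mod_cast hWR
  have hWN : (Wb K m N : ℝ) ≤ N := by
    have hR1 : (R : ℝ) ≤ R * R := by exact_mod_cast Nat.le_mul_self R
    linarith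
  have hqN : 0 < q * N := by positivity
  exact ⟨hΛ, hL1, h3, hel2, hΛ.trans hel0, hel1, by exact_mod_cast hWN, by linarith⟩

/-- decay of the small terms -/
private theorem p1_decay (C e e' q : ℝ) (he : 0 < e) (he' : 0 < e') (hq : 0 < q) :
    ∃ N₀ : ℕ, ∀ N : ℕ, N₀ ≤ N → (1 + Real.log N) * Real.exp (-(e * Real.log N)) ≤ q ∧
      (2 * Real.log N) ^ C * Real.exp (-(e' * Real.log N)) ≤ q := by
  have hlog : Tendsto (fun N : ℕ => Real.log (N : ℝ)) atTop atTop :=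
    Real.tendsto_log_atTop.comp tendsto_natCast_atTop_atTop
  have h1 : Tendsto (fun x : ℝ => x ^ (1 : ℝ) * Real.exp (-e * x)) atTop (nhds 0) :=
    tendsto_rpow_mul_exp_neg_mul_atTop_nhds_zero 1 e he
  have h2 : Tendsto (fun x : ℝ => x ^ C * Real.exp (-e' * x)) atTop (nhds 0) :=
    tendsto_rpow_mul_exp_neg_mul_atTop_nhds_zero C e' he'
  have h3 := (h1.comp hlog).eventually_le_const (show (0 : ℝ) < q / 2 by linarith)
  have h2C : (0 : ℝ) < 2 ^ C := Real.rpow_pos_of_pos (by norm_num) C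
  have h4 := (h2.comp hlog).eventually_le_const (show (0 : ℝ) < q / 2 ^ C by positivity)
  have h5 := hlog.eventually_ge_atTop 1
  obtain ⟨N₀, hN₀⟩ := (h3.and (h4.and h5)).exists_forall_of_atTop
  refine ⟨N₀, fun N hN => ?_⟩
  obtain ⟨h6, h7, h8⟩ := hN₀ N hN
  simp only [Function.comp_apply, Real.rpow_one] at h6 h7
  rw [neg_mul] at h6 h7
  have hexp := Real.exp_pos (-(e * Real.log (N : ℝ)))
  constructor
  · have : (1 + Real.log (N : ℝ)) * Real.exp (-(e * Real.log N)) ≤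
        (2 * Real.log N) * Real.exp (-(e * Real.log N)) :=
      mul_le_mul_of_nonneg_right (by linarith) hexp.le
    linarith
  · rw [Real.mul_rpow (by norm_num) (by linarith), mul_assoc]
    calc (2 : ℝ) ^ C * (Real.log (N : ℝ) ^ C * Real.exp (-(e' * Real.log N))) ≤
          2 ^ C * (q / 2 ^ C) := mul_le_mul_of_nonneg_left h7 h2C.le
      _ = q := by field_simp

/-- the choice of the constants -/
private theorem p1_const (C₀ β₁ q : ℝ) (_hC : 1 ≤ C₀) (hβ : 0 < β₁) (hq : 0 < q) (hq1 : q ≤ 1) :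
    ∃ (δ es ζ e₈ eu : ℝ) (K₁ E₂ : ℕ), 0 < δ ∧ δ ≤ q / 16 ∧ 0 < es ∧ es ≤ 1 / 4 ∧ 8 * es ≤ δ ∧
      4 * es / (δ / 2) ≤ 1 / 4 ∧ 0 < ζ ∧ ζ ≤ q / 64 ∧ ζ / δ ≤ q / 64 ∧ 0 < e₈ ∧ e₈ ≤ q / 32 ∧
      e₈ / δ ≤ q / 128 ∧ 0 < eu ∧ eu ≤ q / 128 ∧ eu / es ^ 2 ≤ q / 128 ∧ 1 ≤ K₁ ∧ 2 ≤ E₂ ∧
      2 ≤ es * K₁ ∧
      10 * C₀ * (40 * (4 * es / (δ / 2) + 1 / K₁ + 3 * es)) ≤ q / 4 ∧
      6 * (4 * es) / (δ / 2) + 8 / (δ / 2) * (4 * C₀ / β₁ / Real.log E₂) ≤ q := by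
  have hC0 : 0 < C₀ := by linarith
  obtain ⟨δ, hδ⟩ : ∃ δ : ℝ, δ = q / 16 := ⟨_, rfl⟩
  have hδ0 : 0 < δ := by rw [hδ]; positivity
  have hδ1 : δ ≤ 1 / 16 := by rw [hδ]; linarith
  obtain ⟨s, hs⟩ : ∃ s : ℝ, s = q / (20000 * C₀) := ⟨_, rfl⟩
  have hs0 : 0 < s := by rw [hs]; positivity
  have hsC : s * C₀ = q / 20000 := by
    rw [hs]
    field_simp
  have hsq : s ≤ q / 20000 := by nlinarith
  have hes0 : 0 < δ * s := by positivity
  have hesδ : δ * s ≤ δ / 20000 := by nlinarith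
  have hess : δ * s ≤ s := by nlinarith
  obtain ⟨K₁, hK₁⟩ := exists_nat_ge (2 / (δ * s))
  obtain ⟨E, hE⟩ := exists_nat_ge (Real.exp (128 * C₀ / (δ * β₁ * q)))
  have hK₁0 : (0 : ℝ) < K₁ := lt_of_lt_of_le (by positivity) hK₁
  have hK₁1 : 1 ≤ K₁ := by exact_mod_cast hK₁0
  have hK2 : 2 ≤ δ * s * K₁ := by
    rw [div_le_iff₀ hes0] at hK₁
    linarith
  have hK3 : 1 / (K₁ : ℝ) ≤ δ * s / 2 := by
    rw [div_le_iff₀ hK₁0]
    linarith
  have hsδ : 4 * (δ * s) / (δ / 2) = 8 * s := by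
    field_simp
    ring
  have hE2 : 128 * C₀ / (δ * β₁ * q) ≤ Real.log ((E + 2 : ℕ) : ℝ) := by
    rw [← Real.exp_le_exp, Real.exp_log (by positivity)]
    push_cast
    linarith
  have hE0 : 0 < Real.log ((E + 2 : ℕ) : ℝ) := lt_of_lt_of_le (by positivity) hE2
  refine ⟨δ, δ * s, q * δ / 64, q * δ / 128, q * (δ * s) ^ 2 / 128, K₁, E + 2, hδ0, hδ.le, hes0,
    by linarith, by linarith, ?_, by positivity, ?_, ?_, by positivity, ?_, ?_, by positivity, ?_,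
    ?_, hK₁1, by omega, hK2, ?_, ?_⟩
  · rw [hsδ]
    linarith
  · nlinarith
  · rw [div_le_iff₀ hδ0]
    linarith
  · nlinarith
  · rw [div_le_iff₀ hδ0]
    linarith
  · have : (δ * s) ^ 2 ≤ 1 := by
      have : δ * s ≤ 1 := by linarith
      nlinarith
    nlinarith
  · rw [div_le_iff₀ (by positivity)]
    linarith
  · rw [hsδ]
    have h1 : 8 * s + 1 / (K₁ : ℝ) + 3 * (δ * s) ≤ 12 * s := by linarith
    calc 10 * C₀ * (40 * (8 * s + 1 / (K₁ : ℝ) + 3 * (δ * s))) ≤ 10 * C₀ * (40 * (12 * s)) := by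
          refine mul_le_mul_of_nonneg_left ?_ (by linarith)
          linarith
      _ = 4800 * (s * C₀) := by ring
      _ ≤ q / 4 := by rw [hsC]; linarith
  · have h1 : 6 * (4 * (δ * s)) / (δ / 2) = 48 * s := by
      field_simp
      ring
    have h2 : 8 / (δ / 2) * (4 * C₀ / β₁ / Real.log ((E + 2 : ℕ) : ℝ)) ≤ q / 2 := by
      have h3 : 8 / (δ / 2) * (4 * C₀ / β₁ / Real.log ((E + 2 : ℕ) : ℝ)) =
          128 * C₀ / (δ * β₁ * q) / Real.log ((E + 2 : ℕ) : ℝ) * (q / 2) := by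
        field_simp
        ring
      rw [h3]
      have h4 : 128 * C₀ / (δ * β₁ * q) / Real.log ((E + 2 : ℕ) : ℝ) ≤ 1 := by
        rw [div_le_one hE0]
        exact hE2
      nlinarith
    rw [h1]
    linarith

/-- the bound for the growth, in units of `N L` -/
private theorem p1_S {N L q z g F B C c3 k0 QSD Rs Rh cE : ℝ} (hN : 0 < N) (hL : 1 ≤ L)
    (hq : 0 < q) (hqL : 1 ≤ q * L) (hCL : C ≤ q / 4 * L) (hC : 0 ≤ C) (hz : 0 ≤ z) (hg : 0 ≤ g)
    (hF : 0 ≤ F) (hB : 0 ≤ B) (hc3 : c3 + k0 ≤ (F + q) * N)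
    (hSD : QSD ≤ (B + q) * N) (hcE : cE ≤ q / 2 * N * L) (h1 : Rs ≤ Rh)
    (h2 : Rh ≤ (c3 + k0) * min (z * L + 1) (g * L + C) + (g * L + C) * QSD + C * N + cE) :
    Rs / (N * L) ≤ (F + q) * min (z + q) (g + q) + (g + q) * (B + q) + q := by
  have hL0 : 0 < L := by linarith
  have hzL : 0 ≤ z * L := mul_nonneg hz hL0.le
  have hgL : 0 ≤ g * L := mul_nonneg hg hL0.le
  have hmin : min (z * L + 1) (g * L + C) ≤ L * min (z + q) (g + q) := by
    rw [mul_min_of_nonneg _ _ hL0.le]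
    refine min_le_min ?_ ?_
    · linarith
    · have : 0 ≤ q * L := by linarith
      linarith
  have hmin0 : 0 ≤ min (z * L + 1) (g * L + C) := le_min (by linarith) (by linarith)
  have ht1 : (c3 + k0) * min (z * L + 1) (g * L + C) ≤
      (F + q) * N * (L * min (z + q) (g + q)) := by
    calc (c3 + k0) * min (z * L + 1) (g * L + C) ≤ (F + q) * N * min (z * L + 1) (g * L + C) :=
          mul_le_mul_of_nonneg_right hc3 hmin0
      _ ≤ (F + q) * N * (L * min (z + q) (g + q)) :=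
          mul_le_mul_of_nonneg_left hmin (by positivity)
  have ht2 : (g * L + C) * QSD ≤ (g + q) * L * ((B + q) * N) := by
    calc (g * L + C) * QSD ≤ (g * L + C) * ((B + q) * N) :=
          mul_le_mul_of_nonneg_left hSD (by linarith)
      _ ≤ (g + q) * L * ((B + q) * N) := by
          refine mul_le_mul_of_nonneg_right ?_ (by positivity)
          have : 0 ≤ q * L := by linarith
          linarith
  have ht3 : C * N ≤ q / 4 * L * N := mul_le_mul_of_nonneg_right hCL hN.le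
  have hpos : 0 < q * L * N := by positivity
  rw [div_le_iff₀ (by positivity)]
  calc Rs ≤ Rh := h1
    _ ≤ (c3 + k0) * min (z * L + 1) (g * L + C) + (g * L + C) * QSD + C * N + cE := h2
    _ ≤ (F + q) * N * (L * min (z + q) (g + q)) + (g + q) * L * ((B + q) * N) +
        q / 4 * L * N + q / 2 * N * L := by linarith
    _ ≤ ((F + q) * min (z + q) (g + q) + (g + q) * (B + q) + q) * (N * L) := by
        linarith

/-- the bounds for the energy, in units of `N L` -/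
private theorem p1_LW {N L q x ω t g d F SI SI2 cI Q C' κ Rs E w c0 e1 e2 e3 C₀ : ℝ}
    (hN : 0 < N) (hL : 1 ≤ L) (hq : 0 < q)
    (h6 : E ≤ (w + 1) ^ 2 * (Rs + SI * Q * (t * L) + C' * N) + w ^ 2 * e1 * Rs)
    (h7 : (w + 1) ^ 2 * ((x - ω) * L * (Q * (SI + SI2)) + g * L * (Q * (cI - SI2)) -
      ((x - ω) * L + g * L) * e2 * (cI * Q) - e3 * ((x - ω) * L) * c0 - 16 * κ * N) ≤ E)
    (he1 : e1 ≤ q) (hRs : 0 ≤ Rs) (he2 : 10 * C₀ * e2 ≤ q / 4) (he2' : 0 ≤ e2) (he3 : e3 ≤ 5)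
    (hc0 : c0 ≤ d * F * N) (hc0' : 0 ≤ c0) (hcI : cI * Q ≤ N) (hcI0 : 0 ≤ cI * Q)
    (hκ : 16 * κ ≤ q / 8 * L) (hC' : C' ≤ q / 8 * L) (hxω : 0 ≤ x - ω) (hω : 0 ≤ ω)
    (hx : x ≤ 6 * C₀) (hg : g ≤ 4 * C₀) (hw : 0 ≤ w) :
    (x - ω) * (Q * SI / N + Q * SI2 / N) + g * (Q * SI / N + Q * (cI - SI) / N - Q * SI2 / N) ≤
      (1 + q) * (Rs / (N * L)) + Q * SI / N * t + q + 5 * x * d * F := by
  have hL0 : 0 < L := by linarith
  have hW : 0 < (w + 1) ^ 2 := by positivity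
  have hww : w ^ 2 * e1 * Rs ≤ (w + 1) ^ 2 * (q * Rs) := by
    have h1 : w ^ 2 ≤ (w + 1) ^ 2 := by nlinarith
    calc w ^ 2 * e1 * Rs = w ^ 2 * (e1 * Rs) := by ring
      _ ≤ w ^ 2 * (q * Rs) :=
          mul_le_mul_of_nonneg_left (mul_le_mul_of_nonneg_right he1 hRs) (by positivity)
      _ ≤ (w + 1) ^ 2 * (q * Rs) := mul_le_mul_of_nonneg_right h1 (by positivity)
  have h8 : (x - ω) * L * (Q * (SI + SI2)) + g * L * (Q * (cI - SI2)) -
      ((x - ω) * L + g * L) * e2 * (cI * Q) - e3 * ((x - ω) * L) * c0 - 16 * κ * N ≤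
      Rs + SI * Q * (t * L) + C' * N + q * Rs := by
    refine le_of_mul_le_mul_left ?_ hW
    calc _ ≤ E := h7
      _ ≤ _ := h6
      _ ≤ (w + 1) ^ 2 * (Rs + SI * Q * (t * L) + C' * N) + (w + 1) ^ 2 * (q * Rs) := by
          linarith
      _ = _ := by ring
  have h9 : ((x - ω) * L + g * L) * e2 * (cI * Q) ≤ q / 4 * L * N := by
    have h10 : ((x - ω) * L + g * L) * e2 ≤ q / 4 * L := by
      have h11 : (x - ω) + g ≤ 10 * C₀ := by linarith
      calc ((x - ω) * L + g * L) * e2 = ((x - ω) + g) * (e2 * L) := by ring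
        _ ≤ 10 * C₀ * (e2 * L) := mul_le_mul_of_nonneg_right h11 (by positivity)
        _ = 10 * C₀ * e2 * L := by ring
        _ ≤ q / 4 * L := mul_le_mul_of_nonneg_right he2 hL0.le
    calc ((x - ω) * L + g * L) * e2 * (cI * Q) ≤ q / 4 * L * (cI * Q) :=
          mul_le_mul_of_nonneg_right h10 hcI0
      _ ≤ q / 4 * L * N := mul_le_mul_of_nonneg_left hcI (by positivity)
  have h12 : e3 * ((x - ω) * L) * c0 ≤ 5 * x * d * F * (N * L) := by
    calc e3 * ((x - ω) * L) * c0 ≤ 5 * ((x - ω) * L) * c0 := by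
          refine mul_le_mul_of_nonneg_right (mul_le_mul_of_nonneg_right he3 ?_) hc0'
          positivity
      _ ≤ 5 * (x * L) * c0 := by
          refine mul_le_mul_of_nonneg_right (mul_le_mul_of_nonneg_left ?_ (by norm_num)) hc0'
          exact mul_le_mul_of_nonneg_right (by linarith) hL0.le
      _ ≤ 5 * (x * L) * (d * F * N) := by
          refine mul_le_mul_of_nonneg_left hc0 ?_
          have : 0 ≤ x := by linarith
          positivity
      _ = 5 * x * d * F * (N * L) := by ring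
  have h13 : 16 * κ * N ≤ q / 8 * L * N := mul_le_mul_of_nonneg_right hκ hN.le
  have h14 : C' * N ≤ q / 8 * L * N := mul_le_mul_of_nonneg_right hC' hN.le
  have hpos : 0 < q * L * N := by positivity
  have hNL : 0 < N * L := by positivity
  have h15 : ((x - ω) * (Q * SI / N + Q * SI2 / N) +
      g * (Q * SI / N + Q * (cI - SI) / N - Q * SI2 / N)) * (N * L) =
      (x - ω) * L * (Q * (SI + SI2)) + g * L * (Q * (cI - SI2)) := by
    field_simp
    ring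
  have h16 : ((1 + q) * (Rs / (N * L)) + Q * SI / N * t + q + 5 * x * d * F) * (N * L) =
      (1 + q) * Rs + SI * Q * (t * L) + q * L * N + 5 * x * d * F * (N * L) := by
    field_simp
  refine le_of_mul_le_mul_right ?_ hNL
  rw [h15, h16]
  linarith

/-- the shares of the blocks of `Inn D` -/
private theorem p1_A {N q δ F c1 c2 SD SI dC u1 u2 a1 k0 Q W ζ es e₈ eu : ℝ} (hN : 0 < N)
    (hδ : 0 < δ) (hes : 0 < es) (hδq : δ ≤ q / 16) (he₈ : e₈ ≤ q / 32) (he₈δ : e₈ / δ ≤ q / 128)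
    (heu : eu ≤ q / 128) (heu2 : eu / es ^ 2 ≤ q / 128) (hζ : ζ / δ ≤ q / 64) (hζ0 : 0 < ζ)
    (hX1 : c1 ≤ Q * SD + (k0 + 10 * Q + a1 + u1 / es ^ 2 + Q + u2 + δ * N + W))
    (hX2 : dC * Q ≤ 2 * (10 * Q + 2 * (N / W + 1) * Q + u1 / es ^ 2 + Q + u2 + 4 * a1 / δ +
      2 * (c2 - c1) / δ))
    (ha1 : a1 ≤ e₈ * N) (hu1 : u1 ≤ eu * N) (hu2 : u2 ≤ eu * N) (hc1 : c1 = F * N)
    (hc2 : c2 ≤ (1 + ζ) * F * N) (hF1 : F ≤ 1) (hk0 : k0 + 20 * W ≤ q / 16 * N) (hk00 : 0 ≤ k0)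
    (hQW : Q ≤ W) (hQ : 0 ≤ Q) (hNW : N / W * Q ≤ q / 64 * N) (hSD : SD ≤ SI + dC) :
    dC * Q ≤ q / 2 * N ∧ F - q ≤ Q * SI / N := by
  have h1 : u1 / es ^ 2 ≤ q / 128 * N := by
    calc u1 / es ^ 2 ≤ eu * N / es ^ 2 := div_le_div_of_nonneg_right hu1 (by positivity)
      _ = eu / es ^ 2 * N := by ring
      _ ≤ q / 128 * N := mul_le_mul_of_nonneg_right heu2 hN.le
  have h2 : u2 ≤ q / 128 * N := hu2.trans (mul_le_mul_of_nonneg_right heu hN.le)
  have h3 : a1 ≤ q / 32 * N := ha1.trans (mul_le_mul_of_nonneg_right he₈ hN.le)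
  have h4 : 4 * a1 / δ ≤ q / 32 * N := by
    calc 4 * a1 / δ ≤ 4 * (e₈ * N) / δ := div_le_div_of_nonneg_right (by linarith) hδ.le
      _ = 4 * (e₈ / δ) * N := by ring
      _ ≤ q / 32 * N := mul_le_mul_of_nonneg_right (by linarith) hN.le
  have h5 : 2 * (c2 - c1) / δ ≤ q / 32 * N := by
    have h6 : c2 - c1 ≤ ζ * N := by
      have : ζ * F * N ≤ ζ * 1 * N :=
        mul_le_mul_of_nonneg_right (mul_le_mul_of_nonneg_left hF1 hζ0.le) hN.le
      rw [hc1]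
      linarith
    calc 2 * (c2 - c1) / δ ≤ 2 * (ζ * N) / δ := div_le_div_of_nonneg_right (by linarith) hδ.le
      _ = 2 * (ζ / δ) * N := by ring
      _ ≤ q / 32 * N := mul_le_mul_of_nonneg_right (by linarith) hN.le
  have h7 : δ * N ≤ q / 16 * N := mul_le_mul_of_nonneg_right hδq hN.le
  have h8 : 2 * (N / W + 1) * Q = 2 * (N / W * Q) + 2 * Q := by ring
  have hqN : 0 ≤ q * N := by linarith
  have h9 : dC * Q ≤ q / 2 * N := by
    rw [h8] at hX2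
    linarith
  refine ⟨h9, ?_⟩
  rw [le_div_iff₀ hN]
  have h10 : Q * SD ≤ Q * (SI + dC) := mul_le_mul_of_nonneg_left hSD hQ
  have h11 : Q * (SI + dC) = Q * SI + dC * Q := by ring
  have h12 : (F - q) * N = F * N - q * N := by ring
  rw [h12]
  linarith

/-- `g(P')` and `g(n)` in units of `log N` -/
private theorem p1_tg (hGGB : Stmt_GGB) {a : ℕ → ℤ} {k₀ : ℕ} {C₀ : ℝ} (hD : Dat a k₀ C₀)
    {N n P : ℕ} {L : ℝ} (hLdef : L = Real.log N) (hL0 : 0 < L) (hNtwo : 2 ≤ N) (hP2n : 2 ≤ P)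
    (hPN : P ≤ N) (hn1 : 2 * N ≤ n) (hn2 : n ≤ 2 * N + 1) :
    ∃ t g : ℝ, gg a P = t * L ∧ gg a n = g * L ∧ 0 ≤ t ∧ t ≤ C₀ ∧ 0 ≤ g ∧ g ≤ 4 * C₀ := by
  obtain ⟨hg1, hg0, -, -, -, -, -⟩ := hGGB a k₀ C₀ hD
  have hC0 : 0 < C₀ := lt_of_lt_of_le one_pos hD.one_le
  refine ⟨gg a P / L, gg a n / L, by field_simp, by field_simp, div_nonneg (hg0 P) hL0.le, ?_,
    div_nonneg (hg0 n) hL0.le, ?_⟩
  · rw [div_le_iff₀ hL0]
    refine (hg1 P hP2n).trans (mul_le_mul_of_nonneg_left ?_ hC0.le)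
    rw [hLdef]
    exact Real.log_le_log (by exact_mod_cast (by omega : 0 < P)) (by exact_mod_cast hPN)
  · rw [div_le_iff₀ hL0]
    refine (hg1 n (by omega)).trans ?_
    have h2 : Real.log (n : ℝ) ≤ 3 * L := by
      rw [hLdef]
      have h3 : (n : ℝ) ≤ (N : ℝ) ^ 3 := by
        have h5 : n ≤ N ^ 3 := by nlinarith [Nat.mul_le_mul hNtwo hNtwo]
        exact_mod_cast h5
      have h6 := Real.log_le_log (by exact_mod_cast (by omega : 0 < n)) h3
      rw [Real.log_pow] at h6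
      push_cast at h6
      exact h6
    calc C₀ * Real.log n ≤ C₀ * (3 * L) := mul_le_mul_of_nonneg_left h2 hC0.le
      _ ≤ 4 * C₀ * L := by nlinarith

/-- the distribution function of `G` -/
private theorem p1_F (hGGB : Stmt_GGB) (hMXB : Stmt_MXB) {a : ℕ → ℤ} {k₀ : ℕ} {C₀ : ℝ}
    (hD : Dat a k₀ C₀) {N m : ℕ} {L : ℝ} (hLdef : L = Real.log N) (hL0 : 0 < L) (hNtwo : 2 ≤ N)
    (hmN : m ≤ N) (hmaj : N ≤ 3 * Rc a k₀ N) :
    ∃ F : ℝ → ℝ, Monotone F ∧ (∀ x, 0 ≤ F x) ∧ (∀ x, F x ≤ 1) ∧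
      (∀ x, (cnt a k₀ N m (x * L) : ℝ) = F x * N) ∧ (∀ x, 2 * C₀ ≤ x → 1 / 3 ≤ F x) := by
  classical
  obtain ⟨-, -, -, -, -, hld, -⟩ := hGGB a k₀ C₀ hD
  obtain ⟨hMx, -, hhx, hax, -⟩ := hMXB a k₀ C₀ hD
  have hN0 : (0 : ℝ) < N := by exact_mod_cast (by omega : 0 < N)
  have hcmono : ∀ y y' : ℝ, y ≤ y' → cnt a k₀ N m y ≤ cnt a k₀ N m y' := by
    intro y y' hyy
    unfold cnt
    refine Finset.card_le_card fun u hu => ?_
    rw [Finset.mem_filter] at hu ⊢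
    exact ⟨hu.1, hu.2.1, hu.2.2.trans hyy⟩
  have hcN : ∀ y : ℝ, cnt a k₀ N m y ≤ N := by
    intro y
    unfold cnt
    refine (Finset.card_filter_le _ _).trans ?_
    rw [Nat.card_Ico]
    omega
  have hGm : ∀ u : ℕ, u < N → Gm a m u ≤ 2 * C₀ * L := by
    intro u hu
    have h3 := hld (hx a (u + m)) (hx a u) N hNtwo (le_trans (hhx _) (by omega))
      (le_trans (hhx _) (by omega))
    rw [hax, hax, ← hLdef] at h3
    unfold Gm
    unfold Pool.Agent.Work.MP_b29d7f_nt.ld at h3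
    have h4 : (0 : ℤ) ≤ Mx a (u + m) - Mx a u := by
      have := hMx (Nat.le_add_right u m)
      linarith
    have h5 : |((Mx a (u + m) - Mx a u : ℤ) : ℝ)| = ((Mx a (u + m) - Mx a u : ℤ) : ℝ) :=
      abs_of_nonneg (by exact_mod_cast h4)
    rwa [h5] at h3
  have hcR : ∀ y : ℝ, 2 * C₀ * L ≤ y → Rc a k₀ N ≤ cnt a k₀ N m y := by
    intro y hy
    unfold cnt Rc
    refine Finset.card_le_card fun u hu => ?_
    rw [mem_Rf] at hu
    rw [Finset.mem_filter, Finset.mem_Ico]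
    exact ⟨hu.1, hu.2, (hGm u hu.1.2).trans hy⟩
  refine ⟨fun x => (cnt a k₀ N m (x * L) : ℝ) / N, ?_, ?_, ?_, ?_, ?_⟩
  · intro x x' hxx
    refine div_le_div_of_nonneg_right ?_ hN0.le
    exact_mod_cast hcmono _ _ (mul_le_mul_of_nonneg_right hxx hL0.le)
  · intro x
    positivity
  · intro x
    refine (div_le_one hN0).2 ?_
    exact_mod_cast hcN _
  · intro x
    field_simp
  · intro x hx
    have h2 := hcR _ (mul_le_mul_of_nonneg_right hx hL0.le)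
    rw [le_div_iff₀ hN0]
    have h3 : (N : ℝ) ≤ 3 * (cnt a k₀ N m (x * L) : ℝ) := by
      exact_mod_cast hmaj.trans (Nat.mul_le_mul_left 3 h2)
    linarith

/-- the near and the far terms are small -/
private theorem p1_small {L x e₇ e₂ e₉ t b z C q m P l : ℝ} (hL : 1 ≤ L) (hb : 2 < b)
    (h7 : 8 * e₇ ≤ e₂) (h79 : 8 * e₇ ≤ e₉) (he₂ : 0 < e₂) (he₉ : 0 < e₉)
    (hz : z = (b * x - t) / (b - 1) + e₉) (hm : 0 ≤ m) (hP : 0 ≤ P) (hC : 0 ≤ C) (hl : 0 ≤ l)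
    (hl2 : l ≤ 2 * L) (hd1 : (1 + L) * Real.exp (-(e₂ / 2 * L)) ≤ q / 4)
    (hd2 : (2 * L) ^ C * Real.exp (-(e₉ / 4 * L)) ≤ q / 4) :
    Real.exp ((x + e₇) * L) * m * (1 + L) * Real.exp (-((x + e₂) * L)) +
      Real.exp ((x + e₇) * L) * (l ^ C * P * Real.exp ((z * L - t * L) / b - z * L)) ≤
      m * (q / 4) + P * (q / 4) := by
  have hL0 : 0 < L := by linarith only [hL]
  have hb0 : 0 < b := by linarith only [hb]
  have hb1 : 0 < b - 1 := by linarith only [hb]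
  have h1 : Real.exp ((x + e₇) * L) * m * (1 + L) * Real.exp (-((x + e₂) * L)) ≤ m * (q / 4) := by
    have h2 : Real.exp ((x + e₇) * L) * Real.exp (-((x + e₂) * L)) ≤
        Real.exp (-(e₂ / 2 * L)) := by
      rw [← Real.exp_add]
      refine Real.exp_le_exp.2 ?_
      have h3 : (e₇ - e₂) * L ≤ (-(e₂ / 2)) * L :=
        mul_le_mul_of_nonneg_right (by linarith only [h7, he₂]) hL0.le
      linarith only [h3]
    calc Real.exp ((x + e₇) * L) * m * (1 + L) * Real.exp (-((x + e₂) * L)) =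
          m * ((1 + L) * (Real.exp ((x + e₇) * L) * Real.exp (-((x + e₂) * L)))) := by ring
      _ ≤ m * ((1 + L) * Real.exp (-(e₂ / 2 * L))) := by
          refine mul_le_mul_of_nonneg_left (mul_le_mul_of_nonneg_left h2 ?_) hm
          linarith only [hL]
      _ ≤ m * (q / 4) := mul_le_mul_of_nonneg_left hd1 hm
  have h4 : Real.exp ((x + e₇) * L) * (l ^ C * P * Real.exp ((z * L - t * L) / b - z * L)) ≤
      P * (q / 4) := by
    have h5 : Real.exp ((x + e₇) * L) * Real.exp ((z * L - t * L) / b - z * L) ≤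
        Real.exp (-(e₉ / 4 * L)) := by
      rw [← Real.exp_add]
      refine Real.exp_le_exp.2 ?_
      have h6 : (x + e₇) * L + ((z * L - t * L) / b - z * L) =
          (e₇ - e₉ * ((b - 1) / b)) * L := by
        rw [hz]
        field_simp
        ring
      rw [h6]
      have h8 : 1 / 2 ≤ (b - 1) / b := by
        rw [le_div_iff₀ hb0]
        linarith only [hb]
      have h9 : e₉ * (1 / 2) ≤ e₉ * ((b - 1) / b) := mul_le_mul_of_nonneg_left h8 he₉.le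
      have h10 : (e₇ - e₉ * ((b - 1) / b)) * L ≤ (-(e₉ / 4)) * L :=
        mul_le_mul_of_nonneg_right (by linarith only [h79, h9, he₉]) hL0.le
      linarith only [h10]
    have h11 : l ^ C ≤ (2 * L) ^ C := Real.rpow_le_rpow hl hl2 hC
    have h12 : 0 ≤ l ^ C := Real.rpow_nonneg hl C
    calc Real.exp ((x + e₇) * L) * (l ^ C * P * Real.exp ((z * L - t * L) / b - z * L)) =
          P * (l ^ C * (Real.exp ((x + e₇) * L) * Real.exp ((z * L - t * L) / b - z * L))) := by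
          ring
      _ ≤ P * ((2 * L) ^ C * Real.exp (-(e₉ / 4 * L))) := by
          refine mul_le_mul_of_nonneg_left ?_ hP
          exact mul_le_mul h11 h5 (by positivity) (by positivity)
      _ ≤ P * (q / 4) := mul_le_mul_of_nonneg_left hd2 hP
  linarith only [h1, h4]

theorem stmt_PART1 (hNUM : Stmt_NUM1) (hPIGF : Stmt_PIGF) (hBL1 : Stmt_BL1) (hBL2 : Stmt_BL2)
    (hBL3 : Stmt_BL3) (hTEL : Stmt_TEL) (hGRO : Stmt_GRO) (hGWC : Stmt_GWC) (hLWU : Stmt_LWU)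
    (hLWL : Stmt_LWL) (hGGB : Stmt_GGB) (_hLRA : Stmt_LRA) (hMXB : Stmt_MXB) (hMRT : Stmt_MRT) :
    Stmt_PART1 := by
  classical
  intro C₀ κ b β₁ β₂ e₅ hC₀ hb hκ hβ₁ hβ₂ hCβ he₅ he₅1
  have hC0 : 0 < C₀ := by linarith
  have hβ₂8 : β₂ ≤ 1 / 8 := by nlinarith
  obtain ⟨ω, d, e₉, hω, hω5, hd, hd8, he₉, hN1⟩ := hNUM C₀ b e₅ hC₀ hb he₅ he₅1
  obtain ⟨η, hη, hη3, hP⟩ := hPIGF ω d (2 * C₀) hω hd (by linarith) (by linarith)
  obtain ⟨q₀, hq₀, hN2⟩ := hN1 η hη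
  obtain ⟨q, hq, hq1, hqq⟩ : ∃ q : ℝ, 0 < q ∧ q ≤ 1 ∧ q ≤ q₀ :=
    ⟨min q₀ 1, lt_min hq₀ one_pos, min_le_right _ _, min_le_left _ _⟩
  obtain ⟨δ, es, ζ, e₈, eu, K₁, E₂, hδ, hδq, hes, hes4, hes8, hesδ, hζ, hζ64, hζδ, he₈, he₈32,
    he₈δ, heu, heu128, heues, hK₁, hE₂, hesK, hc1, hc2⟩ := p1_const C₀ β₁ q hC₀ hβ₁ hq hq1
  obtain ⟨e₂, he₂, he₂ω, hP2⟩ := hP ζ hζ
  obtain ⟨e₇, he₇, he₇2, he₇9⟩ : ∃ e₇ : ℝ, 0 < e₇ ∧ 8 * e₇ ≤ e₂ ∧ 8 * e₇ ≤ e₉ := by
    refine ⟨min e₂ e₉ / 8, by positivity, ?_, ?_⟩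
    · have := min_le_left e₂ e₉
      linarith
    · have := min_le_right e₂ e₉
      linarith
  obtain ⟨K, hKdef⟩ : ∃ K : ℕ, K = 2 * E₂ * K₁ := ⟨_, rfl⟩
  have hK2 : 2 ≤ K := by
    rw [hKdef]
    nlinarith
  refine ⟨K, η, e₇, e₈, es, eu, by omega, hη, he₇, he₈, hes, heu, ?_⟩
  intro a k₀ hD e₃ J
  obtain ⟨C, N₁, hC, hG⟩ := hGRO a k₀ C₀ κ b β₁ β₂ e₃ e₇ e₈ K J hD hκ (by linarith)
    hβ₁ (by linarith) (by omega)
  obtain ⟨C', N₂, hC', hLU⟩ := hLWU a k₀ C₀ κ b β₁ β₂ e₃ e₇ e₈ K₁ E₂ J hD hκ hβ₁ (by linarith)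
    hK₁ hE₂
  rw [← hKdef] at hLU
  obtain ⟨N₃, hdec⟩ := p1_decay C (e₂ / 2) (e₉ / 4) (q / 4) (by linarith) (by linarith)
    (by linarith)
  obtain ⟨Λ, hΛ⟩ : ∃ Λ : ℝ, Λ = 1 / es + 8 / δ + 64 / q + 4 * C / q + 8 * C' / q + 128 * κ / q :=
    ⟨_, rfl⟩
  obtain ⟨N₄, hsz⟩ := p1_sizes K k₀ (q / 16) Λ (by omega) (by linarith)
  refine ⟨max (max N₁ N₂) (max N₃ N₄), ?_⟩
  intro n N R m hN hFr hFs
  have hN1' : N₁ ≤ N := le_trans (by simp) hN
  have hN2' : N₂ ≤ N := le_trans (by simp) hN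
  have hN3' : N₃ ≤ N := le_trans (by simp) hN
  have hN4' : N₄ ≤ N := le_trans (by simp) hN
  have hlogN0 : 0 ≤ Real.log (N : ℝ) := Real.log_natCast_nonneg N
  obtain ⟨hΛL, hL1, hNtwo, hel2, hΛl, hel1, hWN, hkW⟩ := hsz N R m hN4' hFr.m_hi
    (hFr.R_hi.trans (mul_le_mul_of_nonneg_right hβ₂8 hlogN0))
  obtain ⟨hdec1, hdec2⟩ := hdec N hN3'
  by_contra hcon
  push Not at hcon
  have hst1 := hFs.st1
  have hst2 := hFs.st2
  have hsel2 := hFr.sel2
  have hG' := hG n N R m hN1' hFr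
  have hLU' := hLU n N R m hN2' hFr
  have hmaj := hFs.maj
  obtain ⟨L, hLdef⟩ : ∃ L : ℝ, L = Real.log N := ⟨_, rfl⟩
  obtain ⟨Q, hQdef⟩ : ∃ Q : ℕ, Q = Qb K m N := ⟨_, rfl⟩
  obtain ⟨W, hWdef⟩ : ∃ W : ℕ, W = Wb K m N := ⟨_, rfl⟩
  obtain ⟨P, hPdef⟩ : ∃ P : ℕ, P = P1 K m N := ⟨_, rfl⟩
  rw [← hLdef] at hlogN0 hΛL hL1 hel2 hdec1 hdec2 hcon hsel2 hG'
  rw [← hWdef] at hWN hkW hst2
  rw [← hPdef] at hcon hG' hLU'
  rw [← hQdef] at hst1 hst2 hsel2 hG' hLU'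
  have hL0 : 0 < L := by linarith
  have hN0 : (0 : ℝ) < N := by exact_mod_cast (by omega : 0 < N)
  have hm1 : 1 ≤ m := (Nat.one_le_pow _ _ hel1).trans hFr.m_big
  have hl1 : (1 : ℝ) ≤ el N := by exact_mod_cast hel1
  have hm1' : (1 : ℝ) ≤ m := by exact_mod_cast hm1
  have hQl : Q = m * (K * el N ^ 4) := by
    rw [hQdef, Qb]
    ring
  have hWl : W = Q * el N := by
    rw [hWdef, hQdef, Wb, Qb]
    ring
  have hPl : Q = P * el N := by
    rw [hPdef, hQdef, P1, Qb]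
    ring
  have hmQd : m ∣ Q := ⟨_, hQl⟩
  have hQWd : Q ∣ W := ⟨_, hWl⟩
  have hQ1 : 1 ≤ Q := by
    rw [hQl]
    have : 0 < m * (K * el N ^ 4) := by positivity
    omega
  have hW1 : 1 ≤ W := by
    rw [hWl]
    have : 0 < Q * el N := by positivity
    omega
  have hP2n : 2 ≤ P := by
    rw [hPdef, P1]
    calc 2 ≤ K := hK2
      _ = K * 1 * 1 := by ring
      _ ≤ K * m * el N ^ 3 :=
        Nat.mul_le_mul (Nat.mul_le_mul_left _ hm1) (Nat.one_le_pow _ _ hel1)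
  have hmQ : m ≤ Q := Nat.le_of_dvd (by omega) hmQd
  have hQW : Q ≤ W := Nat.le_of_dvd (by omega) hQWd
  have hPQ : P ≤ Q := by
    rw [hPl]
    exact Nat.le_mul_of_pos_right _ (by omega)
  have hmN : m ≤ N := by omega
  have hPN : P ≤ N := by omega
  have hQ0' : (0 : ℝ) < Q := by exact_mod_cast (by omega : 0 < Q)
  have hmQ' : (m : ℝ) ≤ Q := by exact_mod_cast hmQ
  have hPQ' : (P : ℝ) ≤ Q := by exact_mod_cast hPQ
  have hQW' : (Q : ℝ) ≤ W := by exact_mod_cast hQW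
  have hW0' : (0 : ℝ) < W := lt_of_lt_of_le hQ0' hQW'
  have hΛ1 : 1 / es ≤ Λ ∧ 8 / δ ≤ Λ ∧ 64 / q ≤ Λ ∧ 4 * C / q ≤ Λ ∧ 8 * C' / q ≤ Λ ∧
      128 * κ / q ≤ Λ := by
    have h1 : 0 ≤ 1 / es := by positivity
    have h2 : 0 ≤ 8 / δ := by positivity
    have h3 : 0 ≤ 64 / q := by positivity
    have h4 : 0 ≤ 4 * C / q := by positivity
    have h5 : 0 ≤ 8 * C' / q := by positivity
    have h6 : 0 ≤ 128 * κ / q := by positivity
    rw [hΛ]
    refine ⟨?_, ?_, ?_, ?_, ?_, ?_⟩ <;> linarith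
  obtain ⟨hΛa, hΛb, hΛc, hΛd, hΛe, hΛf⟩ := hΛ1
  have hesl : 1 ≤ es * el N := by
    have := hΛa.trans hΛl
    rw [div_le_iff₀ hes] at this
    linarith
  have hδl : 8 ≤ δ * el N := by
    have := hΛb.trans hΛl
    rw [div_le_iff₀ hδ] at this
    linarith
  have hql : 64 ≤ q * el N := by
    have := hΛc.trans hΛl
    rw [div_le_iff₀ hq] at this
    linarith
  have hqL : 1 ≤ q * L := by
    have := hΛc.trans hΛL
    rw [div_le_iff₀ hq] at this
    linarith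
  have hCL : C ≤ q / 4 * L := by
    have := hΛd.trans hΛL
    rw [div_le_iff₀ hq] at this
    linarith
  have hCL' : C' ≤ q / 8 * L := by
    have := hΛe.trans hΛL
    rw [div_le_iff₀ hq] at this
    linarith
  have hκL : 16 * κ ≤ q / 8 * L := by
    have := hΛf.trans hΛL
    rw [div_le_iff₀ hq] at this
    linarith
  obtain ⟨t, g, ht, hg, ht0, htC, hg00, hgC⟩ := p1_tg hGGB hD hLdef hL0 hNtwo hP2n hPN hFr.n_lo
    hFr.n_hi
  obtain ⟨F, hFmono, hF0, hF1, hcF, hF3⟩ := p1_F hGGB hMXB hD hLdef hL0 hNtwo hmN hmaj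
  have hFlt : F (t + e₅) < η := by
    rw [ht, ← add_mul, hcF] at hcon
    exact lt_of_mul_lt_mul_right hcon hN0.le
  have hFge : 1 / 3 ≤ F (t + e₅ + 2 * C₀) := hF3 _ (by linarith only [ht0, he₅])
  obtain ⟨x, hx1, hx2, hFx, hFw, hFe⟩ := hP2 F (t + e₅) hFmono hF0 hF1 hFlt hFge
  have hx6 : x ≤ 6 * C₀ := by linarith only [hx2, htC, hω5, he₅1, hC₀]
  have hxω : 0 ≤ x - ω := by linarith only [hx1, ht0, hω5, he₅]
  have hx0 : 0 ≤ x := by linarith only [hxω, hω]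
  have hxt : t ≤ x := by linarith only [hx1, he₅]
  have hb1 : 0 < b - 1 := by linarith only [hb]
  obtain ⟨z, hz⟩ : ∃ z : ℝ, z = (b * x - t) / (b - 1) + e₉ := ⟨_, rfl⟩
  have hzx : x + e₉ ≤ z := by
    have h1 : x ≤ (b * x - t) / (b - 1) := by
      rw [le_div_iff₀ hb1]
      linarith only [hxt]
    linarith only [hz, h1]
  have hz0 : 0 ≤ z := by linarith only [hzx, hx0, he₉]
  have hF7 : F (x + e₇) ≤ (1 + ζ) * F x :=
    (hFmono (by linarith only [he₇2, he₇])).trans hFe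
  have hFx0 := hF0 x
  have hFx1 := hF1 x
  have hQm : (m : ℝ) * el N ≤ Q := by
    have h1 : m * el N ≤ Q := by
      rw [hQl]
      refine Nat.mul_le_mul_left m ?_
      calc el N = 1 * el N ^ 1 := by ring
        _ ≤ K * el N ^ 4 := Nat.mul_le_mul (by omega) (Nat.pow_le_pow_right hel1 (by norm_num))
    exact_mod_cast h1
  have hm0' : (0 : ℝ) ≤ m := by linarith only [hm1']
  have hmδ : 8 * (m : ℝ) ≤ δ * Q := by
    calc 8 * (m : ℝ) ≤ δ * el N * m := mul_le_mul_of_nonneg_right hδl hm0'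
      _ = δ * (m * el N) := by ring
      _ ≤ δ * Q := mul_le_mul_of_nonneg_left hQm hδ.le
  have hy0 : 0 ≤ (x + e₇) * L := by positivity
  have hes1 : es ≤ 1 := by linarith only [hes4]
  have b1 := hBL1 a k₀ C₀ hD N m Q W ((x + e₇) * L) (e₇ * L) es δ hm1 hmQd hQWd hQ1 hW1 hWN
    (by positivity) hes hes1 hδ.le
  have b2 := hBL2 a k₀ C₀ hD N m Q W ((x + e₇) * L) (e₇ * L) es δ hm1 hmQd hQWd hQ1 hW1 hWN
    (by positivity) hes hes1 hδ hes8 hmδ
  obtain ⟨b3, b3'⟩ := hBL3 a k₀ C₀ hD N m Q W ((x + e₇) * L) es δ hm1 hmQ hδ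
    (by linarith only [hes8, hes]) hy0
  have hyL : (x + e₇) * L - e₇ * L = x * L := by ring
  rw [hyL] at b1 b2
  obtain ⟨D, hDdef⟩ : ∃ D : Finset ℕ, D = DD a k₀ N m Q W ((x + e₇) * L) es δ := ⟨_, rfl⟩
  rw [← hDdef] at b1 b2 b3 b3'
  simp only [hcF] at b1 b2 b3
  have hsub : Inn D ⊆ D := Finset.filter_subset _ _
  have hDN : (D.card : ℝ) * Q ≤ N := by
    have h1 : D ⊆ range (N / Q) := by
      intro j hj
      have h2 := (b3' j hj).2.2.2.2.2.1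
      rw [Finset.mem_range]
      refine (Nat.le_div_iff_mul_le hQ1).2 ?_
      calc (j + 1) * Q = j * Q + Q := by ring
        _ ≤ N := h2
    have h3 : D.card ≤ N / Q := by
      have := Finset.card_le_card h1
      rwa [Finset.card_range] at this
    have h4 : D.card * Q ≤ N := (Nat.mul_le_mul_right Q h3).trans (Nat.div_mul_le_self N Q)
    exact_mod_cast h4
  have hIN : ((Inn D).card : ℝ) * Q ≤ N := by
    refine le_trans (mul_le_mul_of_nonneg_right ?_ hQ0'.le) hDN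
    exact_mod_cast Finset.card_le_card hsub
  obtain ⟨hsh, -, -⟩ := hMRT a N Q Q hQ1 (dvd_refl Q) hQ1
  obtain ⟨SI, hSI⟩ : ∃ SI : ℝ, SI = ∑ j ∈ Inn D, sh a Q j := ⟨_, rfl⟩
  obtain ⟨SI2, hSI2⟩ : ∃ SI2 : ℝ, SI2 = ∑ j ∈ Inn D, sh a Q j ^ 2 := ⟨_, rfl⟩
  obtain ⟨SD, hSD⟩ : ∃ SD : ℝ, SD = ∑ j ∈ D, sh a Q j := ⟨_, rfl⟩
  obtain ⟨cI, hcI⟩ : ∃ cI : ℝ, cI = ((Inn D).card : ℝ) := ⟨_, rfl⟩
  obtain ⟨dC, hdC⟩ : ∃ dC : ℝ, dC = ((D \ Inn D).card : ℝ) := ⟨_, rfl⟩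
  have hSDI : SD ≤ SI + dC := by
    have h1 := Finset.sum_sdiff hsub (f := fun j => sh a Q j)
    have h2 : ∑ j ∈ D \ Inn D, sh a Q j ≤ ∑ j ∈ D \ Inn D, (1 : ℝ) :=
      Finset.sum_le_sum fun j _ => (hsh j).2
    rw [Finset.sum_const, nsmul_eq_mul, mul_one] at h2
    rw [hSD, hSI, hdC, ← h1]
    linarith only [h2]
  have hSID : SI ≤ SD := by
    rw [hSD, hSI]
    exact Finset.sum_le_sum_of_subset_of_nonneg hsub fun j _ _ => (hsh j).1
  have hSI0 : 0 ≤ SI := by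
    rw [hSI]
    exact Finset.sum_nonneg fun j _ => (hsh j).1
  have hSIc : SI ≤ cI := by
    have h2 : ∑ j ∈ Inn D, sh a Q j ≤ ∑ j ∈ Inn D, (1 : ℝ) :=
      Finset.sum_le_sum fun j _ => (hsh j).2
    rw [Finset.sum_const, nsmul_eq_mul, mul_one] at h2
    rw [hSI, hcI]
    exact h2
  have hSI20 : 0 ≤ SI2 := by
    rw [hSI2]
    exact Finset.sum_nonneg fun j _ => sq_nonneg _
  have hSI2le : SI2 ≤ SI := by
    rw [hSI2, hSI]
    refine Finset.sum_le_sum fun j _ => ?_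
    have h1 := (hsh j).1
    have h2 := (hsh j).2
    nlinarith only [h1, h2]
  have hSDm : ∑ j ∈ D, (1 - sh a Q j) ≤ (cI - SI) + dC := by
    have h1 := Finset.sum_sdiff hsub (f := fun j => 1 - sh a Q j)
    have h2 : ∑ j ∈ D \ Inn D, (1 - sh a Q j) ≤ ∑ j ∈ D \ Inn D, (1 : ℝ) :=
      Finset.sum_le_sum fun j _ => by linarith only [(hsh j).1]
    have h3 : ∑ j ∈ Inn D, (1 - sh a Q j) = cI - SI := by
      rw [Finset.sum_sub_distrib, Finset.sum_const, nsmul_eq_mul, mul_one, hcI, hSI]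
    rw [Finset.sum_const, nsmul_eq_mul, mul_one, ← hdC] at h2
    rw [← h1, h3]
    linarith only [h2]
  rw [← hSD] at b1 b3
  rw [← hdC] at b2
  have hNW : (N : ℝ) / W * Q ≤ q / 64 * N := by
    have h1 : (W : ℝ) = Q * el N := by
      rw [hWl]
      push_cast
      ring
    have h2 : (N : ℝ) / W * Q = N / el N := by
      rw [h1]
      field_simp
    rw [h2, div_le_iff₀ (by linarith only [hl1])]
    have h3 : (N : ℝ) * 64 ≤ N * (q * el N) := mul_le_mul_of_nonneg_left hql hN0.le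
    linarith only [h3]
  have hk00 : (0 : ℝ) ≤ k₀ := Nat.cast_nonneg k₀
  have hkN : (k₀ : ℝ) ≤ q / 16 * N := by linarith only [hkW, hW0']
  obtain ⟨hdCQ, hFA⟩ := p1_A hN0 hδ hes hδq he₈32 he₈δ heu128 heues hζδ hζ b1 b2 hsel2 hst1 hst2
    rfl (mul_le_mul_of_nonneg_right hF7 hN0.le) hFx1 hkW hk00 hQW' hQ0'.le hNW hSDI
  have hζF : ζ * F x ≤ ζ := by
    have := mul_le_mul_of_nonneg_left hFx1 hζ.le
    linarith only [this]
  have hAF : (Q : ℝ) * SI / N ≤ F x + q := by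
    rw [div_le_iff₀ hN0]
    have h1 : (Q : ℝ) * SI ≤ Q * SD := mul_le_mul_of_nonneg_left hSID hQ0'.le
    have h2 : F (x + e₇) * N ≤ (F x + q) * N := by
      refine mul_le_mul_of_nonneg_right ?_ hN0.le
      linarith only [hF7, hζF, hζ64, hq]
    linarith only [h1, h2, b3]
  have hT := hTEL a k₀ C₀ hD Q D hQ1 fun j hj => (b3' j hj).2.2.1
  have hG2 := hG' ((x + e₇) * L) ((x + e₂) * L) (z * L) D hy0
    (mul_le_mul_of_nonneg_right (by linarith only [he₇2, he₇]) hL0.le)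
    (mul_le_mul_of_nonneg_right (by linarith only [he₇9, he₇, hzx, he₉]) hL0.le)
    (by
      rw [ht]
      exact mul_le_mul_of_nonneg_right (by linarith only [hxt, hzx, he₉]) hL0.le)
    (fun j hj => by
      obtain ⟨c1, c2, c3, c4, c5, c6, c7, c8⟩ := b3' j hj
      exact ⟨c1, c3, c4, c5, c6, c7⟩)
  rw [hcF, hg, ht] at hG2
  have hsm := p1_small (x := x) (t := t) hL1 hb he₇2 he₇9 he₂ he₉ hz hm0' (Nat.cast_nonneg P) hC
    (by linarith only [hl1]) hel2 hdec1 hdec2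
  have hcE : (D.card : ℝ) * (Real.exp ((x + e₇) * L) * m * (1 + L) * Real.exp (-((x + e₂) * L)) +
      Real.exp ((x + e₇) * L) * ((el N : ℝ) ^ C * P * Real.exp ((z * L - t * L) / b - z * L))) ≤
      q / 2 * N * L := by
    have hc0 : (0 : ℝ) ≤ D.card := Nat.cast_nonneg _
    calc _ ≤ (D.card : ℝ) * (m * (q / 4) + P * (q / 4)) := mul_le_mul_of_nonneg_left hsm hc0
      _ ≤ (D.card : ℝ) * (Q * (q / 4) + Q * (q / 4)) := by
          refine mul_le_mul_of_nonneg_left ?_ hc0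
          have h1 := mul_le_mul_of_nonneg_right hmQ' (show 0 ≤ q / 4 by linarith only [hq])
          have h2 := mul_le_mul_of_nonneg_right hPQ' (show 0 ≤ q / 4 by linarith only [hq])
          linarith only [h1, h2]
      _ = q / 2 * ((D.card : ℝ) * Q) := by ring
      _ ≤ q / 2 * N := mul_le_mul_of_nonneg_left hDN (by linarith only [hq])
      _ = q / 2 * N * 1 := by ring
      _ ≤ q / 2 * N * L := mul_le_mul_of_nonneg_left hL1 (by positivity)
  have hc3 : F (x + e₂) * N + k₀ ≤ (F x + q) * N := by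
    have h1 : F (x + e₂) * N ≤ (F x + q / 64) * N :=
      mul_le_mul_of_nonneg_right (by linarith only [hFe, hζF, hζ64]) hN0.le
    have h2 : 0 ≤ q * N := by positivity
    linarith only [h1, hkN, h2]
  have hQSD : (Q : ℝ) * ∑ j ∈ D, (1 - sh a Q j) ≤ (Q * (cI - SI) / N + q) * N := by
    have h1 := mul_le_mul_of_nonneg_left hSDm hQ0'.le
    have h2 : ((Q : ℝ) * (cI - SI) / N + q) * N = Q * (cI - SI) + q * N := by
      field_simp
    have h3 : 0 ≤ q * N := by positivity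
    rw [h2]
    linarith only [h1, hdCQ, h3]
  have hS := p1_S hN0 hL1 hq hqL hCL hC hz0 hg00 hFx0
    (div_nonneg (mul_nonneg hQ0'.le (by linarith only [hSIc])) hN0.le) hc3 hQSD hcE hT hG2
  have hmono : Monotone (lD a) := (stmt_ARCHO (Set.range a) a hD.ord).2.1
  have hRs0 : 0 ≤ Rs a Q (Inn D) := by
    unfold Rs
    refine Finset.sum_nonneg fun j _ => ?_
    have := hmono (Nat.le_add_right (j * Q) Q)
    linarith only [this]
  obtain ⟨w, hw1, hw2, hE⟩ := hLU' (Inn D) (δ / 2) (4 * es) (by linarith only [hδ])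
    (by linarith only [hes]) (by linarith only [hes4])
    (fun j hj => ⟨(b3' j (hsub hj)).2.2.2.2.2.1, (b3' j (hsub hj)).2.1⟩)
  have hw1' : (K₁ : ℝ) * m ≤ w := by exact_mod_cast hw1
  have hKm : E₂ * K₁ * m * el N ≤ Q := by
    have h1 : Q = 2 * E₂ * K₁ * m * el N ^ 4 := by
      rw [hQl, hKdef]
      ring
    rw [h1]
    refine Nat.mul_le_mul ?_ ?_
    · have h2 : 2 * E₂ * K₁ * m = 2 * (E₂ * K₁ * m) := by ring
      omega
    · calc el N = el N ^ 1 := by ring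
        _ ≤ el N ^ 4 := Nat.pow_le_pow_right hel1 (by norm_num)
  have hwQ : w ≤ Q := by
    calc w ≤ E₂ * K₁ * m := hw2
      _ ≤ E₂ * K₁ * m * el N := Nat.le_mul_of_pos_right _ (by omega)
      _ ≤ Q := hKm
  have hw0 : 1 ≤ w := by
    have : 1 ≤ K₁ * m := Nat.mul_pos (by omega) (by omega)
    omega
  have h2m : 2 * (m : ℝ) ≤ es * w := by
    calc 2 * (m : ℝ) ≤ es * K₁ * m := mul_le_mul_of_nonneg_right hesK hm0'
      _ = es * (K₁ * m) := by ring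
      _ ≤ es * w := mul_le_mul_of_nonneg_left hw1' hes.le
  have hwesQ : (w : ℝ) ≤ es * Q := by
    have h1 : (w : ℝ) * el N ≤ Q := by
      have : w * el N ≤ Q := (Nat.mul_le_mul_right _ hw2).trans hKm
      exact_mod_cast this
    calc (w : ℝ) = 1 * w := by ring
      _ ≤ es * el N * w := mul_le_mul_of_nonneg_right hesl (Nat.cast_nonneg w)
      _ = es * (w * el N) := by ring
      _ ≤ es * Q := mul_le_mul_of_nonneg_left h1 hes.le
  have hLL := hLWL a k₀ C₀ κ hD hκ n N m w Q K₁ (Inn D) ((x - ω) * L) (δ / 2) (4 * es) (3 * es)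
    (by omega) hFr.n_lo hFr.n_hi hFr.lrec hm1 hK₁ hw1 hwQ (mul_nonneg hxω hL0.le)
    (by linarith only [hδ]) (by linarith only [hδq, hq1]) (by linarith only [hes])
    (by linarith only [hes4]) (by linarith only [hes]) (by linarith only [hes4])
    (fun j hj => by
      obtain ⟨c1, c2, c3, c4, c5, c6, c7, c8⟩ := b3' j (hsub hj)
      exact ⟨by omega, c4, c6, c2, hGWC a m Q w j es hm1 hmQd hes hes1 h2m hwesQ hw0 c8⟩)
  have hs1 : ∑ j ∈ Inn D, sh a Q j * (1 + sh a Q j) = SI + SI2 := by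
    rw [hSI, hSI2, ← Finset.sum_add_distrib]
    exact Finset.sum_congr rfl fun j _ => by ring
  have hs2 : ∑ j ∈ Inn D, (1 + sh a Q j) * (1 - sh a Q j) = cI - SI2 := by
    have h1 : ∑ j ∈ Inn D, (1 + sh a Q j) * (1 - sh a Q j) =
        ∑ j ∈ Inn D, (1 - sh a Q j ^ 2) := Finset.sum_congr rfl fun j _ => by ring
    rw [h1, Finset.sum_sub_distrib, Finset.sum_const, nsmul_eq_mul, mul_one, hcI, hSI2]
  rw [hs1, hs2, hg, hcF, ← hcI] at hLL
  rw [← hSI, ht] at hE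
  rw [← hcI] at hIN
  have hcI0 : 0 ≤ cI := by linarith only [hSI0, hSIc]
  have hfin := p1_LW (C₀ := C₀) (d := d) (F := F x) (κ := κ) hN0 hL1 hq hE hLL hc2 hRs0 hc1
    (by positivity) (by linarith only [hesδ, mul_div_assoc 4 (4 * es) (δ / 2)])
    (mul_le_mul_of_nonneg_right hFw hN0.le) (mul_nonneg (hF0 _) hN0.le) hIN
    (mul_nonneg hcI0 hQ0'.le) hκL hCL' hxω hω.le hx6 hgC (Nat.cast_nonneg w)
  refine hN2 x t g z (F x) (Q * SI / N) (Q * SI2 / N) (Q * (cI - SI) / N)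
    (Rs a Q (Inn D) / (N * L)) q ht0 htC hx1 hx6 hg00 hgC hz hFx hFx1 hq.le hqq (by positivity)
    (by positivity) ?_ (div_nonneg (mul_nonneg hQ0'.le (by linarith only [hSIc])) hN0.le) ?_ hFA
    hAF hS hfin
  · exact div_le_div_of_nonneg_right (mul_le_mul_of_nonneg_left hSI2le hQ0'.le) hN0.le
  · rw [div_le_one hN0]
    have h1 : (Q : ℝ) * (cI - SI) ≤ Q * cI :=
      mul_le_mul_of_nonneg_left (by linarith only [hSI0]) hQ0'.le
    linarith only [h1, hIN]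

end Pool.Agent.Work.MP_b29d7f_two
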