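import Pool.Agent.Work.MP_b29d7f_two.Interface2

/-!
# Block PIG1: pairs of places, one block
-/

namespace Pool.Agent.Work.MP_b29d7f_two

open Finset
open Pool.Agent.Work.MP_b29d7f_half (Ord A wv lD)
open Pool.Agent.Work.MP_b29d7f_sep (nv EW EL)

theorem PIG1_tel (d : ℕ) (hd : 1 ≤ d) (k : ℕ) :
    ∑ m ∈ range (d + 1 + k), (1 / (m : ℝ) ^ 3) * ((d : ℝ) * ((m - d : ℕ) : ℝ)) ≤
      1 - (d : ℝ) / ((d : ℝ) + k) := by
  have hd0 : (0 : ℝ) < d := by exact_mod_cast hd
  induction k with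
  | zero =>
    have h0 : ∑ m ∈ range (d + 1 + 0), (1 / (m : ℝ) ^ 3) * ((d : ℝ) * ((m - d : ℕ) : ℝ)) = 0 := by
      apply Finset.sum_eq_zero
      intro m hm
      have hm' : m - d = 0 := by
        have := mem_range.1 hm
        omega
      rw [hm']
      simp
    rw [h0]
    have : (d : ℝ) / ((d : ℝ) + ((0 : ℕ) : ℝ)) = 1 := by
      rw [Nat.cast_zero, add_zero]
      exact div_self hd0.ne'
    rw [this]
    simp
  | succ k ih =>
    rw [show d + 1 + (k + 1) = (d + 1 + k) + 1 from by ring, Finset.sum_range_succ]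
    have hk0 : (0 : ℝ) ≤ k := Nat.cast_nonneg k
    have hsub : (d + 1 + k - d : ℕ) = k + 1 := by omega
    have hterm : (1 / (((d + 1 + k : ℕ) : ℝ)) ^ 3) * ((d : ℝ) * ((d + 1 + k - d : ℕ) : ℝ)) ≤
        (d : ℝ) / ((d : ℝ) + k) - (d : ℝ) / ((d : ℝ) + ((k + 1 : ℕ) : ℝ)) := by
      rw [hsub]
      push_cast
      have h1 : (0 : ℝ) < (d : ℝ) + k := by positivity
      have h2 : (0 : ℝ) < (d : ℝ) + (k + 1) := by positivity
      have h3 : (0 : ℝ) < (d : ℝ) + 1 + k := by positivity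
      rw [div_sub_div _ _ h1.ne' h2.ne', one_div, inv_mul_eq_div, div_le_div_iff₀ (by positivity)
        (by positivity)]
      have e1 : (d : ℝ) * ((d : ℝ) + (k + 1)) - ((d : ℝ) + k) * d = d := by ring
      rw [e1]
      have e2 : ((d : ℝ) + 1 + k) ^ 3 =
        ((d : ℝ) + 1 + k) * (((d : ℝ) + (k + 1)) * ((d : ℝ) + 1 + k)) := by ring
      have h4 : ((k : ℝ) + 1) * (((d : ℝ) + k) * ((d : ℝ) + (k + 1))) ≤ ((d : ℝ) + 1 + k) ^ 3 := by
        rw [e2]
        apply mul_le_mul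
        · linarith
        · rw [mul_comm]
          apply mul_le_mul_of_nonneg_left _ h2.le
          linarith
        · positivity
        · positivity
      calc (d : ℝ) * ((k : ℝ) + 1) * (((d : ℝ) + k) * ((d : ℝ) + (k + 1)))
          = (d : ℝ) * (((k : ℝ) + 1) * (((d : ℝ) + k) * ((d : ℝ) + (k + 1)))) := by ring
        _ ≤ (d : ℝ) * ((d : ℝ) + 1 + k) ^ 3 := mul_le_mul_of_nonneg_left h4 hd0.le
    linarith

theorem PIG1_le_one (d : ℕ) (hd : 1 ≤ d) (M₁ M : ℕ) :
    ∑ m ∈ Icc M₁ M, (1 / (m : ℝ) ^ 3) * ((d : ℝ) * ((m - d : ℕ) : ℝ)) ≤ 1 := by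
  have h1 : ∑ m ∈ Icc M₁ M, (1 / (m : ℝ) ^ 3) * ((d : ℝ) * ((m - d : ℕ) : ℝ)) ≤
      ∑ m ∈ range (d + 1 + M), (1 / (m : ℝ) ^ 3) * ((d : ℝ) * ((m - d : ℕ) : ℝ)) := by
    apply Finset.sum_le_sum_of_subset_of_nonneg
    · intro m hm
      have := mem_Icc.1 hm
      exact mem_range.2 (by omega)
    · intros
      positivity
  have h2 := PIG1_tel d hd M
  have h3 : (0 : ℝ) ≤ (d : ℝ) / ((d : ℝ) + M) := by positivity
  linarith

theorem PIG1_count (N m g g' : ℕ) (hg : g < g') :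
    ∑ u ∈ range (N - m + 1), (if u ≤ g ∧ g' < u + m then (1 : ℝ) else 0) ≤
      ((m - (g' - g) : ℕ) : ℝ) := by
  rw [← Finset.sum_filter, Finset.sum_const, nsmul_eq_mul, mul_one]
  have h1 : ((range (N - m + 1)).filter fun u => u ≤ g ∧ g' < u + m) ⊆ Ico (g' + 1 - m) (g + 1) := by
    intro u hu
    have := (mem_filter.1 hu).2
    exact mem_Ico.2 (by omega)
  have h2 := Finset.card_le_card h1
  rw [Nat.card_Ico] at h2
  exact_mod_cast (by omega : ((range (N - m + 1)).filter fun u => u ≤ g ∧ g' < u + m).card ≤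
    m - (g' - g))

theorem PIG1_swap (F : ℕ → ℕ → ℝ) (N M m : ℕ) (hm : m ≤ M) (hMN : m ≤ N)
    (hF : ∀ g g', g < g' → 0 ≤ F g g') :
    ∑ u ∈ range (N - m + 1), ∑ g ∈ Ico u (u + m), ∑ g' ∈ Ico (g + 1) (u + m), F g g' ≤
      ∑ g ∈ range N, ∑ g' ∈ Ico (g + 1) (min (g + M) N), F g g' * ((m - (g' - g) : ℕ) : ℝ) := by
  have h1 : ∀ u ∈ range (N - m + 1),
      ∑ g ∈ Ico u (u + m), ∑ g' ∈ Ico (g + 1) (u + m), F g g' ≤
      ∑ g ∈ range N, ∑ g' ∈ Ico (g + 1) (min (g + M) N),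
        F g g' * (if u ≤ g ∧ g' < u + m then (1 : ℝ) else 0) := by
    intro u hu
    have hu' := mem_range.1 hu
    have hnn : ∀ g ∈ range N, 0 ≤ ∑ g' ∈ Ico (g + 1) (min (g + M) N),
        F g g' * (if u ≤ g ∧ g' < u + m then (1 : ℝ) else 0) := by
      intro g _
      apply Finset.sum_nonneg
      intro g' hg'
      have := mem_Ico.1 hg'
      apply mul_nonneg (hF g g' (by omega))
      split_ifs <;> norm_num
    calc ∑ g ∈ Ico u (u + m), ∑ g' ∈ Ico (g + 1) (u + m), F g g'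
        ≤ ∑ g ∈ Ico u (u + m), ∑ g' ∈ Ico (g + 1) (min (g + M) N),
        F g g' * (if u ≤ g ∧ g' < u + m then (1 : ℝ) else 0) := by
          apply Finset.sum_le_sum
          intro g hg
          have hg' := mem_Ico.1 hg
          have h2 : ∑ g' ∈ Ico (g + 1) (u + m), F g g' =
              ∑ g' ∈ Ico (g + 1) (u + m),
                F g g' * (if u ≤ g ∧ g' < u + m then (1 : ℝ) else 0) := by
            apply Finset.sum_congr rfl
            intro g' hg''
            have := mem_Ico.1 hg''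
            rw [if_pos ⟨by omega, by omega⟩, mul_one]
          rw [h2]
          apply Finset.sum_le_sum_of_subset_of_nonneg
          · intro g' hg''
            have := mem_Ico.1 hg''
            exact mem_Ico.2 ⟨this.1, by omega⟩
          · intro g' hg'' _
            have := mem_Ico.1 hg''
            apply mul_nonneg (hF g g' (by omega))
            split_ifs <;> norm_num
      _ ≤ _ := by
          apply Finset.sum_le_sum_of_subset_of_nonneg
          · intro g hg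
            have := mem_Ico.1 hg
            exact mem_range.2 (by omega)
          · intro g hg _
            exact hnn g hg
  refine le_trans (Finset.sum_le_sum h1) ?_
  rw [Finset.sum_comm]
  apply Finset.sum_le_sum
  intro g _
  rw [Finset.sum_comm]
  apply Finset.sum_le_sum
  intro g' hg'
  have h3 := mem_Ico.1 hg'
  rw [← Finset.mul_sum]
  exact mul_le_mul_of_nonneg_left (PIG1_count N m g g' (by omega)) (hF g g' (by omega))

theorem PIG1_core (o : ℕ → ℝ) (ho : ∀ g, 0 ≤ o g) (N M₁ M : ℕ) (J : ℝ)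
    (hMN : M ≤ N)
    (hJ : ∀ g < N, ∑ g' ∈ Ico (g + 1) (min (g + M) N), o g' ≤ J) :
    ∑ m ∈ Icc M₁ M, (1 / (m : ℝ) ^ 3) * ∑ u ∈ range (N - m + 1), ∑ g ∈ Ico u (u + m),
      ∑ g' ∈ Ico (g + 1) (u + m), o g * o g' * ((g' : ℝ) - g) ≤ J * ∑ g ∈ range N, o g := by
  have h1 : ∀ m ∈ Icc M₁ M, (1 / (m : ℝ) ^ 3) * ∑ u ∈ range (N - m + 1), ∑ g ∈ Ico u (u + m),
      ∑ g' ∈ Ico (g + 1) (u + m), o g * o g' * ((g' : ℝ) - g) ≤
      (1 / (m : ℝ) ^ 3) * ∑ g ∈ range N, ∑ g' ∈ Ico (g + 1) (min (g + M) N),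
        (o g * o g' * ((g' : ℝ) - g)) * ((m - (g' - g) : ℕ) : ℝ) := by
    intro m hm
    have hm' := mem_Icc.1 hm
    apply mul_le_mul_of_nonneg_left _ (by positivity)
    apply PIG1_swap (fun g g' => o g * o g' * ((g' : ℝ) - g)) N M m (by omega) (by omega)
    intro g g' hg
    have : (g : ℝ) ≤ g' := by exact_mod_cast hg.le
    exact mul_nonneg (mul_nonneg (ho g) (ho g')) (by linarith)
  refine le_trans (Finset.sum_le_sum h1) ?_
  have h2 : ∑ m ∈ Icc M₁ M, (1 / (m : ℝ) ^ 3) * ∑ g ∈ range N, ∑ g' ∈ Ico (g + 1) (min (g + M) N),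
        (o g * o g' * ((g' : ℝ) - g)) * ((m - (g' - g) : ℕ) : ℝ) =
      ∑ g ∈ range N, ∑ g' ∈ Ico (g + 1) (min (g + M) N), (o g * o g') *
        ∑ m ∈ Icc M₁ M, (1 / (m : ℝ) ^ 3) * (((g' - g : ℕ) : ℝ) * ((m - (g' - g) : ℕ) : ℝ)) := by
    calc _ = ∑ m ∈ Icc M₁ M, ∑ g ∈ range N, ∑ g' ∈ Ico (g + 1) (min (g + M) N), (o g * o g') *
        ((1 / (m : ℝ) ^ 3) * (((g' - g : ℕ) : ℝ) * ((m - (g' - g) : ℕ) : ℝ))) := by
          apply Finset.sum_congr rfl
          intro m _
          rw [Finset.mul_sum]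
          apply Finset.sum_congr rfl
          intro g _
          rw [Finset.mul_sum]
          apply Finset.sum_congr rfl
          intro g' hg'
          have := mem_Ico.1 hg'
          have e : ((g' - g : ℕ) : ℝ) = (g' : ℝ) - g := by
            rw [Nat.cast_sub (by omega)]
          rw [e]
          ring
      _ = _ := by
          rw [Finset.sum_comm]
          apply Finset.sum_congr rfl
          intro g _
          rw [Finset.sum_comm]
          apply Finset.sum_congr rfl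
          intro g' _
          rw [Finset.mul_sum]
  rw [h2, Finset.mul_sum]
  apply Finset.sum_le_sum
  intro g hg
  have hgN := mem_range.1 hg
  calc ∑ g' ∈ Ico (g + 1) (min (g + M) N), (o g * o g') *
        ∑ m ∈ Icc M₁ M, (1 / (m : ℝ) ^ 3) * (((g' - g : ℕ) : ℝ) * ((m - (g' - g) : ℕ) : ℝ))
      ≤ ∑ g' ∈ Ico (g + 1) (min (g + M) N), (o g * o g') * 1 := by
        apply Finset.sum_le_sum
        intro g' hg'
        have := mem_Ico.1 hg'
        exact mul_le_mul_of_nonneg_left (PIG1_le_one (g' - g) (by omega) M₁ M)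
          (mul_nonneg (ho g) (ho g'))
    _ = o g * ∑ g' ∈ Ico (g + 1) (min (g + M) N), o g' := by
        rw [Finset.mul_sum]
        apply Finset.sum_congr rfl
        intro g' _
        ring
    _ ≤ o g * J := mul_le_mul_of_nonneg_left (hJ g hgN) (ho g)
    _ = J * o g := by ring


theorem stmt_PIG1 : Stmt_PIG1 := by
  intro o s Q M₁ M J hM1 hM hMQ hJ0 hJ
  have hcore := PIG1_core (fun g => (o (s + g) : ℝ)) (fun g => Nat.cast_nonneg _) Q M₁ M J hMQ (by
    intro g hg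
    have h := hJ (s + g) (by omega) (by omega)
    have e1 : s + g + 1 = (g + 1) + s := by ring
    have e2 : min (s + g + M) (s + Q) = min (g + M) Q + s := by
      rw [add_assoc, min_add_add_left, add_comm]
    rw [e1, e2, ← Finset.sum_Ico_add] at h
    exact h)
  have e3 : ∑ g ∈ Ico s (s + Q), (o g : ℝ) = ∑ g ∈ range Q, (o (s + g) : ℝ) := by
    rw [Finset.sum_Ico_eq_sum_range]
    simp
  rw [e3]
  refine le_trans (le_of_eq ?_) hcore
  apply Finset.sum_congr rfl
  intro w hw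
  have hw' := mem_Icc.1 hw
  congr 1
  have e4 : Ico s (s + Q - w + 1) = Ico (0 + s) ((Q - w + 1) + s) := by
    congr 1 <;> omega
  rw [e4, ← Finset.sum_Ico_add, ← Finset.range_eq_Ico]
  apply Finset.sum_congr rfl
  intro u _
  have e5 : Ico (s + u) (s + u + w) = Ico (u + s) ((u + w) + s) := by
    congr 1 <;> ring
  rw [e5, ← Finset.sum_Ico_add]
  apply Finset.sum_congr rfl
  intro g _
  have e6 : Ico (s + g + 1) (s + u + w) = Ico ((g + 1) + s) ((u + w) + s) := by
    congr 1 <;> ring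
  rw [e6, ← Finset.sum_Ico_add]
  apply Finset.sum_congr rfl
  intro g' _
  push_cast
  ring

end Pool.Agent.Work.MP_b29d7f_two
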