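import Pool.Agent.Work.MP_b29d7f_two.Interface2

/-!
# Block PIGB: a window length with few pairs of places
-/

namespace Pool.Agent.Work.MP_b29d7f_two

open Finset
open Pool.Agent.Work.MP_b29d7f_nt (IsPOrdering HasSimultaneousOrdering PS vd ld tv)
open Pool.Agent.Work.MP_b29d7f_half (Ord A wv lD)
open Pool.Agent.Work.MP_b29d7f_sep (nv EW EL)

theorem PIGB_tel {p : ℕ} {a : ℕ → ℤ} (hm : Monotone (nv p a)) {u v : ℕ} (h : u ≤ v) :
    ∑ g ∈ Ico u v, (om p a g : ℝ) = (nv p a v : ℝ) - nv p a u := by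
  have h1 : ∀ g ∈ Ico u v, (om p a g : ℝ) = (nv p a (g + 1) : ℝ) - nv p a g := by
    intro g _
    unfold om
    rw [Nat.cast_sub (hm (Nat.le_succ g))]
  rw [Finset.sum_congr rfl h1]
  exact Finset.sum_Ico_sub (fun g => (nv p a g : ℝ)) h

theorem PIGB_log {M₁ : ℕ} (h1 : 1 ≤ M₁) : ∀ M : ℕ, M₁ ≤ M →
    Real.log ((M : ℝ) / M₁) ≤ ∑ w ∈ Ico M₁ M, 1 / (w : ℝ) := by
  intro M hM
  induction M, hM using Nat.le_induction with
  | base =>
    have h0 : (M₁ : ℝ) ≠ 0 := by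
      have : (0 : ℝ) < M₁ := by exact_mod_cast h1
      exact this.ne'
    rw [div_self h0]
    simp
  | succ M hM ih =>
    rw [Finset.sum_Ico_succ_top hM]
    have hm1 : (0 : ℝ) < M₁ := by exact_mod_cast h1
    have hm : (0 : ℝ) < M := by exact_mod_cast (by omega : 0 < M)
    have e1 : ((M + 1 : ℕ) : ℝ) / M₁ = ((M : ℝ) / M₁) * (1 + 1 / (M : ℝ)) := by
      push_cast
      field_simp
    rw [e1, Real.log_mul (by positivity) (by positivity)]
    have h2 : Real.log (1 + 1 / (M : ℝ)) ≤ 1 / (M : ℝ) := by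
      have h3 : (0 : ℝ) < 1 + 1 / (M : ℝ) := by positivity
      have := Real.log_le_sub_one_of_pos h3
      linarith
    linarith

theorem stmt_PIGB (hPIG1 : Stmt_PIG1) (hJUMP : Stmt_JUMP) (hBIG : Stmt_BIG) (hPRF : Stmt_PRF)
    (hPAD : Stmt_PAD) (hTSU : Stmt_TSU) : Stmt_PIGB := by
  intro a k₀ C₀ h N P M₁ M Q D hN hM₁ hMM hMQ hP hPN hD
  obtain ⟨hpr, -, hlD, -, -⟩ := hPRF a h.ord (2 * N)
  obtain ⟨-, -, hTm, -, -⟩ := hTSU a h.ord
  have hC₀ : 0 ≤ C₀ := zero_le_one.trans h.one_le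
  have hlN : 0 ≤ Real.log N := Real.log_nonneg (by exact_mod_cast (by omega : 1 ≤ N))
  have hlP : 0 < Real.log P := Real.log_pos (by exact_mod_cast (by omega : 1 < P))
  set J : ℝ := 2 * C₀ * Real.log N / Real.log P with hJ
  have hJ0 : 0 ≤ J := by positivity
  have hRs : 0 ≤ Rs a Q D := by
    unfold Rs
    refine Finset.sum_nonneg fun j _ => ?_
    have := hTm (by omega : j * Q ≤ j * Q + Q)
    linarith
  have hone : ∀ p ∈ PG a N M P, ∀ j ∈ D,
      ∑ w ∈ Icc M₁ M, (1 / (w : ℝ) ^ 3) * ∑ u ∈ Ico (j * Q) (j * Q + Q - w + 1), PT p a u w ≤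
        J * ((nv p a (j * Q + Q) : ℝ) - nv p a (j * Q)) := by
    intro p hp j hj
    obtain ⟨hp1, hp2, hp3⟩ := mem_PG.1 hp
    have hpp : p.Prime := hpr p hp1
    obtain ⟨hmono, -, -, -, -⟩ := hPAD a h.ord p hpp
    have hPp : P < p := (hBIG a h.ord P p hpp hp2).1
    have hlPp : Real.log P ≤ Real.log p :=
      Real.log_le_log (by exact_mod_cast (by omega : 0 < P)) (by exact_mod_cast hPp.le)
    have hhyp : ∀ g : ℕ, j * Q ≤ g → g < j * Q + Q →
        ∑ g' ∈ Ico (g + 1) (min (g + M) (j * Q + Q)), (om p a g' : ℝ) ≤ J := by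
      intro g _ hg2
      rcases le_or_gt (g + 1) (min (g + M) (j * Q + Q)) with hc | hc
      · rw [PIGB_tel hmono hc]
        have hv1 : min (g + M) (j * Q + Q) ≤ g + 1 + M := by
          have := min_le_left (g + M) (j * Q + Q)
          omega
        have hv2 : min (g + M) (j * Q + Q) ≤ N := (min_le_right _ _).trans (hD j hj)
        have h1 := hJUMP a k₀ C₀ h N M p hN hpp hp3 (g + 1) _ hc hv1 hv2
        have h2 : (0 : ℝ) ≤ (nv p a (min (g + M) (j * Q + Q)) : ℝ) - nv p a (g + 1) := by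
          have : (nv p a (g + 1) : ℝ) ≤ nv p a (min (g + M) (j * Q + Q)) := by
            exact_mod_cast hmono hc
          linarith
        rw [hJ, le_div_iff₀ hlP]
        exact (mul_le_mul_of_nonneg_left hlPp h2).trans h1
      · rw [Finset.Ico_eq_empty_of_le hc.le, Finset.sum_empty]
        exact hJ0
    have h3 := hPIG1 (om p a) (j * Q) Q M₁ M J hM₁ hMM.le hMQ hJ0 hhyp
    rw [PIGB_tel hmono (by omega : j * Q ≤ j * Q + Q)] at h3
    exact h3
  have hgrow : ∑ p ∈ PG a N M P, Real.log p * ∑ j ∈ D,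
      ((nv p a (j * Q + Q) : ℝ) - nv p a (j * Q)) ≤ Rs a Q D := by
    have e1 : ∑ p ∈ PG a N M P, Real.log p * ∑ j ∈ D,
        ((nv p a (j * Q + Q) : ℝ) - nv p a (j * Q)) =
        ∑ j ∈ D, ∑ p ∈ PG a N M P,
          Real.log p * ((nv p a (j * Q + Q) : ℝ) - nv p a (j * Q)) := by
      rw [Finset.sum_comm]
      exact Finset.sum_congr rfl fun p _ => Finset.mul_sum _ _ _
    rw [e1]
    unfold Rs
    refine Finset.sum_le_sum fun j hj => ?_
    have hjN := hD j hj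
    rw [hlD (j * Q + Q) (by omega), hlD (j * Q) (by omega), ← Finset.sum_sub_distrib]
    have e2 : ∀ p ∈ PR a (2 * N), Real.log p * (nv p a (j * Q + Q) : ℝ) -
        Real.log p * (nv p a (j * Q) : ℝ) =
        Real.log p * ((nv p a (j * Q + Q) : ℝ) - nv p a (j * Q)) := by
      intro p _
      ring
    rw [Finset.sum_congr rfl e2]
    refine Finset.sum_le_sum_of_subset_of_nonneg (fun p hp => (mem_PG.1 hp).1) ?_
    intro p hp _
    have hpp := hpr p hp
    have hl : 0 ≤ Real.log p := Real.log_nonneg (by exact_mod_cast hpp.one_le)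
    have hm : (nv p a (j * Q) : ℝ) ≤ nv p a (j * Q + Q) := by
      exact_mod_cast (hPAD a h.ord p hpp).1 (by omega : j * Q ≤ j * Q + Q)
    exact mul_nonneg hl (by linarith)
  have htot : ∑ w ∈ Icc M₁ M, (1 / (w : ℝ) ^ 3) * (∑ p ∈ PG a N M P, Real.log p *
      ∑ j ∈ D, ∑ u ∈ Ico (j * Q) (j * Q + Q - w + 1), PT p a u w) ≤ J * Rs a Q D := by
    have e1 : ∑ w ∈ Icc M₁ M, (1 / (w : ℝ) ^ 3) * (∑ p ∈ PG a N M P, Real.log p *
        ∑ j ∈ D, ∑ u ∈ Ico (j * Q) (j * Q + Q - w + 1), PT p a u w) =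
        ∑ p ∈ PG a N M P, Real.log p * ∑ j ∈ D, ∑ w ∈ Icc M₁ M,
          (1 / (w : ℝ) ^ 3) * ∑ u ∈ Ico (j * Q) (j * Q + Q - w + 1), PT p a u w := by
      have e2 : ∀ w ∈ Icc M₁ M, (1 / (w : ℝ) ^ 3) * (∑ p ∈ PG a N M P, Real.log p *
          ∑ j ∈ D, ∑ u ∈ Ico (j * Q) (j * Q + Q - w + 1), PT p a u w) =
          ∑ p ∈ PG a N M P, Real.log p * ∑ j ∈ D,
            (1 / (w : ℝ) ^ 3) * ∑ u ∈ Ico (j * Q) (j * Q + Q - w + 1), PT p a u w := by
        intro w _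
        rw [Finset.mul_sum]
        refine Finset.sum_congr rfl fun p _ => ?_
        rw [← Finset.mul_sum]
        ring
      rw [Finset.sum_congr rfl e2, Finset.sum_comm]
      refine Finset.sum_congr rfl fun p _ => ?_
      rw [← Finset.mul_sum, Finset.sum_comm]
    rw [e1]
    calc ∑ p ∈ PG a N M P, Real.log p * ∑ j ∈ D, ∑ w ∈ Icc M₁ M,
          (1 / (w : ℝ) ^ 3) * ∑ u ∈ Ico (j * Q) (j * Q + Q - w + 1), PT p a u w
        ≤ ∑ p ∈ PG a N M P, Real.log p * ∑ j ∈ D,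
            J * ((nv p a (j * Q + Q) : ℝ) - nv p a (j * Q)) := by
          refine Finset.sum_le_sum fun p hp => ?_
          have hpp := hpr p (mem_PG.1 hp).1
          have hl : 0 ≤ Real.log p := Real.log_nonneg (by exact_mod_cast hpp.one_le)
          exact mul_le_mul_of_nonneg_left (Finset.sum_le_sum fun j hj => hone p hp j hj) hl
      _ = J * ∑ p ∈ PG a N M P, Real.log p * ∑ j ∈ D,
            ((nv p a (j * Q + Q) : ℝ) - nv p a (j * Q)) := by
          rw [Finset.mul_sum]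
          refine Finset.sum_congr rfl fun p _ => ?_
          rw [← Finset.mul_sum]
          ring
      _ ≤ J * Rs a Q D := mul_le_mul_of_nonneg_left hgrow hJ0
  by_contra hcon
  push Not at hcon
  have hm1 : (0 : ℝ) < M₁ := by exact_mod_cast hM₁
  have hL : 0 < Real.log ((M : ℝ) / M₁) := by
    apply Real.log_pos
    rw [lt_div_iff₀ hm1, one_mul]
    exact_mod_cast hMM
  have hinv : Real.log ((M : ℝ) / M₁) ≤ ∑ w ∈ Icc M₁ M, 1 / (w : ℝ) := by
    refine (PIGB_log hM₁ M hMM.le).trans ?_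
    refine Finset.sum_le_sum_of_subset_of_nonneg ?_ ?_
    · intro w hw
      rw [Finset.mem_Ico] at hw
      rw [Finset.mem_Icc]
      exact ⟨hw.1, hw.2.le⟩
    · intro w _ _
      positivity
  have hJR : 0 ≤ J * Rs a Q D := mul_nonneg hJ0 hRs
  have hlt : ∑ w ∈ Icc M₁ M, (1 / (w : ℝ)) * (J * Rs a Q D) <
      ∑ w ∈ Icc M₁ M, ((1 / (w : ℝ) ^ 3) * (∑ p ∈ PG a N M P, Real.log p *
        ∑ j ∈ D, ∑ u ∈ Ico (j * Q) (j * Q + Q - w + 1), PT p a u w)) *
        Real.log ((M : ℝ) / M₁) := by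
    refine Finset.sum_lt_sum_of_nonempty ⟨M₁, Finset.mem_Icc.2 ⟨le_rfl, hMM.le⟩⟩ ?_
    intro w hw
    rw [Finset.mem_Icc] at hw
    have hw0 : (0 : ℝ) < w := by exact_mod_cast (by omega : 0 < w)
    have h1 := hcon w hw.1 hw.2
    have e1 : (1 / (w : ℝ)) * (J * Rs a Q D) =
        (1 / (w : ℝ) ^ 3) * ((w : ℝ) ^ 2 * J * Rs a Q D) := by
      field_simp
    rw [e1, mul_assoc (1 / (w : ℝ) ^ 3)]
    exact mul_lt_mul_of_pos_left h1 (by positivity)
  rw [← Finset.sum_mul, ← Finset.sum_mul] at hlt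
  have h1 : Real.log ((M : ℝ) / M₁) * (J * Rs a Q D) ≤
      (∑ w ∈ Icc M₁ M, 1 / (w : ℝ)) * (J * Rs a Q D) := mul_le_mul_of_nonneg_right hinv hJR
  have h2 := mul_le_mul_of_nonneg_right htot hL.le
  have h3 : Real.log ((M : ℝ) / M₁) * (J * Rs a Q D) =
      J * Rs a Q D * Real.log ((M : ℝ) / M₁) := mul_comm _ _
  linarith

end Pool.Agent.Work.MP_b29d7f_two
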