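import Pool.Agent.Work.MP_b29d7f_two.Interface2

/-!
# Block PIGF: pigeonhole for a distribution function (two-sided version)
-/

namespace Pool.Agent.Work.MP_b29d7f_two

open Finset
open Pool.Agent.Work.MP_b29d7f_half (Ord A wv lD)
open Pool.Agent.Work.MP_b29d7f_sep (nv EW EL)

theorem stmt_PIGF : Stmt_PIGF := by
  intro w d X hw hd hd1 hX
  obtain ⟨n, hn⟩ : ∃ n : ℕ, X ≤ n * (w / 2) ∧ (n : ℝ) * (w / 2) ≤ X + w / 2 := by
    refine ⟨⌈X / (w / 2)⌉₊, ?_, ?_⟩
    · have h := Nat.le_ceil (X / (w / 2))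
      rwa [div_le_iff₀ (by positivity)] at h
    · have h := (Nat.ceil_lt_add_one (show 0 ≤ X / (w / 2) by positivity)).le
      have h2 := mul_le_mul_of_nonneg_right h (show 0 ≤ w / 2 by positivity)
      have h3 : (X / (w / 2) + 1) * (w / 2) = X + w / 2 := by
        field_simp
      linarith
  set η : ℝ := d ^ n / 3 with hη
  have hη0 : 0 < η := by positivity
  have hη3 : η ≤ 1 / 3 := by
    have : d ^ n ≤ 1 := pow_le_one₀ hd.le hd1.le
    rw [hη]
    linarith
  refine ⟨η, hη0, hη3, ?_⟩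
  intro d₂ hd₂
  obtain ⟨k, hk⟩ : ∃ k : ℕ, 1 / η < (1 + d₂) ^ k := pow_unbounded_of_one_lt _ (by linarith)
  have hk1 : 1 ≤ k := by
    rcases Nat.eq_zero_or_pos k with h | h
    · exfalso
      rw [h, pow_zero, div_lt_one hη0] at hk
      linarith
    · exact h
  have hk0 : (0 : ℝ) < k := by exact_mod_cast hk1
  refine ⟨w / (2 * k), by positivity, ?_, ?_⟩
  · rw [div_le_iff₀ (by positivity)]
    have : (1 : ℝ) ≤ k := by exact_mod_cast hk1
    nlinarith
  intro F x₀ hmono hF0 hF1 hFx hFX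
  -- coarse grid
  have h1 : ∃ i : ℕ, 1 ≤ i ∧ i ≤ n ∧ η ≤ F (x₀ + i * (w / 2)) ∧
      F (x₀ + ((i : ℝ) - 1) * (w / 2)) ≤ d * F (x₀ + i * (w / 2)) := by
    by_contra hcon
    push Not at hcon
    have h2 : ∀ j : ℕ, j ≤ n → d ^ j / 3 ≤ F (x₀ + ((n - j : ℕ) : ℝ) * (w / 2)) := by
      intro j
      induction j with
      | zero =>
        intro _
        have h3 : F (x₀ + X) ≤ F (x₀ + ((n - 0 : ℕ) : ℝ) * (w / 2)) := by
          apply hmono
          rw [Nat.sub_zero]
          linarith [hn.1]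
        rw [pow_zero]
        linarith
      | succ j ih =>
        intro hj
        have h3 := ih (by omega)
        have h4 : η ≤ F (x₀ + ((n - j : ℕ) : ℝ) * (w / 2)) := by
          refine le_trans ?_ h3
          rw [hη]
          have : d ^ n ≤ d ^ j := pow_le_pow_of_le_one hd.le hd1.le (by omega)
          linarith
        have h5 := hcon (n - j) (by omega) (by omega) h4
        have h6 : (((n - j : ℕ) : ℝ) - 1) = ((n - (j + 1) : ℕ) : ℝ) := by
          rw [show n - j = (n - (j + 1)) + 1 from by omega]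
          push_cast
          ring
        rw [h6] at h5
        refine le_trans ?_ h5.le
        rw [pow_succ]
        have := mul_le_mul_of_nonneg_left h3 hd.le
        linarith
    have h3 := h2 n le_rfl
    simp only [Nat.sub_self, Nat.cast_zero, zero_mul, add_zero] at h3
    linarith
  obtain ⟨i, hi1, hin, hi3, hi4⟩ := h1
  -- fine grid
  have h2 : ∃ j : ℕ, j < k ∧ F (x₀ + i * (w / 2) + ((j : ℝ) + 1) * (w / (2 * k))) ≤
      (1 + d₂) * F (x₀ + i * (w / 2) + (j : ℝ) * (w / (2 * k))) := by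
    by_contra hcon
    push Not at hcon
    have h3 : ∀ j : ℕ, j ≤ k → (1 + d₂) ^ j * η ≤ F (x₀ + i * (w / 2) + (j : ℝ) * (w / (2 * k))) := by
      intro j
      induction j with
      | zero =>
        intro _
        simpa using hi3
      | succ j ih =>
        intro hj
        have h4 := ih (by omega)
        have h5 := hcon j (by omega)
        push_cast
        refine le_trans ?_ h5.le
        rw [pow_succ]
        have := mul_le_mul_of_nonneg_left h4 (show 0 ≤ 1 + d₂ by linarith)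
        linarith
    have h4 := h3 k le_rfl
    have h5 := hF1 (x₀ + i * (w / 2) + (k : ℝ) * (w / (2 * k)))
    have h6 : 1 < (1 + d₂) ^ k * η := by
      rwa [div_lt_iff₀ hη0] at hk
    linarith
  obtain ⟨j, hjk, hj⟩ := h2
  have hin' : (i : ℝ) ≤ n := by exact_mod_cast hin
  have hjk' : (j : ℝ) ≤ k := by exact_mod_cast hjk.le
  have hje : (j : ℝ) * (w / (2 * k)) ≤ w / 2 := by
    have h7 : (j : ℝ) * (w / (2 * k)) ≤ k * (w / (2 * k)) :=
      mul_le_mul_of_nonneg_right hjk' (by positivity)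
    have h8 : (k : ℝ) * (w / (2 * k)) = w / 2 := by
      field_simp
    linarith
  have hje0 : 0 ≤ (j : ℝ) * (w / (2 * k)) := by positivity
  have hiw : (i : ℝ) * (w / 2) ≤ X + w / 2 := by
    have := mul_le_mul_of_nonneg_right hin' (show 0 ≤ w / 2 by positivity)
    linarith [hn.2]
  have hiw0 : 0 ≤ (i : ℝ) * (w / 2) := by positivity
  have hx : F (x₀ + i * (w / 2)) ≤ F (x₀ + i * (w / 2) + (j : ℝ) * (w / (2 * k))) :=
    hmono (by linarith)
  refine ⟨x₀ + i * (w / 2) + (j : ℝ) * (w / (2 * k)), by linarith, by linarith, by linarith, ?_, ?_⟩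
  · have h9 : F (x₀ + i * (w / 2) + (j : ℝ) * (w / (2 * k)) - w) ≤
        F (x₀ + ((i : ℝ) - 1) * (w / 2)) := by
      apply hmono
      have : ((i : ℝ) - 1) * (w / 2) = i * (w / 2) - w / 2 := by ring
      linarith
    have := mul_le_mul_of_nonneg_left hx hd.le
    linarith
  · have e : x₀ + i * (w / 2) + (j : ℝ) * (w / (2 * k)) + w / (2 * k) =
        x₀ + i * (w / 2) + ((j : ℝ) + 1) * (w / (2 * k)) := by ring
    rw [e]
    exact hj

end Pool.Agent.Work.MP_b29d7f_two
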