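import Pool.Agent.Work.MP_b29d7f_two.Interface2

/-!
# Block PR2: the product formula for `ELR`
-/

namespace Pool.Agent.Work.MP_b29d7f_two

open Finset
open Pool.Agent.Work.MP_b29d7f_nt (IsPOrdering HasSimultaneousOrdering PS vd ld tv)
open Pool.Agent.Work.MP_b29d7f_half (Ord A wv lD)
open Pool.Agent.Work.MP_b29d7f_sep (nv EW EL)

theorem stmt_PR2 (hPRF : Stmt_PRF) : Stmt_PR2 := by
  classical
  intro a ho n u w hn
  obtain ⟨-, h2, -, -, -⟩ := hPRF a ho n
  unfold ELR EWR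
  have e1 : ∀ h ∈ Rf a u (u + w + 1), ∀ l ∈ (Ico u (u + w + 1)).erase h,
      ld (a h) (a l) = ∑ p ∈ PR a n, Real.log p * vl p a h l := by
    intro h hh l hl
    have h3 := (mem_Rf.mp hh).1
    have h4 := Finset.mem_erase.mp hl
    have h5 := Finset.mem_Ico.mp h4.2
    exact h2 h l (Ne.symm h4.1) (by omega) (by omega)
  calc ∑ h ∈ Rf a u (u + w + 1), ∑ l ∈ (Ico u (u + w + 1)).erase h, ld (a h) (a l)
      = ∑ h ∈ Rf a u (u + w + 1), ∑ l ∈ (Ico u (u + w + 1)).erase h,
          ∑ p ∈ PR a n, Real.log p * vl p a h l :=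
        Finset.sum_congr rfl fun h hh => Finset.sum_congr rfl fun l hl => e1 h hh l hl
    _ = ∑ h ∈ Rf a u (u + w + 1), ∑ p ∈ PR a n, Real.log p *
          ∑ l ∈ (Ico u (u + w + 1)).erase h, (vl p a h l : ℝ) := by
        refine Finset.sum_congr rfl fun h _ => ?_
        rw [Finset.sum_comm]
        exact Finset.sum_congr rfl fun p _ => (Finset.mul_sum _ _ _).symm
    _ = ∑ p ∈ PR a n, Real.log p * ∑ h ∈ Rf a u (u + w + 1),
          ∑ l ∈ (Ico u (u + w + 1)).erase h, (vl p a h l : ℝ) := by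
        rw [Finset.sum_comm]
        exact Finset.sum_congr rfl fun p _ => (Finset.mul_sum _ _ _).symm

end Pool.Agent.Work.MP_b29d7f_two
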