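import Pool.Agent.Work.MP_b29d7f_two.Interface1
import Pool.Agent.Work.MP_b29d7f_nt.Main

/-!
# Block PRF: the product formula
-/

namespace Pool.Agent.Work.MP_b29d7f_two

open Finset
open Pool.Agent.Work.MP_b29d7f_nt (IsPOrdering HasSimultaneousOrdering PS vd ld tv)
open Pool.Agent.Work.MP_b29d7f_half (Ord A wv lD)
open Pool.Agent.Work.MP_b29d7f_sep (nv EW EL)

theorem PRF_dvd {a : ℕ → ℤ} {n i j : ℕ} (hij : i ≠ j) (hi : i ≤ n) (hj : j ≤ n) :
    (a i - a j) ∣ (∏ j ∈ range (n + 1), ∏ i ∈ range j, (a j - a i)) := by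
  rcases Nat.lt_or_gt_of_ne hij with h | h
  · rw [← neg_sub, neg_dvd]
    exact (Finset.dvd_prod_of_mem (fun i => a j - a i) (Finset.mem_range.2 h)).trans
      (Finset.dvd_prod_of_mem (fun j => ∏ i ∈ range j, (a j - a i))
        (Finset.mem_range.2 (by omega)))
  · exact (Finset.dvd_prod_of_mem (fun j => a i - a j) (Finset.mem_range.2 h)).trans
      (Finset.dvd_prod_of_mem (fun j => ∏ i ∈ range j, (a j - a i))
        (Finset.mem_range.2 (by omega)))

theorem stmt_PRF : Stmt_PRF := by
  classical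
  intro a ha n
  have hinj : Function.Injective a :=
    Pool.Agent.Work.MP_b29d7f_nt.injective_of_ordering ha.inf Nat.prime_two
      (ha.ord 2 Nat.prime_two)
  have hprod : (∏ j ∈ range (n + 1), ∏ i ∈ range j, (a j - a i)) ≠ 0 := by
    refine Finset.prod_ne_zero_iff.2 fun j _ => Finset.prod_ne_zero_iff.2 fun i hi => ?_
    refine sub_ne_zero.2 fun h => ?_
    have h1 := hinj h
    have h2 := Finset.mem_range.1 hi
    omega
  have hpr : ∀ p ∈ PR a n, p.Prime := fun p hp => Nat.prime_of_mem_primeFactors hp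
  have hmem : ∀ i j p : ℕ, i ≠ j → i ≤ n → j ≤ n → p.Prime → (p : ℤ) ∣ a i - a j →
      p ∈ PR a n := by
    intro i j p hij hi hj hp hd
    unfold PR
    rw [Nat.mem_primeFactors]
    refine ⟨hp, ?_, Int.natAbs_ne_zero.mpr hprod⟩
    exact Int.natCast_dvd.mp (hd.trans (PRF_dvd hij hi hj))
  have key : ∀ i j : ℕ, i ≠ j → i ≤ n → j ≤ n →
      ld (a i) (a j) = ∑ p ∈ PR a n, Real.log p * vl p a i j := by
    intro i j hij hi hj
    have hne : a i - a j ≠ 0 := sub_ne_zero.2 fun h => hij (hinj h)
    unfold ld vl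
    rw [Pool.Agent.Work.MP_b29d7f_nt.log_eq_sum (a i - a j) hne (PR a n) hpr]
    · refine Finset.sum_congr rfl fun p _ => ?_
      ring
    · intro p hp hm
      refine hmem i j p hij hi hj hp ?_
      by_contra hnd
      exact hm (multiplicity_eq_zero.mpr hnd)
  refine ⟨hpr, key, ?_, ?_, ?_⟩
  · intro k hk
    unfold lD nv
    rw [Finset.sum_congr rfl fun i hi => key k i
      (by have := Finset.mem_range.mp hi; omega) hk
      (by have := Finset.mem_range.mp hi; omega), Finset.sum_comm]
    refine Finset.sum_congr rfl fun p _ => ?_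
    rw [← Finset.mul_sum]
    push_cast
    rfl
  · intro u m hum
    unfold EL EW
    rw [Finset.sum_congr rfl fun j hj => Finset.sum_congr rfl fun i hi =>
      key j i (by have := Finset.mem_Ico.mp hi; omega)
        (by have := (Finset.mem_Ico.mp hj).2; omega)
        (by have := Finset.mem_Ico.mp hi; have := (Finset.mem_Ico.mp hj).2; omega)]
    rw [Finset.sum_congr rfl fun j _ => Finset.sum_comm, Finset.sum_comm]
    refine Finset.sum_congr rfl fun p _ => ?_
    rw [Finset.mul_sum]
    refine Finset.sum_congr rfl fun j _ => ?_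
    rw [Finset.mul_sum]
    rfl
  · intro k p hk hp h1
    have h2 : ∃ i ∈ range k, multiplicity (p : ℤ) (a k - a i) ≠ 0 := by
      by_contra hcon
      push Not at hcon
      have : nv p a k = 0 := by
        unfold nv
        exact Finset.sum_eq_zero hcon
      omega
    obtain ⟨i, hi, hm⟩ := h2
    have hik := Finset.mem_range.1 hi
    refine hmem k i p (by omega) hk (by omega) hp ?_
    by_contra hnd
    exact hm (multiplicity_eq_zero.mpr hnd)

end Pool.Agent.Work.MP_b29d7f_two
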