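import Pool.Agent.Work.MP_b29d7f_two.Interface1

namespace Pool.Agent.Work.MP_b29d7f_two

open Finset
open Pool.Agent.Work.MP_b29d7f_nt (IsPOrdering HasSimultaneousOrdering PS vd ld tv)
open Pool.Agent.Work.MP_b29d7f_half (Ord A wv lD)
open Pool.Agent.Work.MP_b29d7f_sep (nv EW EL)

/-- the sum of the squares of the shares -/
noncomputable def SEL_U (a : ℕ → ℤ) (N X : ℕ) : ℝ := ∑ u ∈ range N, (sh a X (u / X)) ^ 2

theorem SEL_share (hMRT : Stmt_MRT) (a : ℕ → ℤ) (N m Q W m' R : ℕ) (es : ℝ) (hes : 0 < es)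
    (hm : 1 ≤ m) (h1 : m ∣ Q) (h2 : Q ∣ W) (h3 : W ∣ m') (hQ : 1 ≤ Q) (hW : 1 ≤ W) (hm' : 1 ≤ m')
    (hQR : Q ≤ R) (hWR : W ≤ R) (hmR : m' ≤ R) :
    (uns a N m Q es : ℝ) * es ^ 2 ≤ SEL_U a N m - SEL_U a N m' + 6 * R ∧
    (uns a N Q W es : ℝ) * es ^ 2 ≤ SEL_U a N m - SEL_U a N m' + 6 * R ∧
    0 ≤ SEL_U a N m ∧ SEL_U a N m ≤ N ∧ 0 ≤ SEL_U a N m' ∧ SEL_U a N m' ≤ N := by
  obtain ⟨b1, b2, b3⟩ := hMRT a N m Q hm h1 hQ
  obtain ⟨c1, c2, c3⟩ := hMRT a N Q W hQ h2 hW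
  obtain ⟨d1, d2, -⟩ := hMRT a N W m' hW h3 hm'
  obtain ⟨f1, -, -⟩ := hMRT a N m' m' hm' (dvd_refl _) hm'
  have hb0 : 0 ≤ ∑ u ∈ range N, (sh a m (u / m) - sh a Q (u / Q)) ^ 2 :=
    Finset.sum_nonneg fun _ _ => sq_nonneg _
  have hc0 : 0 ≤ ∑ u ∈ range N, (sh a Q (u / Q) - sh a W (u / W)) ^ 2 :=
    Finset.sum_nonneg fun _ _ => sq_nonneg _
  have hd0 : 0 ≤ ∑ u ∈ range N, (sh a W (u / W) - sh a m' (u / m')) ^ 2 :=
    Finset.sum_nonneg fun _ _ => sq_nonneg _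
  have hQR' : (Q : ℝ) ≤ R := by exact_mod_cast hQR
  have hWR' : (W : ℝ) ≤ R := by exact_mod_cast hWR
  have hmR' : (m' : ℝ) ≤ R := by exact_mod_cast hmR
  have hUle : ∀ X : ℕ, (∀ i, 0 ≤ sh a X i ∧ sh a X i ≤ 1) → SEL_U a N X ≤ N := by
    intro X hX
    unfold SEL_U
    calc ∑ u ∈ range N, (sh a X (u / X)) ^ 2 ≤ ∑ u ∈ range N, (1 : ℝ) := by
          refine Finset.sum_le_sum fun u _ => ?_
          obtain ⟨q1, q2⟩ := hX (u / X)
          nlinarith
      _ = N := by simp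
  refine ⟨?_, ?_, Finset.sum_nonneg fun _ _ => sq_nonneg _, hUle m b1,
    Finset.sum_nonneg fun _ _ => sq_nonneg _, hUle m' f1⟩
  · have := b3 es hes
    unfold SEL_U
    linarith
  · have := c3 es hes
    unfold SEL_U
    linarith

theorem stmt_SEL (hSELA : Stmt_SELA) (hMRT : Stmt_MRT) (hGGB : Stmt_GGB) : Stmt_SEL := by
  intro a k₀ C₀ hD K e₃ e₇ e₈ es eu hK he3 he7 he8 hes heu
  obtain ⟨g1, g2, -, -, g5, -, -⟩ := hGGB a k₀ C₀ hD
  have hC0 : 1 ≤ C₀ := hD.one_le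
  have hC0p : 0 < C₀ := by linarith
  obtain ⟨S, hS⟩ : ∃ S : ℕ, C₀ / e₃ + 2 * C₀ / (e₇ * e₈) + 1 / (es ^ 2 * eu) + 3 < (S : ℝ) :=
    exists_nat_gt _
  have he78 : 0 < e₇ * e₈ := mul_pos he7 he8
  have hesu : 0 < es ^ 2 * eu := by positivity
  have hSpos : 0 < S := by
    have h1 : (0 : ℝ) < S := by
      refine lt_trans ?_ hS
      positivity
    exact_mod_cast h1
  set B : ℝ := 4 * K + 2 + S * C₀ / e₃ + S * C₀ / (e₇ * e₈) + 6 * S / (es ^ 2 * eu) with hB
  refine ⟨21 * S + 43, ⌈Real.exp B⌉₊ + 2, ?_⟩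
  intro N R hN hR hR2
  have hN2 : 2 ≤ N := by omega
  have hNpos : (0 : ℝ) < N := by
    have : 0 < N := by omega
    exact_mod_cast this
  set L : ℝ := Real.log N with hL
  have hBL : B ≤ L := by
    have h1 : Real.exp B ≤ (N : ℝ) := by
      have h2 : Real.exp B ≤ (⌈Real.exp B⌉₊ : ℝ) := Nat.le_ceil _
      have h3 : ((⌈Real.exp B⌉₊ : ℕ) : ℝ) ≤ (N : ℝ) := by
        exact_mod_cast (by omega : ⌈Real.exp B⌉₊ ≤ N)
      linarith
    calc B = Real.log (Real.exp B) := (Real.log_exp B).symm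
      _ ≤ L := Real.log_le_log (Real.exp_pos _) h1
  have hb1 : 0 ≤ (S : ℝ) * C₀ / e₃ := by positivity
  have hb2 : 0 ≤ (S : ℝ) * C₀ / (e₇ * e₈) := by positivity
  have hb3 : 0 ≤ 6 * (S : ℝ) / (es ^ 2 * eu) := by positivity
  have hKr : (1 : ℝ) ≤ K := by exact_mod_cast hK
  have hLpos : 0 < L := by linarith
  set l : ℕ := el N with hl
  have hlL : L ≤ (l : ℝ) := by
    rw [hl]
    exact Nat.le_ceil _
  have hl4K : 4 * K ≤ l := by
    have : ((4 * K : ℕ) : ℝ) ≤ (l : ℝ) := by push_cast; linarith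
    exact_mod_cast this
  have hl2 : 2 ≤ l := by omega
  have hl1 : 1 ≤ l := by omega
  have hlpow : ∀ i j : ℕ, i ≤ j → l ^ i ≤ l ^ j := fun i j hij => Nat.pow_le_pow_right hl1 hij
  set r : ℕ := K * l ^ 20 with hr
  have hr1 : 1 ≤ r := Nat.mul_pos (by omega) (by positivity)
  have hrl : r ≤ l ^ 21 := by
    calc r = K * l ^ 20 := rfl
      _ ≤ l * l ^ 20 := Nat.mul_le_mul_right _ (by omega)
      _ = l ^ 21 := by ring
  have hrS : r ^ (S + 2) ≤ l ^ (21 * S + 42) := by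
    calc r ^ (S + 2) ≤ (l ^ 21) ^ (S + 2) := Nat.pow_le_pow_left hrl _
      _ = l ^ (21 * S + 42) := by rw [← pow_mul, mul_add]
  have hrp : 0 < r ^ (S + 2) := by positivity
  set m₀ : ℕ := R / r ^ (S + 2) with hm0
  have hm0R : m₀ * r ^ (S + 2) ≤ R := Nat.div_mul_le_self _ _
  have hm0l : l ^ 30 ≤ m₀ := by
    rw [hm0, Nat.le_div_iff_mul_le hrp]
    calc l ^ 30 * r ^ (S + 2) ≤ l ^ 30 * l ^ (21 * S + 42) := Nat.mul_le_mul_left _ hrS
      _ = l ^ (21 * S + 72) := by rw [← pow_add]; congr 1; ring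
      _ ≤ l ^ (21 * S + 43 + 30) := hlpow _ _ (by omega)
      _ ≤ R := hR
  have hm01 : 1 ≤ m₀ := le_trans (Nat.one_le_pow _ _ hl1) hm0l
  have hRm0 : R ≤ m₀ * l ^ (21 * S + 43) := by
    have h3 : R < (m₀ + 1) * r ^ (S + 2) := by
      have := Nat.lt_succ_iff.mpr (le_refl (R / r ^ (S + 2)))
      rw [Nat.div_lt_iff_lt_mul hrp] at this
      exact this
    calc R ≤ (m₀ + 1) * r ^ (S + 2) := h3.le
      _ ≤ (m₀ * l) * r ^ (S + 2) := by
          refine Nat.mul_le_mul_right _ ?_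
          nlinarith
      _ ≤ (m₀ * l) * l ^ (21 * S + 42) := Nat.mul_le_mul_left _ hrS
      _ = m₀ * l ^ (21 * S + 43) := by ring
  set M : ℕ → ℕ := fun t => m₀ * r ^ (S + 1 - t) with hM
  have hMr : ∀ t, t ≤ S → M (t + 1) * r = M t := by
    intro t ht
    simp only [hM]
    rw [mul_assoc, ← pow_succ]
    congr 2
    omega
  have hMs : ∀ t, t ≤ S → M (t + 1) * l ^ 20 ≤ M t := by
    intro t ht
    rw [← hMr t ht]
    refine Nat.mul_le_mul_left _ ?_
    calc l ^ 20 = 1 * l ^ 20 := (one_mul _).symm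
      _ ≤ K * l ^ 20 := Nat.mul_le_mul_right _ hK
  have hMle' : ∀ t, M t * l ^ 20 ≤ R := by
    intro t
    have h1 : M t ≤ m₀ * r ^ (S + 1) := by
      simp only [hM]
      exact Nat.mul_le_mul_left _ (Nat.pow_le_pow_right hr1 (by omega))
    calc M t * l ^ 20 ≤ (m₀ * r ^ (S + 1)) * r := by
          refine Nat.mul_le_mul h1 ?_
          calc l ^ 20 = 1 * l ^ 20 := (one_mul _).symm
            _ ≤ K * l ^ 20 := Nat.mul_le_mul_right _ hK
      _ = m₀ * r ^ (S + 2) := by ring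
      _ ≤ R := hm0R
  have hMle : ∀ t, M t ≤ R := by
    intro t
    refine le_trans ?_ (hMle' t)
    calc M t = M t * 1 := (mul_one _).symm
      _ ≤ M t * l ^ 20 := Nat.mul_le_mul_left _ (Nat.one_le_pow _ _ hl1)
  have hMlow : ∀ t, m₀ ≤ M t := by
    intro t
    simp only [hM]
    calc m₀ = m₀ * 1 := (mul_one _).symm
      _ ≤ _ := Nat.mul_le_mul_left _ (Nat.one_le_pow _ _ hr1)
  have hRN : R ≤ N := by nlinarith [hR2, Nat.zero_le R]
  have hR1 : 1 ≤ R := le_trans (Nat.one_le_pow _ _ hl1) hR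
  -- the good index
  by_contra hcon
  push Not at hcon
  set x : ℕ → ℝ := fun i => gg a (M (i + 1) / l ^ 9) with hx
  set Y : ℕ → ℝ := fun i => ∑ u ∈ Ico k₀ N, Gm a (M (i + 1)) u with hY
  set Z : ℕ → ℝ := fun i => SEL_U a N (M (i + 1)) with hZ
  have hM9 : ∀ i, l ^ 2 ≤ M (i + 1) / l ^ 9 := by
    intro i
    rw [Nat.le_div_iff_mul_le (by positivity), ← pow_add]
    exact le_trans (hlpow _ _ (by norm_num)) (le_trans hm0l (hMlow (i + 1)))
  have hMpos : ∀ i, 1 ≤ M i := fun i => le_trans hm01 (hMlow i)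
  have hxx : ∀ i, i < S → x (i + 1) - C₀ ≤ x i := by
    intro i hi
    refine g5 N _ _ hN2 ?_ ?_ ?_
    · exact le_trans (Nat.one_le_pow _ _ hl1) (hM9 (i + 1))
    · exact le_trans (Nat.div_le_self _ _) (le_trans (hMle _) hRN)
    · rw [← hl, Nat.le_div_iff_mul_le (by positivity)]
      calc l * (M (i + 1 + 1) / l ^ 9) * l ^ 9 = l * (M (i + 1 + 1) / l ^ 9 * l ^ 9) := by ring
        _ ≤ l * M (i + 1 + 1) := Nat.mul_le_mul_left _ (Nat.div_mul_le_self _ _)
        _ ≤ M (i + 1 + 1) * l ^ 20 := by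
            rw [mul_comm]
            refine Nat.mul_le_mul_left _ ?_
            calc l = l ^ 1 := (pow_one l).symm
              _ ≤ l ^ 20 := hlpow _ _ (by norm_num)
        _ ≤ M (i + 1) := hMs (i + 1) (by omega)
  have hxP : ∀ i, i < S → gg a (P1 K (M (i + 2)) N) - C₀ ≤ x i := by
    intro i hi
    have hm1 : 1 ≤ M (i + 2) := hMpos (i + 2)
    have hbig : l * P1 K (M (i + 2)) N * l ^ 9 ≤ M (i + 1) := by
      have h1 : l * P1 K (M (i + 2)) N * l ^ 9 = M (i + 2) * (K * l ^ 13) := by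
        unfold P1
        rw [← hl]
        ring
      rw [h1]
      refine le_trans (Nat.mul_le_mul_left _ ?_) (hMs (i + 1) (by omega))
      calc K * l ^ 13 ≤ l * l ^ 13 := Nat.mul_le_mul_right _ (by omega)
        _ = l ^ 14 := by ring
        _ ≤ l ^ 20 := hlpow _ _ (by norm_num)
    refine g5 N _ _ hN2 ?_ ?_ ?_
    · unfold P1
      rw [← hl]
      exact Nat.mul_pos (Nat.mul_pos (by omega) (by omega)) (by positivity)
    · have h1 : P1 K (M (i + 2)) N ≤ l * P1 K (M (i + 2)) N * l ^ 9 := by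
        have h2 : 1 ≤ l * l ^ 9 := Nat.mul_pos (by omega) (by positivity)
        calc P1 K (M (i + 2)) N = P1 K (M (i + 2)) N * 1 := (mul_one _).symm
          _ ≤ P1 K (M (i + 2)) N * (l * l ^ 9) := Nat.mul_le_mul_left _ h2
          _ = _ := by ring
      exact le_trans h1 (le_trans hbig (le_trans (hMle _) hRN))
    · rw [← hl, Nat.le_div_iff_mul_le (by positivity)]
      exact hbig
  have hQ4 : ∀ i, i < S → 4 * Qb K (M (i + 2)) N ≤ M (i + 1) := by
    intro i hi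
    have h1 : 4 * Qb K (M (i + 2)) N = M (i + 2) * (4 * K * l ^ 4) := by
      unfold Qb
      rw [← hl]
      ring
    rw [h1]
    refine le_trans (Nat.mul_le_mul_left _ ?_) (hMs (i + 1) (by omega))
    calc 4 * K * l ^ 4 ≤ l * l ^ 4 := Nat.mul_le_mul_right _ hl4K
      _ = l ^ 5 := by ring
      _ ≤ l ^ 20 := hlpow _ _ (by norm_num)
  have hsela : ∀ i, i < S →
      (atyp a k₀ N (M (i + 2)) (Qb K (M (i + 2)) N) (e₇ * L) : ℝ) * (e₇ * L) ≤
        Y i - Y (i + 1) + R * (C₀ * L) ∧ 0 ≤ Y (i + 1) ∧ Y i ≤ N * (2 * C₀ * L) := by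
    intro i hi
    have hm1 : 1 ≤ M (i + 2) := hMpos (i + 2)
    have h2 : M (i + 2) ≤ 2 * Qb K (M (i + 2)) N := by
      unfold Qb
      rw [← hl]
      have h3 : 1 ≤ 2 * (K * l ^ 4) := by
        have : 1 ≤ K * l ^ 4 := Nat.mul_pos (by omega) (by positivity)
        omega
      calc M (i + 2) = M (i + 2) * 1 := (mul_one _).symm
        _ ≤ M (i + 2) * (2 * (K * l ^ 4)) := Nat.mul_le_mul_left _ h3
        _ = 2 * (K * M (i + 2) * l ^ 4) := by ring
    obtain ⟨s1, s2, s3⟩ := hSELA a k₀ C₀ hD N (M (i + 2)) (M (i + 1)) (Qb K (M (i + 2)) N)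
      (e₇ * L) hN2 hm1 (hQ4 i hi) h2 (le_trans (hMle _) hRN) (mul_pos he7 hLpos)
    refine ⟨?_, s2, s3⟩
    have h4 : (2 * (Qb K (M (i + 2)) N : ℝ)) * (2 * C₀ * L) ≤ R * (C₀ * L) := by
      have h5 : ((4 * Qb K (M (i + 2)) N : ℕ) : ℝ) ≤ (R : ℝ) := by
        exact_mod_cast le_trans (hQ4 i hi) (hMle _)
      push_cast at h5
      have h6 : 0 ≤ C₀ * L := by positivity
      calc (2 * (Qb K (M (i + 2)) N : ℝ)) * (2 * C₀ * L) = (4 * (Qb K (M (i + 2)) N : ℝ)) * (C₀ * L) := by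
            ring
        _ ≤ R * (C₀ * L) := mul_le_mul_of_nonneg_right h5 h6
    have h7 : (atyp a k₀ N (M (i + 2)) (Qb K (M (i + 2)) N) (e₇ * L) : ℝ) * (e₇ * L) ≤
        Y i - Y (i + 1) + 2 * (Qb K (M (i + 2)) N : ℝ) * (2 * C₀ * L) := s1
    linarith
  have hshare : ∀ i, i < S →
      (uns a N (M (i + 2)) (Qb K (M (i + 2)) N) es : ℝ) * es ^ 2 ≤ Z (i + 1) - Z i + 6 * R ∧
      (uns a N (Qb K (M (i + 2)) N) (Wb K (M (i + 2)) N) es : ℝ) * es ^ 2 ≤
        Z (i + 1) - Z i + 6 * R ∧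
      0 ≤ Z (i + 1) ∧ Z (i + 1) ≤ N ∧ 0 ≤ Z i ∧ Z i ≤ N := by
    intro i hi
    have hm1 : 1 ≤ M (i + 2) := hMpos (i + 2)
    have hQe : Qb K (M (i + 2)) N = M (i + 2) * (K * l ^ 4) := by
      unfold Qb
      rw [← hl]
      ring
    have hWe : Wb K (M (i + 2)) N = Qb K (M (i + 2)) N * l := by
      unfold Wb Qb
      rw [← hl]
      ring
    have hme : M (i + 1) = Wb K (M (i + 2)) N * l ^ 15 := by
      rw [← hMr (i + 1) (by omega)]
      unfold Wb
      rw [← hl, hr]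
      ring
    have hQ1 : 1 ≤ Qb K (M (i + 2)) N := by
      rw [hQe]
      exact Nat.mul_pos (by omega) (Nat.mul_pos (by omega) (by positivity))
    have hW1 : 1 ≤ Wb K (M (i + 2)) N := by
      rw [hWe]
      exact Nat.mul_pos (by omega) (by omega)
    have hWM : Wb K (M (i + 2)) N ≤ M (i + 1) := by
      rw [hme]
      exact Nat.le_mul_of_pos_right _ (by positivity)
    have hQW : Qb K (M (i + 2)) N ≤ Wb K (M (i + 2)) N := by
      rw [hWe]
      exact Nat.le_mul_of_pos_right _ (by omega)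
    exact SEL_share hMRT a N (M (i + 2)) (Qb K (M (i + 2)) N) (Wb K (M (i + 2)) N) (M (i + 1)) R es
      hes hm1 ⟨_, hQe⟩ ⟨_, hWe⟩ ⟨_, hme⟩ hQ1 hW1 (hMpos _)
      (le_trans hQW (le_trans hWM (hMle _))) (le_trans hWM (hMle _)) (hMle _)
  -- every index is bad
  have hbad : ∀ i, i < S → 1 ≤ (x i - x (i + 1) + C₀) / (e₃ * L) +
      (Y i - Y (i + 1) + R * (C₀ * L)) / (e₇ * L * (e₈ * N)) +
      (Z (i + 1) - Z i + 6 * R) / (es ^ 2 * (eu * N)) := by
    intro i hi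
    have hA : 0 ≤ (x i - x (i + 1) + C₀) / (e₃ * L) := by
      have := hxx i hi
      refine div_nonneg (by linarith) (by positivity)
    have hsi := (hsela i hi).1
    have hB' : 0 ≤ (Y i - Y (i + 1) + R * (C₀ * L)) / (e₇ * L * (e₈ * N)) := by
      refine div_nonneg (le_trans ?_ hsi) (by positivity)
      positivity
    obtain ⟨t1, t2, -, -, -, -⟩ := hshare i hi
    have hC' : 0 ≤ (Z (i + 1) - Z i + 6 * R) / (es ^ 2 * (eu * N)) := by
      refine div_nonneg (le_trans ?_ t1) (by positivity)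
      positivity
    by_cases hc : gg a (P1 K (M (i + 2)) N) ≤ gg a (M (i + 2) / l ^ 9) + e₃ * L
    · have h1 : M (i + 2) * l ^ 20 ≤ R := hMle' _
      have h2 : R ≤ M (i + 2) * l ^ (21 * S + 43) :=
        le_trans hRm0 (Nat.mul_le_mul_right _ (hMlow _))
      have h4 := hcon (M (i + 2)) h1 h2 hc
      by_cases hc2 : (atyp a k₀ N (M (i + 2)) (Qb K (M (i + 2)) N) (e₇ * L) : ℝ) ≤ e₈ * N
      · have h5 := h4 hc2
        by_cases hc3 : (uns a N (M (i + 2)) (Qb K (M (i + 2)) N) es : ℝ) ≤ eu * N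
        · have h6 := h5 hc3
          have h7 : 1 ≤ (Z (i + 1) - Z i + 6 * R) / (es ^ 2 * (eu * N)) := by
            rw [le_div_iff₀ (by positivity), one_mul]
            calc es ^ 2 * (eu * N) = (eu * N) * es ^ 2 := by ring
              _ ≤ (uns a N (Qb K (M (i + 2)) N) (Wb K (M (i + 2)) N) es : ℝ) * es ^ 2 :=
                  mul_le_mul_of_nonneg_right h6.le (by positivity)
              _ ≤ _ := t2
          linarith
        · push Not at hc3
          have h7 : 1 ≤ (Z (i + 1) - Z i + 6 * R) / (es ^ 2 * (eu * N)) := by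
            rw [le_div_iff₀ (by positivity), one_mul]
            calc es ^ 2 * (eu * N) = (eu * N) * es ^ 2 := by ring
              _ ≤ (uns a N (M (i + 2)) (Qb K (M (i + 2)) N) es : ℝ) * es ^ 2 :=
                  mul_le_mul_of_nonneg_right hc3.le (by positivity)
              _ ≤ _ := t1
          linarith
      · push Not at hc2
        have h5 : 1 ≤ (Y i - Y (i + 1) + R * (C₀ * L)) / (e₇ * L * (e₈ * N)) := by
          rw [le_div_iff₀ (by positivity), one_mul]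
          calc e₇ * L * (e₈ * N) = (e₈ * N) * (e₇ * L) := by ring
            _ ≤ (atyp a k₀ N (M (i + 2)) (Qb K (M (i + 2)) N) (e₇ * L) : ℝ) * (e₇ * L) :=
                mul_le_mul_of_nonneg_right hc2.le (by positivity)
            _ ≤ _ := hsi
        linarith
    · push Not at hc
      have h1 := hxP i hi
      have h2 : x (i + 1) + e₃ * L < gg a (P1 K (M (i + 2)) N) := hc
      have h3 : 1 ≤ (x i - x (i + 1) + C₀) / (e₃ * L) := by
        rw [le_div_iff₀ (by positivity), one_mul]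
        linarith
      linarith
  have hsum : (S : ℝ) ≤ ∑ i ∈ range S, ((x i - x (i + 1) + C₀) / (e₃ * L) +
      (Y i - Y (i + 1) + R * (C₀ * L)) / (e₇ * L * (e₈ * N)) +
      (Z (i + 1) - Z i + 6 * R) / (es ^ 2 * (eu * N))) := by
    calc (S : ℝ) = ∑ i ∈ range S, (1 : ℝ) := by simp
      _ ≤ _ := Finset.sum_le_sum fun i hi => hbad i (Finset.mem_range.mp hi)
  have hx0 : x 0 ≤ C₀ * L := by
    have h2 : 2 ≤ M (0 + 1) / l ^ 9 := by
      have h3 : l ^ 1 ≤ l ^ 2 := hlpow _ _ (by norm_num)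
      have h4 := hM9 0
      simp only [pow_one] at h3
      omega
    refine le_trans (g1 _ h2) ?_
    refine mul_le_mul_of_nonneg_left ?_ hC0p.le
    refine Real.log_le_log (by exact_mod_cast (by omega : 0 < M (0 + 1) / l ^ 9)) ?_
    exact_mod_cast le_trans (Nat.div_le_self _ _) (le_trans (hMle _) hRN)
  have hxS : 0 ≤ x S := g2 _
  have hY0 : Y 0 ≤ N * (2 * C₀ * L) := (hsela 0 hSpos).2.2
  have hYS : 0 ≤ Y S := by
    have := (hsela (S - 1) (by omega)).2.1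
    rwa [Nat.sub_add_cancel (by omega : 1 ≤ S)] at this
  have hZ0 : 0 ≤ Z 0 := (hshare 0 hSpos).2.2.2.2.1
  have hZS : Z S ≤ N := by
    have := (hshare (S - 1) (by omega)).2.2.2.1
    rwa [Nat.sub_add_cancel (by omega : 1 ≤ S)] at this
  have htel : ∑ i ∈ range S, ((x i - x (i + 1) + C₀) / (e₃ * L) +
      (Y i - Y (i + 1) + R * (C₀ * L)) / (e₇ * L * (e₈ * N)) +
      (Z (i + 1) - Z i + 6 * R) / (es ^ 2 * (eu * N))) =
      (x 0 - x S + S * C₀) / (e₃ * L) + (Y 0 - Y S + S * (R * (C₀ * L))) / (e₇ * L * (e₈ * N)) +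
      (Z S - Z 0 + S * (6 * R)) / (es ^ 2 * (eu * N)) := by
    have e1 : ∑ i ∈ range S, (x i - x (i + 1) + C₀) = x 0 - x S + S * C₀ := by
      rw [Finset.sum_add_distrib, Finset.sum_range_sub']
      simp
    have e2 : ∑ i ∈ range S, (Y i - Y (i + 1) + R * (C₀ * L)) = Y 0 - Y S + S * (R * (C₀ * L)) := by
      rw [Finset.sum_add_distrib, Finset.sum_range_sub']
      simp
    have e3 : ∑ i ∈ range S, (Z (i + 1) - Z i + 6 * (R : ℝ)) = Z S - Z 0 + S * (6 * R) := by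
      rw [Finset.sum_add_distrib, Finset.sum_range_sub]
      simp
    rw [Finset.sum_add_distrib, Finset.sum_add_distrib, ← Finset.sum_div, ← Finset.sum_div,
      ← Finset.sum_div, e1, e2, e3]
  rw [htel] at hsum
  have ha : (x 0 - x S + S * C₀) / (e₃ * L) ≤ C₀ / e₃ + 1 := by
    rw [div_le_iff₀ (by positivity)]
    have h1 : (S : ℝ) * C₀ ≤ e₃ * L := by
      have h2 : (S : ℝ) * C₀ / e₃ ≤ L := by linarith
      rw [div_le_iff₀ he3] at h2
      linarith
    have h3 : (C₀ / e₃ + 1) * (e₃ * L) = C₀ * L + e₃ * L := by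
      field_simp
    rw [h3]
    linarith
  have hRl : L * R ≤ N := by
    have h1 : (l : ℝ) ≤ R := by
      have : l ≤ R := by
        calc l = l ^ 1 := (pow_one l).symm
          _ ≤ l ^ (21 * S + 43 + 30) := hlpow _ _ (by omega)
          _ ≤ R := hR
      exact_mod_cast this
    have h2 : (R : ℝ) ^ 2 ≤ N := by exact_mod_cast hR2
    have h3 : (0 : ℝ) ≤ R := by positivity
    nlinarith
  have hb : (Y 0 - Y S + S * (R * (C₀ * L))) / (e₇ * L * (e₈ * N)) ≤ 2 * C₀ / (e₇ * e₈) + 1 := by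
    rw [div_le_iff₀ (by positivity)]
    have h1 : (S : ℝ) * C₀ ≤ e₇ * e₈ * L := by
      have h2 : (S : ℝ) * C₀ / (e₇ * e₈) ≤ L := by linarith
      rw [div_le_iff₀ he78] at h2
      linarith
    have h3 : (2 * C₀ / (e₇ * e₈) + 1) * (e₇ * L * (e₈ * N)) =
        N * (2 * C₀ * L) + e₇ * e₈ * L * N := by
      field_simp
    rw [h3]
    have h4 : (S : ℝ) * (R * (C₀ * L)) ≤ e₇ * e₈ * L * N := by
      calc (S : ℝ) * (R * (C₀ * L)) = (S * C₀) * (L * R) := by ring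
        _ ≤ (e₇ * e₈ * L) * (L * R) := mul_le_mul_of_nonneg_right h1 (by positivity)
        _ ≤ (e₇ * e₈ * L) * N := mul_le_mul_of_nonneg_left hRl (by positivity)
    linarith
  have hc : (Z S - Z 0 + S * (6 * R)) / (es ^ 2 * (eu * N)) ≤ 1 / (es ^ 2 * eu) + 1 := by
    rw [div_le_iff₀ (by positivity)]
    have h1 : 6 * (S : ℝ) ≤ es ^ 2 * eu * L := by
      have h2 : 6 * (S : ℝ) / (es ^ 2 * eu) ≤ L := by linarith
      rw [div_le_iff₀ hesu] at h2
      linarith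
    have h3 : (1 / (es ^ 2 * eu) + 1) * (es ^ 2 * (eu * N)) = N + es ^ 2 * eu * N := by
      field_simp
    rw [h3]
    have h4 : (S : ℝ) * (6 * R) ≤ es ^ 2 * eu * N := by
      calc (S : ℝ) * (6 * R) = (6 * S) * R := by ring
        _ ≤ (es ^ 2 * eu * L) * R := mul_le_mul_of_nonneg_right h1 (by positivity)
        _ = (es ^ 2 * eu) * (L * R) := by ring
        _ ≤ (es ^ 2 * eu) * N := mul_le_mul_of_nonneg_left hRl (by positivity)
    linarith
  linarith

end Pool.Agent.Work.MP_b29d7f_two
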