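import Pool.Agent.Work.MP_b29d7f_two.Interface1

/-!
# Block SELA: the number of atypical indices at one scale, two-sided version
-/

namespace Pool.Agent.Work.MP_b29d7f_two

open Finset
open Pool.Agent.Work.MP_b29d7f_nt (ld)
open Pool.Agent.Work.MP_b29d7f_half (Ord lD)

/-- the logarithm of a nonnegative integer is monotone (`log 0 = 0`) -/
theorem SELA_log {x y : ℤ} (hx0 : 0 ≤ x) (hxy : x ≤ y) :
    Real.log ((x : ℤ) : ℝ) ≤ Real.log ((y : ℤ) : ℝ) := by
  rcases hx0.eq_or_lt with h | h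
  · rw [← h]
    simp only [Int.cast_zero, Real.log_zero]
    rcases (le_trans hx0 hxy).eq_or_lt with h' | h'
    · rw [← h']
      simp
    · apply Real.log_nonneg
      exact_mod_cast (by omega : (1 : ℤ) ≤ y)
  · apply Real.log_le_log
    · exact_mod_cast h
    · exact_mod_cast hxy

theorem stmt_SELA (h1 : Stmt_GGB) (h2 : Stmt_MXB) : Stmt_SELA := by
  intro a k₀ C₀ hd N m m' Q e hN hm hQm hmQ hmN he
  classical
  obtain ⟨-, -, -, -, -, hld, -⟩ := h1 a k₀ C₀ hd
  obtain ⟨hMx, -, hhx, hax, -, -, -, -, -, -, hG0, -⟩ := h2 a k₀ C₀ hd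
  have hlogN : 0 ≤ Real.log N := Real.log_natCast_nonneg N
  have hC : 0 ≤ C₀ := le_trans zero_le_one hd.one_le
  have hB0 : 0 ≤ 2 * C₀ * Real.log N := by positivity
  have hMxle : ∀ i j : ℕ, i ≤ j → Mx a i ≤ Mx a j := fun i j h => hMx h
  have hGB : ∀ t u : ℕ, u + t ≤ 2 * N → Gm a t u ≤ 2 * C₀ * Real.log N := by
    intro t u hle
    have h3 := hld (hx a (u + t)) (hx a u) N hN (le_trans (hhx _) hle)
      (le_trans (hhx _) (by omega))
    unfold ld at h3
    rw [Real.log_abs, hax, hax] at h3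
    exact h3
  have hGm : ∀ s t u : ℕ, s ≤ t → Gm a s u ≤ Gm a t u := by
    intro s t u hst
    unfold Gm
    apply SELA_log
    · have := hMxle u (u + s) (by omega)
      omega
    · have := hMxle (u + s) (u + t) (by omega)
      omega
  refine ⟨?_, ?_, ?_⟩
  · -- the atypical indices
    have hpos : ∀ u ∈ Ico (k₀ + 2 * Q) N, 0 ≤ Gm a (4 * Q) (u - 2 * Q) - Gm a m u := by
      intro u hu
      have hu' := mem_Ico.1 hu
      have h4 : Gm a m u ≤ Gm a (4 * Q) (u - 2 * Q) := by
        unfold Gm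
        rw [show u - 2 * Q + 4 * Q = u + 2 * Q from by omega]
        apply SELA_log
        · have := hMxle u (u + m) (by omega)
          omega
        · have h5 := hMxle (u + m) (u + 2 * Q) (by omega)
          have h6 := hMxle (u - 2 * Q) u (by omega)
          omega
      linarith
    have hA : (atyp a k₀ N m Q e : ℝ) * e ≤
        ∑ u ∈ Ico (k₀ + 2 * Q) N, (Gm a (4 * Q) (u - 2 * Q) - Gm a m u) := by
      unfold atyp
      rw [← nsmul_eq_mul, ← Finset.sum_const]
      refine le_trans (Finset.sum_le_sum (fun u hu => ?_))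
        (Finset.sum_le_sum_of_subset_of_nonneg (Finset.filter_subset _ _)
          (fun u hu _ => hpos u hu))
      obtain ⟨hu1, hu2⟩ := mem_filter.1 hu
      have hu' := mem_Ico.1 hu1
      have h5 : Gm a (4 * Q) (u - 2 * Q) =
          Real.log ((Mx a (u + 2 * Q) - Mx a (u - 2 * Q) : ℤ) : ℝ) := by
        unfold Gm
        rw [show u - 2 * Q + 4 * Q = u + 2 * Q from by omega]
      rw [h5]
      linarith
    have hBb : ∑ u ∈ Ico (k₀ + 2 * Q) N, Gm a (4 * Q) (u - 2 * Q) ≤
        ∑ u ∈ Ico k₀ N, Gm a m' u := by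
      have e1 : ∑ u ∈ Ico (k₀ + 2 * Q) N, Gm a (4 * Q) (u - 2 * Q) =
          ∑ u ∈ Ico k₀ (N - 2 * Q), Gm a (4 * Q) u := by
        have h6 := Finset.sum_Ico_add' (fun u => Gm a (4 * Q) (u - 2 * Q)) k₀ (N - 2 * Q) (2 * Q)
        rw [Nat.sub_add_cancel (by omega)] at h6
        rw [← h6]
        apply Finset.sum_congr rfl
        intro u _
        rw [Nat.add_sub_cancel]
      rw [e1]
      refine le_trans (Finset.sum_le_sum (fun u hu => ?_))
        (Finset.sum_le_sum_of_subset_of_nonneg (?_ : Ico k₀ (N - 2 * Q) ⊆ Ico k₀ N)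
          (fun u hu _ => ?_))
      · exact hGm (4 * Q) m' u hQm
      · exact Finset.Ico_subset_Ico le_rfl (by omega)
      · exact hG0 m' u
    have hCc : ∑ u ∈ Ico k₀ N, Gm a m u ≤
        ∑ u ∈ Ico (k₀ + 2 * Q) N, Gm a m u + 2 * Q * (2 * C₀ * Real.log N) := by
      have hsub : Ico (k₀ + 2 * Q) N ⊆ Ico k₀ N := Finset.Ico_subset_Ico (by omega) le_rfl
      rw [← Finset.sum_sdiff hsub, add_comm]
      have h7 : ∑ u ∈ Ico k₀ N \ Ico (k₀ + 2 * Q) N, Gm a m u ≤
          2 * Q * (2 * C₀ * Real.log N) := by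
        have h8 : Ico k₀ N \ Ico (k₀ + 2 * Q) N ⊆ Ico k₀ (k₀ + 2 * Q) := by
          intro u hu
          rw [mem_sdiff, mem_Ico, mem_Ico] at hu
          rw [mem_Ico]
          omega
        have h9 : ((Ico k₀ N \ Ico (k₀ + 2 * Q) N).card : ℝ) ≤ 2 * Q := by
          have := Finset.card_le_card h8
          rw [Nat.card_Ico] at this
          exact_mod_cast (by omega : (Ico k₀ N \ Ico (k₀ + 2 * Q) N).card ≤ 2 * Q)
        calc ∑ u ∈ Ico k₀ N \ Ico (k₀ + 2 * Q) N, Gm a m u
            ≤ ∑ u ∈ Ico k₀ N \ Ico (k₀ + 2 * Q) N, (2 * C₀ * Real.log N) := by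
              apply Finset.sum_le_sum
              intro u hu
              have hu' := mem_Ico.1 (mem_sdiff.1 hu).1
              exact hGB m u (by omega)
          _ = ((Ico k₀ N \ Ico (k₀ + 2 * Q) N).card : ℝ) * (2 * C₀ * Real.log N) := by
              rw [Finset.sum_const, nsmul_eq_mul]
          _ ≤ 2 * Q * (2 * C₀ * Real.log N) := mul_le_mul_of_nonneg_right h9 hB0
      linarith
    rw [Finset.sum_sub_distrib] at hA
    linarith
  · exact Finset.sum_nonneg (fun u _ => hG0 m u)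
  · calc ∑ u ∈ Ico k₀ N, Gm a m' u
        ≤ ∑ u ∈ Ico k₀ N, (2 * C₀ * Real.log N) := by
          apply Finset.sum_le_sum
          intro u hu
          have hu' := mem_Ico.1 hu
          exact hGB m' u (by omega)
      _ = ((Ico k₀ N).card : ℝ) * (2 * C₀ * Real.log N) := by
          rw [Finset.sum_const, nsmul_eq_mul]
      _ ≤ N * (2 * C₀ * Real.log N) := by
          apply mul_le_mul_of_nonneg_right _ hB0
          rw [Nat.card_Ico]
          exact_mod_cast Nat.sub_le N k₀

end Pool.Agent.Work.MP_b29d7f_two
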