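import Pool.Agent.Work.MP_b29d7f_two.Interface1
import Pool.Agent.Work.MP_b29d7f_sep.B_SIZE

/-!
# Block START, two-sided: from the set to the sequence (helper74, helper34)
-/

set_option autoImplicit false

namespace Pool.Agent.Work.MP_b29d7f_two

open Finset
open Pool.Agent.Work.MP_b29d7f_nt (IsPOrdering HasSimultaneousOrdering PS vd ld tv)
open Pool.Agent.Work.MP_b29d7f_half (Ord A wv lD)
open Pool.Agent.Work.MP_b29d7f_sep (nv EW EL Nn St mem_St)

theorem START_ncard (S : Set ℤ) (x : ℕ) :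
    (S ∩ Set.Icc (-(x : ℤ)) x).ncard = Nn S x := by
  unfold Nn
  rw [← Set.ncard_coe_finset]
  congr 1
  ext s
  simp only [Set.mem_inter_iff, Set.mem_Icc, Finset.mem_coe, mem_St]
  tauto

theorem START_inf (S : Set ℤ) (h : LowExponent S) : S.Infinite := by
  obtain ⟨c, ε, hc, -, x₀, hx⟩ := h
  intro hfin
  have hM : ∀ x : ℕ, x₀ ≤ x → (x : ℝ) ^ c ≤ (S.ncard : ℝ) := fun x hx' =>
    (hx x hx').1.trans (by exact_mod_cast Set.ncard_le_ncard Set.inter_subset_left hfin)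
  have ht := (tendsto_rpow_atTop hc).comp tendsto_natCast_atTop_atTop
  obtain ⟨x, hx1, hx2⟩ := ((ht.eventually_gt_atTop (S.ncard : ℝ)).and
    (Filter.eventually_ge_atTop x₀)).exists
  exact absurd (hM x hx2) (not_le.mpr hx1)

/-- Few terms are close to the first one. -/
theorem START_few (S : Set ℤ) (a : ℕ → ℤ) (hinj : Function.Injective a) (hmem : ∀ k, a k ∈ S)
    (x₀ : ℕ) (ε : ℝ) (hε0 : 0 < ε) (hε1 : ε ≤ 1 / 4)
    (hup : ∀ x : ℕ, x₀ ≤ x → (Nn S x : ℝ) ≤ (x : ℝ) ^ (1 / 2 - ε)) (k : ℕ)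
    (hk : x₀ + (a 0).natAbs + 1 ≤ k) (F : Finset ℕ)
    (hF : ∀ l ∈ F, (|((a 0 - a l : ℤ) : ℝ)|) ≤ (k : ℝ) ^ (2 + 2 * ε)) :
    (F.card : ℝ) ≤ 2 * (k : ℝ) ^ (1 - ε) := by
  have hk1 : (1 : ℝ) ≤ k := by
    have : 1 ≤ k := by omega
    exact_mod_cast this
  set y : ℝ := (k : ℝ) ^ (2 + 2 * ε) with hy
  have hky : (k : ℝ) ≤ y := by
    calc (k : ℝ) = (k : ℝ) ^ (1 : ℝ) := (Real.rpow_one _).symm
      _ ≤ y := Real.rpow_le_rpow_of_exponent_le hk1 (by linarith)
  have hy0 : 0 ≤ y := by linarith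
  set x : ℕ := ⌊2 * y⌋₊ with hx
  have hxy : (x : ℝ) ≤ 2 * y := Nat.floor_le (by linarith)
  have hx₀ : x₀ ≤ x := by
    refine Nat.le_floor ?_
    have h1 : x₀ ≤ k := by omega
    have h2 : (x₀ : ℝ) ≤ k := by exact_mod_cast h1
    linarith
  have ha0 : (|(a 0 : ℝ)|) ≤ y := by
    have h1 : (a 0).natAbs ≤ k := by omega
    have h2 : (((a 0).natAbs : ℕ) : ℝ) ≤ k := by exact_mod_cast h1
    rw [Nat.cast_natAbs] at h2
    push_cast at h2
    linarith
  have hcard : F.card ≤ Nn S x := by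
    unfold Nn
    rw [← Finset.card_image_of_injective F hinj]
    refine Finset.card_le_card ?_
    intro s hs
    rw [Finset.mem_image] at hs
    obtain ⟨l, hl, rfl⟩ := hs
    rw [mem_St]
    refine ⟨?_, hmem l⟩
    have h1 := hF l hl
    have h2 : (|((a l : ℤ) : ℝ)|) ≤ 2 * y := by
      have h3 : ((a l : ℤ) : ℝ) = (a 0 : ℝ) - ((a 0 - a l : ℤ) : ℝ) := by push_cast; ring
      rw [h3]
      have h4 := abs_sub (a 0 : ℝ) ((a 0 - a l : ℤ) : ℝ)
      linarith
    have h5 : (a l).natAbs ≤ x := by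
      refine Nat.le_floor ?_
      rw [Nat.cast_natAbs]
      push_cast
      exact h2
    omega
  have h4 := hup x hx₀
  have h5 : (F.card : ℝ) ≤ (x : ℝ) ^ (1 / 2 - ε) := by
    refine le_trans ?_ h4
    exact_mod_cast hcard
  have h6 : (x : ℝ) ^ (1 / 2 - ε) ≤ (2 * y) ^ (1 / 2 - ε) :=
    Real.rpow_le_rpow (by positivity) hxy (by linarith)
  have h7 : (2 * y) ^ (1 / 2 - ε) = (2 : ℝ) ^ (1 / 2 - ε) * y ^ (1 / 2 - ε) :=
    Real.mul_rpow (by norm_num) hy0
  have h8 : (2 : ℝ) ^ (1 / 2 - ε) ≤ 2 := by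
    calc (2 : ℝ) ^ (1 / 2 - ε) ≤ (2 : ℝ) ^ (1 : ℝ) :=
          Real.rpow_le_rpow_of_exponent_le (by norm_num) (by linarith)
      _ = 2 := Real.rpow_one _
  have h9 : y ^ (1 / 2 - ε) ≤ (k : ℝ) ^ (1 - ε) := by
    rw [hy, ← Real.rpow_mul (by linarith)]
    exact Real.rpow_le_rpow_of_exponent_le hk1 (by nlinarith)
  have h10 : 0 ≤ y ^ (1 / 2 - ε) := Real.rpow_nonneg hy0 _
  calc (F.card : ℝ) ≤ (2 : ℝ) ^ (1 / 2 - ε) * y ^ (1 / 2 - ε) := by
        rw [← h7]; exact h5.trans h6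
    _ ≤ 2 * (k : ℝ) ^ (1 - ε) := mul_le_mul h8 h9 h10 (by norm_num)

theorem stmt_START (h1 : Stmt_TSU) : Stmt_START := by
  intro S hlow hsim
  obtain ⟨a, ha⟩ := hsim
  have hSinf := START_inf S hlow
  have hO : Ord S a := ⟨hSinf, ha⟩
  obtain ⟨hinj, hmem, -, -, -, -⟩ := Pool.Agent.Work.MP_b29d7f_half.stmt_ORD
    Pool.Agent.Work.MP_b29d7f_half.stmt_VDM S a hO
  have hOr : Ord (Set.range a) a := by
    refine ⟨Set.infinite_range_of_injective hinj, fun p hp => ?_⟩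
    refine ⟨fun k => ⟨k, rfl⟩, ?_⟩
    rintro k _ ⟨m, rfl⟩
    exact (ha p hp).2 k (a m) (hmem m)
  -- the hull
  have hull : ∀ k : ℕ, (∀ i < k, a i < a k) ∨ (∀ i < k, a k < a i) := by
    intro k
    by_contra hcon
    push Not at hcon
    obtain ⟨⟨i, hi, hi'⟩, ⟨j, hj, hj'⟩⟩ := hcon
    have h3 := Pool.Agent.Work.MP_b29d7f_sep.stmt_HULL (Set.range a) a hOr k (a k) ⟨k, rfl⟩
      ⟨j, hj, hj'⟩ ⟨i, hi, hi'⟩
    unfold A at h3
    rw [Finset.mem_image] at h3
    obtain ⟨m, hm, hmk⟩ := h3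
    rw [Finset.mem_range] at hm
    have := hinj hmk
    omega
  -- the size
  obtain ⟨c, ε₀, hc, hε₀, x₀, hx⟩ := hlow
  have hpoly : Pool.Agent.Work.MP_b29d7f_sep.PolyGrowth S :=
    ⟨c, hc, x₀, fun x hx' => by rw [← START_ncard]; exact (hx x hx').1⟩
  obtain ⟨c', B, C₂, hdat⟩ := Pool.Agent.Work.MP_b29d7f_sep.stmt_SIZE
    Pool.Agent.Work.MP_b29d7f_sep.stmt_ARCHO S a hO hpoly
  have hB1 := hdat.B_one
  have hsize := hdat.size
  have hl2 : 0 < Real.log 2 := Real.log_pos (by norm_num)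
  set C₀ : ℝ := max 1 (Real.log (2 * B) / Real.log 2 + 2 * C₂) with hC₀
  -- the exponent
  set ε : ℝ := min ε₀ (1 / 4) with hε
  have hε0 : 0 < ε := lt_min hε₀ (by norm_num)
  have hε1 : ε ≤ 1 / 4 := min_le_right _ _
  have hup : ∀ x : ℕ, max x₀ 1 ≤ x → (Nn S x : ℝ) ≤ (x : ℝ) ^ (1 / 2 - ε) := by
    intro x hx'
    rw [← START_ncard]
    refine (hx x ((le_max_left _ _).trans hx')).2.trans ?_
    refine Real.rpow_le_rpow_of_exponent_le ?_ ?_
    · exact_mod_cast (le_max_right _ _).trans hx'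
    · have := min_le_left ε₀ (1 / 4)
      linarith
  refine ⟨a, 0, C₀, ε, ⟨hOr, le_max_left _ _, hull, ?_⟩, hε0, ?_⟩
  · intro i j k hk hi hj
    have hk2 : (2 : ℝ) ≤ k := by exact_mod_cast hk
    have hkpos : (0 : ℝ) < k := by linarith
    have hb : ∀ j : ℕ, j ≤ k → (|a j| : ℝ) ≤ B * (k : ℝ) ^ (2 * C₂) := by
      intro j hj
      refine (hsize j).trans (mul_le_mul_of_nonneg_left ?_ (by linarith))
      rw [pow_mul]
      refine pow_le_pow_left₀ (by positivity) ?_ _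
      have : (j : ℝ) ≤ k := by exact_mod_cast hj
      nlinarith
    have h3 : (|a i - a j| : ℝ) ≤ 2 * B * (k : ℝ) ^ (2 * C₂) := by
      have := abs_sub (a i : ℝ) (a j : ℝ)
      have a1 := hb i hi
      have a2 := hb j hj
      linarith
    refine h3.trans ?_
    have h4 : 2 * B ≤ (k : ℝ) ^ (Real.log (2 * B) / Real.log 2) := by
      have h5 : 2 * B = (2 : ℝ) ^ (Real.log (2 * B) / Real.log 2) := by
        rw [Real.rpow_def_of_pos (by norm_num), mul_div_cancel₀ _ hl2.ne',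
          Real.exp_log (by linarith)]
      calc 2 * B = (2 : ℝ) ^ (Real.log (2 * B) / Real.log 2) := h5
        _ ≤ (k : ℝ) ^ (Real.log (2 * B) / Real.log 2) :=
          Real.rpow_le_rpow (by norm_num) hk2
            (div_nonneg (Real.log_nonneg (by linarith)) hl2.le)
    calc 2 * B * (k : ℝ) ^ (2 * C₂)
        ≤ (k : ℝ) ^ (Real.log (2 * B) / Real.log 2) * (k : ℝ) ^ (2 * C₂) :=
          mul_le_mul_of_nonneg_right h4 (by positivity)
      _ = (k : ℝ) ^ (Real.log (2 * B) / Real.log 2 + 2 * C₂) := by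
          rw [Real.rpow_add hkpos]
          congr 1
          rw [← Real.rpow_natCast]
          push_cast
          rfl
      _ ≤ (k : ℝ) ^ C₀ :=
          Real.rpow_le_rpow_of_exponent_le (by linarith) (le_max_right _ _)
  · -- the slope
    obtain ⟨-, -, -, hF2, -⟩ := h1 a hOr
    obtain ⟨k₁, hk₁⟩ := exists_nat_ge ((5 / ε) ^ (1 / ε))
    refine ⟨max k₁ (max x₀ 1 + (a 0).natAbs + 1), ?_⟩
    intro k hk
    have hk1 : k₁ ≤ k := (le_max_left _ _).trans hk
    have hkl : max x₀ 1 + (a 0).natAbs + 1 ≤ k := (le_max_right _ _).trans hk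
    have hk0 : 1 ≤ k := by omega
    have hkr : (1 : ℝ) ≤ k := by exact_mod_cast hk0
    have hkpos : (0 : ℝ) < k := by linarith
    have hkε : 5 / ε ≤ (k : ℝ) ^ ε := by
      have h3 : (5 / ε) ^ (1 / ε) ≤ (k : ℝ) := hk₁.trans (by exact_mod_cast hk1)
      have h4 := Real.rpow_le_rpow (by positivity) h3 hε0.le
      rw [← Real.rpow_mul (by positivity), one_div_mul_cancel hε0.ne', Real.rpow_one] at h4
      exact h4
    have hlog0 : 0 ≤ Real.log k := Real.log_nonneg hkr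
    classical
    set F : Finset ℕ := (Icc 1 k).filter fun l => (|((a 0 - a l : ℤ) : ℝ)|) ≤ (k : ℝ) ^ (2 + 2 * ε)
      with hF
    set G : Finset ℕ := (Icc 1 k).filter fun l => ¬ (|((a 0 - a l : ℤ) : ℝ)|) ≤
      (k : ℝ) ^ (2 + 2 * ε) with hG
    have hFG : F.card + G.card = k := by
      rw [hF, hG, Finset.card_filter_add_card_filter_not, Nat.card_Icc]
      omega
    have hFc := START_few S a hinj hmem (max x₀ 1) ε hε0 hε1 hup k hkl F
      (fun l hl => (mem_filter.mp hl).2)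
    have hterm : ∀ l ∈ G, (2 + 2 * ε) * Real.log k ≤ ld (a 0) (a l) := by
      intro l hl
      have h3 := (mem_filter.mp hl).2
      push Not at h3
      have h4 := Real.log_le_log (by positivity) h3.le
      rw [Real.log_rpow hkpos] at h4
      exact h4
    have hT : (G.card : ℝ) * ((2 + 2 * ε) * Real.log k) ≤ lD a k := by
      calc (G.card : ℝ) * ((2 + 2 * ε) * Real.log k)
          = ∑ l ∈ G, (2 + 2 * ε) * Real.log k := by rw [Finset.sum_const, nsmul_eq_mul]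
        _ ≤ ∑ l ∈ G, ld (a 0) (a l) := Finset.sum_le_sum hterm
        _ ≤ ∑ l ∈ (range (k + 1)).erase 0, ld (a 0) (a l) := by
            refine Finset.sum_le_sum_of_subset_of_nonneg ?_ fun l _ _ =>
              Pool.Agent.Work.MP_b29d7f_half.ld_nonneg _ _
            intro l hl
            have h3 := (mem_filter.mp hl).1
            rw [mem_Icc] at h3
            rw [mem_erase, mem_range]
            omega
        _ ≤ lD a k := hF2 0 k (Nat.zero_le _)
    have hpow : (k : ℝ) ^ (1 - ε) ≤ ε / 5 * k := by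
      rw [Real.rpow_sub hkpos, Real.rpow_one]
      rw [div_le_iff₀ (by positivity)]
      have h3 : 1 ≤ ε / 5 * (k : ℝ) ^ ε := by
        have h4 := mul_le_mul_of_nonneg_left hkε (by positivity : (0 : ℝ) ≤ ε / 5)
        have h5 : ε / 5 * (5 / ε) = 1 := by
          field_simp
        linarith
      calc (k : ℝ) = k * 1 := (mul_one _).symm
        _ ≤ k * (ε / 5 * (k : ℝ) ^ ε) := mul_le_mul_of_nonneg_left h3 hkpos.le
        _ = ε / 5 * k * (k : ℝ) ^ ε := by ring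
    have hGc : (1 - 2 * ε / 5) * (k : ℝ) ≤ G.card := by
      have h3 : (F.card : ℝ) + G.card = k := by exact_mod_cast hFG
      nlinarith
    unfold gg
    rw [le_div_iff₀ hkpos]
    refine le_trans ?_ hT
    have h5 : (2 + ε) ≤ (1 - 2 * ε / 5) * (2 + 2 * ε) := by nlinarith
    calc (2 + ε) * Real.log k * k ≤ ((1 - 2 * ε / 5) * (2 + 2 * ε)) * Real.log k * k :=
          mul_le_mul_of_nonneg_right (mul_le_mul_of_nonneg_right h5 hlog0) hkpos.le
      _ = ((1 - 2 * ε / 5) * (k : ℝ)) * ((2 + 2 * ε) * Real.log k) := by ring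
      _ ≤ (G.card : ℝ) * ((2 + 2 * ε) * Real.log k) :=
          mul_le_mul_of_nonneg_right hGc (mul_nonneg (by linarith) hlog0)

end Pool.Agent.Work.MP_b29d7f_two
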