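import Pool.Agent.Work.MP_b29d7f_two.Interface2

/-!
# Sets of exponent smaller than one half (two-sided): block TEL (helper65)
-/

namespace Pool.Agent.Work.MP_b29d7f_two

open Finset
open Pool.Agent.Work.MP_b29d7f_nt (IsPOrdering HasSimultaneousOrdering PS vd ld tv)
open Pool.Agent.Work.MP_b29d7f_half (Ord A wv lD)
open Pool.Agent.Work.MP_b29d7f_sep (nv EW EL)

theorem stmt_TEL (hMXB : Stmt_MXB) (hTSU : Stmt_TSU) : Stmt_TEL := by
  intro a k₀ C₀ h Q D hQ hD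
  obtain ⟨-, -, hle, -, -, -, -, -, hR, -⟩ := hMXB a k₀ C₀ h
  obtain ⟨-, -, hT, -⟩ := hTSU a h.ord
  -- the two parts of the growth over a block
  obtain ⟨α, hα⟩ : ∃ α : ℕ → ℝ, α = fun j => lD a (hx a (j * Q + Q)) - lD a (j * Q) := ⟨_, rfl⟩
  obtain ⟨β, hβ⟩ : ∃ β : ℕ → ℝ, β = fun j => lD a (j * Q + Q) - lD a (hx a (j * Q + Q)) :=
    ⟨_, rfl⟩
  have hα0 : ∀ j ∈ D, 0 ≤ α j := by
    intro j hj
    obtain ⟨r, h1, h2, h3⟩ := hD j hj
    have h4 : j * Q ≤ hx a (j * Q + Q) := hR (j * Q) (j * Q + Q) r h1 h2.le h3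
    rw [hα]
    exact sub_nonneg.2 (hT h4)
  have hβ0 : ∀ j, 0 ≤ β j := by
    intro j
    rw [hβ]
    exact sub_nonneg.2 (hT (hle _))
  have hRs : Rs a Q (Inn D) = ∑ j ∈ Inn D, α j + ∑ j ∈ Inn D, β j := by
    unfold Rs
    rw [← Finset.sum_add_distrib]
    refine Finset.sum_congr rfl fun j _ => ?_
    rw [hα, hβ]
    ring
  have hRh : Rh a Q (Lft D) = ∑ j ∈ Lft D, α j + ∑ j ∈ Lft D, β (j - 1) := by
    unfold Rh
    rw [← Finset.sum_add_distrib]
    refine Finset.sum_congr rfl fun j hj => ?_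
    have h1 : 1 ≤ j := (Finset.mem_filter.1 hj).2.1
    have h2 : (j - 1) * Q + Q = j * Q := by
      obtain ⟨i, rfl⟩ : ∃ i, j = i + 1 := ⟨j - 1, by omega⟩
      rw [Nat.add_sub_cancel, Nat.add_mul, one_mul]
    rw [hα, hβ]
    simp only [h2]
    ring
  have h1 : ∑ j ∈ Inn D, α j ≤ ∑ j ∈ Lft D, α j := by
    refine Finset.sum_le_sum_of_subset_of_nonneg ?_ ?_
    · intro j hj
      have hj' := Finset.mem_filter.1 hj
      exact Finset.mem_filter.2 ⟨hj'.1, hj'.2.1⟩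
    · intro j hj _
      exact hα0 j (Finset.mem_filter.1 hj).1
  have h2 : ∑ j ∈ Inn D, β j ≤ ∑ j ∈ Lft D, β (j - 1) := by
    calc ∑ j ∈ Inn D, β j = ∑ j ∈ (Inn D).image (fun j => j + 1), β (j - 1) := by
          rw [Finset.sum_image (fun x _ y _ hxy => by omega)]
          exact Finset.sum_congr rfl fun j _ => by rw [Nat.add_sub_cancel]
      _ ≤ ∑ j ∈ Lft D, β (j - 1) := by
          refine Finset.sum_le_sum_of_subset_of_nonneg ?_ fun j _ _ => hβ0 _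
          intro i hi
          obtain ⟨j, hj, rfl⟩ := Finset.mem_image.1 hi
          have hj' := Finset.mem_filter.1 hj
          exact Finset.mem_filter.2 ⟨hj'.2.2, by omega, by rw [Nat.add_sub_cancel]; exact hj'.1⟩
  rw [hRs, hRh]
  exact add_le_add h1 h2

end Pool.Agent.Work.MP_b29d7f_two
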