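import Pool.Agent.Work.MP_b29d7f_two.Interface3
import Pool.Agent.Work.MP_b29d7f_half.B_KSUM

/-!
# Block THU: upper bound for the equilibrium constant (helper96)
-/

namespace Pool.Agent.Work.MP_b29d7f_two

open Finset
open Pool.Agent.Work.MP_b29d7f_nt (IsPOrdering HasSimultaneousOrdering PS vd ld tv)
open Pool.Agent.Work.MP_b29d7f_half (Ord A wv lD)
open Pool.Agent.Work.MP_b29d7f_sep (nv EW EL)

theorem stmt_THU (h1 : Stmt_ENG) (_h2 : Stmt_EPU) (h3 : Stmt_PAD) (h4 : Stmt_PAE) :
    Stmt_THU := by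
  classical
  intro a ha p N L μ θ hp hN hE
  have hinj : Function.Injective a := (h4 a ha).1
  have hcard : (A a N).card = N := by
    unfold A
    rw [Finset.card_image_of_injective _ hinj, Finset.card_range]
  have hne : (A a N).Nonempty := by
    rw [← Finset.card_pos, hcard]; omega
  have hθ : θ ≤ Xe p L (A a N) := (h1 (A a N) p L).2.2 μ θ hE (A a N) (Finset.Subset.refl _) hne
  have hN0 : (0 : ℝ) < N := by exact_mod_cast (by omega : 0 < N)
  have hsum : ∑ x ∈ A a N, ∑ y ∈ A a N, (tv p L (x - y) : ℝ) ≤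
      (N : ℝ) * ((nv p a N : ℝ) + L) := by
    have e1 : ∑ x ∈ A a N, ∑ y ∈ A a N, (tv p L (x - y) : ℝ) =
        ∑ i ∈ range N, ∑ j ∈ range N, (tv p L (a i - a j) : ℝ) := by
      unfold A
      rw [Finset.sum_image (fun x _ y _ h => hinj h)]
      refine Finset.sum_congr rfl fun i _ => ?_
      rw [Finset.sum_image (fun x _ y _ h => hinj h)]
    rw [e1]
    have e2 : ∀ i ∈ range N, ∑ j ∈ range N, (tv p L (a i - a j) : ℝ) ≤ (nv p a N : ℝ) + L := by
      intro i hi
      rw [← Finset.sum_erase_add _ _ hi]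
      have e3 : (tv p L (a i - a i) : ℝ) = L := by
        rw [sub_self, Pool.Agent.Work.MP_b29d7f_half.KSUM94.tv_zero]
      rw [e3]
      have e4 : ∑ j ∈ (range N).erase i, tv p L (a i - a j) ≤
          ∑ j ∈ (range N).erase i, vl p a i j := by
        refine Finset.sum_le_sum fun j hj => ?_
        have hij : i ≠ j := (Finset.ne_of_mem_erase hj).symm
        exact Pool.Agent.Work.MP_b29d7f_half.KSUM94.tv_le hp L
          (sub_ne_zero.2 fun h => hij (hinj h))
      have e5 : ∑ j ∈ (range N).erase i, vl p a i j ≤ nv p a N :=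
        (h3 a ha p hp).2.2.2.2 i N (Finset.mem_range.1 hi)
      have e6 : (∑ j ∈ (range N).erase i, (tv p L (a i - a j) : ℝ)) ≤ nv p a N := by
        exact_mod_cast e4.trans e5
      linarith
    calc ∑ i ∈ range N, ∑ j ∈ range N, (tv p L (a i - a j) : ℝ)
        ≤ ∑ _i ∈ range N, ((nv p a N : ℝ) + L) := Finset.sum_le_sum e2
      _ = (N : ℝ) * ((nv p a N : ℝ) + L) := by
        rw [Finset.sum_const, Finset.card_range, nsmul_eq_mul]
  refine hθ.trans ?_
  unfold Xe
  rw [hcard, div_le_iff₀ (by positivity)]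
  calc ∑ x ∈ A a N, ∑ y ∈ A a N, (tv p L (x - y) : ℝ) ≤ (N : ℝ) * ((nv p a N : ℝ) + L) := hsum
    _ = ((nv p a N : ℝ) / N + (L : ℝ) / N) * (N : ℝ) ^ 2 := by
      field_simp

end Pool.Agent.Work.MP_b29d7f_two
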