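import Pool.Agent.Work.MP_b29d7f_two.Interface1

/-!
# Block TSU: the archimedean analogues
-/

namespace Pool.Agent.Work.MP_b29d7f_two

open Finset
open Pool.Agent.Work.MP_b29d7f_nt (IsPOrdering HasSimultaneousOrdering PS vd ld tv)
open Pool.Agent.Work.MP_b29d7f_half (Ord A wv lD mem_A stmt_ORD stmt_VDM)
open Pool.Agent.Work.MP_b29d7f_sep (nv EW EL stmt_ARCHO)

theorem stmt_TSU (hPRF : Stmt_PRF) (hSUPER : Stmt_SUPER) : Stmt_TSU := by
  classical
  intro a ho
  obtain ⟨h1, h2, h3, h4⟩ := stmt_ARCHO (Set.range a) a ho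
  obtain ⟨hinj, -, -, g4, -, -⟩ := stmt_ORD stmt_VDM (Set.range a) a ho
  refine ⟨?_, h3, h2, ?_, ?_⟩
  · intro k l
    obtain ⟨p1, -, p3, -, -⟩ := hPRF a ho (k + l)
    rw [p3 k (by omega), p3 l (by omega), p3 (k + l) le_rfl, ← Finset.sum_add_distrib]
    refine Finset.sum_le_sum fun p hp => ?_
    have hpp := p1 p hp
    have hs := hSUPER a ho p hpp k l
    have hl : 0 ≤ Real.log p := Real.log_nonneg (by exact_mod_cast hpp.one_le)
    have hs' : (nv p a k : ℝ) + nv p a l ≤ nv p a (k + l) := by exact_mod_cast hs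
    nlinarith
  · intro h k hk
    have e1 := h1 k (a h) (mem_A.mpr ⟨h, by omega, rfl⟩)
    have e2 : (A a (k + 1)).erase (a h) = ((range (k + 1)).erase h).image a := by
      unfold A
      rw [Finset.image_erase hinj]
    rw [e2, Finset.sum_image (fun x _ y _ hxy => hinj hxy)] at e1
    exact e1
  · intro X hX
    have e1 := g4 X hX
    rw [h4] at e1
    exact e1

end Pool.Agent.Work.MP_b29d7f_two
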