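import Pool.Agent.Work.MP_b29d7f_two.Interface1

/-!
# VLM: upper bound for the valuations of `∏ i < k, (a j - a i)`, `j ≥ k`
-/

namespace Pool.Agent.Work.MP_b29d7f_two

open Finset
open Pool.Agent.Work.MP_b29d7f_nt (IsPOrdering HasSimultaneousOrdering PS vd ld tv)
open Pool.Agent.Work.MP_b29d7f_half (Ord A wv lD)
open Pool.Agent.Work.MP_b29d7f_sep (nv EW EL)

theorem stmt_VLM (h1 : Stmt_PAD) (h2 : Stmt_PAE) : Stmt_VLM := by
  intro a ha p hp k j hk hkj
  obtain ⟨-, -, -, -, hlast⟩ := h1 a ha p hp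
  obtain ⟨-, h2'⟩ := h2 a ha
  obtain ⟨hsym, hult, -, -, -, -, -, -, -⟩ := h2' p hp
  obtain ⟨l, hl, hmax⟩ := Finset.exists_max_image (range k) (fun i => vl p a j i)
    ⟨0, mem_range.2 (by omega)⟩
  have hlk : l < k := mem_range.1 hl
  refine ⟨l, hlk, ?_⟩
  have e1 : ∑ i ∈ range k, vl p a j i = ∑ i ∈ (range k).erase l, vl p a j i + vl p a j l := by
    rw [Finset.sum_erase_add _ _ hl]
  have e2 : ∑ i ∈ (range k).erase l, vl p a j i ≤ ∑ i ∈ (range k).erase l, vl p a l i := by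
    apply Finset.sum_le_sum
    intro i hi
    rw [Finset.mem_erase, mem_range] at hi
    have hi2 : vl p a j i ≤ vl p a j l := hmax i (mem_range.2 hi.2)
    have e3 := hult l j i (by omega) (by omega) (fun h => hi.1 h.symm)
    rw [hsym l j, min_eq_right hi2] at e3
    exact e3
  have e4 := hlast l k hlk
  omega

end Pool.Agent.Work.MP_b29d7f_two
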