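import Pool.Agent.Work.MP_b29d7f_two.Interface2

/-!
# Block WR1: the energy of the `R`-elements of one window (helper34)
-/

set_option autoImplicit false

namespace Pool.Agent.Work.MP_b29d7f_two

open Finset
open Pool.Agent.Work.MP_b29d7f_half (Ord A wv lD)
open Pool.Agent.Work.MP_b29d7f_sep (nv EW EL)

theorem WR1_om {p : ℕ} {a : ℕ → ℤ} (hm : Monotone (nv p a)) (g : ℕ) :
    (om p a g : ℝ) = (nv p a (g + 1) : ℝ) - nv p a g := by
  unfold om
  rw [Nat.cast_sub (hm (Nat.le_succ g))]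

theorem WR1_tel {p : ℕ} {a : ℕ → ℤ} (hm : Monotone (nv p a)) (h v : ℕ) (hv : h ≤ v) :
    (nv p a v : ℝ) - nv p a h = ∑ g ∈ Ico h v, (om p a g : ℝ) := by
  induction v, hv using Nat.le_induction with
  | base => simp
  | succ v hv ih =>
    rw [Finset.sum_Ico_succ_top hv, ← ih, WR1_om hm]
    ring

/-- exchange of the order of summation, the later part -/
theorem WR1_up {p : ℕ} {a : ℕ → ℤ} (hm : Monotone (nv p a)) (u w : ℕ) (H : Finset ℕ)
    (hH : ∀ h ∈ H, u ≤ h ∧ h ≤ u + w) :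
    ∑ h ∈ H, ((nv p a (u + w) : ℝ) - nv p a h) =
      ∑ g ∈ Ico u (u + w), (om p a g : ℝ) * ((H.filter fun h => h ≤ g).card : ℝ) := by
  have h1 : ∀ h ∈ H, ((nv p a (u + w) : ℝ) - nv p a h) =
      ∑ g ∈ Ico u (u + w), if h ≤ g then (om p a g : ℝ) else 0 := by
    intro h hh
    obtain ⟨h2, h3⟩ := hH h hh
    rw [WR1_tel hm h (u + w) h3, ← Finset.sum_filter]
    refine Finset.sum_congr ?_ fun _ _ => rfl
    ext g
    rw [mem_filter, mem_Ico, mem_Ico]
    omega
  rw [Finset.sum_congr rfl h1, Finset.sum_comm]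
  refine Finset.sum_congr rfl fun g _ => ?_
  rw [← Finset.sum_filter, Finset.sum_const, nsmul_eq_mul, mul_comm]

/-- exchange of the order of summation, the earlier part -/
theorem WR1_down {p : ℕ} {a : ℕ → ℤ} (hm : Monotone (nv p a)) (u w : ℕ) (H : Finset ℕ)
    (hH : ∀ h ∈ H, u ≤ h ∧ h ≤ u + w) :
    ∑ h ∈ H, ((nv p a h : ℝ) - nv p a u) =
      ∑ g ∈ Ico u (u + w), (om p a g : ℝ) * ((H.filter fun h => g < h).card : ℝ) := by
  have h1 : ∀ h ∈ H, ((nv p a h : ℝ) - nv p a u) =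
      ∑ g ∈ Ico u (u + w), if g < h then (om p a g : ℝ) else 0 := by
    intro h hh
    obtain ⟨h2, h3⟩ := hH h hh
    rw [WR1_tel hm u h h2, ← Finset.sum_filter]
    refine Finset.sum_congr ?_ fun _ _ => rfl
    ext g
    rw [mem_filter, mem_Ico, mem_Ico]
    omega
  rw [Finset.sum_congr rfl h1, Finset.sum_comm]
  refine Finset.sum_congr rfl fun g _ => ?_
  rw [← Finset.sum_filter, Finset.sum_const, nsmul_eq_mul, mul_comm]

theorem WR1_Rf_le {a : ℕ → ℤ} {u w g : ℕ} (hg : g < u + w) :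
    ((Rf a u (u + w + 1)).filter fun h => h ≤ g) = Rf a u (g + 1) := by
  ext h
  rw [mem_filter, mem_Rf, mem_Rf]
  constructor
  · rintro ⟨⟨⟨h1, h2⟩, h3⟩, h4⟩
    exact ⟨⟨h1, by omega⟩, h3⟩
  · rintro ⟨⟨h1, h2⟩, h3⟩
    exact ⟨⟨⟨h1, by omega⟩, h3⟩, by omega⟩

theorem WR1_Rf_lt {a : ℕ → ℤ} {u w g : ℕ} (hg : u ≤ g) :
    ((Rf a u (u + w + 1)).filter fun h => g < h) = Rf a (g + 1) (u + w + 1) := by
  ext h
  rw [mem_filter, mem_Rf, mem_Rf]
  constructor
  · rintro ⟨⟨⟨h1, h2⟩, h3⟩, h4⟩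
    exact ⟨⟨by omega, h2⟩, h3⟩
  · rintro ⟨⟨h1, h2⟩, h3⟩
    exact ⟨⟨⟨by omega, h2⟩, h3⟩, by omega⟩

theorem WR1_Ico_le {u w g : ℕ} (hu : u ≤ g) (hg : g < u + w) :
    (((Ico u (u + w + 1)).filter fun h => h ≤ g).card : ℝ) = (g : ℝ) + 1 - u := by
  have h1 : ((Ico u (u + w + 1)).filter fun h => h ≤ g) = Ico u (g + 1) := by
    ext h
    rw [mem_filter, mem_Ico, mem_Ico]
    omega
  rw [h1, Nat.card_Ico, Nat.cast_sub (by omega)]
  push_cast
  ring

theorem WR1_Ico_lt {u w g : ℕ} (hu : u ≤ g) (hg : g < u + w) :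
    (((Ico u (u + w + 1)).filter fun h => g < h).card : ℝ) = (u : ℝ) + w - g := by
  have h1 : ((Ico u (u + w + 1)).filter fun h => g < h) = Ico (g + 1) (u + w + 1) := by
    ext h
    rw [mem_filter, mem_Ico, mem_Ico]
    omega
  rw [h1, Nat.card_Ico, Nat.cast_sub (by omega)]
  push_cast
  ring

theorem WR1_Rc_add {a : ℕ → ℤ} {s t r : ℕ} (h1 : s ≤ t) (h2 : t ≤ r) :
    Rc a s r = Rc a s t + Rc a t r := by
  unfold Rc
  have hd : Disjoint (Rf a s t) (Rf a t r) := by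
    rw [Finset.disjoint_left]
    intro x hx hx'
    rw [mem_Rf] at hx hx'
    omega
  rw [← Finset.card_union_of_disjoint hd]
  congr 1
  ext x
  rw [mem_union, mem_Rf, mem_Rf, mem_Rf]
  constructor
  · rintro ⟨⟨h3, h4⟩, h5⟩
    rcases Nat.lt_or_ge x t with h | h
    · exact Or.inl ⟨⟨h3, h⟩, h5⟩
    · exact Or.inr ⟨⟨h, h4⟩, h5⟩
  · rintro (⟨⟨h3, h4⟩, h5⟩ | ⟨⟨h3, h4⟩, h5⟩)
    · exact ⟨⟨h3, by omega⟩, h5⟩
    · exact ⟨⟨by omega, h4⟩, h5⟩

theorem WR1_Rc_le {a : ℕ → ℤ} {s t : ℕ} : Rc a s t ≤ t - s := by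
  unfold Rc
  rw [← Nat.card_Ico]
  refine Finset.card_le_card fun x hx => ?_
  rw [mem_Rf] at hx
  rw [mem_Ico]
  exact hx.1

theorem WR1_Rc_zero {a : ℕ → ℤ} {s t : ℕ} (h : t ≤ s) : Rc a s t = 0 := by
  have := WR1_Rc_le (a := a) (s := s) (t := t)
  omega

theorem WR1_A1 (a : ℕ → ℤ) (u g g' : ℕ) (hg : g ≤ g') :
    (Rc a u (g + 1) : ℝ) ≤ Rc a u (g' + 1) ∧
      (Rc a u (g' + 1) : ℝ) ≤ Rc a u (g + 1) + ((g' : ℝ) - g) := by
  rcases Nat.lt_or_ge (g + 1) u with h | h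
  · rw [WR1_Rc_zero (a := a) (s := u) (t := g + 1) (by omega)]
    have h1 := WR1_Rc_le (a := a) (s := u) (t := g' + 1)
    have h2 : Rc a u (g' + 1) ≤ g' - g := by omega
    have h3 : (Rc a u (g' + 1) : ℝ) ≤ ((g' - g : ℕ) : ℝ) := by exact_mod_cast h2
    rw [Nat.cast_sub hg] at h3
    exact ⟨by push_cast; positivity, by push_cast; linarith⟩
  · have h1 := WR1_Rc_add (a := a) (s := u) (t := g + 1) (r := g' + 1) h (by omega)
    have h2 := WR1_Rc_le (a := a) (s := g + 1) (t := g' + 1)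
    have h3 : Rc a (g + 1) (g' + 1) ≤ g' - g := by omega
    have h4 : (Rc a (g + 1) (g' + 1) : ℝ) ≤ ((g' - g : ℕ) : ℝ) := by exact_mod_cast h3
    rw [Nat.cast_sub hg] at h4
    rw [h1]
    push_cast
    have h5 : (0 : ℝ) ≤ Rc a (g + 1) (g' + 1) := by positivity
    constructor <;> linarith

theorem WR1_B2 (a : ℕ → ℤ) (v g g' : ℕ) (hg : g ≤ g') :
    (Rc a (g' + 1) v : ℝ) ≤ Rc a (g + 1) v ∧
      (Rc a (g + 1) v : ℝ) ≤ Rc a (g' + 1) v + ((g' : ℝ) - g) := by
  rcases Nat.lt_or_ge v (g' + 1) with h | h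
  · rw [WR1_Rc_zero (a := a) (s := g' + 1) (t := v) (by omega)]
    have h1 := WR1_Rc_le (a := a) (s := g + 1) (t := v)
    have h2 : Rc a (g + 1) v ≤ g' - g := by omega
    have h3 : (Rc a (g + 1) v : ℝ) ≤ ((g' - g : ℕ) : ℝ) := by exact_mod_cast h2
    rw [Nat.cast_sub hg] at h3
    exact ⟨by push_cast; positivity, by push_cast; linarith⟩
  · have h1 := WR1_Rc_add (a := a) (s := g + 1) (t := g' + 1) (r := v) (by omega) h
    have h2 := WR1_Rc_le (a := a) (s := g + 1) (t := g' + 1)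
    have h3 : Rc a (g + 1) (g' + 1) ≤ g' - g := by omega
    have h4 : (Rc a (g + 1) (g' + 1) : ℝ) ≤ ((g' - g : ℕ) : ℝ) := by exact_mod_cast h3
    rw [Nat.cast_sub hg] at h4
    rw [h1]
    push_cast
    have h5 : (0 : ℝ) ≤ Rc a (g + 1) (g' + 1) := by positivity
    constructor <;> linarith

theorem stmt_WR1 (hPAD : Stmt_PAD) (hPAE : Stmt_PAE) (hMP2 : Stmt_MP2) : Stmt_WR1 := by
  intro a hO p u w hp
  obtain ⟨hm, -, -, hF2, -⟩ := hPAD a hO p hp
  obtain ⟨-, hPAE'⟩ := hPAE a hO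
  obtain ⟨hsymm, -⟩ := hPAE' p hp
  have hRmem : ∀ h ∈ Rf a u (u + w + 1), u ≤ h ∧ h ≤ u + w := by
    intro h hh
    rw [mem_Rf] at hh
    omega
  have hImem : ∀ h ∈ Ico u (u + w + 1), u ≤ h ∧ h ≤ u + w := by
    intro h hh
    rw [mem_Ico] at hh
    omega
  refine ⟨?_, ?_⟩
  · unfold EWR Rc
    rw [← nsmul_eq_mul, ← Finset.sum_const]
    refine Finset.sum_le_sum fun h hh => ?_
    obtain ⟨h1, h2⟩ := hRmem h hh
    have h3 := hF2 u (u + w) h h1 h2
    have h4 : Ico u (u + w + 1) = Icc u (u + w) := by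
      ext x
      rw [mem_Ico, mem_Icc]
      omega
    rw [h4]
    have h5 : ((nv p a u + ∑ l ∈ (Icc u (u + w)).erase h, vl p a h l : ℕ) : ℝ) ≤
        (nv p a (u + w) : ℝ) := by exact_mod_cast h3
    push_cast at h5
    linarith
  · -- forward and backward
    set F : ℝ := ∑ h ∈ Rf a u (u + w + 1), ∑ l ∈ Ico (h + 1) (u + w + 1), (vl p a h l : ℝ) with hF
    set Bk : ℝ := ∑ h ∈ Rf a u (u + w + 1), ∑ l ∈ Ico u h, (vl p a h l : ℝ) with hBk
    have hfwd : ∀ h : ℕ, h ≤ u + w →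
        ∑ l ∈ Ico (h + 1) (u + w + 1), (vl p a h l : ℝ) ≤ (nv p a (u + w) : ℝ) - nv p a h := by
      intro h hh
      have h3 := hF2 h (u + w) h le_rfl hh
      have h4 : (Icc h (u + w)).erase h = Ico (h + 1) (u + w + 1) := by
        ext x
        rw [mem_erase, mem_Ico, mem_Icc]
        omega
      rw [h4] at h3
      have h5 : ((nv p a h + ∑ l ∈ Ico (h + 1) (u + w + 1), vl p a h l : ℕ) : ℝ) ≤
          (nv p a (u + w) : ℝ) := by exact_mod_cast h3
      push_cast at h5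
      linarith
    have hbwd : ∀ h : ℕ, u ≤ h →
        ∑ l ∈ Ico u h, (vl p a h l : ℝ) ≤ (nv p a h : ℝ) - nv p a u := by
      intro h hh
      have h3 := hF2 u h h hh le_rfl
      have h4 : (Icc u h).erase h = Ico u h := by
        ext x
        rw [mem_erase, mem_Ico, mem_Icc]
        omega
      rw [h4] at h3
      have h5 : ((nv p a u + ∑ l ∈ Ico u h, vl p a h l : ℕ) : ℝ) ≤
          (nv p a h : ℝ) := by exact_mod_cast h3
      push_cast at h5
      linarith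
    have hsplit : EWR p a u w = F + Bk := by
      unfold EWR
      rw [hF, hBk, ← Finset.sum_add_distrib]
      refine Finset.sum_congr rfl fun h hh => ?_
      obtain ⟨h1, h2⟩ := hRmem h hh
      have hd : Disjoint (Ico (h + 1) (u + w + 1)) (Ico u h) := by
        rw [Finset.disjoint_left]
        intro x hx hx'
        rw [mem_Ico] at hx hx'
        omega
      rw [← Finset.sum_union hd]
      refine Finset.sum_congr ?_ fun _ _ => rfl
      ext x
      rw [mem_erase, mem_union, mem_Ico, mem_Ico, mem_Ico]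
      omega
    -- the four bounds
    have hF1 : F ≤ ∑ g ∈ Ico u (u + w), (om p a g : ℝ) * (Rc a u (g + 1) : ℝ) := by
      have h1 : F ≤ ∑ h ∈ Rf a u (u + w + 1), ((nv p a (u + w) : ℝ) - nv p a h) :=
        Finset.sum_le_sum fun h hh => hfwd h (hRmem h hh).2
      rw [WR1_up hm u w _ hRmem] at h1
      refine h1.trans (le_of_eq (Finset.sum_congr rfl fun g hg => ?_))
      rw [mem_Ico] at hg
      rw [WR1_Rf_le hg.2]
      rfl
    have hB1 : Bk ≤ ∑ g ∈ Ico u (u + w), (om p a g : ℝ) * (Rc a (g + 1) (u + w + 1) : ℝ) := by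
      have h1 : Bk ≤ ∑ h ∈ Rf a u (u + w + 1), ((nv p a h : ℝ) - nv p a u) :=
        Finset.sum_le_sum fun h hh => hbwd h (hRmem h hh).1
      rw [WR1_down hm u w _ hRmem] at h1
      refine h1.trans (le_of_eq (Finset.sum_congr rfl fun g hg => ?_))
      rw [mem_Ico] at hg
      rw [WR1_Rf_lt hg.1]
      rfl
    have hRsub : Rf a u (u + w + 1) ⊆ Ico u (u + w + 1) := by
      intro x hx
      rw [mem_Rf] at hx
      rw [mem_Ico]
      exact hx.1
    have hF2' : F ≤ ∑ g ∈ Ico u (u + w), (om p a g : ℝ) * max ((u : ℝ) + w - g) 0 := by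
      have h1 : F ≤ ∑ h ∈ Ico u (u + w + 1), ∑ l ∈ Ico (h + 1) (u + w + 1), (vl p a h l : ℝ) :=
        Finset.sum_le_sum_of_subset_of_nonneg hRsub fun _ _ _ =>
          Finset.sum_nonneg fun _ _ => Nat.cast_nonneg _
      have h2 : ∑ h ∈ Ico u (u + w + 1), ∑ l ∈ Ico (h + 1) (u + w + 1), (vl p a h l : ℝ) =
          ∑ l ∈ Ico u (u + w + 1), ∑ h ∈ Ico u l, (vl p a l h : ℝ) := by
        rw [Finset.sum_comm' (t' := Ico u (u + w + 1)) (s' := fun l => Ico u l)]
        · refine Finset.sum_congr rfl fun l _ => Finset.sum_congr rfl fun h _ => ?_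
          rw [hsymm h l]
        · intro x y
          rw [mem_Ico, mem_Ico, mem_Ico, mem_Ico]
          omega
      have h3 : ∑ l ∈ Ico u (u + w + 1), ∑ h ∈ Ico u l, (vl p a l h : ℝ) ≤
          ∑ l ∈ Ico u (u + w + 1), ((nv p a l : ℝ) - nv p a u) :=
        Finset.sum_le_sum fun l hl => hbwd l (hImem l hl).1
      rw [WR1_down hm u w _ hImem] at h3
      refine (h1.trans_eq h2).trans (h3.trans (le_of_eq (Finset.sum_congr rfl fun g hg => ?_)))
      rw [mem_Ico] at hg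
      rw [WR1_Ico_lt hg.1 hg.2, max_eq_left]
      have : (g : ℝ) ≤ u + w := by exact_mod_cast hg.2.le
      linarith
    have hB2' : Bk ≤ ∑ g ∈ Ico u (u + w), (om p a g : ℝ) * max ((g : ℝ) + 1 - u) 0 := by
      have h1 : Bk ≤ ∑ h ∈ Ico u (u + w + 1), ∑ l ∈ Ico u h, (vl p a h l : ℝ) :=
        Finset.sum_le_sum_of_subset_of_nonneg hRsub fun _ _ _ =>
          Finset.sum_nonneg fun _ _ => Nat.cast_nonneg _
      have h2 : ∑ h ∈ Ico u (u + w + 1), ∑ l ∈ Ico u h, (vl p a h l : ℝ) =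
          ∑ l ∈ Ico u (u + w + 1), ∑ h ∈ Ico (l + 1) (u + w + 1), (vl p a l h : ℝ) := by
        rw [Finset.sum_comm' (t' := Ico u (u + w + 1)) (s' := fun l => Ico (l + 1) (u + w + 1))]
        · refine Finset.sum_congr rfl fun l _ => Finset.sum_congr rfl fun h _ => ?_
          rw [hsymm h l]
        · intro x y
          rw [mem_Ico, mem_Ico, mem_Ico, mem_Ico]
          omega
      have h3 : ∑ l ∈ Ico u (u + w + 1), ∑ h ∈ Ico (l + 1) (u + w + 1), (vl p a l h : ℝ) ≤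
          ∑ l ∈ Ico u (u + w + 1), ((nv p a (u + w) : ℝ) - nv p a l) :=
        Finset.sum_le_sum fun l hl => hfwd l (hImem l hl).2
      rw [WR1_up hm u w _ hImem] at h3
      refine (h1.trans_eq h2).trans (h3.trans (le_of_eq (Finset.sum_congr rfl fun g hg => ?_)))
      rw [mem_Ico] at hg
      rw [WR1_Ico_le hg.1 hg.2, max_eq_left]
      have : (u : ℝ) ≤ g := by exact_mod_cast hg.1
      linarith
    -- the two applications of MP2
    have hMF := hMP2 (om p a) (fun g => (Rc a u (g + 1) : ℝ)) (fun g => max ((u : ℝ) + w - g) 0)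
      u w F (fun g g' hg => WR1_A1 a u g g' hg) (fun g g' hg => by
        have h1 : (g : ℝ) ≤ g' := by exact_mod_cast hg
        constructor
        · exact max_le_max (by linarith) le_rfl
        · refine max_le ?_ ?_
          · have := le_max_left ((u : ℝ) + w - g') 0
            linarith
          · have := le_max_right ((u : ℝ) + w - g') 0
            linarith) hF1 hF2'
    have hMB := hMP2 (om p a) (fun g => max ((g : ℝ) + 1 - u) 0)
      (fun g => (Rc a (g + 1) (u + w + 1) : ℝ))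
      u w Bk (fun g g' hg => by
        have h1 : (g : ℝ) ≤ g' := by exact_mod_cast hg
        constructor
        · exact max_le_max (by linarith) le_rfl
        · refine max_le ?_ ?_
          · have := le_max_left ((g : ℝ) + 1 - u) 0
            linarith
          · have := le_max_right ((g : ℝ) + 1 - u) 0
            linarith) (fun g g' hg => WR1_B2 a (u + w + 1) g g' hg) hB2' hB1
    rw [hsplit]
    have hsum : ∑ g ∈ Ico u (u + w), (om p a g : ℝ) *
        (min (Rc a u (g + 1) : ℝ) ((u : ℝ) + w - g) +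
          min (Rc a (g + 1) (u + w + 1) : ℝ) ((g : ℝ) + 1 - u)) =
        ∑ g ∈ Ico u (u + w), (om p a g : ℝ) *
          min (Rc a u (g + 1) : ℝ) (max ((u : ℝ) + w - g) 0) +
        ∑ g ∈ Ico u (u + w), (om p a g : ℝ) *
          min (max ((g : ℝ) + 1 - u) 0) (Rc a (g + 1) (u + w + 1) : ℝ) := by
      rw [← Finset.sum_add_distrib]
      refine Finset.sum_congr rfl fun g hg => ?_
      rw [mem_Ico] at hg
      have h1 : (g : ℝ) ≤ u + w := by exact_mod_cast hg.2.le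
      have h2 : (u : ℝ) ≤ g := by exact_mod_cast hg.1
      rw [max_eq_left (by linarith), max_eq_left (by linarith),
        min_comm ((g : ℝ) + 1 - u) (Rc a (g + 1) (u + w + 1) : ℝ)]
      ring
    rw [hsum]
    unfold PT
    linarith

end Pool.Agent.Work.MP_b29d7f_two
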