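import Pool.Agent.Work.MP_b29d7f_two.Interface2

/-!
# Block WR2 (helper1)
-/

namespace Pool.Agent.Work.MP_b29d7f_two

open Finset
open Pool.Agent.Work.MP_b29d7f_nt (IsPOrdering HasSimultaneousOrdering PS vd ld tv)
open Pool.Agent.Work.MP_b29d7f_half (Ord A wv lD)
open Pool.Agent.Work.MP_b29d7f_sep (nv EW EL)

theorem WR2_Rc_add (a : ℕ → ℤ) {s t r : ℕ} (h1 : s ≤ t) (h2 : t ≤ r) :
    Rc a s t + Rc a t r = Rc a s r := by
  classical
  unfold Rc Rf
  rw [card_filter, card_filter, card_filter]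
  exact sum_Ico_consecutive _ h1 h2

theorem WR2_om (a : ℕ → ℤ) (p : ℕ) (hm : Monotone (nv p a)) (g : ℕ) :
    (om p a g : ℝ) = (nv p a (g + 1) : ℝ) - nv p a g := by
  unfold om
  rw [Nat.cast_sub (hm (Nat.le_succ g))]

theorem WR2_tel (a : ℕ → ℤ) (p : ℕ) (hm : Monotone (nv p a)) (u w : ℕ) :
    ∑ g ∈ Ico u (u + w), (om p a g : ℝ) = (nv p a (u + w) : ℝ) - nv p a u := by
  rw [sum_Ico_eq_sum_range, Nat.add_sub_cancel_left]
  induction w with
  | zero => simp
  | succ w ih =>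
    rw [sum_range_succ, ih, WR2_om a p hm]
    have : u + w + 1 = u + (w + 1) := by ring
    rw [this]
    ring

/-- The double sum over windows and places. -/
theorem WR2_dbl (a : ℕ → ℤ) (p : ℕ) (hm : Monotone (nv p a)) (s Q w : ℕ) (hw1 : 1 ≤ w) (hwQ : w ≤ Q)
    (f : ℕ → ℝ) (hf : ∀ d, 1 ≤ d → d ≤ w → 0 ≤ f d) :
    ∑ u ∈ Ico s (s + Q - w + 1), ∑ g ∈ Ico u (u + w), (om p a g : ℝ) * f (g + 1 - u) ≤
      (∑ d ∈ Icc 1 w, f d) * ((nv p a (s + Q) : ℝ) - nv p a s) := by
  have h1 : ∀ u, ∑ g ∈ Ico u (u + w), (om p a g : ℝ) * f (g + 1 - u) =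
      ∑ i ∈ range w, f (i + 1) * (om p a (u + i) : ℝ) := by
    intro u
    rw [sum_Ico_eq_sum_range, Nat.add_sub_cancel_left]
    refine sum_congr rfl fun i _ => ?_
    have : u + i + 1 - u = i + 1 := by omega
    rw [this, mul_comm]
  simp only [h1]
  rw [sum_comm]
  have h2 : ∑ d ∈ Icc 1 w, f d = ∑ i ∈ range w, f (i + 1) := by
    have : Icc 1 w = Ico 1 (1 + w) := by
      ext d; simp only [mem_Icc, mem_Ico]; omega
    rw [this, sum_Ico_eq_sum_range, Nat.add_sub_cancel_left]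
    refine sum_congr rfl fun i _ => ?_
    rw [add_comm]
  rw [h2, sum_mul]
  refine sum_le_sum fun i hi => ?_
  have hi' := mem_range.mp hi
  rw [← mul_sum]
  refine mul_le_mul_of_nonneg_left ?_ (hf (i + 1) (by omega) (by omega))
  have h3 : ∑ u ∈ Ico s (s + Q - w + 1), (om p a (u + i) : ℝ) =
      ∑ g ∈ Ico (s + i) (s + Q - w + 1 + i), (om p a g : ℝ) := by
    rw [← sum_Ico_add' (fun g => (om p a g : ℝ)) s (s + Q - w + 1) i]
  rw [h3, ← WR2_tel a p hm s Q]
  refine sum_le_sum_of_subset_of_nonneg (fun g hg => ?_) (fun g _ _ => Nat.cast_nonneg _)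
  rw [mem_Ico] at hg ⊢
  omega

theorem stmt_WR2 (hWR1 : Stmt_WR1) (hMNS : Stmt_MNS) (hPAD : Stmt_PAD) : Stmt_WR2 := by
  intro a ha p s Q w ρ e hp hw1 hwQ hρ0 hρ1 he
  have hm : Monotone (nv p a) := (hPAD a ha p hp).1
  have hgr : ∀ u, 0 ≤ (nv p a (u + w) : ℝ) - nv p a u := by
    intro u
    have : nv p a u ≤ nv p a (u + w) := hm (Nat.le_add_right u w)
    have : (nv p a u : ℝ) ≤ nv p a (u + w) := by exact_mod_cast this
    linarith
  have hw0 : (0 : ℝ) ≤ w := Nat.cast_nonneg w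
  have hsub : GW a s Q w ρ e ⊆ Ico s (s + Q - w + 1) := by
    intro u hu
    rw [mem_GW] at hu
    exact mem_Ico.mpr hu.1
  constructor
  · have h1 : ∀ u ∈ GW a s Q w ρ e, EWR p a u w ≤
        (ρ * ((w : ℝ) + 1) + e * w) * ((nv p a (u + w) : ℝ) - nv p a u) := by
      intro u hu
      rw [mem_GW] at hu
      refine (hWR1 a ha p u w hp).1.trans (mul_le_mul_of_nonneg_right ?_ (hgr u))
      have h := abs_le.mp (hu.2 (w + 1) le_rfl)
      have e1 : u + (w + 1) = u + w + 1 := by ring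
      rw [e1] at h
      push_cast at h
      linarith [h.2]
    have h2 := WR2_dbl a p hm s Q w hw1 hwQ (fun _ => 1) (fun _ _ _ => zero_le_one)
    simp only [mul_one, sum_const, Nat.card_Icc, nsmul_eq_mul, WR2_tel a p hm,
      Nat.add_sub_cancel] at h2
    have hc : 0 ≤ ρ * ((w : ℝ) + 1) + e * w := by positivity
    calc ∑ u ∈ GW a s Q w ρ e, EWR p a u w ≤
          ∑ u ∈ GW a s Q w ρ e, (ρ * ((w : ℝ) + 1) + e * w) * ((nv p a (u + w) : ℝ) - nv p a u) :=
          sum_le_sum h1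
      _ ≤ ∑ u ∈ Ico s (s + Q - w + 1),
          (ρ * ((w : ℝ) + 1) + e * w) * ((nv p a (u + w) : ℝ) - nv p a u) :=
          sum_le_sum_of_subset_of_nonneg hsub fun u _ _ => mul_nonneg hc (hgr u)
      _ = (ρ * ((w : ℝ) + 1) + e * w) *
          ∑ u ∈ Ico s (s + Q - w + 1), ((nv p a (u + w) : ℝ) - nv p a u) := by rw [mul_sum]
      _ ≤ (ρ * ((w : ℝ) + 1) + e * w) * (w * ((nv p a (s + Q) : ℝ) - nv p a s)) :=
          mul_le_mul_of_nonneg_left h2 hc
      _ = _ := by ring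
  · set f : ℕ → ℝ := fun d => min (ρ * d) ((w : ℝ) + 1 - d) + min (ρ * ((w : ℝ) + 1 - d)) (d : ℝ) +
      3 * e * w with hf
    have hf0 : ∀ d, 1 ≤ d → d ≤ w → 0 ≤ f d := by
      intro d h1 h2
      have h3 : (d : ℝ) ≤ w := by exact_mod_cast h2
      have h4 : (0 : ℝ) ≤ d := Nat.cast_nonneg d
      have h5 : 0 ≤ min (ρ * (d : ℝ)) ((w : ℝ) + 1 - d) :=
        le_min (mul_nonneg hρ0 h4) (by linarith)
      have h6 : 0 ≤ min (ρ * ((w : ℝ) + 1 - d)) (d : ℝ) :=
        le_min (mul_nonneg hρ0 (by linarith)) h4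
      have h7 : 0 ≤ 3 * e * w := by positivity
      simp only [hf]
      linarith
    have hPT0 : ∀ u, 0 ≤ PT p a u w := by
      intro u
      unfold PT
      refine sum_nonneg fun g _ => sum_nonneg fun g' hg' => ?_
      rw [mem_Ico] at hg'
      have : (g : ℝ) + 1 ≤ g' := by exact_mod_cast hg'.1
      have h2 : (0 : ℝ) ≤ (g' : ℝ) - g := by linarith
      positivity
    have h1 : ∀ u ∈ GW a s Q w ρ e, EWR p a u w ≤
        ∑ g ∈ Ico u (u + w), (om p a g : ℝ) * f (g + 1 - u) + 4 * PT p a u w := by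
      intro u hu
      rw [mem_GW] at hu
      refine (hWR1 a ha p u w hp).2.trans (add_le_add_left ?_ _)
      refine sum_le_sum fun g hg => mul_le_mul_of_nonneg_left ?_ (Nat.cast_nonneg _)
      rw [mem_Ico] at hg
      obtain ⟨d, hd⟩ : ∃ d, g + 1 = u + d := ⟨g + 1 - u, by omega⟩
      have hd' : g + 1 - u = d := by omega
      have hdw : d ≤ w := by omega
      have hd1 : 1 ≤ d := by omega
      rw [hd', hd]
      have hg1 : (g : ℝ) + 1 = u + d := by exact_mod_cast hd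
      have ea : (u : ℝ) + w - g = (w : ℝ) + 1 - d := by linarith
      have eb : (g : ℝ) + 1 - u = d := by linarith
      rw [ea, eb]
      have g1 := abs_le.mp (hu.2 d (by omega))
      have g2 := abs_le.mp (hu.2 (w + 1) le_rfl)
      have e1 : u + (w + 1) = u + w + 1 := by ring
      rw [e1] at g2
      have g3 : Rc a u (u + d) + Rc a (u + d) (u + w + 1) = Rc a u (u + w + 1) :=
        WR2_Rc_add a (by omega) (by omega)
      have g3' : (Rc a u (u + d) : ℝ) + Rc a (u + d) (u + w + 1) = Rc a u (u + w + 1) := by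
        exact_mod_cast g3
      push_cast at g2
      have hew : 0 ≤ e * w := by positivity
      have k1 : min (Rc a u (u + d) : ℝ) ((w : ℝ) + 1 - d) ≤
          min (ρ * d) ((w : ℝ) + 1 - d) + e * w := by
        rcases min_cases (ρ * (d : ℝ)) ((w : ℝ) + 1 - d) with ⟨h, _⟩ | ⟨h, _⟩
        · rw [h]
          exact (min_le_left _ _).trans (by linarith [g1.2])
        · rw [h]
          exact (min_le_right _ _).trans (by linarith)
      have k2 : min (Rc a (u + d) (u + w + 1) : ℝ) (d : ℝ) ≤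
          min (ρ * ((w : ℝ) + 1 - d)) (d : ℝ) + 2 * (e * w) := by
        rcases min_cases (ρ * ((w : ℝ) + 1 - d)) (d : ℝ) with ⟨h, _⟩ | ⟨h, _⟩
        · rw [h]
          exact (min_le_left _ _).trans (by linarith [g1.1, g2.2])
        · rw [h]
          exact (min_le_right _ _).trans (by linarith)
      simp only [hf]
      linarith
    have h2 := WR2_dbl a p hm s Q w hw1 hwQ f hf0
    have h3 : ∑ d ∈ Icc 1 w, f d ≤ ρ * ((w : ℝ) + 1) ^ 2 / (1 + ρ) + 3 * e * (w : ℝ) ^ 2 := by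
      simp only [hf, sum_add_distrib, sum_const, Nat.card_Icc, nsmul_eq_mul, Nat.add_sub_cancel]
      obtain ⟨m1, m2⟩ := hMNS w ρ hρ0 hρ1
      have e1 : ρ * ((w : ℝ) + 1) ^ 2 / (1 + ρ) =
          ρ * ((w : ℝ) + 1) ^ 2 / (2 * (1 + ρ)) + ρ * ((w : ℝ) + 1) ^ 2 / (2 * (1 + ρ)) := by
        have : (1 + ρ) ≠ 0 := by positivity
        field_simp
        ring
      rw [e1]
      linarith
    have hgQ : 0 ≤ (nv p a (s + Q) : ℝ) - nv p a s := by
      have : nv p a s ≤ nv p a (s + Q) := hm (Nat.le_add_right s Q)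
      have : (nv p a s : ℝ) ≤ nv p a (s + Q) := by exact_mod_cast this
      linarith
    calc ∑ u ∈ GW a s Q w ρ e, EWR p a u w ≤
          ∑ u ∈ GW a s Q w ρ e, (∑ g ∈ Ico u (u + w), (om p a g : ℝ) * f (g + 1 - u) +
            4 * PT p a u w) := sum_le_sum h1
      _ ≤ ∑ u ∈ Ico s (s + Q - w + 1), (∑ g ∈ Ico u (u + w), (om p a g : ℝ) * f (g + 1 - u) +
            4 * PT p a u w) := by
          refine sum_le_sum_of_subset_of_nonneg hsub fun u _ _ => ?_
          refine add_nonneg (sum_nonneg fun g hg => ?_) (by linarith [hPT0 u])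
          rw [mem_Ico] at hg
          exact mul_nonneg (Nat.cast_nonneg _) (hf0 _ (by omega) (by omega))
      _ = ∑ u ∈ Ico s (s + Q - w + 1), ∑ g ∈ Ico u (u + w), (om p a g : ℝ) * f (g + 1 - u) +
            4 * ∑ u ∈ Ico s (s + Q - w + 1), PT p a u w := by
          rw [sum_add_distrib, mul_sum]
      _ ≤ _ := by
          refine add_le_add_left (h2.trans (mul_le_mul_of_nonneg_right h3 hgQ)) _

end Pool.Agent.Work.MP_b29d7f_two
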