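import Pool.Agent.Work.MP_b29d7f_two.Interface3
import Pool.Agent.Work.MP_b29d7f_cvx.B_MERD

/-!
# Block WT1: the sum of `log p / (p - 1)` over the primes of `PA a N P₂`
-/

namespace Pool.Agent.Work.MP_b29d7f_two

open Finset
open Pool.Agent.Work.MP_b29d7f_half (Ord A wv lD)
open Pool.Agent.Work.MP_b29d7f_sep (nv EW EL)

theorem stmt_WT1 (hGGB : Stmt_GGB) (_hPRF : Stmt_PRF) (hCPA : Stmt_CPA) : Stmt_WT1 := by
  classical
  intro a k₀ C₀ hD
  obtain ⟨C, hC0, hC⟩ := Pool.Agent.Work.MP_b29d7f_cvx.stmt_MERD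
  obtain ⟨g1, -, g3, -, -, -, -⟩ := hGGB a k₀ C₀ hD
  have hC₀ := hD.one_le
  have hlC₀ : 0 ≤ Real.log C₀ := Real.log_nonneg hC₀
  refine ⟨C + Real.log C₀ + 1, 21, by linarith, ?_⟩
  intro N P₂ hN hP₂ hP₂N
  have hNR : (21 : ℝ) ≤ N := by exact_mod_cast hN
  have hP₂R : (2 : ℝ) ≤ P₂ := by exact_mod_cast hP₂
  have hP₂NR : (P₂ : ℝ) ≤ N := by exact_mod_cast hP₂N
  -- `log N ≥ 3`
  have hlogN : 3 ≤ Real.log N := by
    rw [Real.le_log_iff_exp_le (by linarith)]
    have h4 : Real.exp 3 = Real.exp 1 ^ 3 := by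
      rw [← Real.exp_nat_mul]; norm_num
    have h5 : Real.exp 1 ≤ 2.7182818286 := Real.exp_one_lt_d9.le
    have h6 : Real.exp 1 ^ 3 ≤ 2.7182818286 ^ 3 := by
      have := Real.exp_pos 1
      gcongr
    rw [h4]
    refine le_trans h6 (le_trans ?_ hNR)
    norm_num
  have hel : Real.log N ≤ el N := Nat.le_ceil _
  have hel3 : (3 : ℝ) ≤ el N := le_trans hlogN hel
  have hel0 : (0 : ℝ) < el N := by linarith
  have hlel : 1 ≤ Real.log (el N) := by
    rw [Real.le_log_iff_exp_le hel0]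
    have h5 : Real.exp 1 ≤ 2.7182818286 := Real.exp_one_lt_d9.le
    linarith
  have hprime : ∀ p ∈ PA a N P₂, p.Prime := by
    intro p hp
    have := (mem_PA.mp hp).1
    unfold PR at this
    exact Nat.prime_of_mem_primeFactors this
  set D : ℕ := ∏ p ∈ PA a N P₂, p with hDdef
  have hDpf : D.primeFactors = PA a N P₂ := Nat.primeFactors_prod hprime
  have hD1 : 1 ≤ D := Finset.prod_pos fun p hp => (hprime p hp).pos
  have hX : ∃ X : ℝ, X = C₀ * P₂ * el N := ⟨_, rfl⟩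
  obtain ⟨X, hXdef⟩ := hX
  have hX1 : 1 ≤ X := by
    rw [hXdef]
    have h1 : (1 : ℝ) ≤ C₀ * P₂ := by nlinarith
    nlinarith
  have hDX : Real.log D ≤ X := by
    have h1 : Real.log D = ∑ p ∈ PA a N P₂, Real.log p := by
      rw [hDdef, Nat.cast_prod, Real.log_prod]
      intro p hp
      exact_mod_cast (hprime p hp).ne_zero
    have h2 := (hCPA a hD.ord N P₂ (by omega)).2.1
    have h3 := g3 P₂
    have h4 := g1 P₂ hP₂
    have h5 : Real.log P₂ ≤ Real.log N := Real.log_le_log (by linarith) hP₂NR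
    rw [h1]
    refine le_trans h2 ?_
    rw [← h3, hXdef]
    have h6 : gg a P₂ ≤ C₀ * el N := by
      refine le_trans h4 ?_
      exact mul_le_mul_of_nonneg_left (h5.trans hel) (by linarith)
    calc (P₂ : ℝ) * gg a P₂ ≤ P₂ * (C₀ * el N) := mul_le_mul_of_nonneg_left h6 (by linarith)
      _ = C₀ * P₂ * el N := by ring
  have hmain := hC D X hD1 hX1 hDX
  rw [hDpf] at hmain
  refine le_trans hmain ?_
  have hlX : Real.log X = Real.log C₀ + Real.log P₂ + Real.log (el N) := by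
    rw [hXdef, Real.log_mul (by positivity) hel0.ne', Real.log_mul (by positivity) (by positivity)]
  rw [hlX]
  nlinarith

end Pool.Agent.Work.MP_b29d7f_two
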