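import Pool.Agent.Work.MP_b29d7f_two.Interface3

/-!
# Block WT3: the large primes with equilibrium constant at least `1/5` have bounded weight
(helper98)
-/

namespace Pool.Agent.Work.MP_b29d7f_two

open Finset
open Pool.Agent.Work.MP_b29d7f_nt (IsPOrdering HasSimultaneousOrdering PS vd ld tv)
open Pool.Agent.Work.MP_b29d7f_half (Ord A wv lD)
open Pool.Agent.Work.MP_b29d7f_sep (nv EW EL)

namespace WT3h

/-- exchange of the two sums over the pairs `j < K`, `l < N`, `j ≠ l` -/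
theorem sum_swap (f : ℕ → ℕ → ℝ) (K N : ℕ) :
    ∑ j ∈ range K, ∑ l ∈ (range N).erase j, f j l =
      ∑ l ∈ range N, ∑ j ∈ (range K).erase l, f j l := by
  classical
  have e1 : ∀ j ∈ range K, ∑ l ∈ (range N).erase j, f j l =
      ∑ l ∈ range N, if l = j then 0 else f j l := by
    intro j _
    rw [← Finset.filter_ne', Finset.sum_filter]
    refine Finset.sum_congr rfl fun l _ => ?_
    by_cases h : l = j
    · simp [h]
    · simp [h]
  have e2 : ∀ l ∈ range N, ∑ j ∈ (range K).erase l, f j l =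
      ∑ j ∈ range K, if l = j then 0 else f j l := by
    intro l _
    rw [← Finset.filter_ne', Finset.sum_filter]
    refine Finset.sum_congr rfl fun j _ => ?_
    by_cases h : l = j
    · simp [h]
    · have h' : j ≠ l := fun h' => h h'.symm
      simp [h, h']
  rw [Finset.sum_congr rfl e1, Finset.sum_congr rfl e2, Finset.sum_comm]

/-- one prime: the sum of the defects of the first `K` indices at `N` -/
theorem defects (a : ℕ → ℤ) (p K N : ℕ) (V w : ℝ)
    (hK : 12 * V ≤ K) (hw : (N : ℝ) / 6 ≤ w) (hsym : ∀ i j : ℕ, vl p a i j = vl p a j i)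
    (hrow : ∀ l : ℕ, l < N → ∑ j ∈ (range K).erase l, (vl p a l j : ℝ) ≤ V) :
    (K : ℝ) * w / 2 ≤
      ∑ j ∈ range K, (w - ∑ l ∈ (range N).erase j, (vl p a j l : ℝ)) := by
  rw [Finset.sum_sub_distrib, Finset.sum_const, Finset.card_range, nsmul_eq_mul]
  have e1 : ∑ j ∈ range K, ∑ l ∈ (range N).erase j, (vl p a j l : ℝ) ≤ N * V := by
    rw [sum_swap]
    calc ∑ l ∈ range N, ∑ j ∈ (range K).erase l, (vl p a j l : ℝ)
        ≤ ∑ _l ∈ range N, V := by
          refine Finset.sum_le_sum fun l hl => ?_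
          refine le_trans (le_of_eq ?_) (hrow l (mem_range.1 hl))
          refine Finset.sum_congr rfl fun j _ => ?_
          rw [hsym j l]
      _ = N * V := by rw [Finset.sum_const, Finset.card_range, nsmul_eq_mul]
  have hK0 : (0 : ℝ) ≤ K := Nat.cast_nonneg _
  have hN0 : (0 : ℝ) ≤ N := Nat.cast_nonneg _
  have e2 : (N : ℝ) * V ≤ (K : ℝ) * w / 2 := by
    have e3 : (K : ℝ) * (N / 6) ≤ K * w := mul_le_mul_of_nonneg_left hw hK0
    have e4 : (N : ℝ) * (12 * V) ≤ N * K := mul_le_mul_of_nonneg_left hK hN0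
    nlinarith
  linarith

end WT3h

theorem stmt_WT3 (h1 : Stmt_THU) (h2 : Stmt_LVL) (h3 : Stmt_VLM) (h4 : Stmt_PAD)
    (h5 : Stmt_PAE) (h6 : Stmt_LRD) (h7 : Stmt_GGB) (h8 : Stmt_PRF) : Stmt_WT3 := by
  classical
  intro a k₀ C₀ κ c hD hκ hc
  obtain ⟨C₁, hC₁, hLR⟩ := h6 a k₀ C₀ κ hD hκ
  obtain ⟨N₁, hN₁⟩ := h2 a k₀ C₀ hD
  obtain ⟨-, -, -, -, -, hld, -⟩ := h7 a k₀ C₀ hD
  obtain ⟨hinj, hPAE⟩ := h5 a hD.ord
  have hC₀ : (1 : ℝ) ≤ C₀ := hD.one_le
  obtain ⟨V, hVdef⟩ : ∃ V : ℝ, V = 2 * C₀ / c := ⟨_, rfl⟩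
  have hV0 : 0 ≤ V := by rw [hVdef]; positivity
  obtain ⟨K, hKdef⟩ : ∃ K : ℕ, K = ⌈12 * V⌉₊ + 1 := ⟨_, rfl⟩
  have hK1 : 1 ≤ K := by omega
  have hK12 : 12 * V ≤ K := by
    have := Nat.le_ceil (12 * V)
    rw [hKdef]
    push_cast
    linarith
  obtain ⟨M, hMdef⟩ : ∃ M : ℝ, M = 60 + |lD a K| / c := ⟨_, rfl⟩
  have hM60 : 60 ≤ M := by
    rw [hMdef]
    have : 0 ≤ |lD a K| / c := by positivity
    linarith
  refine ⟨4 * (2 * κ + C₁), max N₁ (max (K + 2) (⌈Real.exp M⌉₊ + 1)), by positivity, ?_⟩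
  intro n N hN hn1 hn2 hrec P₂ μ θ hP₂ hP₂N hEq
  have hNN₁ : N₁ ≤ N := (le_max_left _ _).trans hN
  have hNK : K + 2 ≤ N := ((le_max_left _ _).trans (le_max_right _ _)).trans hN
  have hNM : ⌈Real.exp M⌉₊ + 1 ≤ N := ((le_max_right _ _).trans (le_max_right _ _)).trans hN
  have hN2 : 2 ≤ N := by omega
  have hN0 : (0 : ℝ) < N := by exact_mod_cast (by omega : 0 < N)
  have hlogN : M ≤ Real.log N := by
    rw [Real.le_log_iff_exp_le hN0]
    refine (Nat.le_ceil (Real.exp M)).trans ?_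
    exact_mod_cast (by omega : ⌈Real.exp M⌉₊ ≤ N)
  have hlogN60 : 60 ≤ Real.log N := hM60.trans hlogN
  have hel : (60 : ℝ) ≤ el N := hlogN60.trans (by unfold el; exact Nat.le_ceil _)
  have hel1 : 1 ≤ el N := by
    have : (1 : ℝ) ≤ el N := by linarith
    exact_mod_cast this
  have hP₂3 : P₂ * el N ^ 3 ≤ N := by
    refine le_trans (Nat.mul_le_mul_left _ ?_) hP₂N
    exact Nat.pow_le_pow_right hel1 (by omega)
  obtain ⟨-, hsumL⟩ := hN₁ N P₂ hNN₁ hP₂ hP₂3
  obtain ⟨hPRp, -⟩ := h8 a hD.ord (2 * N)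
  -- the set of primes
  obtain ⟨Q, hQdef⟩ : ∃ Q : Finset ℕ, Q = (PA a N P₂).filter
      (fun p : ℕ => (N : ℝ) ^ c < (p : ℝ) ∧ 1 / 5 ≤ θ p) := ⟨_, rfl⟩
  rw [← hQdef]
  have hQmem : ∀ p ∈ Q, p ∈ PA a N P₂ ∧ (N : ℝ) ^ c < (p : ℝ) ∧ 1 / 5 ≤ θ p := by
    intro p hp
    rw [hQdef, Finset.mem_filter] at hp
    exact hp
  have hPApr : ∀ p ∈ PA a N P₂, p.Prime := fun p hp => hPRp p (mem_PA.1 hp).1
  have hQpr : ∀ p ∈ Q, p.Prime := fun p hp => hPApr p (hQmem p hp).1
  -- the truncation levels are small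
  have hLsmall : ∀ p ∈ Q, (Lv C₀ a N (P₂ * el N ^ 3) p : ℝ) / N ≤ 1 / 30 := by
    intro p hp
    have hpP := (hQmem p hp).1
    have hpp := hQpr p hp
    have e1 : Real.log p * Lv C₀ a N (P₂ * el N ^ 3) p ≤ P₂ * (el N : ℝ) ^ 5 := by
      refine le_trans ?_ hsumL
      exact Finset.single_le_sum
        (f := fun p : ℕ => Real.log p * (Lv C₀ a N (P₂ * el N ^ 3) p : ℝ))
        (fun q _ => mul_nonneg (Real.log_natCast_nonneg q) (Nat.cast_nonneg _)) hpP
    have e2 : (P₂ : ℝ) * (el N : ℝ) ^ 6 ≤ N := by exact_mod_cast hP₂N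
    have e3 : (1 : ℝ) / 2 ≤ Real.log p := by
      have e4 : Real.log 2 ≤ Real.log p :=
        Real.log_le_log (by norm_num) (by exact_mod_cast hpp.two_le)
      have e5 := Real.log_two_gt_d9
      linarith
    have hL0 : (0 : ℝ) ≤ Lv C₀ a N (P₂ * el N ^ 3) p := Nat.cast_nonneg _
    have e6 : (1 : ℝ) / 2 * Lv C₀ a N (P₂ * el N ^ 3) p ≤ P₂ * (el N : ℝ) ^ 5 :=
      (mul_le_mul_of_nonneg_right e3 hL0).trans e1
    have e7 : (P₂ : ℝ) * (el N : ℝ) ^ 5 * 60 ≤ N := by
      calc (P₂ : ℝ) * (el N : ℝ) ^ 5 * 60 ≤ (P₂ : ℝ) * (el N : ℝ) ^ 5 * el N :=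
            mul_le_mul_of_nonneg_left hel (by positivity)
        _ = (P₂ : ℝ) * (el N : ℝ) ^ 6 := by ring
        _ ≤ N := e2
    rw [div_le_iff₀ hN0]
    linarith
  -- lower bound for `w_p(N)` and upper bound for `θ`
  have hw : ∀ p ∈ Q, (N : ℝ) / 6 ≤ nv p a N ∧ θ p ≤ 2 / N * nv p a N := by
    intro p hp
    obtain ⟨hpP, -, hθ⟩ := hQmem p hp
    have e1 := h1 a hD.ord p N _ (μ p) (θ p) (hQpr p hp) (by omega) (hEq p hpP)
    have e2 := hLsmall p hp
    have e3 : (1 : ℝ) / 6 ≤ (nv p a N : ℝ) / N := by linarith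
    constructor
    · rw [le_div_iff₀ hN0] at e3
      linarith
    · have e4 : (2 : ℝ) / N * nv p a N = (nv p a N : ℝ) / N + (nv p a N : ℝ) / N := by ring
      rw [e4]
      linarith
  -- the logarithm of a large prime
  have hlogp : ∀ p ∈ Q, c * Real.log N < Real.log p := by
    intro p hp
    have e1 := (hQmem p hp).2.1
    rw [← Real.log_rpow hN0]
    exact Real.log_lt_log (Real.rpow_pos_of_pos hN0 _) e1
  -- `w_p(K) = 0`
  have hwK : ∀ p ∈ Q, nv p a K = 0 := by
    intro p hp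
    by_contra hne
    have hpos : 1 ≤ nv p a K := by omega
    obtain ⟨hq, -, hT, -, hin⟩ := h8 a hD.ord K
    have hpK := hin K p le_rfl (hQpr p hp) hpos
    have e1 := hT K le_rfl
    have e2 : Real.log p * nv p a K ≤ lD a K := by
      rw [e1]
      exact Finset.single_le_sum (f := fun p : ℕ => Real.log p * (nv p a K : ℝ))
        (fun q _ => mul_nonneg (Real.log_natCast_nonneg q) (Nat.cast_nonneg _)) hpK
    have e3 : Real.log p * 1 ≤ Real.log p * nv p a K :=
      mul_le_mul_of_nonneg_left (by exact_mod_cast hpos) (Real.log_natCast_nonneg p)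
    have e4 := hlogp p hp
    have e5 : |lD a K| ≤ c * Real.log N := by
      have e6 : |lD a K| / c ≤ Real.log N := by
        refine le_trans ?_ hlogN
        rw [hMdef]
        linarith
      rw [div_le_iff₀ hc] at e6
      linarith
    have e7 := le_abs_self (lD a K)
    linarith
  -- the rows
  have hrow : ∀ p ∈ Q, ∀ l : ℕ, l < N → ∑ j ∈ (range K).erase l, (vl p a l j : ℝ) ≤ V := by
    intro p hp l hl
    have hpp := hQpr p hp
    rcases Nat.lt_or_ge l K with h | h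
    · have e1 := (h4 a hD.ord p hpp).2.2.2.2 l K h
      rw [hwK p hp] at e1
      have e2 : ∑ j ∈ (range K).erase l, (vl p a l j : ℝ) ≤ ((0 : ℕ) : ℝ) := by
        exact_mod_cast e1
      simpa using e2.trans (by simpa using hV0)
    · obtain ⟨r, hr, hsum⟩ := h3 a hD.ord p hpp K l hK1 h
      rw [hwK p hp, zero_add] at hsum
      have e1 : (range K).erase l = range K := by
        apply Finset.erase_eq_of_notMem
        rw [mem_range]
        omega
      rw [e1]
      have e2 : ∑ j ∈ range K, (vl p a l j : ℝ) ≤ vl p a l r := by exact_mod_cast hsum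
      refine e2.trans ?_
      obtain ⟨-, -, -, -, hv, -⟩ := hPAE p hpp
      have e3 := hv l r (by omega)
      have e4 := hld l r N hN2 (by omega) (by omega)
      have e5 := hlogp p hp
      have e6 : c * Real.log N * vl p a l r ≤ 2 * C₀ * Real.log N :=
        ((mul_le_mul_of_nonneg_right e5.le (Nat.cast_nonneg _)).trans e3).trans e4
      rw [hVdef, le_div_iff₀ hc]
      have hlog0 : 0 < Real.log N := by linarith
      have e7 : ((vl p a l r : ℝ) * c) * Real.log N ≤ (2 * C₀) * Real.log N := by linarith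
      exact le_of_mul_le_mul_right e7 hlog0
  -- the defects
  have hdef : ∀ p ∈ Q, (K : ℝ) * nv p a N / 2 ≤
      ∑ j ∈ range K, ((nv p a N : ℝ) - ∑ l ∈ (range N).erase j, (vl p a j l : ℝ)) := by
    intro p hp
    exact WT3h.defects a p K N V _ hK12 (hw p hp).1 (hPAE p (hQpr p hp)).1 (hrow p hp)
  have hlogn : Real.log n - Real.log N ≤ 2 := by
    have e1 : (n : ℝ) ≤ 3 * N := by
      have : n ≤ 3 * N := by omega
      exact_mod_cast this
    have e2 : Real.log n ≤ Real.log (3 * N) := by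
      apply Real.log_le_log _ e1
      have : 1 ≤ n := by omega
      exact_mod_cast this
    rw [Real.log_mul (by norm_num) (by positivity)] at e2
    have e3 : Real.log 3 ≤ 2 := by
      have := Real.log_le_sub_one_of_pos (show (0 : ℝ) < 3 by norm_num)
      linarith
    linarith
  have htot : ∑ p ∈ Q, Real.log p * ((K : ℝ) * nv p a N / 2) ≤ K * (N * (κ * 2 + C₁)) := by
    calc ∑ p ∈ Q, Real.log p * ((K : ℝ) * nv p a N / 2)
        ≤ ∑ p ∈ Q, Real.log p * ∑ j ∈ range K,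
            ((nv p a N : ℝ) - ∑ l ∈ (range N).erase j, (vl p a j l : ℝ)) :=
          Finset.sum_le_sum fun p hp =>
            mul_le_mul_of_nonneg_left (hdef p hp) (Real.log_natCast_nonneg p)
      _ = ∑ j ∈ range K, ∑ p ∈ Q, Real.log p *
            ((nv p a N : ℝ) - ∑ l ∈ (range N).erase j, (vl p a j l : ℝ)) := by
          rw [Finset.sum_comm]
          exact Finset.sum_congr rfl fun p _ => Finset.mul_sum _ _ _
      _ ≤ ∑ _j ∈ range K, ((N : ℝ) * (κ * 2 + C₁)) := by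
          refine Finset.sum_le_sum fun j hj => ?_
          have hjK := mem_range.1 hj
          refine ((hLR n hrec j N (by omega) (by omega)).2 Q hQpr).trans ?_
          apply mul_le_mul_of_nonneg_left _ hN0.le
          have := mul_le_mul_of_nonneg_left hlogn hκ
          linarith
      _ = K * (N * (κ * 2 + C₁)) := by
          rw [Finset.sum_const, Finset.card_range, nsmul_eq_mul]
  have hK0 : (0 : ℝ) < K := by exact_mod_cast (by omega : 0 < K)
  have hsum : ∑ p ∈ Q, Real.log p * nv p a N ≤ 2 * (N * (κ * 2 + C₁)) := by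
    have e1 : ∑ p ∈ Q, Real.log p * ((K : ℝ) * nv p a N / 2) =
        K * (1 / 2 * ∑ p ∈ Q, Real.log p * nv p a N) := by
      rw [← mul_assoc, Finset.mul_sum]
      refine Finset.sum_congr rfl fun p _ => ?_
      ring
    rw [e1] at htot
    have e2 := le_of_mul_le_mul_left htot hK0
    linarith
  calc ∑ p ∈ Q, Real.log p * θ p
      ≤ ∑ p ∈ Q, Real.log p * (2 / N * nv p a N) :=
        Finset.sum_le_sum fun p hp =>
          mul_le_mul_of_nonneg_left (hw p hp).2 (Real.log_natCast_nonneg p)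
    _ = 2 / N * ∑ p ∈ Q, Real.log p * nv p a N := by
        rw [Finset.mul_sum]
        refine Finset.sum_congr rfl fun p _ => ?_
        ring
    _ ≤ 2 / N * (2 * (N * (κ * 2 + C₁))) := mul_le_mul_of_nonneg_left hsum (by positivity)
    _ = 4 * (2 * κ + C₁) := by
        field_simp
        ring

end Pool.Agent.Work.MP_b29d7f_two
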