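import Pool.Agent.Work.MP_b29d7f_two.Interface3

/-!
# Block WTG (note 2820, section 3.6): the weight of the good primes
-/

namespace Pool.Agent.Work.MP_b29d7f_two

open Finset
open Pool.Agent.Work.MP_b29d7f_nt (IsPOrdering HasSimultaneousOrdering PS vd ld tv)
open Pool.Agent.Work.MP_b29d7f_half (Ord A wv lD)
open Pool.Agent.Work.MP_b29d7f_sep (nv EW EL)

namespace WTGaux

theorem el_tendsto : Filter.Tendsto el Filter.atTop Filter.atTop :=
  tendsto_nat_ceil_atTop.comp (Real.tendsto_log_atTop.comp tendsto_natCast_atTop_atTop)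

theorem log_tendsto : Filter.Tendsto (fun N : ℕ => Real.log N) Filter.atTop Filter.atTop :=
  Real.tendsto_log_atTop.comp tendsto_natCast_atTop_atTop

theorem ell (C C' ε : ℝ) (hC : 0 ≤ C) (hε : 0 < ε) :
    ∃ N₀ : ℕ, ∀ N : ℕ, N₀ ≤ N → C * Real.log (el N) + C' ≤ ε * Real.log N := by
  have hδ : 0 < ε / (2 * (C + 1)) := by positivity
  have h1 : ∀ᶠ x : ℝ in Filter.atTop, ‖Real.log x‖ ≤ ε / (2 * (C + 1)) * ‖x‖ :=
    Real.isLittleO_log_id_atTop.def hδ
  have h2 := (tendsto_natCast_atTop_atTop (R := ℝ)).comp el_tendsto |>.eventually h1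
  have h3 := log_tendsto.eventually_ge_atTop ((ε / 2 + C') / (ε / 2))
  have h4 := log_tendsto.eventually_ge_atTop 0
  obtain ⟨N₀, hN₀⟩ := Filter.eventually_atTop.mp (h2.and (h3.and h4))
  refine ⟨N₀, fun N hN => ?_⟩
  obtain ⟨a1, a2, a3⟩ := hN₀ N hN
  have a1' : ‖Real.log (el N : ℝ)‖ ≤ ε / (2 * (C + 1)) * ‖(el N : ℝ)‖ := a1
  have b1 : Real.log (el N : ℝ) ≤ ε / (2 * (C + 1)) * (el N : ℝ) := by
    rw [Real.norm_eq_abs, Real.norm_eq_abs, abs_of_nonneg (Nat.cast_nonneg (α := ℝ) (el N))] at a1'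
    exact (le_abs_self _).trans a1'
  have b2 : (el N : ℝ) ≤ Real.log N + 1 := (Nat.ceil_lt_add_one a3).le
  have b3 : (ε / 2 + C') ≤ ε / 2 * Real.log N := by
    rw [div_le_iff₀ (by positivity)] at a2
    linarith
  have b4 : Real.log (el N : ℝ) ≤ ε / (2 * (C + 1)) * (Real.log N + 1) :=
    b1.trans (mul_le_mul_of_nonneg_left b2 hδ.le)
  have b5 : C * Real.log (el N : ℝ) ≤ C * (ε / (2 * (C + 1)) * (Real.log N + 1)) :=
    mul_le_mul_of_nonneg_left b4 hC
  have b6 : C * (ε / (2 * (C + 1)) * (Real.log N + 1)) ≤ ε / 2 * (Real.log N + 1) := by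
    have : C * (ε / (2 * (C + 1))) ≤ ε / 2 := by
      have e : C * (ε / (2 * (C + 1))) = (C / (C + 1)) * (ε / 2) := by
        field_simp
      rw [e]
      have : C / (C + 1) ≤ 1 := (div_le_one (by linarith)).mpr (by linarith)
      nlinarith
    have h0 : 0 ≤ Real.log (N : ℝ) + 1 := by linarith
    calc C * (ε / (2 * (C + 1)) * (Real.log N + 1)) = C * (ε / (2 * (C + 1))) *
        (Real.log N + 1) := by ring
      _ ≤ ε / 2 * (Real.log N + 1) := mul_le_mul_of_nonneg_right this h0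
  linarith

theorem lognn (p : ℕ) : 0 ≤ Real.log p := by
  rcases Nat.eq_zero_or_pos p with h | h
  · rw [h]; simp
  · exact Real.log_nonneg (by exact_mod_cast h)

theorem logdiv (p : ℕ) : 0 ≤ Real.log p / ((p : ℝ) - 1) := by
  rcases Nat.eq_zero_or_pos p with h | h
  · rw [h]; simp
  · exact div_nonneg (lognn p) (by
      have : (1 : ℝ) ≤ p := by exact_mod_cast h
      linarith)

end WTGaux

open WTGaux

theorem stmt_WTG (h1 : Stmt_WT1) (h2 : Stmt_WT2) (h3 : Stmt_WT3) (hT : Stmt_THG) :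
    Stmt_WTG := by
  intro a k₀ C₀ κ β hD hκ hβ hβ1 hS
  have hC0 : 1 ≤ C₀ := hD.one_le
  obtain ⟨D₁, M₁, hD₁, H1⟩ := h1 a k₀ C₀ hD
  set c : ℝ := β / (32 * C₀) with hc
  have hc0 : 0 < c := by
    rw [hc]; positivity
  have hc1 : c ≤ 1 / 4 := by
    rw [hc, div_le_iff₀ (by positivity)]
    nlinarith
  obtain ⟨M₂, H2⟩ := h2 a k₀ C₀ κ c hD hκ hc0 hc1
  obtain ⟨D₃, M₃, hD₃, H3⟩ := h3 a k₀ C₀ κ c hD hκ hc0
  obtain ⟨M₄, H4⟩ := hT a k₀ C₀ hD
  obtain ⟨k₁, Hs⟩ := hS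
  obtain ⟨M₅, H5⟩ := ell (3 / 2 * D₁) D₃ (3 / 16 * β) (by positivity) (by positivity)
  obtain ⟨M₆, H6⟩ := Filter.eventually_atTop.mp
    (log_tendsto.eventually_ge_atTop ((Real.log (k₁ + 2)) / β))
  obtain ⟨M₇, H7⟩ := Filter.eventually_atTop.mp
    (el_tendsto.eventually_ge_atTop 1)
  refine ⟨M₁ + M₂ + M₃ + M₄ + M₅ + M₆ + M₇ + 2, ?_⟩
  intro n N hN hn1 hn2 hrec P₂ μ θ hP hβN hEq
  have hel : 1 ≤ el N := H7 N (by omega)
  have hPN : P₂ ≤ N := le_trans (Nat.le_mul_of_pos_right _ (pow_pos (by omega) 6)) hP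
  have hPN3 : P₂ * el N ^ 3 ≤ N :=
    le_trans (Nat.mul_le_mul_left _ (Nat.pow_le_pow_right (by omega) (by norm_num))) hP
  have hlogk : Real.log ((k₁ : ℝ) + 2) ≤ Real.log P₂ := by
    have := H6 N (by omega)
    rw [div_le_iff₀ hβ] at this
    linarith
  have hP2 : k₁ + 2 ≤ P₂ := by
    by_contra hlt
    push Not at hlt
    rcases Nat.eq_zero_or_pos P₂ with h | h
    · rw [h] at hlogk
      simp only [Nat.cast_zero, Real.log_zero] at hlogk
      have : 0 < Real.log ((k₁ : ℝ) + 2) := Real.log_pos (by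
        have : (0 : ℝ) ≤ k₁ := Nat.cast_nonneg _
        linarith)
      linarith
    · have h5 : (P₂ : ℝ) < (k₁ : ℝ) + 2 := by exact_mod_cast hlt
      have h6 : Real.log (P₂ : ℝ) < Real.log ((k₁ : ℝ) + 2) :=
        Real.log_lt_log (by exact_mod_cast h) h5
      linarith
  have hlogN : 0 ≤ Real.log N := lognn N
  have B1 := H1 N P₂ (by omega) (by omega) hPN
  have B2 := H2 n N (by omega) hn1 hn2 hrec P₂ μ θ (by omega) hP hEq
  have B3 := H3 n N (by omega) hn1 hn2 hrec P₂ μ θ (by omega) hP hEq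
  have B4 := H4 N P₂ μ θ (by omega) (by omega) hPN3 hEq
  have B5 := H5 N (by omega)
  have B6 := Hs P₂ (by omega)
  set T := ∑ p ∈ PA a N P₂, Real.log p * θ p with hTdef
  -- decomposition
  classical
  set bad := (PA a N P₂).filter (fun p : ℕ => ¬ (3 / 2 / ((p : ℝ) - 1) ≤ θ p ∧ θ p < 1 / 5))
    with hbad
  have hsplit : T = ∑ p ∈ (PA a N P₂).filter
      (fun p : ℕ => 3 / 2 / ((p : ℝ) - 1) ≤ θ p ∧ θ p < 1 / 5), Real.log p * θ p +
      ∑ p ∈ bad, Real.log p * θ p := by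
    rw [hTdef, hbad, Finset.sum_filter_add_sum_filter_not]
  have hθ : ∀ p ∈ PA a N P₂, 0 ≤ Real.log p * θ p := fun p hp =>
    mul_nonneg (lognn p) (hEq p hp).pos.le
  have hbad1 : ∑ p ∈ bad, Real.log p * θ p ≤
      ∑ p ∈ PA a N P₂, 3 / 2 * (Real.log p / ((p : ℝ) - 1)) +
      ∑ p ∈ (PA a N P₂).filter (fun p : ℕ => (p : ℝ) ≤ (N : ℝ) ^ c), Real.log p * θ p +
      ∑ p ∈ (PA a N P₂).filter (fun p : ℕ => (N : ℝ) ^ c < (p : ℝ) ∧ 1 / 5 ≤ θ p),
        Real.log p * θ p := by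
    rw [hbad, Finset.sum_filter, Finset.sum_filter, Finset.sum_filter,
      ← Finset.sum_add_distrib, ← Finset.sum_add_distrib]
    refine Finset.sum_le_sum fun p hp => ?_
    have q1 := hθ p hp
    have q2 : 0 ≤ 3 / 2 * (Real.log p / ((p : ℝ) - 1)) := mul_nonneg (by norm_num) (logdiv p)
    by_cases hb : ¬ (3 / 2 / ((p : ℝ) - 1) ≤ θ p ∧ θ p < 1 / 5)
    · rw [if_pos hb]
      by_cases hb1 : 3 / 2 / ((p : ℝ) - 1) ≤ θ p
      · have hb2 : 1 / 5 ≤ θ p := by
          by_contra hlt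
          exact hb ⟨hb1, not_le.mp hlt⟩
        by_cases hb3 : (p : ℝ) ≤ (N : ℝ) ^ c
        · rw [if_pos hb3]
          have : 0 ≤ if (N : ℝ) ^ c < (p : ℝ) ∧ 1 / 5 ≤ θ p then Real.log p * θ p else 0 := by
            split_ifs
            · exact q1
            · exact le_rfl
          linarith
        · rw [if_neg hb3, if_pos ⟨not_le.mp hb3, hb2⟩]
          linarith
      · have hb2 : θ p ≤ 3 / 2 / ((p : ℝ) - 1) := (not_le.mp hb1).le
        have q3 : Real.log p * θ p ≤ 3 / 2 * (Real.log p / ((p : ℝ) - 1)) := by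
          calc Real.log p * θ p ≤ Real.log p * (3 / 2 / ((p : ℝ) - 1)) :=
                mul_le_mul_of_nonneg_left hb2 (lognn p)
            _ = 3 / 2 * (Real.log p / ((p : ℝ) - 1)) := by ring
        have q4 : 0 ≤ if (N : ℝ) ^ c < (p : ℝ) ∧ 1 / 5 ≤ θ p then Real.log p * θ p else 0 := by
          split_ifs
          · exact q1
          · exact le_rfl
        have q5 : 0 ≤ if (p : ℝ) ≤ (N : ℝ) ^ c then Real.log p * θ p else 0 := by
          split_ifs
          · exact q1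
          · exact le_rfl
        linarith
    · rw [if_neg hb]
      have q4 : 0 ≤ if (N : ℝ) ^ c < (p : ℝ) ∧ 1 / 5 ≤ θ p then Real.log p * θ p else 0 := by
        split_ifs
        · exact q1
        · exact le_rfl
      have q5 : 0 ≤ if (p : ℝ) ≤ (N : ℝ) ^ c then Real.log p * θ p else 0 := by
        split_ifs
        · exact q1
        · exact le_rfl
      linarith
  rw [← Finset.mul_sum] at hbad1
  have e1 : 2 * C₀ * c * Real.log N = β * Real.log N / 16 := by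
    rw [hc]
    field_simp
    ring
  rw [e1] at B2
  -- final arithmetic
  have f1 : 2 * Real.log P₂ ≤ T := le_trans B6 B4
  have f2 : ∑ p ∈ bad, Real.log p * θ p ≤
      3 / 2 * (Real.log P₂ + D₁ * Real.log (el N)) + β * Real.log N / 16 + D₃ := by
    linarith
  linarith

end Pool.Agent.Work.MP_b29d7f_two
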