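import Pool.Agent.Work.MP_b29d7f_two.Interface3

/-!
# Block XUP (helper33): upper bound for the energies of large subsets of `A_N`
-/

namespace Pool.Agent.Work.MP_b29d7f_two

open Finset
open Pool.Agent.Work.MP_b29d7f_nt (IsPOrdering HasSimultaneousOrdering PS vd ld tv)
open Pool.Agent.Work.MP_b29d7f_half (Ord A wv lD)
open Pool.Agent.Work.MP_b29d7f_sep (nv EW EL)

theorem XUP_double (f : ℤ → ℤ → ℝ) (hf : ∀ x y, f x y = f y x) (W : Finset ℤ) :
    ∑ x ∈ W, ∑ y ∈ W, f x y = ∑ x ∈ W, f x x + 2 * PS f W := by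
  classical
  induction W using Finset.induction_on with
  | empty => simp [PS]
  | insert z X hz ih =>
    rw [Pool.Agent.Work.MP_b29d7f_nt.PS_insert f hf X z hz, Finset.sum_insert hz,
      Finset.sum_insert hz, Finset.sum_insert hz]
    have h1 : ∑ x ∈ X, ∑ y ∈ insert z X, f x y = ∑ x ∈ X, f z x + ∑ x ∈ X, ∑ y ∈ X, f x y := by
      rw [← Finset.sum_add_distrib]
      refine Finset.sum_congr rfl fun x _ => ?_
      rw [Finset.sum_insert hz, hf x z]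
    rw [h1, ih]
    ring

theorem XUP_tv {p : ℕ} (hp : p.Prime) (L : ℕ) (x y : ℤ) (h : x ≠ y) :
    (tv p L (x - y) : ℝ) ≤ vd p x y := by
  have hfin : FiniteMultiplicity (p : ℤ) (x - y) := by
    rw [Int.finiteMultiplicity_iff]
    exact ⟨by simpa using hp.ne_one, sub_ne_zero.mpr h⟩
  unfold vd tv
  have h1 : ((Finset.Icc 1 L).filter fun j => (p : ℤ) ^ j ∣ x - y) ⊆
      Finset.Icc 1 (multiplicity (p : ℤ) (x - y)) := by
    intro j hj
    rw [Finset.mem_filter, Finset.mem_Icc] at hj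
    rw [Finset.mem_Icc]
    exact ⟨hj.1.1, (hfin.pow_dvd_iff_le_multiplicity).1 hj.2⟩
  have h2 := Finset.card_le_card h1
  rw [Nat.card_Icc] at h2
  refine Nat.cast_le.mpr ?_
  omega

theorem XUP_xe {p : ℕ} (hp : p.Prime) (L : ℕ) (W : Finset ℤ) (hW : 0 < W.card) :
    Xe p L W ≤ (L : ℝ) / W.card + 2 * PS (vd p) W / (W.card : ℝ) ^ 2 := by
  have hc : (0 : ℝ) < W.card := by exact_mod_cast hW
  have hsym : ∀ x y : ℤ, (fun x y => (tv p L (x - y) : ℝ)) x y =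
      (fun x y => (tv p L (x - y) : ℝ)) y x := by
    intro x y
    simp only [tv]
    congr 2
    refine Finset.filter_congr fun j _ => ?_
    exact dvd_sub_comm
  have h1 := XUP_double _ hsym W
  have h2 : ∑ x ∈ W, (tv p L (x - x) : ℝ) ≤ W.card * (L : ℝ) := by
    have : ∀ x ∈ W, (tv p L (x - x) : ℝ) ≤ (L : ℝ) := by
      intro x _
      unfold tv
      have := Finset.card_filter_le (Finset.Icc 1 L) fun j => (p : ℤ) ^ j ∣ x - x
      rw [Nat.card_Icc] at this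
      refine Nat.cast_le.mpr ?_
      omega
    calc ∑ x ∈ W, (tv p L (x - x) : ℝ) ≤ ∑ _x ∈ W, (L : ℝ) := Finset.sum_le_sum this
      _ = W.card * (L : ℝ) := by rw [Finset.sum_const, nsmul_eq_mul]
  have h3 : PS (fun x y => (tv p L (x - y) : ℝ)) W ≤ PS (vd p) W := by
    unfold PS
    refine Finset.sum_le_sum fun x _ => Finset.sum_le_sum fun y hy => ?_
    rw [Finset.mem_filter] at hy
    exact XUP_tv hp L x y hy.2.ne'
  unfold Xe
  have h4 : ∑ x ∈ W, ∑ y ∈ W, (tv p L (x - y) : ℝ) ≤ W.card * (L : ℝ) + 2 * PS (vd p) W := by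
    rw [h1]
    linarith
  calc (∑ x ∈ W, ∑ y ∈ W, (tv p L (x - y) : ℝ)) / (W.card : ℝ) ^ 2
      ≤ (W.card * (L : ℝ) + 2 * PS (vd p) W) / (W.card : ℝ) ^ 2 := by gcongr
    _ = (L : ℝ) / W.card + 2 * PS (vd p) W / (W.card : ℝ) ^ 2 := by field_simp

/-- the growth from `h` to `N` -/
theorem XUP_super (hSUP : Stmt_SUPER) (hPAD : Stmt_PAD) {a : ℕ → ℤ} (hO : Ord (Set.range a) a)
    {p : ℕ} (hp : p.Prime) {h N : ℕ} (hh : 1 ≤ h) (hhN : h < N) :
    (nv p a h : ℝ) / h ≤ nv p a N / ((N : ℝ) - h) := by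
  obtain ⟨hmono, hzero, -⟩ := hPAD a hO p hp
  have h1 : ∀ q : ℕ, q * nv p a h ≤ nv p a (h * q) := by
    intro q
    induction q with
    | zero => simp
    | succ q ih =>
      have := hSUP a hO p hp (h * q) h
      rw [Nat.mul_succ, Nat.succ_mul]
      omega
  have h2 : (N / h) * nv p a h ≤ nv p a N :=
    (h1 _).trans (hmono (Nat.mul_div_le N h))
  have h3 : N < h * (N / h) + h := by
    have := Nat.lt_mul_div_succ N (by omega : 0 < h)
    rw [Nat.mul_succ] at this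
    exact this
  have hN : (0 : ℝ) < (N : ℝ) - h := by
    have : (h : ℝ) < N := by exact_mod_cast hhN
    linarith
  have hh0 : (0 : ℝ) < h := by exact_mod_cast hh
  rw [div_le_div_iff₀ hh0 hN]
  have h4 : (N : ℝ) - h ≤ h * ((N / h : ℕ) : ℝ) := by
    have : (N : ℝ) ≤ (h : ℝ) * ((N / h : ℕ) : ℝ) + h := by exact_mod_cast h3.le
    linarith
  have h5 : ((N / h : ℕ) : ℝ) * (nv p a h : ℝ) ≤ nv p a N := by exact_mod_cast h2
  calc (nv p a h : ℝ) * ((N : ℝ) - h) ≤ (nv p a h : ℝ) * (h * ((N / h : ℕ) : ℝ)) := by gcongr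
    _ = (((N / h : ℕ) : ℝ) * (nv p a h : ℝ)) * h := by ring
    _ ≤ nv p a N * h := by gcongr

/-- the product formula for a subset of `A_N` -/
theorem XUP_prod (hPRF : Stmt_PRF) {a : ℕ → ℤ} (hO : Ord (Set.range a) a) {N : ℕ}
    {W : Finset ℤ} (hW : W ⊆ A a N) :
    PS ld W = ∑ p ∈ PR a (2 * N), Real.log p * PS (vd p) W := by
  obtain ⟨-, h1, -⟩ := hPRF a hO (2 * N)
  have h2 : PS ld W = PS (fun x y => ∑ p ∈ PR a (2 * N), Real.log p * vd p x y) W := by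
    refine Pool.Agent.Work.MP_b29d7f_nt.PS_congr fun x hx y hy hyx => ?_
    obtain ⟨i, hi, rfl⟩ := Finset.mem_image.1 (hW hx)
    obtain ⟨j, hj, rfl⟩ := Finset.mem_image.1 (hW hy)
    rw [Finset.mem_range] at hi hj
    exact h1 i j (by rintro rfl; exact lt_irrefl _ hyx) (by omega) (by omega)
  rw [h2]
  unfold PS
  simp_rw [Finset.mul_sum]
  rw [Finset.sum_comm]
  refine Finset.sum_congr rfl fun x _ => ?_
  rw [Finset.sum_comm]

/-- the sum over the pairs is at most `B / 2` times the square of the cardinality -/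
theorem XUP_diam {a : ℕ → ℤ} {N : ℕ} {W : Finset ℤ} (hW : W ⊆ A a N) {B : ℝ}
    (h : ∀ i j : ℕ, i ≤ N → j ≤ N → ld (a i) (a j) ≤ B) :
    2 * PS ld W ≤ (W.card : ℝ) ^ 2 * B := by
  have h1 := XUP_double ld Pool.Agent.Work.MP_b29d7f_nt.ld_comm W
  have h2 : ∑ x ∈ W, ld x x = 0 := by
    refine Finset.sum_eq_zero fun x _ => ?_
    simp [ld]
  have h3 : ∑ x ∈ W, ∑ y ∈ W, ld x y ≤ ∑ x ∈ W, ∑ y ∈ W, B := by
    refine Finset.sum_le_sum fun x hx => Finset.sum_le_sum fun y hy => ?_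
    obtain ⟨i, hi, rfl⟩ := Finset.mem_image.1 (hW hx)
    obtain ⟨j, hj, rfl⟩ := Finset.mem_image.1 (hW hy)
    rw [Finset.mem_range] at hi hj
    exact h i j hi.le hj.le
  rw [h1, h2, Finset.sum_const, Finset.sum_const, nsmul_eq_mul, nsmul_eq_mul] at h3
  nlinarith

/-- the arithmetic of the scales -/
theorem XUP_scales {N k P₂ : ℕ} (hN : 8 ≤ N) (hP₂ : 1 ≤ P₂) (hk6 : P₂ * el N ^ 6 ≤ k)
    (hkN : k ≤ N) :
    3 ≤ el N ∧ Real.log N ≤ el N ∧ 1 ≤ Real.log (el N) ∧ 2 ≤ k / el N ^ 2 ∧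
      (k / el N ^ 2) * el N ^ 2 ≤ k ∧ k ≤ 2 * (k / el N ^ 2) * el N ^ 2 ∧
      9 * (k / el N ^ 2) ≤ N := by
  have h8 : (2 : ℝ) < Real.log N := by
    have h1 : Real.log 8 ≤ Real.log N := Real.log_le_log (by norm_num) (by exact_mod_cast hN)
    have h2 : Real.log 8 = 3 * Real.log 2 := by
      rw [show (8 : ℝ) = 2 ^ 3 by norm_num, Real.log_pow]
      norm_num
    have h3 := Real.log_two_gt_d9
    linarith
  have hle : Real.log N ≤ el N := Nat.le_ceil _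
  have hl3 : 3 ≤ el N := by
    have : (2 : ℝ) < (el N : ℝ) := lt_of_lt_of_le h8 hle
    have : 2 < el N := by exact_mod_cast this
    omega
  have hl : 1 ≤ Real.log (el N) := by
    rw [← Real.log_exp 1]
    refine Real.log_le_log (Real.exp_pos _) ?_
    have h1 := Real.exp_one_lt_d9
    have h2 : (3 : ℝ) ≤ el N := by exact_mod_cast hl3
    linarith
  set l := el N
  have hl2 : 0 < l ^ 2 := by positivity
  have hk : l ^ 6 ≤ k := le_trans (Nat.le_mul_of_pos_left _ hP₂) hk6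
  have h2 : 2 ≤ k / l ^ 2 := by
    rw [Nat.le_div_iff_mul_le hl2]
    refine le_trans ?_ hk
    have : 2 ≤ l ^ 4 := le_trans (by norm_num : 2 ≤ 3 ^ 4) (Nat.pow_le_pow_left hl3 4)
    calc 2 * l ^ 2 ≤ l ^ 4 * l ^ 2 := Nat.mul_le_mul_right _ this
      _ = l ^ 6 := by ring
  have h3 : k / l ^ 2 * l ^ 2 ≤ k := Nat.div_mul_le_self _ _
  refine ⟨hl3, hle, hl, h2, h3, ?_, ?_⟩
  · have h4 := Nat.lt_div_mul_add (a := k) hl2
    have h5 : l ^ 2 ≤ k / l ^ 2 * l ^ 2 := Nat.le_mul_of_pos_left _ (by omega)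
    calc k ≤ k / l ^ 2 * l ^ 2 + l ^ 2 := h4.le
      _ ≤ k / l ^ 2 * l ^ 2 + k / l ^ 2 * l ^ 2 := by omega
      _ = 2 * (k / l ^ 2) * l ^ 2 := by ring
  · have h9 : 9 ≤ l ^ 2 := le_trans (by norm_num : 9 ≤ 3 ^ 2) (Nat.pow_le_pow_left hl3 2)
    calc 9 * (k / l ^ 2) ≤ l ^ 2 * (k / l ^ 2) := Nat.mul_le_mul_right _ h9
      _ = k / l ^ 2 * l ^ 2 := Nat.mul_comm _ _
      _ ≤ N := h3.trans hkN

/-- the number of primes of `PA` -/
theorem XUP_card (hCPA : Stmt_CPA) {a : ℕ → ℤ} (hO : Ord (Set.range a) a) {C₀ : ℝ}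
    (hC₀ : 1 ≤ C₀) {N P₂ : ℕ} (hN : 8 ≤ N) (hP2 : P₂ ≤ N)
    (G6 : ∀ i j N : ℕ, 2 ≤ N → i ≤ 2 * N → j ≤ 2 * N → ld (a i) (a j) ≤ 2 * C₀ * Real.log N)
    (hle : Real.log N ≤ el N) :
    ((PA a N P₂).card : ℝ) * (2 * C₀ * Real.log N) ≤
      8 * C₀ ^ 2 * ((P₂ * el N ^ 3 : ℕ) : ℝ) := by
  have h1 := (hCPA a hO N P₂ (by omega)).1
  have h2 : lD a P₂ ≤ P₂ * (2 * C₀ * Real.log N) := by
    unfold lD
    calc ∑ i ∈ range P₂, ld (a P₂) (a i) ≤ ∑ _i ∈ range P₂, 2 * C₀ * Real.log N :=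
          Finset.sum_le_sum fun i hi => by
            rw [Finset.mem_range] at hi
            exact G6 P₂ i N (by omega) (by omega) (by omega)
      _ = P₂ * (2 * C₀ * Real.log N) := by rw [Finset.sum_const, card_range, nsmul_eq_mul]
  have hL : 0 ≤ Real.log N := Real.log_natCast_nonneg N
  have h3 : (1 : ℝ) / 2 ≤ Real.log 2 := by
    have := Real.log_two_gt_d9
    linarith
  have hcard : (0 : ℝ) ≤ (PA a N P₂).card := Nat.cast_nonneg _
  have h4 : ((PA a N P₂).card : ℝ) ≤ 4 * C₀ * Real.log N * P₂ := by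
    have : ((PA a N P₂).card : ℝ) * (1 / 2) ≤ P₂ * (2 * C₀ * Real.log N) :=
      le_trans (by gcongr) (h1.trans h2)
    linarith
  have hl1 : (1 : ℝ) ≤ el N := by
    have : Real.log 8 ≤ Real.log N := Real.log_le_log (by norm_num) (by exact_mod_cast hN)
    have h8 : Real.log 8 = 3 * Real.log 2 := by
      rw [show (8 : ℝ) = 2 ^ 3 by norm_num, Real.log_pow]
      norm_num
    linarith
  have hP0 : (0 : ℝ) ≤ P₂ := Nat.cast_nonneg _
  calc ((PA a N P₂).card : ℝ) * (2 * C₀ * Real.log N)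
      ≤ (4 * C₀ * Real.log N * P₂) * (2 * C₀ * Real.log N) := by gcongr
    _ = 8 * C₀ ^ 2 * (P₂ * (Real.log N) ^ 2) := by ring
    _ ≤ 8 * C₀ ^ 2 * (P₂ * (el N : ℝ) ^ 2) := by gcongr
    _ ≤ 8 * C₀ ^ 2 * (P₂ * (el N : ℝ) ^ 3) := by
        gcongr
        norm_num
    _ = 8 * C₀ ^ 2 * ((P₂ * el N ^ 3 : ℕ) : ℝ) := by push_cast; ring

/-- the upper bound for the sum over `PA` of the pair sums -/
theorem XUP_pairs (hEPU : Stmt_EPU) (hPRF : Stmt_PRF) {a : ℕ → ℤ} (hO : Ord (Set.range a) a)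
    {N P₂ h : ℕ} {W : Finset ℤ} (hW : W ⊆ A a N) (hh2 : 2 ≤ h) (hhN : h ≤ N)
    (hhW : h ≤ W.card) :
    2 * (∑ p ∈ PA a N P₂, Real.log p * PS (vd p) W) / (W.card : ℝ) ^ 2 ≤
      2 * PS ld W / (W.card : ℝ) ^ 2 - 2 * Es a h / (h : ℝ) ^ 2 +
        2 * (∑ p ∈ PA a N P₂, Real.log p * Ep p a h) / (h : ℝ) ^ 2 := by
  classical
  obtain ⟨hprime, -, hlD, -⟩ := hPRF a hO (2 * N)
  have hsub : PA a N P₂ ⊆ PR a (2 * N) := fun p hp => (mem_PA.1 hp).1
  have hWr : (W : Set ℤ) ⊆ Set.range a := by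
    intro x hx
    obtain ⟨i, -, rfl⟩ := Finset.mem_image.1 (hW hx)
    exact ⟨i, rfl⟩
  have hE : Es a h = ∑ p ∈ PR a (2 * N), Real.log p * Ep p a h := by
    unfold Es Ep
    simp_rw [Finset.mul_sum]
    rw [Finset.sum_comm]
    refine Finset.sum_congr rfl fun j hj => ?_
    rw [Finset.mem_range] at hj
    exact hlD j (by omega)
  have hPS := XUP_prod hPRF hO hW
  have hc : (0 : ℝ) < W.card := by exact_mod_cast (by omega : 0 < W.card)
  have hh0 : (0 : ℝ) < h := by exact_mod_cast (by omega : 0 < h)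
  have key : (W.card : ℝ) ^ 2 * ∑ p ∈ PR a (2 * N) \ PA a N P₂, Real.log p * Ep p a h ≤
      (h : ℝ) ^ 2 * ∑ p ∈ PR a (2 * N) \ PA a N P₂, Real.log p * PS (vd p) W := by
    rw [Finset.mul_sum, Finset.mul_sum]
    refine Finset.sum_le_sum fun p hp => ?_
    rw [Finset.mem_sdiff] at hp
    have hpp := hprime p hp.1
    have h1 := (hEPU a hO p hpp).2.1 h W hh2 hhW hWr
    have h2 : 0 ≤ Real.log (p : ℝ) := Real.log_natCast_nonneg p
    calc (W.card : ℝ) ^ 2 * (Real.log p * Ep p a h)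
        = Real.log p * (Ep p a h * (W.card : ℝ) ^ 2) := by ring
      _ ≤ Real.log p * ((h : ℝ) ^ 2 * PS (vd p) W) := by gcongr
      _ = (h : ℝ) ^ 2 * (Real.log p * PS (vd p) W) := by ring
  have hs1 := Finset.sum_sdiff hsub (f := fun p : ℕ => Real.log p * Ep p a h)
  have hs2 := Finset.sum_sdiff hsub (f := fun p : ℕ => Real.log p * PS (vd p) W)
  rw [← hE] at hs1
  rw [← hPS] at hs2
  have key2 : (∑ p ∈ PR a (2 * N) \ PA a N P₂, Real.log p * Ep p a h) / (h : ℝ) ^ 2 ≤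
      (∑ p ∈ PR a (2 * N) \ PA a N P₂, Real.log p * PS (vd p) W) / (W.card : ℝ) ^ 2 := by
    rw [div_le_div_iff₀ (by positivity) (by positivity)]
    linarith
  have e1 : (∑ p ∈ PA a N P₂, Real.log p * PS (vd p) W) = PS ld W -
      ∑ p ∈ PR a (2 * N) \ PA a N P₂, Real.log p * PS (vd p) W := by linarith
  have e2 : (∑ p ∈ PA a N P₂, Real.log p * Ep p a h) = Es a h -
      ∑ p ∈ PR a (2 * N) \ PA a N P₂, Real.log p * Ep p a h := by linarith
  rw [e1, e2]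
  have e3 : 2 * (PS ld W - ∑ p ∈ PR a (2 * N) \ PA a N P₂, Real.log p * PS (vd p) W) /
      (W.card : ℝ) ^ 2 = 2 * PS ld W / (W.card : ℝ) ^ 2 -
      2 * ((∑ p ∈ PR a (2 * N) \ PA a N P₂, Real.log p * PS (vd p) W) / (W.card : ℝ) ^ 2) := by
    ring
  have e4 : 2 * (Es a h - ∑ p ∈ PR a (2 * N) \ PA a N P₂, Real.log p * Ep p a h) /
      (h : ℝ) ^ 2 = 2 * Es a h / (h : ℝ) ^ 2 -
      2 * ((∑ p ∈ PR a (2 * N) \ PA a N P₂, Real.log p * Ep p a h) / (h : ℝ) ^ 2) := by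
    ring
  rw [e3, e4]
  linarith

/-- real arithmetic: the factor `N / (N - h)` -/
theorem XUP_real {N h P₃ S SN l C₀ X : ℝ} (hl : 3 ≤ l) (hh : 0 < h) (h9 : h * l ^ 2 ≤ N)
    (hP : 0 < P₃) (hC₀ : 1 ≤ C₀) (hX : 0 ≤ X) (hS : S / P₃ ≤ C₀ * l) (hS0 : 0 ≤ S)
    (hSN : SN ≤ N * (S / P₃ + X)) :
    SN / (N - h) ≤ S / P₃ + 2 * C₀ + 3 * X := by
  have hl2 : (9 : ℝ) ≤ l ^ 2 := by nlinarith
  have h9' : 9 * h ≤ N := by nlinarith
  have hNh : 0 < N - h := by linarith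
  rw [div_le_iff₀ hNh]
  refine hSN.trans ?_
  have hSP : 0 ≤ S / P₃ := by positivity
  -- `h (S / P₃) ≤ 2 C₀ (N - h)` and `N X ≤ 3 X (N - h)`
  have h1 : h * (S / P₃) ≤ h * (C₀ * l) := by gcongr
  have h2 : h * l ≤ N / 3 := by
    have : h * l * 3 ≤ h * l * l := by gcongr
    nlinarith
  have h3 : h * (C₀ * l) ≤ C₀ * (N / 3) := by
    calc h * (C₀ * l) = C₀ * (h * l) := by ring
      _ ≤ C₀ * (N / 3) := by gcongr
  have h4 : C₀ * (N / 3) ≤ 2 * C₀ * (N - h) := by nlinarith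
  have h5 : N * X ≤ 3 * X * (N - h) := by nlinarith
  nlinarith

theorem stmt_XUP (hLRE : Stmt_LRE) (hLRA : Stmt_LRA) (hEPU : Stmt_EPU) (hSUP : Stmt_SUPER)
    (hTRANS : Stmt_TRANS) (hTHL : Stmt_THL) (_hTHU : Stmt_THU) (hLVL : Stmt_LVL)
    (hCPA : Stmt_CPA) (hPRF : Stmt_PRF) (hGGB : Stmt_GGB) (hPAD : Stmt_PAD)
    (_hPAE : Stmt_PAE) : Stmt_XUP := by
  intro a k₀ C₀ κ hD hκ
  obtain ⟨C₁, N₁, hC₁, h1⟩ := hLRE a k₀ C₀ κ hD hκ
  obtain ⟨C₂, hC₂, h2⟩ := hLRA a k₀ C₀ κ hD hκ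
  obtain ⟨C₃, N₃, hC₃, h3⟩ := hTRANS a k₀ C₀ κ hD hκ
  obtain ⟨N₄, h4⟩ := hLVL a k₀ C₀ hD
  obtain ⟨G1, G2, G3, -, -, G6, -⟩ := hGGB a k₀ C₀ hD
  have hO := hD.ord
  have hC₀ := hD.one_le
  set X : ℝ := 8 * C₀ ^ 2 + C₃ with hX
  have hX0 : 0 ≤ X := by positivity
  refine ⟨(1 + C₁ + C₂ + 2 * κ + 3 * X + 2 * C₀) + 2 * κ, max (max N₁ N₃) (max N₄ 8),
    by positivity, ?_⟩
  intro n N hN hn1 hn2 hrec P₂ k W μ θ hP₂ hk6 hP4 hkN hWA hkW heq
  have hNN₁ : N₁ ≤ N := le_trans (le_trans (le_max_left _ _) (le_max_left _ _)) hN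
  have hNN₃ : N₃ ≤ N := le_trans (le_trans (le_max_right _ _) (le_max_left _ _)) hN
  have hNN₄ : N₄ ≤ N := le_trans (le_trans (le_max_left _ _) (le_max_right _ _)) hN
  have hN8 : 8 ≤ N := le_trans (le_trans (le_max_right _ _) (le_max_right _ _)) hN
  obtain ⟨hl3, hle, hlog, hh2, hhk, hk2, hh9⟩ := XUP_scales hN8 hP₂ hk6 hkN
  set l := el N with hl
  set P₃ := P₂ * l ^ 3 with hP₃
  set h := k / l ^ 2 with hh
  have hP₃1 : 1 ≤ P₃ := Nat.succ_le_of_lt (by positivity)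
  have hP₃N : 2 * P₃ ≤ N := by
    calc 2 * P₃ ≤ l * P₃ := Nat.mul_le_mul_right _ (by omega)
      _ = P₂ * l ^ 4 := by rw [hP₃]; ring
      _ ≤ N := hP4
  have hP₂3 : P₂ ≤ P₃ := Nat.le_mul_of_pos_right _ (by positivity)
  have hhk' : h ≤ k := Nat.div_le_self _ _
  have hc : 0 < W.card := by omega
  obtain ⟨hprime, -, hlD, -⟩ := hPRF a hO (2 * N)
  have hsub : PA a N P₂ ⊆ PR a (2 * N) := fun p hp => (mem_PA.1 hp).1
  have hpp : ∀ p ∈ PA a N P₂, p.Prime := fun p hp => hprime p (hsub hp)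
  have hlogp : ∀ p : ℕ, 0 ≤ Real.log (p : ℝ) := fun p => Real.log_natCast_nonneg p
  obtain ⟨L1, L2⟩ := h4 N P₂ hNN₄ hP₂ (le_trans (Nat.le_mul_of_pos_left P₃ two_pos) hP₃N)
  have hcR : (0 : ℝ) < W.card := by exact_mod_cast hc
  have hhR : (0 : ℝ) < h := by exact_mod_cast (by omega : 0 < h)
  have hlR : (3 : ℝ) ≤ l := by exact_mod_cast hl3
  have hP3R : (0 : ℝ) < P₃ := by exact_mod_cast hP₃1
  have hNR : (0 : ℝ) < N := by exact_mod_cast (by omega : 0 < N)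
  -- (A1)
  have A1 : ∑ p ∈ PA a N P₂, Real.log p * Xe p (Lv C₀ a N (P₂ * el N ^ 3) p) W ≤
      (∑ p ∈ PA a N P₂, Real.log p * Lv C₀ a N (P₂ * el N ^ 3) p) / W.card +
        2 * (∑ p ∈ PA a N P₂, Real.log p * PS (vd p) W) / (W.card : ℝ) ^ 2 := by
    rw [Finset.sum_div, mul_div_assoc, Finset.sum_div, Finset.mul_sum, ← Finset.sum_add_distrib]
    refine Finset.sum_le_sum fun p hp => ?_
    calc Real.log p * Xe p (Lv C₀ a N (P₂ * el N ^ 3) p) W
        ≤ Real.log p * ((Lv C₀ a N (P₂ * el N ^ 3) p : ℝ) / W.card +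
            2 * PS (vd p) W / (W.card : ℝ) ^ 2) :=
          mul_le_mul_of_nonneg_left (XUP_xe (hpp p hp) _ W hc) (hlogp p)
      _ = _ := by ring
  -- (A2)
  have A2 : (∑ p ∈ PA a N P₂, Real.log p * Lv C₀ a N (P₂ * el N ^ 3) p) / W.card ≤ 1 := by
    rw [div_le_one hcR]
    refine L2.trans ?_
    have : P₂ * l ^ 5 ≤ W.card := by
      refine le_trans ?_ (hk6.trans hkW)
      exact Nat.mul_le_mul_left _ (Nat.pow_le_pow_right (by omega) (by norm_num))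
    exact_mod_cast this
  -- (A3)
  have A3 := XUP_pairs hEPU hPRF hO (P₂ := P₂) hWA hh2 (by omega : h ≤ N) (by omega)
  -- (A4)
  have A4 : 2 * PS ld W / (W.card : ℝ) ^ 2 ≤ gg a n + C₁ := by
    rw [div_le_iff₀ (by positivity)]
    have := XUP_diam hWA fun i j hi hj => h1 n N hNN₁ hn1 hn2 hrec i j hi hj
    linarith
  -- (A5)
  have A5 : gg a n - κ * (Real.log n - Real.log h) - C₂ ≤ 2 * Es a h / (h : ℝ) ^ 2 := by
    rw [le_div_iff₀ (by positivity), mul_comm]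
    exact (h2 n hrec h (by omega) (by omega)).2.1
  -- (A6)
  have A6 : 2 * (∑ p ∈ PA a N P₂, Real.log p * Ep p a h) / (h : ℝ) ^ 2 ≤
      (∑ p ∈ PA a N P₂, Real.log p * nv p a N) / ((N : ℝ) - h) := by
    rw [Finset.sum_div, mul_div_assoc, Finset.sum_div, Finset.mul_sum]
    refine Finset.sum_le_sum fun p hp => ?_
    have e1 := (hEPU a hO p (hpp p hp)).1 h
    have e2 := XUP_super hSUP hPAD hO (hpp p hp) (by omega : 1 ≤ h) (by omega : h < N)
    have e3 : 2 * Ep p a h / (h : ℝ) ^ 2 ≤ (nv p a h : ℝ) / h := by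
      rw [div_le_div_iff₀ (by positivity) hhR]
      nlinarith
    calc 2 * (Real.log p * Ep p a h / (h : ℝ) ^ 2)
        = Real.log p * (2 * Ep p a h / (h : ℝ) ^ 2) := by ring
      _ ≤ Real.log p * (nv p a N / ((N : ℝ) - h)) :=
          mul_le_mul_of_nonneg_left (e3.trans e2) (hlogp p)
      _ = _ := by ring
  -- (A7)
  set S : ℝ := ∑ p ∈ PA a N P₂, Real.log p * nv p a P₃ with hS
  have hS0 : 0 ≤ S := Finset.sum_nonneg fun p _ => mul_nonneg (hlogp p) (Nat.cast_nonneg _)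
  have A7 : ∑ p ∈ PA a N P₂, Real.log p * nv p a N ≤ N * (S / P₃ + X) := by
    have e1 := h3 n N hNN₃ hn1 hn2 hrec (PA a N P₂) P₃ hpp hP₃1 hP₃N
    have e2 := XUP_card hCPA hO hC₀ hN8 (by omega : P₂ ≤ N) G6 hle
    refine e1.trans ?_
    calc ((N : ℝ) / P₃) * (S + ((PA a N P₂).card : ℝ) * (2 * C₀ * Real.log N)) + C₃ * N
        ≤ ((N : ℝ) / P₃) * (S + 8 * C₀ ^ 2 * (P₃ : ℝ)) + C₃ * N := by gcongr
      _ = N * (S / P₃ + X) := by
          rw [hX]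
          field_simp
          ring
  -- (A8)
  have hSle : S / P₃ ≤ C₀ * l := by
    have e1 : S ≤ lD a P₃ := by
      rw [hlD P₃ (by omega)]
      exact Finset.sum_le_sum_of_subset_of_nonneg hsub
        fun p _ _ => mul_nonneg (hlogp p) (Nat.cast_nonneg _)
    have hl27 : 2 ≤ P₃ := by
      have : 2 ≤ l ^ 3 := le_trans (by norm_num : 2 ≤ 3 ^ 3) (Nat.pow_le_pow_left hl3 3)
      exact le_trans this (Nat.le_mul_of_pos_left _ hP₂)
    have e2 := G1 P₃ hl27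
    have e3 : Real.log P₃ ≤ l := by
      refine le_trans (Real.log_le_log hP3R ?_) hle
      exact_mod_cast (by omega : P₃ ≤ N)
    calc S / P₃ ≤ lD a P₃ / P₃ := by gcongr
      _ = gg a P₃ := rfl
      _ ≤ C₀ * Real.log P₃ := e2
      _ ≤ C₀ * l := by gcongr
  have hh9R : (h : ℝ) * (l : ℝ) ^ 2 ≤ N := by exact_mod_cast hhk.trans hkN
  have A8 := XUP_real hlR hhR hh9R hP3R hC₀ hX0 hSle hS0 A7
  -- (A9)
  have A9 : S / P₃ ≤ ∑ p ∈ PA a N P₂, Real.log p * θ p := by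
    rw [hS, Finset.sum_div]
    refine Finset.sum_le_sum fun p hp => ?_
    obtain ⟨l1, l2, l3⟩ := L1 p P₃ (hpp p hp)
    have := hTHL a hO p N _ P₃ (μ p) (θ p) (hpp p hp) hP₃1 (by omega) l1 l3 (heq p hp)
    calc Real.log p * nv p a P₃ / P₃ = Real.log p * ((nv p a P₃ : ℝ) / P₃) := by ring
      _ ≤ Real.log p * θ p := mul_le_mul_of_nonneg_left this (hlogp p)
  -- (A10)
  have A10 : Real.log n - Real.log h ≤ (Real.log N - Real.log k) + 2 + 2 * Real.log l := by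
    have hkR : (0 : ℝ) < k := by exact_mod_cast (by omega : 0 < k)
    have hlR0 : (0 : ℝ) < l := by linarith
    have e1 : Real.log n ≤ Real.log (3 * N) := by
      refine Real.log_le_log (by exact_mod_cast (by omega : 0 < n)) ?_
      exact_mod_cast (by omega : n ≤ 3 * N)
    have e2 : Real.log k ≤ Real.log (2 * h * (l : ℝ) ^ 2) := by
      refine Real.log_le_log hkR ?_
      exact_mod_cast hk2
    rw [Real.log_mul (by norm_num) hNR.ne'] at e1
    rw [Real.log_mul (by positivity) (by positivity), Real.log_mul (by norm_num) hhR.ne',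
      Real.log_pow] at e2
    have e3 : Real.log 3 + Real.log 2 ≤ 2 := by
      have f1 : Real.exp 2 = Real.exp 1 ^ 2 := by rw [← Real.exp_nat_mul]; norm_num
      have f2 := Real.exp_one_gt_d9
      have f3 : (3 : ℝ) * 2 ≤ Real.exp 2 := by
        rw [f1]
        nlinarith
      have f4 := Real.log_le_log (by norm_num : (0 : ℝ) < 3 * 2) f3
      rw [Real.log_exp, Real.log_mul (by norm_num) (by norm_num)] at f4
      exact f4
    push_cast at e2
    linarith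
  have A11 : κ * (Real.log n - Real.log h) ≤
      κ * (Real.log N - Real.log k) + 2 * κ + 2 * κ * Real.log l := by
    calc κ * (Real.log n - Real.log h)
        ≤ κ * ((Real.log N - Real.log k) + 2 + 2 * Real.log l) := by gcongr
      _ = _ := by ring
  have A12 : (1 + C₁ + C₂ + 2 * κ + 3 * X + 2 * C₀) ≤
      (1 + C₁ + C₂ + 2 * κ + 3 * X + 2 * C₀) * Real.log l :=
    le_mul_of_one_le_right (by positivity) hlog
  rw [add_mul]
  linarith

end Pool.Agent.Work.MP_b29d7f_two
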