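import Pool.Agent.Work.MP_b29d7f_half.B_AVG
import Pool.Agent.Work.MP_b29d7f_sep.B_PADIC
import Pool.Agent.Work.MP_b29d7f_sep.B_ARCHO
import Pool.Agent.Work.MP_b29d7f_sep.B_HULL
import Pool.Agent.Work.MP_b29d7f_sep.B_WINDOW
import Pool.Agent.Work.MP_b29d7f_sep.B_MINP
import Pool.Agent.Work.MP_b29d7f_sep.B_PROD

/-!
# Sets of exponent smaller than one half: definitions (notes 2820 and 2876, two-sided version)
-/

namespace Pool.Agent.Work.MP_b29d7f_two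

open Finset
open Pool.Agent.Work.MP_b29d7f_nt (IsPOrdering HasSimultaneousOrdering PS vd ld tv)
open Pool.Agent.Work.MP_b29d7f_half (Ord A wv lD)
open Pool.Agent.Work.MP_b29d7f_sep (nv EW EL)

/-- the hypothesis of the theorem: `x ^ c ≤ |S ∩ [-x, x]| ≤ x ^ (1/2 - ε)` for all large `x` -/
def LowExponent (S : Set ℤ) : Prop :=
  ∃ c ε : ℝ, 0 < c ∧ 0 < ε ∧ ∃ x₀ : ℕ, ∀ x : ℕ, x₀ ≤ x →
    (x : ℝ) ^ c ≤ ((S ∩ Set.Icc (-(x : ℤ)) x).ncard : ℝ) ∧
    ((S ∩ Set.Icc (-(x : ℤ)) x).ncard : ℝ) ≤ (x : ℝ) ^ (1 / 2 - ε)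

/-- the valuation of `a i - a j` (used for `i ≠ j` only) -/
noncomputable def vl (p : ℕ) (a : ℕ → ℤ) (i j : ℕ) : ℕ := multiplicity (p : ℤ) (a i - a j)

/-- `g(k) = T(k) / k`, `T(k) = log D_k = lD a k` -/
noncomputable def gg (a : ℕ → ℤ) (k : ℕ) : ℝ := lD a k / k

/-- `E(n) = ∑_{j < n} T(j)` -/
noncomputable def Es (a : ℕ → ℤ) (n : ℕ) : ℝ := ∑ j ∈ range n, lD a j

/-- `E_p(n) = ∑_{j < n} w_p(j)` -/
noncomputable def Ep (p : ℕ) (a : ℕ → ℤ) (n : ℕ) : ℝ := ∑ j ∈ range n, (nv p a j : ℝ)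

/-- the primes which divide a difference of two of the first `n + 1` terms -/
noncomputable def PR (a : ℕ → ℤ) (n : ℕ) : Finset ℕ :=
  (∏ j ∈ range (n + 1), ∏ i ∈ range j, (a j - a i)).natAbs.primeFactors

/-- the jump of `w_p` at the place `g` -/
noncomputable def om (p : ℕ) (a : ℕ → ℤ) (g : ℕ) : ℕ := nv p a (g + 1) - nv p a g

/-- standing data: `a` is a simultaneous ordering of its range, every term is a new maximum or a
new minimum, and it grows polynomially (`k₀` is arbitrary, kept from the one-sided version) -/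
structure Dat (a : ℕ → ℤ) (k₀ : ℕ) (C₀ : ℝ) : Prop where
  ord : Ord (Set.range a) a
  one_le : 1 ≤ C₀
  hull : ∀ k : ℕ, (∀ i < k, a i < a k) ∨ (∀ i < k, a k < a i)
  size : ∀ i j k : ℕ, 2 ≤ k → i ≤ k → j ≤ k → (|a i - a j| : ℝ) ≤ (k : ℝ) ^ C₀

/-- lower slope: `g(k) ≥ β log k` for all large `k` -/
def Slo (a : ℕ → ℤ) (β : ℝ) : Prop := ∃ k₁ : ℕ, ∀ k : ℕ, k₁ ≤ k → β * Real.log k ≤ gg a k

/-- upper slope: `g(k) ≤ β log k` for arbitrarily large `k` -/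
def Shi (a : ℕ → ℤ) (β : ℝ) : Prop := ∀ k₁ : ℕ, ∃ k : ℕ, k₁ ≤ k ∧ gg a k ≤ β * Real.log k

/-- left record: `g(k) ≥ g(n) - κ log (n/k)` for `1 ≤ k ≤ n` -/
def LRec (a : ℕ → ℤ) (κ : ℝ) (n : ℕ) : Prop :=
  1 ≤ n ∧ ∀ k : ℕ, 1 ≤ k → k ≤ n → gg a n - κ * (Real.log n - Real.log k) ≤ gg a k

/-- right record: `g(k) ≥ g(R) + b log (k/R)` for `k ≥ R` -/
def RRec (a : ℕ → ℤ) (b : ℝ) (R : ℕ) : Prop :=
  1 ≤ R ∧ ∀ k : ℕ, R ≤ k → gg a R + b * (Real.log k - Real.log R) ≤ gg a k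

/-- the length `log N`, rounded up -/
noncomputable def el (N : ℕ) : ℕ := ⌈Real.log N⌉₊

/-- `P' = K m l^3` -/
noncomputable def P1 (K m N : ℕ) : ℕ := K * m * el N ^ 3

/-- the length of the blocks, `Q = K m l^4` -/
noncomputable def Qb (K m N : ℕ) : ℕ := K * m * el N ^ 4

/-- the running maximum -/
def Mx (a : ℕ → ℤ) : ℕ → ℤ
  | 0 => a 0
  | (u + 1) => max (Mx a u) (a (u + 1))

/-- the index of the running maximum -/
def hx (a : ℕ → ℤ) : ℕ → ℕ
  | 0 => 0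
  | (u + 1) => if Mx a u < a (u + 1) then u + 1 else hx a u

/-- `u` is an `R`-time: `a u` is larger than all the earlier terms -/
def Rt (a : ℕ → ℤ) (u : ℕ) : Prop := ∀ i < u, a i < a u

/-- the `R`-times in `[s, t)` -/
noncomputable def Rf (a : ℕ → ℤ) (s t : ℕ) : Finset ℕ := by
  classical
  exact (Ico s t).filter (Rt a)

theorem mem_Rf {a : ℕ → ℤ} {s t u : ℕ} : u ∈ Rf a s t ↔ (s ≤ u ∧ u < t) ∧ Rt a u := by
  unfold Rf
  simp

/-- the number of `R`-times in `[s, t)` -/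
noncomputable def Rc (a : ℕ → ℤ) (s t : ℕ) : ℕ := (Rf a s t).card

/-- the share of the `R`-times in the `i`-th time block `[i W, i W + W)` of length `W` -/
noncomputable def sh (a : ℕ → ℤ) (W i : ℕ) : ℝ := (Rc a (i * W) (i * W + W) : ℝ) / W

/-- `G(u) = log (Mx (u + m) - Mx u)` (all times `u`; `log 0 = 0`) -/
noncomputable def Gm (a : ℕ → ℤ) (m u : ℕ) : ℝ := Real.log ((Mx a (u + m) - Mx a u : ℤ) : ℝ)

/-- the number of `R`-times `u` in `[k₀, N)` with `G(u) ≤ y` -/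
noncomputable def cnt (a : ℕ → ℤ) (k₀ N m : ℕ) (y : ℝ) : ℕ := by
  classical
  exact ((Ico k₀ N).filter fun u => Rt a u ∧ Gm a m u ≤ y).card

/-- the number of times `u` in `[k₀ + 2 Q, N)` whose large window is much longer than the small
one -/
noncomputable def atyp (a : ℕ → ℤ) (k₀ N m Q : ℕ) (e : ℝ) : ℕ := by
  classical
  exact ((Ico (k₀ + 2 * Q) N).filter fun u =>
    Gm a m u + e < Real.log ((Mx a (u + 2 * Q) - Mx a (u - 2 * Q) : ℤ) : ℝ)).card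

/-- the number of times `u < N` for which the shares of the blocks of length `W` and `W'` around `u`
differ by more than `e` -/
noncomputable def uns (a : ℕ → ℤ) (N W W' : ℕ) (e : ℝ) : ℕ := by
  classical
  exact ((range N).filter fun u => e < |sh a W (u / W) - sh a W' (u / W')|).card

/-- the length of the large blocks, `W = l Q = K m l^5` -/
noncomputable def Wb (K m N : ℕ) : ℕ := K * m * el N ^ 5

/-- a frame: the scales of the proof. `n` is the record scale, `N` is half of it, `R` is the right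
record and `m` the window length selected in 1.5. -/
structure Fr (a : ℕ → ℤ) (k₀ : ℕ) (κ b β₁ β₂ e₃ e₇ e₈ : ℝ) (K J n N R m : ℕ) : Prop where
  lrec : LRec a κ n
  n_lo : 2 * N ≤ n
  n_hi : n ≤ 2 * N + 1
  rrec : RRec a b R
  R_lo : β₁ * Real.log N - 1 ≤ Real.log R
  R_hi : Real.log R ≤ β₂ * Real.log N
  m_hi : m * el N ^ 20 ≤ R
  m_lo : R ≤ m * el N ^ J
  m_big : el N ^ 30 ≤ m
  sel1 : gg a (P1 K m N) ≤ gg a (m / el N ^ 9) + e₃ * Real.log N
  sel2 : (atyp a k₀ N m (Qb K m N) (e₇ * Real.log N) : ℝ) ≤ e₈ * N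

/-- the second half of a frame: many `R`-times, and stable shares -/
structure Fs (a : ℕ → ℤ) (k₀ : ℕ) (es eu : ℝ) (K N m : ℕ) : Prop where
  maj : N ≤ 3 * Rc a k₀ N
  st1 : (uns a N m (Qb K m N) es : ℝ) ≤ eu * N
  st2 : (uns a N (Qb K m N) (Wb K m N) es : ℝ) ≤ eu * N

/-- some window of at most `M` indices, ending at an index `v ≤ N`, meets all the residue classes
mod `p` of the later terms up to the index `2 N - 1` -/
def Catch (p : ℕ) (a : ℕ → ℤ) (N M : ℕ) : Prop :=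
  ∃ u v : ℕ, u ≤ v ∧ v ≤ u + M ∧ v ≤ N ∧
    ∀ j : ℕ, v ≤ j → j < 2 * N → ∃ l : ℕ, u ≤ l ∧ l < v ∧ (p : ℤ) ∣ a j - a l

/-- the primes with `w_p(P) ≥ 1` -/
noncomputable def PA (a : ℕ → ℤ) (N P : ℕ) : Finset ℕ := by
  classical
  exact (PR a (2 * N)).filter fun p => 1 ≤ nv p a P

/-- the other primes which are caught -/
noncomputable def PC (a : ℕ → ℤ) (N M P : ℕ) : Finset ℕ := by
  classical
  exact (PR a (2 * N)).filter fun p => nv p a P = 0 ∧ Catch p a N M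

/-- the other primes which are not caught -/
noncomputable def PG (a : ℕ → ℤ) (N M P : ℕ) : Finset ℕ := by
  classical
  exact (PR a (2 * N)).filter fun p => nv p a P = 0 ∧ ¬ Catch p a N M

theorem mem_PA {a : ℕ → ℤ} {N P p : ℕ} : p ∈ PA a N P ↔ p ∈ PR a (2 * N) ∧ 1 ≤ nv p a P := by
  unfold PA
  simp

theorem mem_PC {a : ℕ → ℤ} {N M P p : ℕ} :
    p ∈ PC a N M P ↔ p ∈ PR a (2 * N) ∧ nv p a P = 0 ∧ Catch p a N M := by
  unfold PC
  simp

theorem mem_PG {a : ℕ → ℤ} {N M P p : ℕ} :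
    p ∈ PG a N M P ↔ p ∈ PR a (2 * N) ∧ nv p a P = 0 ∧ ¬ Catch p a N M := by
  unfold PG
  simp

/-- the sum over the pairs of places of a window -/
noncomputable def PT (p : ℕ) (a : ℕ → ℤ) (u m : ℕ) : ℝ :=
  ∑ g ∈ Ico u (u + m), ∑ g' ∈ Ico (g + 1) (u + m), (om p a g : ℝ) * om p a g' * ((g' : ℝ) - g)

/-- the total growth over the blocks `[j Q, j Q + Q]`, `j ∈ D` -/
noncomputable def Rs (a : ℕ → ℤ) (Q : ℕ) (D : Finset ℕ) : ℝ :=
  ∑ j ∈ D, (lD a (j * Q + Q) - lD a (j * Q))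

/-- the growth between the last `R`-times before `j Q` and before `j Q + Q` -/
noncomputable def Rh (a : ℕ → ℤ) (Q : ℕ) (D : Finset ℕ) : ℝ :=
  ∑ j ∈ D, (lD a (hx a (j * Q + Q)) - lD a (hx a (j * Q)))

/-- the number of indices of the `j`-th block of length `Q` which are in a block of length `m` with
another share -/
noncomputable def bd (a : ℕ → ℤ) (m Q j : ℕ) (es : ℝ) : ℕ := by
  classical
  exact ((Ico (j * Q) (j * Q + Q)).filter fun u => es < |sh a m (u / m) - sh a Q j|).card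

/-- the blocks of small span, with stable shares, in a large block (length `W`) of share at
least `d₂` -/
noncomputable def DD (a : ℕ → ℤ) (k₀ N m Q W : ℕ) (y es d₂ : ℝ) : Finset ℕ := by
  classical
  exact (range N).filter fun j => k₀ + Q ≤ j * Q ∧ j * Q + 2 * Q ≤ N ∧
    Real.log ((Mx a (j * Q + 2 * Q) - Mx a (j * Q - Q) : ℤ) : ℝ) ≤ y ∧
    (bd a m Q j es : ℝ) ≤ es ^ 2 * Q ∧ |sh a Q j - sh a W (j * Q / W)| ≤ es ∧
    d₂ ≤ sh a W (j * Q / W)

theorem mem_DD {a : ℕ → ℤ} {k₀ N m Q W j : ℕ} {y es d₂ : ℝ} : j ∈ DD a k₀ N m Q W y es d₂ ↔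
    j < N ∧ k₀ + Q ≤ j * Q ∧ j * Q + 2 * Q ≤ N ∧
    Real.log ((Mx a (j * Q + 2 * Q) - Mx a (j * Q - Q) : ℤ) : ℝ) ≤ y ∧
    (bd a m Q j es : ℝ) ≤ es ^ 2 * Q ∧ |sh a Q j - sh a W (j * Q / W)| ≤ es ∧
    d₂ ≤ sh a W (j * Q / W) := by
  unfold DD
  simp

/-- the elements `j` of `D` with `j - 1` in `D` -/
def Lft (D : Finset ℕ) : Finset ℕ := D.filter fun j => 1 ≤ j ∧ j - 1 ∈ D

/-- the elements `j` of `D` with `j - 1` and `j + 1` in `D` -/
def Inn (D : Finset ℕ) : Finset ℕ := D.filter fun j => (1 ≤ j ∧ j - 1 ∈ D) ∧ j + 1 ∈ D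

/-- the window `[u, u + w]` has `R`-share `ρ` everywhere, with the error `e w` -/
def GoodW (a : ℕ → ℤ) (w : ℕ) (ρ e : ℝ) (u : ℕ) : Prop :=
  ∀ d : ℕ, d ≤ w + 1 → |(Rc a u (u + d) : ℝ) - ρ * d| ≤ e * w

/-- the good windows of the block `[s, s + Q)` -/
noncomputable def GW (a : ℕ → ℤ) (s Q w : ℕ) (ρ e : ℝ) : Finset ℕ := by
  classical
  exact (Ico s (s + Q - w + 1)).filter (GoodW a w ρ e)

theorem mem_GW {a : ℕ → ℤ} {s Q w u : ℕ} {ρ e : ℝ} : u ∈ GW a s Q w ρ e ↔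
    (s ≤ u ∧ u < s + Q - w + 1) ∧ GoodW a w ρ e u := by
  unfold GW
  simp

/-- the `p`-adic energy of the `R`-elements of the window `[u, u + w]` against all the elements of
the window -/
noncomputable def EWR (p : ℕ) (a : ℕ → ℤ) (u w : ℕ) : ℝ :=
  ∑ h ∈ Rf a u (u + w + 1), ∑ l ∈ (Ico u (u + w + 1)).erase h, (vl p a h l : ℝ)

/-- the logarithmic energy of the `R`-elements of the window `[u, u + w]` against all the elements
of the window -/
noncomputable def ELR (a : ℕ → ℤ) (u w : ℕ) : ℝ :=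
  ∑ h ∈ Rf a u (u + w + 1), ∑ l ∈ (Ico u (u + w + 1)).erase h, ld (a h) (a l)

/-- the elements `x` of `A_N` with `x + δ` in `A_N` -/
noncomputable def Kd (a : ℕ → ℤ) (N : ℕ) (δ : ℤ) : Finset ℤ := by
  classical
  exact (A a N).filter fun x => x + δ ∈ A a N

theorem mem_Kd {a : ℕ → ℤ} {N : ℕ} {δ x : ℤ} : x ∈ Kd a N δ ↔ x ∈ A a N ∧ x + δ ∈ A a N := by
  unfold Kd
  simp

/-- the truncation level `L_p` -/
noncomputable def Lv (C₀ : ℝ) (a : ℕ → ℤ) (N P₃ p : ℕ) : ℕ :=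
  max (nv p a P₃) (Nat.log p ⌊(N : ℝ) ^ C₀⌋₊ + 1)

/-- the energy of the uniform measure on `K`, truncated at the level `L`, diagonal included -/
noncomputable def Xe (p L : ℕ) (K : Finset ℤ) : ℝ :=
  (∑ x ∈ K, ∑ y ∈ K, (tv p L (x - y) : ℝ)) / (K.card : ℝ) ^ 2

/-- the average over `δ ∈ D` of the energies of the uniform measures on `K δ` -/
noncomputable def Xav (p L : ℕ) (D : Finset ℤ) (K : ℤ → Finset ℤ) : ℝ :=
  (∑ δ ∈ D, Xe p L (K δ)) / D.card

/-- `μ` is the equilibrium measure of the finite set `X` for the truncated kernel, with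
constant potential `θ` -/
structure IsEq (X : Finset ℤ) (p L : ℕ) (μ : ℤ → ℝ) (θ : ℝ) : Prop where
  nonneg : ∀ x, 0 ≤ μ x
  supp : ∀ x, x ∉ X → μ x = 0
  sum_one : ∑ x ∈ X, μ x = 1
  pos : 0 < θ
  pot : ∀ x ∈ X, ∑ y ∈ X, (tv p L (x - y) : ℝ) * μ y = θ

/-- the coupling matrix of section 3.4 (`U i`, `V j` are the partial sums) -/
noncomputable def Cm (U V : ℕ → ℝ) (i j : ℕ) : ℝ :=
  max 0 (min (U i) (V j) - max (U (i - 1)) (V (j - 1)))

/-- partial sums -/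
noncomputable def Ps (u : ℕ → ℝ) (i : ℕ) : ℝ := ∑ l ∈ Icc 1 i, u l

/-- the mass of the class of `x` modulo `q` for the weights `μ` on `X` -/
noncomputable def Ms (X : Finset ℤ) (μ : ℤ → ℝ) (q : ℕ) (x : ℤ) : ℝ := by
  classical
  exact ∑ y ∈ X.filter (fun y => (q : ℤ) ∣ y - x), μ y

/-- the proportion of the elements of `K` in the class of `x` modulo `q` -/
noncomputable def Pr (K : Finset ℤ) (q : ℕ) (x : ℤ) : ℝ := by
  classical
  exact ((K.filter fun y => (q : ℤ) ∣ y - x).card : ℝ) / K.card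

/-- the mass of a class of `ZMod n` for the weights `μ` on `X` -/
noncomputable def Mz (X : Finset ℤ) (μ : ℤ → ℝ) (n : ℕ) (c : ZMod n) : ℝ := by
  classical
  exact ∑ x ∈ X.filter (fun x : ℤ => (x : ZMod n) = c), μ x

end Pool.Agent.Work.MP_b29d7f_two
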