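import Pool.Agent.Work.MP_b29d7f_two.Prog
import Pool.Agent.Work.MP_b29d7f_half.Final

/-!
# Sets which have an exponent
-/

namespace Pool.Agent.Work.MP_b29d7f_two

open Finset
open Pool.Agent.Work.MP_b29d7f_half (HalfDense)

/-- `S` has the exponent `γ`: `|S ∩ [-x, x]| = x ^ (γ + o(1))` -/
def HasExponent (S : Set ℤ) (γ : ℝ) : Prop :=
  ∀ ε : ℝ, 0 < ε → ∃ x₀ : ℕ, ∀ x : ℕ, x₀ ≤ x →
    (x : ℝ) ^ (γ - ε) ≤ ((S ∩ Set.Icc (-(x : ℤ)) x).ncard : ℝ) ∧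
    ((S ∩ Set.Icc (-(x : ℤ)) x).ncard : ℝ) ≤ (x : ℝ) ^ (γ + ε)

theorem low_of_exponent {S : Set ℤ} {γ : ℝ} (h : HasExponent S γ) (h0 : 0 < γ) (h1 : γ < 1 / 2) :
    LowExponent S := by
  set ε : ℝ := min (γ / 2) ((1 / 2 - γ) / 2) with hε
  have hε0 : 0 < ε := lt_min (by linarith) (by linarith)
  have hε1 : ε ≤ γ / 2 := min_le_left _ _
  have hε2 : ε ≤ (1 / 2 - γ) / 2 := min_le_right _ _
  obtain ⟨x₀, hx⟩ := h ε hε0
  refine ⟨γ / 2, (1 / 2 - γ) / 2, by linarith, by linarith, max x₀ 1, fun x hx0 => ?_⟩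
  have hx1 : (1 : ℝ) ≤ x := by
    have : 1 ≤ x := (le_max_right _ _).trans hx0
    exact_mod_cast this
  obtain ⟨h2, h3⟩ := hx x ((le_max_left _ _).trans hx0)
  exact ⟨(Real.rpow_le_rpow_of_exponent_le hx1 (by linarith)).trans h2,
    h3.trans (Real.rpow_le_rpow_of_exponent_le hx1 (by linarith))⟩

theorem half_of_exponent {S : Set ℤ} {γ : ℝ} (h : HasExponent S γ) (h1 : 1 / 2 < γ) :
    HalfDense S := by
  set ε : ℝ := (γ - 1 / 2) / 4 with hε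
  have hε0 : 0 < ε := by rw [hε]; linarith
  obtain ⟨x₀, hx⟩ := h ε hε0
  -- `16 ^ (..) ≤ L ^ ε` for large `L`
  obtain ⟨L₁, hL₁⟩ : ∃ L₁ : ℕ, ∀ L : ℕ, L₁ ≤ L → (4 : ℝ) ^ (γ - ε) ≤ (L : ℝ) ^ ε := by
    have ht := (tendsto_rpow_atTop hε0).comp tendsto_natCast_atTop_atTop
    have h2 := (ht.eventually_ge_atTop ((4 : ℝ) ^ (γ - ε)))
    obtain ⟨L₁, h3⟩ := Filter.eventually_atTop.1 h2
    exact ⟨L₁, fun L hL => h3 L hL⟩
  refine ⟨ε, hε0, max (4 * x₀ + 8) L₁, fun L hL => ?_⟩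
  have hL1 : 4 * x₀ + 8 ≤ L := (le_max_left _ _).trans hL
  have hL2 : L₁ ≤ L := (le_max_right _ _).trans hL
  set x : ℕ := (L - 1) / 2 with hxd
  have hxx : x₀ ≤ x := by omega
  have hxL : 2 * x + 1 ≤ L := by omega
  have hLx : L ≤ 4 * x := by omega
  refine ⟨-(x : ℤ), ?_⟩
  obtain ⟨h2, -⟩ := hx x hxx
  have hsub : S ∩ Set.Icc (-(x : ℤ)) x ⊆ S ∩ Set.Ico (-(x : ℤ)) (-(x : ℤ) + L) := by
    rintro s ⟨hs, hs1⟩
    rw [Set.mem_Icc] at hs1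
    refine ⟨hs, ?_⟩
    rw [Set.mem_Ico]
    omega
  have hcard := Set.ncard_le_ncard hsub ((Set.finite_Ico _ _).subset Set.inter_subset_right)
  have h3 : ((S ∩ Set.Icc (-(x : ℤ)) x).ncard : ℝ) ≤
      ((S ∩ Set.Ico (-(x : ℤ)) (-(x : ℤ) + L)).ncard : ℝ) := by exact_mod_cast hcard
  refine le_trans ?_ (h2.trans h3)
  have hx1 : (1 : ℝ) ≤ x := by
    have : 1 ≤ x := by omega
    exact_mod_cast this
  have hL0 : (1 : ℝ) ≤ L := by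
    have : 1 ≤ L := by omega
    exact_mod_cast this
  have hLx' : (L : ℝ) ≤ 4 * x := by exact_mod_cast hLx
  have hγ : 0 ≤ γ - ε := by rw [hε]; linarith
  -- `L ^ (γ - ε) ≤ 4 ^ (γ - ε) x ^ (γ - ε)`
  have h4 : (L : ℝ) ^ (γ - ε) ≤ (4 : ℝ) ^ (γ - ε) * (x : ℝ) ^ (γ - ε) := by
    rw [← Real.mul_rpow (by norm_num) (by linarith)]
    exact Real.rpow_le_rpow (by linarith) hLx' hγ
  have h5 := hL₁ L hL2
  have h6 : (L : ℝ) ^ (γ - ε) ≤ (L : ℝ) ^ ε * (x : ℝ) ^ (γ - ε) :=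
    h4.trans (mul_le_mul_of_nonneg_right h5 (Real.rpow_nonneg (by linarith) _))
  have h7 : (L : ℝ) ^ (γ - ε) = (L : ℝ) ^ ε * (L : ℝ) ^ (γ - 2 * ε) := by
    rw [← Real.rpow_add (by linarith)]
    congr 1
    ring
  rw [h7] at h6
  have h8 : 0 < (L : ℝ) ^ ε := Real.rpow_pos_of_pos (by linarith) _
  have h9 := le_of_mul_le_mul_left h6 h8
  refine le_trans ?_ h9
  exact Real.rpow_le_rpow_of_exponent_le hL0 (by rw [hε]; linarith)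

end Pool.Agent.Work.MP_b29d7f_two
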