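import Pool.Agent.Work.MP_b29d7f_two.B_PAD
import Pool.Agent.Work.MP_b29d7f_two.B_PAE
import Pool.Agent.Work.MP_b29d7f_two.B_SUPER
import Pool.Agent.Work.MP_b29d7f_two.B_VLM
import Pool.Agent.Work.MP_b29d7f_two.B_PRF
import Pool.Agent.Work.MP_b29d7f_two.B_EPU
import Pool.Agent.Work.MP_b29d7f_two.B_TSU
import Pool.Agent.Work.MP_b29d7f_two.B_GGB
import Pool.Agent.Work.MP_b29d7f_two.B_BIG
import Pool.Agent.Work.MP_b29d7f_two.B_CPA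
import Pool.Agent.Work.MP_b29d7f_two.B_CLU
import Pool.Agent.Work.MP_b29d7f_two.B_LIM
import Pool.Agent.Work.MP_b29d7f_two.B_LREX
import Pool.Agent.Work.MP_b29d7f_two.B_LRA
import Pool.Agent.Work.MP_b29d7f_two.B_LRC
import Pool.Agent.Work.MP_b29d7f_two.B_LRD
import Pool.Agent.Work.MP_b29d7f_two.B_LRE
import Pool.Agent.Work.MP_b29d7f_two.B_MXB
import Pool.Agent.Work.MP_b29d7f_two.B_DIA
import Pool.Agent.Work.MP_b29d7f_two.B_NEG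
import Pool.Agent.Work.MP_b29d7f_two.B_LSM
import Pool.Agent.Work.MP_b29d7f_two.B_MRT
import Pool.Agent.Work.MP_b29d7f_two.B_RREX
import Pool.Agent.Work.MP_b29d7f_two.B_SELA
import Pool.Agent.Work.MP_b29d7f_two.B_SEL
import Pool.Agent.Work.MP_b29d7f_two.B_FREX
import Pool.Agent.Work.MP_b29d7f_two.B_GLOW
import Pool.Agent.Work.MP_b29d7f_two.B_FROST
import Pool.Agent.Work.MP_b29d7f_two.B_TRANS
import Pool.Agent.Work.MP_b29d7f_two.B_CATCHB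
import Pool.Agent.Work.MP_b29d7f_two.B_JUMP
import Pool.Agent.Work.MP_b29d7f_two.B_START
import Pool.Agent.Work.MP_b29d7f_two.B_PIG1
import Pool.Agent.Work.MP_b29d7f_two.B_PIGB
import Pool.Agent.Work.MP_b29d7f_two.B_MP2
import Pool.Agent.Work.MP_b29d7f_two.B_MNS
import Pool.Agent.Work.MP_b29d7f_two.B_WR1
import Pool.Agent.Work.MP_b29d7f_two.B_WR2
import Pool.Agent.Work.MP_b29d7f_two.B_GWC
import Pool.Agent.Work.MP_b29d7f_two.B_PR2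
import Pool.Agent.Work.MP_b29d7f_two.B_LOCA
import Pool.Agent.Work.MP_b29d7f_two.B_LOCW
import Pool.Agent.Work.MP_b29d7f_two.B_LWU
import Pool.Agent.Work.MP_b29d7f_two.B_LW1
import Pool.Agent.Work.MP_b29d7f_two.B_LWL
import Pool.Agent.Work.MP_b29d7f_two.B_PIGF
import Pool.Agent.Work.MP_b29d7f_two.B_BL1
import Pool.Agent.Work.MP_b29d7f_two.B_BL2
import Pool.Agent.Work.MP_b29d7f_two.B_BL3
import Pool.Agent.Work.MP_b29d7f_two.B_TEL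
import Pool.Agent.Work.MP_b29d7f_two.B_GR1
import Pool.Agent.Work.MP_b29d7f_two.B_GR2
import Pool.Agent.Work.MP_b29d7f_two.B_GR3
import Pool.Agent.Work.MP_b29d7f_two.B_GR4
import Pool.Agent.Work.MP_b29d7f_two.B_GRO
import Pool.Agent.Work.MP_b29d7f_two.B_NUM1
import Pool.Agent.Work.MP_b29d7f_two.B_PART1
import Pool.Agent.Work.MP_b29d7f_two.B_DYA
import Pool.Agent.Work.MP_b29d7f_two.B_EQM
import Pool.Agent.Work.MP_b29d7f_two.B_ENG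
import Pool.Agent.Work.MP_b29d7f_two.B_THL
import Pool.Agent.Work.MP_b29d7f_two.B_THU
import Pool.Agent.Work.MP_b29d7f_two.B_LVL
import Pool.Agent.Work.MP_b29d7f_two.B_XUP
import Pool.Agent.Work.MP_b29d7f_two.B_YUP
import Pool.Agent.Work.MP_b29d7f_two.B_THG
import Pool.Agent.Work.MP_b29d7f_two.B_COUP
import Pool.Agent.Work.MP_b29d7f_two.B_ENT
import Pool.Agent.Work.MP_b29d7f_two.B_GIJ
import Pool.Agent.Work.MP_b29d7f_two.B_GIJ2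
import Pool.Agent.Work.MP_b29d7f_two.B_XPR
import Pool.Agent.Work.MP_b29d7f_two.B_GPR
import Pool.Agent.Work.MP_b29d7f_two.B_SUMS
import Pool.Agent.Work.MP_b29d7f_two.B_FOUR
import Pool.Agent.Work.MP_b29d7f_two.B_LL1
import Pool.Agent.Work.MP_b29d7f_two.B_LLD
import Pool.Agent.Work.MP_b29d7f_two.B_LLP
import Pool.Agent.Work.MP_b29d7f_two.B_WT1
import Pool.Agent.Work.MP_b29d7f_two.B_WT2
import Pool.Agent.Work.MP_b29d7f_two.B_WT3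
import Pool.Agent.Work.MP_b29d7f_two.B_WTG
import Pool.Agent.Work.MP_b29d7f_two.B_SCL
import Pool.Agent.Work.MP_b29d7f_two.B_PART2
import Pool.Agent.Work.MP_b29d7f_two.B_MAIN

/-!
# Sets of exponent smaller than one half: assembly
-/

namespace Pool.Agent.Work.MP_b29d7f_two

theorem P_PAD : Stmt_PAD := stmt_PAD
theorem P_PAE : Stmt_PAE := stmt_PAE P_PAD
theorem P_SUPER : Stmt_SUPER := stmt_SUPER P_PAD
theorem P_VLM : Stmt_VLM := stmt_VLM P_PAD P_PAE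
theorem P_PRF : Stmt_PRF := stmt_PRF
theorem P_EPU : Stmt_EPU := stmt_EPU P_PAD
theorem P_TSU : Stmt_TSU := stmt_TSU P_PRF P_SUPER
theorem P_GGB : Stmt_GGB := stmt_GGB P_TSU
theorem P_BIG : Stmt_BIG := stmt_BIG P_PAD P_PAE
theorem P_CPA : Stmt_CPA := stmt_CPA P_PRF
theorem P_CLU : Stmt_CLU := stmt_CLU P_TSU
theorem P_LIM : Stmt_LIM := stmt_LIM
theorem P_LREX : Stmt_LREX := stmt_LREX
theorem P_LRA : Stmt_LRA := stmt_LRA P_TSU P_GGB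
theorem P_LRC : Stmt_LRC := stmt_LRC P_CLU P_LRA P_PAE P_GGB
theorem P_LRD : Stmt_LRD := stmt_LRD P_PAD P_PRF P_LRA P_LRC
theorem P_LRE : Stmt_LRE := stmt_LRE P_TSU P_LRA P_CLU P_PAE P_GGB
theorem P_MXB : Stmt_MXB := stmt_MXB P_PAE
theorem P_DIA : Stmt_DIA := stmt_DIA P_MXB
theorem P_NEG : Stmt_NEG := stmt_NEG
theorem P_LSM : Stmt_LSM := stmt_LSM
theorem P_MRT : Stmt_MRT := stmt_MRT
theorem P_RREX : Stmt_RREX := stmt_RREX P_GGB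
theorem P_SELA : Stmt_SELA := stmt_SELA P_GGB P_MXB
theorem P_SEL : Stmt_SEL := stmt_SEL P_SELA P_MRT P_GGB
theorem P_FREX : Stmt_FREX := stmt_FREX P_LREX P_RREX P_SEL P_NEG
theorem P_GLOW : Stmt_GLOW := stmt_GLOW P_GGB
theorem P_FROST : Stmt_FROST := stmt_FROST P_GLOW P_CLU P_GGB
theorem P_TRANS : Stmt_TRANS := stmt_TRANS P_PAD P_PAE P_VLM P_LRD P_GGB
theorem P_CATCHB : Stmt_CATCHB := stmt_CATCHB P_PAD P_PAE P_SUPER P_BIG P_LRD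
theorem P_JUMP : Stmt_JUMP := stmt_JUMP P_PAD P_PAE P_VLM P_GGB
theorem P_START : Stmt_START := stmt_START P_TSU
theorem P_PIG1 : Stmt_PIG1 := stmt_PIG1
theorem P_PIGB : Stmt_PIGB := stmt_PIGB P_PIG1 P_JUMP P_BIG P_PRF P_PAD P_TSU
theorem P_MP2 : Stmt_MP2 := stmt_MP2
theorem P_MNS : Stmt_MNS := p_MNS
theorem P_WR1 : Stmt_WR1 := stmt_WR1 P_PAD P_PAE P_MP2
theorem P_WR2 : Stmt_WR2 := stmt_WR2 P_WR1 P_MNS P_PAD
theorem P_GWC : Stmt_GWC := p_GWC P_MXB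
theorem P_PR2 : Stmt_PR2 := stmt_PR2 P_PRF
theorem P_LOCA : Stmt_LOCA := stmt_LOCA P_TRANS P_CPA P_SUPER P_GGB P_PAD
theorem P_LOCW : Stmt_LOCW := stmt_LOCW P_LOCA
theorem P_LWU : Stmt_LWU := p_LWU P_PR2 P_PRF P_WR2 P_LOCW P_CATCHB P_PIGB P_PAD P_TSU P_MRT
theorem P_LW1 : Stmt_LW1 := p_LW1 P_MXB P_DIA P_PAE
theorem P_LWL : Stmt_LWL := stmt_LWL P_LW1 P_LSM P_GGB P_MXB
theorem P_PIGF : Stmt_PIGF := stmt_PIGF
theorem P_BL1 : Stmt_BL1 := stmt_BL1 P_MXB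
theorem P_BL2 : Stmt_BL2 := stmt_BL2 P_MXB
theorem P_BL3 : Stmt_BL3 := stmt_BL3 P_MXB
theorem P_TEL : Stmt_TEL := stmt_TEL P_MXB P_TSU
theorem P_GR1 : Stmt_GR1 := stmt_GR1 P_MXB
theorem P_GR2 : Stmt_GR2 := stmt_GR2 P_MXB
theorem P_GR3 : Stmt_GR3 := stmt_GR3 P_MXB
theorem P_GR4 : Stmt_GR4 := stmt_GR4 P_FROST P_GGB P_CLU
theorem P_GRO : Stmt_GRO := stmt_GRO P_GR1 P_GR2 P_GR3 P_GR4 P_LRE P_DIA P_LSM P_MXB
theorem P_NUM1 : Stmt_NUM1 := stmt_NUM1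
theorem P_PART1 : Stmt_PART1 := stmt_PART1 P_NUM1 P_PIGF P_BL1 P_BL2 P_BL3 P_TEL P_GRO P_GWC P_LWU P_LWL P_GGB P_LRA P_MXB P_MRT
theorem P_DYA : Stmt_DYA := stmt_DYA P_MXB P_PAE
theorem P_EQM : Stmt_EQM := stmt_EQM
theorem P_ENG : Stmt_ENG := stmt_ENG
theorem P_THL : Stmt_THL := stmt_THL P_PAD P_PAE
theorem P_THU : Stmt_THU := stmt_THU P_ENG P_EPU P_PAD P_PAE
theorem P_LVL : Stmt_LVL := stmt_LVL P_GGB P_CPA P_PRF P_PAE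
theorem P_XUP : Stmt_XUP := stmt_XUP P_LRE P_LRA P_EPU P_SUPER P_TRANS P_THL P_THU P_LVL P_CPA P_PRF P_GGB P_PAD P_PAE
theorem P_YUP : Stmt_YUP := stmt_YUP P_LVL
theorem P_THG : Stmt_THG := stmt_THG P_THL P_SUPER P_CPA P_LVL
theorem P_COUP : Stmt_COUP := p_COUP
theorem P_ENT : Stmt_ENT := stmt_ENT
theorem P_GIJ : Stmt_GIJ := stmt_GIJ
theorem P_GIJ2 : Stmt_GIJ2 := stmt_GIJ2 P_GIJ
theorem P_XPR : Stmt_XPR := stmt_XPR
theorem P_GPR : Stmt_GPR := stmt_GPR P_COUP P_ENT P_GIJ P_GIJ2 P_XPR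
theorem P_SUMS : Stmt_SUMS := p_SUMS
theorem P_FOUR : Stmt_FOUR := p_FOUR
theorem P_LL1 : Stmt_LL1 := stmt_LL1 P_SUMS P_FOUR
theorem P_LLD : Stmt_LLD := stmt_LLD P_ENG
theorem P_LLP : Stmt_LLP := stmt_LLP P_GPR P_LLD P_LL1
theorem P_WT1 : Stmt_WT1 := stmt_WT1 P_GGB P_PRF P_CPA
theorem P_WT2 : Stmt_WT2 := stmt_WT2 P_THU P_TRANS P_GGB P_LVL P_CPA
theorem P_WT3 : Stmt_WT3 := stmt_WT3 P_THU P_LVL P_VLM P_PAD P_PAE P_LRD P_GGB P_PRF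
theorem P_WTG : Stmt_WTG := stmt_WTG P_WT1 P_WT2 P_WT3 P_THG
theorem P_SCL : Stmt_SCL := stmt_SCL P_DYA P_GGB P_GLOW
theorem P_PART2 : Stmt_PART2 := stmt_PART2 P_SCL P_EQM P_XUP P_YUP P_THG P_GPR P_LLP P_WTG
theorem P_MAIN : Stmt_MAIN := stmt_MAIN P_START P_LIM P_GGB P_FREX P_NEG P_PART1 P_PART2

end Pool.Agent.Work.MP_b29d7f_two
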