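import Pool.Agent.Work.MP_b29d7f_two.Interface1

/-!
# Sets of exponent smaller than one half (two-sided): statements of the blocks, part 2

Paper proof: note 2876 (minimal windows, one side `R`).  A block `[j Q, j Q + Q]` is an interval of
indices; a window is `[u, u + w]` (`w + 1` indices); `l = el N`, `P' = P1 K m N`, `Q = Qb K m N`.
-/

namespace Pool.Agent.Work.MP_b29d7f_two

open Finset
open Pool.Agent.Work.MP_b29d7f_nt (IsPOrdering HasSimultaneousOrdering PS vd ld tv)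
open Pool.Agent.Work.MP_b29d7f_half (Ord A wv lD)
open Pool.Agent.Work.MP_b29d7f_sep (nv EW EL)

/-- PIG1: pairs of places, one block, pure. For `g < g' = g + d` the number of windows
`[u, u + w)`, containing both is at most `w - d` (and `0` unless `d < w`), and
`∑_{w > d} d (w - d) / w^3 ≤ d ∑_{w > d} 1 / w^2 ≤ 1`. Compare `cvx/B_PIG.lean`. -/
def Stmt_PIG1 : Prop := ∀ (o : ℕ → ℕ) (s Q M₁ M : ℕ) (J : ℝ), 1 ≤ M₁ → M₁ ≤ M → M ≤ Q → 0 ≤ J →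
  (∀ g : ℕ, s ≤ g → g < s + Q → ∑ g' ∈ Ico (g + 1) (min (g + M) (s + Q)), (o g' : ℝ) ≤ J) →
  ∑ w ∈ Icc M₁ M, (1 / (w : ℝ) ^ 3) * ∑ u ∈ Ico s (s + Q - w + 1),
      ∑ g ∈ Ico u (u + w), ∑ g' ∈ Ico (g + 1) (u + w), (o g : ℝ) * o g' * ((g' : ℝ) - g) ≤
    J * ∑ g ∈ Ico s (s + Q), (o g : ℝ)

/-- PIGB: a window length with few pairs of places (PIG1 with `o = om p a` for `p ∈ PG` and each
block; the hypothesis of PIG1 holds with `J = 2 C₀ log N / log P` by JUMP and BIG; the sum over `p`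
of `log p * growth` over a block is at most the growth of `T`; pigeonhole with
`∑_{w=M₁}^{M} 1/w ≥ log (M / M₁)`) -/
def Stmt_PIGB : Prop := ∀ (a : ℕ → ℤ) (k₀ : ℕ) (C₀ : ℝ), Dat a k₀ C₀ →
  ∀ (N P M₁ M Q : ℕ) (D : Finset ℕ), 2 ≤ N → 1 ≤ M₁ → M₁ < M → M ≤ Q → 2 ≤ P → P ≤ N →
    (∀ j ∈ D, j * Q + Q ≤ N) →
    ∃ w : ℕ, M₁ ≤ w ∧ w ≤ M ∧
      (∑ p ∈ PG a N M P, Real.log p * ∑ j ∈ D, ∑ u ∈ Ico (j * Q) (j * Q + Q - w + 1),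
          PT p a u w) * Real.log ((M : ℝ) / M₁) ≤
        (w : ℝ) ^ 2 * (2 * C₀ * Real.log N / Real.log P) * Rs a Q D

/-- MP2, TWO: the minimum of two sums (pure; compare `sep/B_MINP.lean`). `D g = A g - B g` is
monotone with `D g' - D g ≤ 2 (g' - g)`; if `P`, `M` are the positive and the negative part of
`∑ om D`, then `min (∑ om A) (∑ om B) = ∑ om min (A, B) + min (P, M)` and `min (P, M)` is at most
`∑_{D g < 0 < D g'} om om' (D g' - D g)`. -/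
def Stmt_MP2 : Prop := ∀ (o : ℕ → ℕ) (A B : ℕ → ℝ) (u w : ℕ) (E : ℝ),
  (∀ g g' : ℕ, g ≤ g' → A g ≤ A g' ∧ A g' ≤ A g + ((g' : ℝ) - g)) →
  (∀ g g' : ℕ, g ≤ g' → B g' ≤ B g ∧ B g ≤ B g' + ((g' : ℝ) - g)) →
  E ≤ ∑ g ∈ Ico u (u + w), (o g : ℝ) * A g → E ≤ ∑ g ∈ Ico u (u + w), (o g : ℝ) * B g →
  E ≤ ∑ g ∈ Ico u (u + w), (o g : ℝ) * min (A g) (B g) +
    2 * ∑ g ∈ Ico u (u + w), ∑ g' ∈ Ico (g + 1) (u + w), (o g : ℝ) * o g' * ((g' : ℝ) - g)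

/-- MNS, TWO: pure. With `n = w + 1`, `k = ⌊n / (1 + ρ)⌋`:
`∑_{d ≤ k} ρ d + ∑_{k < d ≤ w} (n - d)` is at most its value `ρ n^2 / (2 (1 + ρ))` at the real point
`κ = n / (1 + ρ)`: the difference is `(1 + ρ)/2 (k - κ) (k - κ + 1) ≤ 0`. -/
def Stmt_MNS : Prop := ∀ (w : ℕ) (ρ : ℝ), 0 ≤ ρ → ρ ≤ 1 →
  ∑ d ∈ Icc 1 w, min (ρ * d) ((w : ℝ) + 1 - d) ≤ ρ * ((w : ℝ) + 1) ^ 2 / (2 * (1 + ρ)) ∧
  ∑ d ∈ Icc 1 w, min (ρ * ((w : ℝ) + 1 - d)) (d : ℝ) ≤ ρ * ((w : ℝ) + 1) ^ 2 / (2 * (1 + ρ))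

/-- WR1, TWO: one window. (i) F2 (PAD) for each `h`. (ii) forward pairs: `∑_{l > h} vl ≤ w(u+w) - w(h)`
for `h ∈ R`, and, summing over the later element `l`, `∑_l (w(l) - w(u))`; both are sums over the
places `g` of `om g` times a number of elements; MP2 with `A g` = number of `R`-times in `[u, g]`,
`B g = u + w - g`. Backward pairs: the same with `B g` = number of `R`-times in `[g + 1, u + w]`,
`A g = g + 1 - u`. (`A`, `B` outside `[u, u + w)`: extend, or apply MP2 to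
`A g = Rc a u (g + 1)` and `B g = max (u + w - g) 0` etc.) -/
def Stmt_WR1 : Prop := ∀ (a : ℕ → ℤ), Ord (Set.range a) a → ∀ (p u w : ℕ), p.Prime →
  EWR p a u w ≤ (Rc a u (u + w + 1) : ℝ) * ((nv p a (u + w) : ℝ) - nv p a u) ∧
  EWR p a u w ≤ ∑ g ∈ Ico u (u + w), (om p a g : ℝ) *
      (min (Rc a u (g + 1) : ℝ) ((u : ℝ) + w - g) +
       min (Rc a (g + 1) (u + w + 1) : ℝ) ((g : ℝ) + 1 - u)) + 4 * PT p a u w

/-- WR2, TWO: the good windows of one block `[s, s + Q)` (WR1, MNS). In a good window and for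
`d = g + 1 - u`: `Rc a u (g + 1) ≤ ρ d + e w`, `Rc a (g+1) (u+w+1) ≤ ρ (w + 1 - d) + 2 e w`; for a
given place `g` the windows containing it (`u ≤ g < u + w`) have different `d ∈ [1, w]`; all the
terms are `≥ 0`. -/
def Stmt_WR2 : Prop := ∀ (a : ℕ → ℤ), Ord (Set.range a) a → ∀ (p s Q w : ℕ) (ρ e : ℝ), p.Prime →
  1 ≤ w → w ≤ Q → 0 ≤ ρ → ρ ≤ 1 → 0 ≤ e →
  ∑ u ∈ GW a s Q w ρ e, EWR p a u w ≤
    (ρ * ((w : ℝ) + 1) + e * w) * w * ((nv p a (s + Q) : ℝ) - nv p a s) ∧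
  ∑ u ∈ GW a s Q w ρ e, EWR p a u w ≤
    (ρ * ((w : ℝ) + 1) ^ 2 / (1 + ρ) + 3 * e * (w : ℝ) ^ 2) *
        ((nv p a (s + Q) : ℝ) - nv p a s) +
      4 * ∑ u ∈ Ico s (s + Q - w + 1), PT p a u w

/-- GWC, TWO: the number of good windows in a stable block. For a window `[u, u + w]` and
`d ≤ w + 1`: `[u, u + d)` consists of complete blocks of length `m` and two ends (error `≤ m` each);
a complete block contributes `es m`, or `m` if its share is not within `es` of `ρ = sh a Q j`. So the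
window is good with the error `4 es w` unless it contains more than `es w` bad indices; the number of
such windows is at most `(w + 1) es^2 Q / (es w) ≤ 2 es Q`. -/
def Stmt_GWC : Prop := ∀ (a : ℕ → ℤ) (m Q w j : ℕ) (es : ℝ), 1 ≤ m → m ∣ Q → 0 < es → es ≤ 1 →
  2 * (m : ℝ) ≤ es * w → (w : ℝ) ≤ es * Q → 1 ≤ w → (bd a m Q j es : ℝ) ≤ es ^ 2 * Q →
  (1 - 3 * es) * Q ≤ ((GW a (j * Q) Q w (sh a Q j) (4 * es)).card : ℝ)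

/-- PR2, TWO: the product formula for `ELR` (second item of PRF) -/
def Stmt_PR2 : Prop := ∀ a : ℕ → ℤ, Ord (Set.range a) a → ∀ n u w : ℕ, u + w ≤ n →
  ELR a u w = ∑ p ∈ PR a n, Real.log p * EWR p a u w

/-- LOCA: the growth of the small primes over a set of blocks. TRANS for `Q = PA a N (K m)`,
`k = P1 K m N` bounds the total (CPA: the number of primes times `log N` is `O(P1 / l)`); each of the
other blocks (there are at least `N / Q - 1 - |D|` of them) has growth at least `w_p(Q)`, and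
`w_p(Q) ≥ l w_p(P')` (SUPER), `Q = l P'`; finally `∑_{PA} log p w_p(P') ≤ T(P') = P' g(P')` and
`Q g(P') ≤ N`. -/
def Stmt_LOCA : Prop := ∀ (a : ℕ → ℤ) (k₀ : ℕ) (C₀ κ b β₁ β₂ e₃ e₇ e₈ : ℝ) (K J : ℕ),
  Dat a k₀ C₀ → 0 ≤ κ → 0 < β₁ → β₂ ≤ 1 / 4 → 1 ≤ K → ∃ (C : ℝ) (N₀ : ℕ), 0 ≤ C ∧
    ∀ n N R m : ℕ, N₀ ≤ N → Fr a k₀ κ b β₁ β₂ e₃ e₇ e₈ K J n N R m →
      ∀ D : Finset ℕ, (∀ j ∈ D, j * Qb K m N + Qb K m N ≤ N) →
        ∑ p ∈ PA a N (K * m), Real.log p * ∑ j ∈ D,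
            ((nv p a (j * Qb K m N + Qb K m N) : ℝ) - nv p a (j * Qb K m N)) ≤
          (D.card : ℝ) * Qb K m N * gg a (P1 K m N) + C * N

/-- LOCW, TWO: LOCA with weights `ρ j` in `[0, 1]`: apply LOCA to the set of the `j ∈ D` for which
the growth is larger than `Q g(P')`; the other terms of
`∑ ρ j (growth j - Q g(P'))` are `≤ 0` -/
def Stmt_LOCW : Prop := ∀ (a : ℕ → ℤ) (k₀ : ℕ) (C₀ κ b β₁ β₂ e₃ e₇ e₈ : ℝ) (K J : ℕ),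
  Dat a k₀ C₀ → 0 ≤ κ → 0 < β₁ → β₂ ≤ 1 / 4 → 1 ≤ K → ∃ (C : ℝ) (N₀ : ℕ), 0 ≤ C ∧
    ∀ n N R m : ℕ, N₀ ≤ N → Fr a k₀ κ b β₁ β₂ e₃ e₇ e₈ K J n N R m →
      ∀ (D : Finset ℕ) (ρ : ℕ → ℝ), (∀ j ∈ D, j * Qb K m N + Qb K m N ≤ N) →
        (∀ j ∈ D, 0 ≤ ρ j ∧ ρ j ≤ 1) →
        ∑ j ∈ D, ρ j * ∑ p ∈ PA a N (K * m), Real.log p *
            ((nv p a (j * Qb K m N + Qb K m N) : ℝ) - nv p a (j * Qb K m N)) ≤
          (∑ j ∈ D, ρ j) * Qb K m N * gg a (P1 K m N) + C * N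

/-- LWU, TWO: upper bound for the energy `ELR` of the good windows in the blocks of `D`, with the
weights `(1 + ρ)/ρ`, `ρ j = sh a Q j ≥ d₃` (PR2, PRF, WR2, LOCW, CATCHB with `M = E₂ K₁ m`,
`P = K m = 2 M`, PIGB with `M₁ = K₁ m`, `log P ≥ (β₁/2) log N`; compare `low/B_LWU.lean`). Per block:
`(1+ρ)/ρ · [ (ρ(w+1) + e w) w gr_AC + (ρ(w+1)²/(1+ρ) + 3 e w²) gr_G + 4 PT ]
 ≤ (w+1)² (gr + ρ gr_AC) + (6 e / d₃) w² gr + (8/d₃) PT`, where `gr_AC` is the growth of the primes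
of `PA` and `PC`, `gr_G` that of `PG`, `gr = gr_AC + gr_G`. -/
def Stmt_LWU : Prop := ∀ (a : ℕ → ℤ) (k₀ : ℕ) (C₀ κ b β₁ β₂ e₃ e₇ e₈ : ℝ) (K₁ E₂ J : ℕ),
  Dat a k₀ C₀ → 0 ≤ κ → 0 < β₁ → β₂ ≤ 1 / 4 → 1 ≤ K₁ → 2 ≤ E₂ → ∃ (C : ℝ) (N₀ : ℕ), 0 ≤ C ∧
    ∀ n N R m : ℕ, N₀ ≤ N → Fr a k₀ κ b β₁ β₂ e₃ e₇ e₈ (2 * E₂ * K₁) J n N R m →
      ∀ (D : Finset ℕ) (d₃ e : ℝ), 0 < d₃ → 0 ≤ e → e ≤ 1 →
      (∀ j ∈ D, j * Qb (2 * E₂ * K₁) m N + Qb (2 * E₂ * K₁) m N ≤ N ∧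
        d₃ ≤ sh a (Qb (2 * E₂ * K₁) m N) j) →
      ∃ w : ℕ, K₁ * m ≤ w ∧ w ≤ E₂ * K₁ * m ∧
        ∑ j ∈ D, ((1 + sh a (Qb (2 * E₂ * K₁) m N) j) / sh a (Qb (2 * E₂ * K₁) m N) j) *
            ∑ u ∈ GW a (j * Qb (2 * E₂ * K₁) m N) (Qb (2 * E₂ * K₁) m N) w
              (sh a (Qb (2 * E₂ * K₁) m N) j) e, ELR a u w ≤
          ((w : ℝ) + 1) ^ 2 * (Rs a (Qb (2 * E₂ * K₁) m N) D +
              (∑ j ∈ D, sh a (Qb (2 * E₂ * K₁) m N) j) * Qb (2 * E₂ * K₁) m N *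
                gg a (P1 (2 * E₂ * K₁) m N) + C * N) +
            (w : ℝ) ^ 2 * (6 * e / d₃ + 8 / d₃ * (4 * C₀ / β₁ / Real.log E₂)) *
              Rs a (Qb (2 * E₂ * K₁) m N) D

/-- LW1, TWO: lower bound for one good window in a block `[s, s + Q)`, `k₀ ≤ s`, `1 ≤ s`: with
`r` the number of `R`-times: ordered pairs of `R`-elements at index distance `≥ m` (at least
`r (r - 2 m)`), the earlier one not exceptional (`G > y`; each exceptional one spoils at most `2 r`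
ordered pairs): log at least `y` (if `h < h'` are `R`-times, `h' ≥ h + m`, then
`a h' - a h ≥ Mx (h + m) - Mx h`); pairs of an `R`-element and an `L`-element, `r (w + 1 - r)` of
them: log at least `g(s) ≥ Γ` (DIA, and `gg a k ≥ Γ` for `k ≥ s`). -/
def Stmt_LW1 : Prop := ∀ (a : ℕ → ℤ) (k₀ : ℕ) (C₀ : ℝ), Dat a k₀ C₀ →
  ∀ (m w u : ℕ) (y Γ : ℝ) (x : ℕ), 1 ≤ m → 0 ≤ y → 0 ≤ Γ →
    (∀ k : ℕ, u ≤ k → k ≤ u + w → Γ ≤ gg a k) →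
    x = ((Rf a u (u + w + 1)).filter fun h => Gm a m h ≤ y).card →
    y * ((Rc a u (u + w + 1) : ℝ) * ((Rc a u (u + w + 1) : ℝ) - 2 * m - 2 * x)) +
      Γ * ((Rc a u (u + w + 1) : ℝ) * ((w : ℝ) + 1 - Rc a u (u + w + 1))) ≤ ELR a u w

/-- LWL, TWO: lower bound for the energy of the good windows in the blocks of `D` (LW1 with
`Γ = max 0 (g(n) - κ (log n - log (j Q)))` (LRec), LSM). In a good window
`|r - ρ (w+1)| ≤ e w`; `(1+ρ)/ρ ≤ 2/ρ ≤ 2/d₃`; the number of good windows of a block is between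
`(1 - e₁) Q` and `Q`. The exceptional indices: each `h` with `G(h) ≤ y` is in at most `w + 1` windows,
and `(1+ρ)/ρ · 2 r ≤ 4 (w+1) + 4 e w / d₃`. -/
def Stmt_LWL : Prop := ∀ (a : ℕ → ℤ) (k₀ : ℕ) (C₀ κ : ℝ), Dat a k₀ C₀ → 0 ≤ κ →
  ∀ (n N m w Q K₁ : ℕ) (D : Finset ℕ) (y d₃ e e₁ : ℝ), 1 ≤ N → 2 * N ≤ n → n ≤ 2 * N + 1 →
    LRec a κ n → 1 ≤ m → 1 ≤ K₁ → K₁ * m ≤ w → w ≤ Q → 0 ≤ y → 0 < d₃ → d₃ ≤ 1 → 0 ≤ e → e ≤ 1 →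
    0 ≤ e₁ → e₁ ≤ 1 →
    (∀ j ∈ D, k₀ ≤ j * Q ∧ 1 ≤ j ∧ j * Q + Q ≤ N ∧ d₃ ≤ sh a Q j ∧
      (1 - e₁) * Q ≤ ((GW a (j * Q) Q w (sh a Q j) e).card : ℝ)) →
    ((w : ℝ) + 1) ^ 2 * (y * (Q * ∑ j ∈ D, sh a Q j * (1 + sh a Q j)) +
        gg a n * (Q * ∑ j ∈ D, (1 + sh a Q j) * (1 - sh a Q j)) -
        (y + gg a n) * (40 * (e / d₃ + 1 / K₁ + e₁)) * (D.card * Q) -
        (4 + 4 * e / d₃) * y * cnt a k₀ N m y - 16 * κ * N) ≤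
      ∑ j ∈ D, ((1 + sh a Q j) / sh a Q j) * ∑ u ∈ GW a (j * Q) Q w (sh a Q j) e, ELR a u w

/-- PIGF, TWO: pigeonhole for a distribution function. Coarse grid of step `w / 2` (it gives `η`),
then, for given `d₂`, fine grid of step `e` on `[x, x + w/2]`; compare `low/B_PIGF.lean`. -/
def Stmt_PIGF : Prop := ∀ (w d X : ℝ), 0 < w → 0 < d → d < 1 → 0 < X →
  ∃ η : ℝ, 0 < η ∧ η ≤ 1 / 3 ∧ ∀ d₂ : ℝ, 0 < d₂ → ∃ e : ℝ, 0 < e ∧ e ≤ w ∧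
    ∀ (F : ℝ → ℝ) (x₀ : ℝ), Monotone F →
    (∀ x, 0 ≤ F x) → (∀ x, F x ≤ 1) → F x₀ < η → 1 / 3 ≤ F (x₀ + X) →
    ∃ x : ℝ, x₀ ≤ x ∧ x ≤ x₀ + X + w ∧ η ≤ F x ∧ F (x - w) ≤ d * F x ∧ F (x + e) ≤ (1 + d₂) * F x

/-- BL1, TWO: most `R`-times `u` with `G(u) ≤ y - e` are in blocks of `D = DD`. Exceptions: the ends
(`u < k₀ + 2 Q` or `u ≥ N - 3 Q`), the atypical ones, the blocks with `bd > es^2 Q` (their indices
number at most `uns / es^2 + Q`), the indices where the shares for `Q` and `W` differ, the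
`R`-times in blocks of length `W` of share less than `d₂`. For `u` in the block `j = u / Q`:
`[(j-1) Q, (j+2) Q] ⊆ [u - 2 Q, u + 2 Q]`. -/
def Stmt_BL1 : Prop := ∀ (a : ℕ → ℤ) (k₀ : ℕ) (C₀ : ℝ), Dat a k₀ C₀ →
  ∀ (N m Q W : ℕ) (y e es d₂ : ℝ), 1 ≤ m → m ∣ Q → Q ∣ W → 1 ≤ Q → 1 ≤ W → W ≤ N → 0 ≤ e →
    0 < es → es ≤ 1 → 0 ≤ d₂ →
    (cnt a k₀ N m (y - e) : ℝ) ≤ Q * ∑ j ∈ DD a k₀ N m Q W y es d₂, sh a Q j +
      (k₀ + 10 * Q + atyp a k₀ N m Q e + uns a N m Q es / es ^ 2 + Q + uns a N Q W es +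
        d₂ * N + W)

/-- BL2, TWO: few blocks of `D = DD` have a neighbour outside `D`. Let `j ∈ D`, `j' = j + 1` or
`j - 1`, `j' ∉ D`. Then: `j'` is near an end (at most 4 such `j`); or `j'` is in another block of
length `W` (at most `2 (N/W + 1)`); or `bd > es^2 Q` for `j'`; or the shares of `j'` differ; or
`j'` has the same large block, and its span is larger than `y`. In the last case the typical
`R`-times `u` of the block `j'` (with `u + m ≤ (j'+1) Q`) have `G(u) ≤ y` (because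
`[u, u + m] ⊆ [(j-1) Q, (j+2) Q]`) and `G(u) ≥ log span(j') - e > y - e`; the block `j'` has at least
`(d₂ - es) Q` `R`-times, at most `m` of them are too near to the end; so either the block has more
than `d₂ Q / 4` atypical indices, or at least `d₂ Q / 2` indices counted by
`cnt y - cnt (y - e)`. -/
def Stmt_BL2 : Prop := ∀ (a : ℕ → ℤ) (k₀ : ℕ) (C₀ : ℝ), Dat a k₀ C₀ →
  ∀ (N m Q W : ℕ) (y e es d₂ : ℝ), 1 ≤ m → m ∣ Q → Q ∣ W → 1 ≤ Q → 1 ≤ W → W ≤ N → 0 ≤ e →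
    0 < es → es ≤ 1 → 0 < d₂ → 8 * es ≤ d₂ → 8 * (m : ℝ) ≤ d₂ * Q →
    (((DD a k₀ N m Q W y es d₂) \ Inn (DD a k₀ N m Q W y es d₂)).card : ℝ) * Q ≤
      2 * (10 * Q + 2 * ((N : ℝ) / W + 1) * Q + uns a N m Q es / es ^ 2 + Q + uns a N Q W es +
        4 * atyp a k₀ N m Q e / d₂ +
        2 * ((cnt a k₀ N m y : ℝ) - cnt a k₀ N m (y - e)) / d₂)

/-- BL3, TWO: properties of the blocks of `D = DD` (`W` a multiple of `Q`). (1) the `R`-times in them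
have `G ≤ y`; (2) all indices of `[j Q - Q, j Q + Q]` have `G ≤ y`; (3) share at least `d₂/2`, at
least one `R`-time in the block; (4) the span. -/
def Stmt_BL3 : Prop := ∀ (a : ℕ → ℤ) (k₀ : ℕ) (C₀ : ℝ), Dat a k₀ C₀ →
  ∀ (N m Q W : ℕ) (y es d₂ : ℝ), 1 ≤ m → m ≤ Q → 0 < d₂ → 2 * es ≤ d₂ → 0 ≤ y →
    Q * ∑ j ∈ DD a k₀ N m Q W y es d₂, sh a Q j ≤ cnt a k₀ N m y ∧
    ∀ j ∈ DD a k₀ N m Q W y es d₂,
      (∀ i : ℕ, j * Q - Q ≤ i → i ≤ j * Q + Q → Gm a m i ≤ y) ∧ d₂ / 2 ≤ sh a Q j ∧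
      (∃ r : ℕ, j * Q ≤ r ∧ r < j * Q + Q ∧ Rt a r) ∧ 1 ≤ j ∧ k₀ + Q ≤ j * Q ∧ j * Q + Q ≤ N ∧
      ((Mx a (j * Q + Q) - Mx a (j * Q) : ℤ) : ℝ) ≤ Real.exp y ∧
      (bd a m Q j es : ℝ) ≤ es ^ 2 * Q

/-- TEL, TWO: the growth over the blocks with both neighbours in `D` is at most the growth between
the last `R`-times, over the blocks with left neighbour in `D`. With `v j = hx (j Q + Q)`:
`T(jQ+Q) - T(jQ) = A j + B j`, `A j = T(v j) - T(jQ)` (`≥ 0` because the block `j` contains an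
`R`-time), `B j = T(jQ+Q) - T(v j)`, and `T(v j) - T(v (j-1)) = A j + B (j - 1)`. -/
def Stmt_TEL : Prop := ∀ (a : ℕ → ℤ) (k₀ : ℕ) (C₀ : ℝ), Dat a k₀ C₀ → ∀ (Q : ℕ) (D : Finset ℕ),
  1 ≤ Q → (∀ j ∈ D, ∃ r : ℕ, j * Q ≤ r ∧ r < j * Q + Q ∧ Rt a r) →
    Rs a Q (Inn D) ≤ Rh a Q (Lft D)

/-- GR1, TWO: the growth between the last `R`-times before `u` and before `v`, exactly -/
def Stmt_GR1 : Prop := ∀ (a : ℕ → ℤ) (k₀ : ℕ) (C₀ : ℝ), Dat a k₀ C₀ → ∀ u v : ℕ, u ≤ v →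
  lD a (hx a v) - lD a (hx a u) =
    ∑ i ∈ range (hx a u), (Real.log ((Mx a v - a i : ℤ) : ℝ) -
      Real.log ((Mx a u - a i : ℤ) : ℝ)) +
    ∑ i ∈ Ico (hx a u) (hx a v), Real.log ((Mx a v - a i : ℤ) : ℝ)

/-- GR2, TWO: the contribution of one index `i` telescopes (the intervals
`[hx (j Q), hx (j Q + Q))` are disjoint and ordered in time and in space): (1) near blocks, for an
`R`-time `i`, (2) all blocks, (3) without its own block, for an `L`-time `i`. -/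
def Stmt_GR2 : Prop := ∀ (a : ℕ → ℤ) (k₀ : ℕ) (C₀ : ℝ), Dat a k₀ C₀ →
  ∀ (Q i N : ℕ) (D : Finset ℕ) (Z S : ℝ), 1 ≤ Q → 1 ≤ Z → 1 ≤ S → i < N →
    (∀ j ∈ D, j * Q + Q ≤ N ∧ ((Mx a (j * Q + Q) - Mx a (j * Q) : ℤ) : ℝ) ≤ S) →
    (Rt a i → ∑ j ∈ D.filter (fun j => i < hx a (j * Q) ∧ ((Mx a (j * Q) - a i : ℤ) : ℝ) ≤ Z),
        (Real.log ((Mx a (j * Q + Q) - a i : ℤ) : ℝ) - Real.log ((Mx a (j * Q) - a i : ℤ) : ℝ)) +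
      ∑ j ∈ D.filter (fun j => hx a (j * Q) ≤ i ∧ i < hx a (j * Q + Q)),
        Real.log ((Mx a (j * Q + Q) - a i : ℤ) : ℝ) ≤ Real.log (Z + S)) ∧
    (∑ j ∈ D.filter (fun j => i < hx a (j * Q)),
        (Real.log ((Mx a (j * Q + Q) - a i : ℤ) : ℝ) - Real.log ((Mx a (j * Q) - a i : ℤ) : ℝ)) +
      ∑ j ∈ D.filter (fun j => hx a (j * Q) ≤ i ∧ i < hx a (j * Q + Q)),
        Real.log ((Mx a (j * Q + Q) - a i : ℤ) : ℝ) ≤ Real.log ((Mx a N - a i : ℤ) : ℝ)) ∧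
    (¬ Rt a i → ∑ j ∈ D.filter (fun j => i < hx a (j * Q)),
        (Real.log ((Mx a (j * Q + Q) - a i : ℤ) : ℝ) - Real.log ((Mx a (j * Q) - a i : ℤ) : ℝ)) ≤
      Real.log ((Mx a N - a i : ℤ) : ℝ) - Real.log ((Mx a i - a i : ℤ) : ℝ))

/-- GR3, TWO: the `R`-times `i` with `G(i) > y₂` (not dense), seen from `Mx u`: if no index of
`[u - m, u)` has `G > y₂` then the sum of the inverse distances is at most
`m (1 + log N) e^{-y₂}`. In a residue class mod `m` of times, the distances to `Mx u` of the non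
dense `R`-times, in decreasing order of the time, are `> s e^{y₂}`, `s = 1, 2, ..` (for an `R`-time
`i` with `i + m ≤ i'`, `i'` an `R`-time: `a i' - a i ≥ Mx (i + m) - Mx i`). -/
def Stmt_GR3 : Prop := ∀ (a : ℕ → ℤ) (k₀ : ℕ) (C₀ : ℝ), Dat a k₀ C₀ →
  ∀ (N m u : ℕ) (y₂ : ℝ), 1 ≤ m → 1 ≤ N → k₀ + m ≤ u → u ≤ N → 0 ≤ y₂ →
    (∀ i : ℕ, u - m ≤ i → i < u → Gm a m i ≤ y₂) →
    ∑ i ∈ (Rf a k₀ u).filter (fun i => y₂ < Gm a m i), 1 / ((Mx a u - a i : ℤ) : ℝ) ≤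
      m * (1 + Real.log N) * Real.exp (-y₂)

/-- GR4, TWO: far indices, seen from an `R`-time `u` (FROST, dyadic decomposition; same proof as
`low/B_GR4.lean`: only `a i < a u` for `i < u` is used) -/
def Stmt_GR4 : Prop := ∀ (a : ℕ → ℤ) (k₀ : ℕ) (C₀ κ b β₁ β₂ e₃ e₇ e₈ : ℝ) (K J : ℕ),
  Dat a k₀ C₀ → 1 < b → 0 < β₁ → β₂ ≤ 1 / 4 → 1 ≤ K → ∃ (C : ℝ) (N₀ : ℕ), 0 ≤ C ∧
    ∀ n N R m : ℕ, N₀ ≤ N → Fr a k₀ κ b β₁ β₂ e₃ e₇ e₈ K J n N R m →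
      ∀ (u : ℕ) (z : ℝ), Rt a u → u ≤ N → gg a (P1 K m N) ≤ z → 0 ≤ z →
        ∑ i ∈ (range u).filter (fun i => Real.exp z < ((a u - a i : ℤ) : ℝ)),
            1 / ((a u - a i : ℤ) : ℝ) ≤
          (el N : ℝ) ^ C * P1 K m N * Real.exp ((z - gg a (P1 K m N)) / b - z)

/-- GRO, TWO: the growth between `R`-times over the blocks of `Lft D`, `D` a set of blocks with the
properties of BL3 (GR1 - GR4, LRE, DIA, LSM). Indices `i`: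
* `R`-times which are dense (`i < k₀` or `G(i) ≤ y₂`): near blocks and own block at most
  `min (z + 1) (g(n) + C)` by GR2 (1), (2) and LRE; far blocks (`Mx (jQ) - a i > e^z`) by GR4;
* `R`-times which are not dense: GR3 (they are in no interval `[hx (jQ), hx (jQ + Q))`, `j ∈ Lft D`,
  since these lie in `[jQ - Q, jQ + Q]`);
* `L`-times: own block at most `g(n) + C` each (LRE), and they lie in blocks of `D` (for
  `j ∈ Lft D` the interval `[hx (jQ), hx (jQ+Q))` is inside `[jQ - Q, jQ + Q)`, the blocks `j - 1`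
  and `j` are in `D`), so there are at most `Q ∑_D (1 - sh)` of them; the other blocks: GR2 (3),
  at most `g(n) + C - gg a i ≤ C + κ (log n - log i)` (DIA, LRec), in total `O(N)` (LSM).
A term with `j` far or `i` not dense is at most
`(Mx (jQ+Q) - Mx (jQ)) / (Mx (jQ) - a i) ≤ e^y / (Mx (jQ) - a i)`. -/
def Stmt_GRO : Prop := ∀ (a : ℕ → ℤ) (k₀ : ℕ) (C₀ κ b β₁ β₂ e₃ e₇ e₈ : ℝ) (K J : ℕ),
  Dat a k₀ C₀ → 0 ≤ κ → 1 < b → 0 < β₁ → β₂ ≤ 1 / 4 → 1 ≤ K → ∃ (C : ℝ) (N₀ : ℕ), 0 ≤ C ∧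
    ∀ n N R m : ℕ, N₀ ≤ N → Fr a k₀ κ b β₁ β₂ e₃ e₇ e₈ K J n N R m →
      ∀ (y y₂ z : ℝ) (D : Finset ℕ), 0 ≤ y → y ≤ y₂ → y ≤ z → gg a (P1 K m N) ≤ z →
        (∀ j ∈ D, (∀ i : ℕ, j * Qb K m N - Qb K m N ≤ i → i ≤ j * Qb K m N + Qb K m N →
            Gm a m i ≤ y) ∧
          (∃ r : ℕ, j * Qb K m N ≤ r ∧ r < j * Qb K m N + Qb K m N ∧ Rt a r) ∧ 1 ≤ j ∧
          k₀ + Qb K m N ≤ j * Qb K m N ∧ j * Qb K m N + Qb K m N ≤ N ∧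
          ((Mx a (j * Qb K m N + Qb K m N) - Mx a (j * Qb K m N) : ℤ) : ℝ) ≤ Real.exp y) →
        Rh a (Qb K m N) (Lft D) ≤
          ((cnt a k₀ N m y₂ : ℝ) + k₀) * min (z + 1) (gg a n + C) +
            (gg a n + C) * (Qb K m N * ∑ j ∈ D, (1 - sh a (Qb K m N) j)) + C * N +
            D.card * (Real.exp y * m * (1 + Real.log N) * Real.exp (-y₂) +
              Real.exp y * ((el N : ℝ) ^ C * P1 K m N *
                Real.exp ((z - gg a (P1 K m N)) / b - z)))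

/-- NUM1, TWO: the final inequality of section 2 as an inequality between real numbers. `x, t, g, z`
are in units of `L = log N` (`t = g(P')/L`, `g = g(n)/L`); `F = cnt (x L) / N`,
`A = Q ∑ sh / N`, `A₂ = Q ∑ sh² / N`, `B = Q ∑ (1 - sh) / N` over `Inn D`, `S = Rs (Inn D) / (N L)`.
Proof: `A ≥ F - q`, `S ≤ F min(z,g) + g B + ..`,
`(x-ω)(A + A₂) + g (A + B - A₂) ≤ S + A t + ..`; with `z' = min z g`:
`A (x - t) + A₂ (x - z') + (A - A₂)(g - z')` is small, but it is at least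
`A ((x - t)(b - 2)/(b - 1) - e₉)`. -/
def Stmt_NUM1 : Prop := ∀ (C₀ b e₅ : ℝ), 1 ≤ C₀ → 2 < b → 0 < e₅ → e₅ ≤ 1 →
  ∃ ω d e₉ : ℝ, 0 < ω ∧ ω ≤ e₅ / 2 ∧ 0 < d ∧ d < 1 / 8 ∧ 0 < e₉ ∧ ∀ η : ℝ, 0 < η → ∃ q₀ : ℝ, 0 < q₀ ∧
    ∀ x t g z F A A₂ B S q : ℝ, 0 ≤ t → t ≤ C₀ → t + e₅ ≤ x → x ≤ 6 * C₀ → 0 ≤ g → g ≤ 4 * C₀ →
      z = (b * x - t) / (b - 1) + e₉ → η ≤ F → F ≤ 1 → 0 ≤ q → q ≤ q₀ → 0 ≤ S → 0 ≤ A₂ → A₂ ≤ A →
      0 ≤ B → B ≤ 1 → F - q ≤ A → A ≤ F + q →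
      S ≤ (F + q) * min (z + q) (g + q) + (g + q) * (B + q) + q →
      ¬ ((x - ω) * (A + A₂) + g * (A + B - A₂) ≤ (1 + q) * S + A * t + q + 5 * x * d * F)

/-- PART1, TWO: minimal windows. Order of the choices: `ω, d, e₉` (NUM1), `η` (PIGF with `w = ω`),
`q₀` (NUM1), `d₂` small against `q₀ η`, `es` small against `d₂ q₀`, `K₁ ≥ 2/es`, `E₂` with
`(8/d₃)(4 C₀/β₁/log E₂)` small, `K = 2 E₂ K₁`, the `d₂` of PIGF small against `d₂ q₀`, `e₂` (PIGF),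
`e₇ < min (e₂, e₉)/8`, `e₈, eu` small against `es² d₂ q₀`. `D = DD` for `y = (x + e₇) L`,
`W = Wb K m N`. Blocks: BL1 - BL3, TEL, GRO, GWC, LWU, LWL, NUM1, PIGF. -/
def Stmt_PART1 : Prop := ∀ (C₀ κ b β₁ β₂ e₅ : ℝ), 1 ≤ C₀ → 2 < b →
  0 ≤ κ → 0 < β₁ → 0 < β₂ → C₀ * β₂ ≤ 1 / 8 → 0 < e₅ → e₅ ≤ 1 →
  ∃ (K : ℕ) (η e₇ e₈ es eu : ℝ), 1 ≤ K ∧ 0 < η ∧ 0 < e₇ ∧ 0 < e₈ ∧ 0 < es ∧ 0 < eu ∧
    ∀ (a : ℕ → ℤ) (k₀ : ℕ), Dat a k₀ C₀ → ∀ (e₃ : ℝ) (J : ℕ), ∃ N₀ : ℕ,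
    ∀ n N R m : ℕ, N₀ ≤ N → Fr a k₀ κ b β₁ β₂ e₃ e₇ e₈ K J n N R m → Fs a k₀ es eu K N m →
      η * N ≤ cnt a k₀ N m (gg a (P1 K m N) + e₅ * Real.log N)

end Pool.Agent.Work.MP_b29d7f_two
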