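import Pool.Agent.Work.MP_b29d7f_two.Defs

/-!
# A set of exponent smaller than one half contains no progression
-/

namespace Pool.Agent.Work.MP_b29d7f_two

open Finset

theorem low_no_prog {S : Set ℤ} (h : LowExponent S) :
    ¬ ∃ a b : ℤ, a ≠ 0 ∧ ∀ n : ℕ, a * n + b ∈ S := by
  rintro ⟨a, b, ha, hS⟩
  obtain ⟨c, ε, hc, hε, x₀, hx⟩ := h
  set k : ℕ := x₀ + a.natAbs + b.natAbs + 1 with hk
  set x : ℕ := a.natAbs * k + b.natAbs with hxd
  have ha1 : 1 ≤ a.natAbs := Int.natAbs_pos.mpr ha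
  have hxk : k ≤ x := by
    have h0 : 1 * k ≤ a.natAbs * k := Nat.mul_le_mul_right _ ha1
    omega
  have hx0 : x₀ ≤ x := by omega
  have h1 := (hx x hx0).2
  have hsub : (((range (k + 1)).image fun n : ℕ => a * n + b : Finset ℤ) : Set ℤ) ⊆
      S ∩ Set.Icc (-(x : ℤ)) x := by
    intro z hz
    rw [Finset.mem_coe, Finset.mem_image] at hz
    obtain ⟨n, hn, rfl⟩ := hz
    rw [Finset.mem_range] at hn
    refine ⟨hS n, ?_⟩
    have h2 : |a * n + b| ≤ (x : ℤ) := by
      have h3 : |a * n + b| ≤ |a * n| + |b| := abs_add_le _ _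
      have h4 : |a * (n : ℤ)| = (a.natAbs : ℤ) * n := by
        rw [abs_mul, Int.natCast_natAbs, Nat.abs_cast]
      have h5 : (a.natAbs : ℤ) * n ≤ a.natAbs * k := by
        have : (n : ℤ) ≤ k := by omega
        exact mul_le_mul_of_nonneg_left this (by positivity)
      have h6 : |b| = (b.natAbs : ℤ) := (Int.natCast_natAbs b).symm
      rw [h4, h6] at h3
      rw [hxd]
      push_cast at *
      linarith
    rw [Set.mem_Icc]
    exact abs_le.mp h2
  have hfin : (S ∩ Set.Icc (-(x : ℤ)) x).Finite :=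
    (Set.finite_Icc _ _).subset Set.inter_subset_right
  have hcard := Set.ncard_le_ncard hsub hfin
  rw [Set.ncard_coe_finset, Finset.card_image_of_injective] at hcard
  · rw [Finset.card_range] at hcard
    have hx1 : (1 : ℝ) ≤ x := by
      have : 1 ≤ x := by omega
      exact_mod_cast this
    have h2 : (x : ℝ) ^ (1 / 2 - ε) ≤ (x : ℝ) ^ (1 / 2 : ℝ) :=
      Real.rpow_le_rpow_of_exponent_le hx1 (by linarith)
    have h3 : ((k : ℝ) + 1) ≤ (x : ℝ) ^ (1 / 2 : ℝ) := by
      have h4 : ((k + 1 : ℕ) : ℝ) ≤ ((S ∩ Set.Icc (-(x : ℤ)) x).ncard : ℝ) := by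
        exact_mod_cast hcard
      push_cast at h4
      linarith
    have h5 : ((k : ℝ) + 1) ^ 2 ≤ x := by
      rw [← Real.sqrt_eq_rpow] at h3
      have h6 := Real.sq_sqrt (by positivity : (0 : ℝ) ≤ x)
      nlinarith [Real.sqrt_nonneg (x : ℝ)]
    have h7 : (k + 1) ^ 2 ≤ x := by exact_mod_cast h5
    rw [hxd] at h7
    have h8 : a.natAbs * k ≤ k * k := Nat.mul_le_mul_right _ (by omega)
    have h9 : b.natAbs ≤ k := by omega
    nlinarith
  · intro n m hnm
    have h2 : a * (n : ℤ) = a * m := by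
      have : a * (n : ℤ) + b = a * m + b := hnm
      linarith
    have h3 := mul_left_cancel₀ ha h2
    exact_mod_cast h3

end Pool.Agent.Work.MP_b29d7f_two
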